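import Pool.Agent.Mg.S19113.Ga17a6b

open Real

namespace Pool.Agent.MP_037c5a_pr

theorem exists_big (k : ℕ) (hk : 1 ≤ k) : ∃ t : ℕ, Big k (2 * k * t) := by
  have hk' : (1 : ℝ) ≤ k := by exact_mod_cast hk
  set B : ℝ := (10 : ℝ) ^ 24 * (k : ℝ) ^ 6 with hB
  have hB1 : 1 ≤ B := one_le_mul_of_one_le_of_one_le (by norm_num) (one_le_pow₀ hk')
  obtain ⟨t, ht⟩ := exists_nat_ge ((200 * B) ^ 2)
  have hx : (t : ℝ) ≤ ((2 * k * t : ℕ) : ℝ) := by
    push_cast
    nlinarith [Nat.cast_nonneg (α := ℝ) t]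
  have hx1 : (1 : ℝ) ≤ ((2 * k * t : ℕ) : ℝ) := by nlinarith
  refine ⟨t, hk, ?_, by exact_mod_cast hx1⟩
  generalize ((2 * k * t : ℕ) : ℝ) = x at hx hx1
  have h1 : 200 * B ≤ √x := Real.le_sqrt_of_sq_le (ht.trans hx)
  have h2 : √x ^ 2 = x := Real.sq_sqrt (by linarith)
  have h3 : log x ≤ 2 * √x := by
    have := Real.log_le_sub_one_of_pos (show 0 < √x by linarith)
    rw [Real.log_sqrt (by linarith)] at this
    linarith
  rw [← hB]
  have h4 : B * (1 + 78 * log x) ≤ B * (200 * √x) :=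
    mul_le_mul_of_nonneg_left (by linarith) (by linarith)
  nlinarith

namespace Big

variable {k x : ℕ} (H : Big k x)
include H

omit H in
theorem R_eq (t : ℕ) : (pp k t x).par.R = 324 * (x : ℝ) ^ 238 * 2 ^ t * 2 ^ x := by
  simp only [PP.par, pp]
  push_cast
  rw [gl_q]
  ring

theorem R_le {t : ℕ} (hx : x = 2 * k * t) : (pp k t x).par.R ≤ 2 ^ (x + 2 * t) := by
  have hb := H.big
  have hgm := (gl x).one_le_gm
  have a1 : 324 * (x : ℝ) ^ 238 ≤ 2 ^ t := by
    have b1 := pow_le_pow_left₀ (by positivity) (H.pow_le_exp (m := 60) (by norm_num)) 4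
    have b2 : exp (gl x).gm ^ 4 ≤ 2 ^ t := by
      rw [two_pow_eq, ← exp_nat_mul, exp_le_exp]
      have := H.t_big hx
      push_cast
      nlinarith [log_two_gt_d9]
    have b3 : 324 * (x : ℝ) ^ 238 ≤ ((x : ℝ) ^ 60) ^ 4 := by
      calc _ ≤ (x : ℝ) ^ 2 * (x : ℝ) ^ 238 :=
            mul_le_mul_of_nonneg_right (by nlinarith) (by positivity)
        _ = _ := by ring
    linarith
  rw [R_eq]
  calc _ ≤ (2 : ℝ) ^ t * 2 ^ t * 2 ^ x :=
        mul_le_mul_of_nonneg_right (mul_le_mul_of_nonneg_right a1 (by positivity)) (by positivity)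
    _ = _ := by ring

theorem R_ge (t : ℕ) : 24 * (x : ℝ) * 2 ^ x ≤ (pp k t x).par.R := by
  have hx1 := H.x1
  rw [R_eq]
  refine mul_le_mul_of_nonneg_right ?_ (by positivity)
  have a1 : (x : ℝ) ≤ (x : ℝ) ^ 238 := le_self_pow₀ hx1 (by norm_num)
  have a2 : (1 : ℝ) ≤ 2 ^ t := one_le_pow₀ (by norm_num)
  nlinarith

theorem parOK {t : ℕ} (hx : x = 2 * k * t) : ParOK k (pp k t x).par := by
  have hb := H.big
  have hk := H.k1
  have hk1 := H.hk
  have hR := H.R_ge t
  have hR' := H.R_le hx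
  have h2 : (1 : ℝ) ≤ 2 ^ x := one_le_pow₀ (by norm_num)
  have hkx := H.kpow (m := 1) (by norm_num)
  have hR0 : 0 ≤ (pp k t x).par.R := le_trans (by positivity) hR
  refine parOK_of _ (H.ppOK hx) k (by nlinarith) ?_ ?_ ?_ ?_ ?_
  · refine (pow_le_pow_left₀ hR0 hR' _).trans ?_
    simp only [pp]
    push_cast
    rw [← pow_mul, ← pow_mul]
    refine pow_le_pow_right₀ (by norm_num) ?_
    obtain ⟨j, rfl⟩ : ∃ j, k = j + 1 := ⟨k - 1, by omega⟩
    rw [Nat.add_sub_cancel]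
    nlinarith
  · simpa only [pp, gl, Nat.cast_pow, Nat.cast_ofNat] using hR
  · have a1 : (pp k t x).θ * (pp k t x).e = 0.24 * x / k := by
      simp only [pp]
      field_simp
      ring
    have a2 : (pp k t x).κ * ((pp k t x).hmax + (pp k t x).e) ^ 2 / 2 ≤ 0.22 * x / k := by
      simp only [pp]
      have b1 : 12 * x * (x : ℝ) ^ 25 + 3 * (x * (x : ℝ) ^ 25 / (10 ^ 7 * (k : ℝ) ^ 3)) ≤
          13 * x * (x : ℝ) ^ 25 := by
        have := H.y_le
        have : 0 ≤ x * (x : ℝ) ^ 25 := by positivity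
        linarith
      have b2 := mul_le_mul_of_nonneg_left (pow_le_pow_left₀ (by positivity) b1 2)
        (show 0 ≤ 1 / (400 * k * ((x : ℝ) ^ 25) ^ 2 * x) by positivity)
      have e : 1 / (400 * k * ((x : ℝ) ^ 25) ^ 2 * x) * (13 * x * (x : ℝ) ^ 25) ^ 2 =
          169 / 400 * (x / k) := by
        field_simp
        ring
      have : 0 ≤ (x : ℝ) / k := by positivity
      rw [mul_div_assoc (0.22 : ℝ)]
      linarith
    have a3 : exp (-(0.46 * x / k + 6)) ≤ (pp k t x).par.tau := by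
      have b1 : (7 : ℝ) ≤ exp 6 := by linarith [add_one_le_exp (6 : ℝ)]
      have b2 : exp (-(0.46 * x / k)) ≤ exp (-((pp k t x).θ * (pp k t x).e +
          (pp k t x).κ * ((pp k t x).hmax + (pp k t x).e) ^ 2 / 2)) := by
        rw [exp_le_exp, neg_le_neg_iff, a1]
        have : (0.46 : ℝ) * x / k = 0.24 * x / k + 0.22 * x / k := by ring
        linarith
      rw [neg_add', exp_sub]
      exact div_le_div₀ (exp_pos _).le b2 (by norm_num) b1
    have a4 : exp (x * log 2) ≤ (pp k t x).par.R := by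
      rw [← two_pow_eq]
      nlinarith
    refine le_trans ?_ (mul_le_mul (pow_le_pow_left₀ (exp_pos _).le a3 k) a4 (exp_pos _).le
      (pow_nonneg ((exp_pos _).le.trans a3) _))
    rw [← exp_nat_mul, ← exp_add]
    refine one_le_exp ?_
    have e : (k : ℝ) * -(0.46 * x / k + 6) = -(0.46 * x + 6 * k) := by field_simp
    rw [e]
    nlinarith [log_two_gt_d9]
  · have a1 : (pp k t x).par.R ≤ exp (2 * x) := by
      refine hR'.trans ?_
      have ht : 2 * t ≤ x := by rw [hx]; nlinarith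
      have ht' : 2 * (t : ℝ) ≤ x := by exact_mod_cast ht
      rw [two_pow_eq, exp_le_exp]
      push_cast
      nlinarith [log_two_lt_d9, log_two_gt_d9]
    refine (pow_le_pow_left₀ hR0 a1 k).trans (le_of_eq ?_)
    simp only [pp]
    rw [← exp_nat_mul]
    ring_nf
  · have := (H.s1 t).mom.hM
    simp only [pp] at this ⊢
    exact_mod_cast this

end Big

theorem stmtProb_of (hE : StmtEnergy) (hc : StmtConc) (hC : StmtChain) (hS : StmtSplit)
    (hM : StmtMom) : StmtProb := by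
  intro k hk
  obtain ⟨t, H⟩ := exists_big k hk
  exact ⟨_, H.parOK rfl, prob_of_params hE hc hC hS hM _ (H.ppOK rfl)⟩

end Pool.Agent.MP_037c5a_pr
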