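import Pool.Agent.Mg.S19113.Gcf95d3

section

open MeasureTheory Finset

namespace Pool.Agent.MP_037c5a_pr

structure QS (S : Set E) (ρ₀ : ℝ) {Y : Type} [MetricSpace Y] (f : S → Y) (η : ℝ → ℝ) : Prop where
  cpt : IsCompact S
  pos : 0 < ρ₀
  perf : ∀ x ∈ S, ∀ ρ : ℝ, 0 < ρ → ρ ≤ ρ₀ → ∃ y ∈ S, dist y x = ρ
  inj : Function.Injective f
  mono : StrictMonoOn η (Set.Ici 0)
  cont : ContinuousOn η (Set.Ici 0)
  zero : η 0 = 0
  qs : ∀ x a b : S, a ≠ b → dist (f x) (f a) ≤ η (dist x a / dist b a) * dist (f b) (f a)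

/-- diameter of the image of the part of `S` in a closed ball -/
noncomputable def dd {S : Set E} {Y : Type} [MetricSpace Y] (f : S → Y) (x : E) (ρ : ℝ) : ℝ :=
  Metric.diam (f '' {q : S | dist (q : E) x ≤ ρ})

section
variable {S : Set E} {ρ₀ : ℝ} {Y : Type} [MetricSpace Y] {f : S → Y} {η : ℝ → ℝ}

theorem dd_nonneg (f : S → Y) (x : E) (ρ : ℝ) : 0 ≤ dd f x ρ := Metric.diam_nonneg

theorem QS.eta_mono (h : QS S ρ₀ f η) {a b : ℝ} (ha : 0 ≤ a) (hab : a ≤ b) : η a ≤ η b :=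
  h.mono.monotoneOn ha (le_trans ha hab) hab

theorem QS.eta_nonneg (h : QS S ρ₀ f η) {a : ℝ} (ha : 0 ≤ a) : 0 ≤ η a := by
  have := h.eta_mono le_rfl ha
  rwa [h.zero] at this

theorem QS.exists_diam (h : QS S ρ₀ f η) : ∃ C : ℝ, 0 ≤ C ∧ ∀ x ∈ S, ∀ y ∈ S, dist x y ≤ C :=
  ⟨Metric.diam S, Metric.diam_nonneg, fun _ hx _ hy =>
    Metric.dist_le_diam_of_mem h.cpt.isBounded hx hy⟩

theorem QS.dist_le (h : QS S ρ₀ f η) {p p' q : S} (hne : p ≠ p') {t : ℝ}
    (hq : dist (q : E) p ≤ t * dist (p' : E) p) :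
    dist (f q) (f p) ≤ η t * dist (f p') (f p) := by
  have hd : 0 < dist p' p := dist_pos.mpr hne.symm
  refine (h.qs q p p' hne).trans (mul_le_mul_of_nonneg_right ?_ dist_nonneg)
  refine h.eta_mono (div_nonneg dist_nonneg dist_nonneg) ?_
  rw [div_le_iff₀ hd]
  exact hq

theorem QS.bdd (h : QS S ρ₀ f η) : Bornology.IsBounded (Set.range f) := by
  rcases S.eq_empty_or_nonempty with hS | ⟨a, ha⟩
  · have : IsEmpty S := by rw [hS]; infer_instance
    rw [Set.range_eq_empty]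
    exact Bornology.isBounded_empty
  · obtain ⟨b, hb, hab⟩ := h.perf a ha ρ₀ h.pos le_rfl
    obtain ⟨C, hC0, hC⟩ := h.exists_diam
    have hne : (⟨a, ha⟩ : S) ≠ ⟨b, hb⟩ := by
      intro e
      have : a = b := congrArg Subtype.val e
      rw [this, dist_self] at hab
      exact absurd hab h.pos.ne
    refine (Metric.isBounded_closedBall (x := f ⟨a, ha⟩)
      (r := η (C / ρ₀) * dist (f ⟨b, hb⟩) (f ⟨a, ha⟩))).subset ?_
    rintro _ ⟨q, rfl⟩
    rw [Metric.mem_closedBall]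
    refine h.dist_le hne ?_
    simp only
    rw [hab, div_mul_cancel₀ _ h.pos.ne']
    exact hC _ q.2 _ ha

theorem QS.bdd_im (h : QS S ρ₀ f η) (A : Set S) : Bornology.IsBounded (f '' A) :=
  h.bdd.subset (Set.image_subset_range _ _)

theorem QS.dist_le_dd (h : QS S ρ₀ f η) {x : E} {ρ : ℝ} {q q' : S} (hq : dist (q : E) x ≤ ρ)
    (hq' : dist (q' : E) x ≤ ρ) : dist (f q) (f q') ≤ dd f x ρ :=
  Metric.dist_le_diam_of_mem (h.bdd_im _) ⟨q, hq, rfl⟩ ⟨q', hq', rfl⟩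

theorem QS.dd_mono (h : QS S ρ₀ f η) {x x' : E} {ρ ρ' : ℝ} (hx : dist x' x + ρ' ≤ ρ) :
    dd f x' ρ' ≤ dd f x ρ := by
  refine Metric.diam_mono (Set.image_mono ?_) (h.bdd_im _)
  intro q hq
  have h1 : dist (q : E) x' ≤ ρ' := hq
  have h2 := dist_triangle (q : E) x' x
  show dist (q : E) x ≤ ρ
  linarith

theorem QS.dd_mono' (h : QS S ρ₀ f η) (x : E) {ρ ρ' : ℝ} (hx : ρ' ≤ ρ) :
    dd f x ρ' ≤ dd f x ρ := h.dd_mono (by rw [dist_self]; linarith)

theorem QS.dd_le_of_ne (h : QS S ρ₀ f η) {p p' : S} (hne : p ≠ p') {t ρ : ℝ} (ht : 0 ≤ t)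
    (hρ : ρ ≤ t * dist (p' : E) p) : dd f p ρ ≤ 2 * η t * dist (f p') (f p) := by
  have h0 := h.eta_nonneg ht
  refine Metric.diam_le_of_forall_dist_le (by positivity) ?_
  rintro _ ⟨q, hq, rfl⟩ _ ⟨q', hq', rfl⟩
  have h1 := h.dist_le hne (q := q) (le_trans hq hρ)
  have h2 := h.dist_le hne (q := q') (le_trans hq' hρ)
  have h3 := dist_triangle_right (f q) (f q') (f p)
  linarith

theorem QS.dd_scale (h : QS S ρ₀ f η) (p : S) {t ρ ρ' : ℝ} (hρ : 0 < ρ) (hρ0 : ρ ≤ ρ₀) (ht : 0 ≤ t)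
    (hρ' : ρ' ≤ t * ρ) : dd f p ρ' ≤ 2 * η t * dd f p ρ := by
  obtain ⟨y, hy, hd⟩ := h.perf p p.2 ρ hρ hρ0
  have hne : p ≠ ⟨y, hy⟩ := by
    intro e
    have : (p : E) = y := congrArg Subtype.val e
    rw [← this, dist_self] at hd
    exact absurd hd hρ.ne
  have h1 := h.dd_le_of_ne hne ht (ρ := ρ') (by simpa only [hd] using hρ')
  have h2 : dist (f ⟨y, hy⟩) (f p) ≤ dd f p ρ :=
    h.dist_le_dd (le_of_eq hd) (by rw [dist_self]; exact hρ.le)
  have h0 := h.eta_nonneg ht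
  exact h1.trans (mul_le_mul_of_nonneg_left h2 (by positivity))

theorem QS.exists_dbl (h : QS S ρ₀ f η) : ∃ b : ℕ, ∀ (p : S) (ρ u : ℝ), 0 < ρ → ρ ≤ ρ₀ → 1 ≤ u →
    dd f p (2 * ρ) ≤ (4 * u) ^ b * dd f p (ρ / u) := by
  obtain ⟨b, hb⟩ := pow_unbounded_of_one_lt (2 * η 2) (one_lt_two (α := ℝ))
  refine ⟨b, fun p ρ u hρ hρ0 hu => ?_⟩
  have key : ∀ (j : ℕ) (σ : ℝ), 0 < σ → 2 ^ j * σ ≤ ρ₀ →
      dd f p (2 ^ (j + 1) * σ) ≤ (2 ^ (j + 1)) ^ b * dd f p σ := by
    intro j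
    induction j with
    | zero =>
      intro σ hσ hσ0
      have := h.dd_scale p (t := 2) (ρ := σ) (ρ' := 2 ^ (0 + 1) * σ) hσ (by simpa using hσ0)
        (by norm_num) (by simp)
      refine this.trans (mul_le_mul_of_nonneg_right ?_ (dd_nonneg _ _ _))
      simpa using hb.le
    | succ j ih =>
      intro σ hσ hσ0
      have hp : (0 : ℝ) < 2 ^ j * σ := by positivity
      have h1 := ih σ hσ (by rw [pow_succ] at hσ0; linarith)
      have h2 := h.dd_scale p (t := 2) (ρ := 2 ^ (j + 1) * σ) (ρ' := 2 ^ (j + 1 + 1) * σ)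
        (by positivity) hσ0 (by norm_num) (by rw [pow_succ (2 : ℝ) (j + 1)]; linarith)
      have h3 : 2 * η 2 * dd f p (2 ^ (j + 1) * σ) ≤ 2 ^ b * dd f p (2 ^ (j + 1) * σ) :=
        mul_le_mul_of_nonneg_right hb.le (dd_nonneg _ _ _)
      have h4 : (2 : ℝ) ^ b * dd f p (2 ^ (j + 1) * σ) ≤ 2 ^ b * ((2 ^ (j + 1)) ^ b * dd f p σ) :=
        mul_le_mul_of_nonneg_left h1 (by positivity)
      calc dd f p (2 ^ (j + 1 + 1) * σ) ≤ 2 ^ b * ((2 ^ (j + 1)) ^ b * dd f p σ) := by linarith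
        _ = (2 ^ (j + 1 + 1)) ^ b * dd f p σ := by rw [pow_succ (2 : ℝ) (j + 1), mul_pow]; ring
  obtain ⟨j, hj1, hj2⟩ := exists_nat_pow_near hu (one_lt_two (α := ℝ))
  have hu0 : 0 < u := by linarith
  have hσ : 0 < ρ / u := div_pos hρ hu0
  have e1 : 2 ^ j * (ρ / u) ≤ ρ := by
    rw [← mul_div_assoc, div_le_iff₀ hu0]; nlinarith
  have e2 : ρ ≤ 2 ^ (j + 1) * (ρ / u) := by
    rw [← mul_div_assoc, le_div_iff₀ hu0]; nlinarith
  have h1 := key j (ρ / u) hσ (e1.trans hρ0)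
  have h2 := h.dd_scale p (t := 2) (ρ := ρ) (ρ' := 2 * ρ) hρ hρ0 (by norm_num) le_rfl
  have h3 : 2 * η 2 * dd f p ρ ≤ 2 ^ b * dd f p ρ :=
    mul_le_mul_of_nonneg_right hb.le (dd_nonneg _ _ _)
  have h4 : dd f p ρ ≤ (2 * u) ^ b * dd f p (ρ / u) := by
    refine ((h.dd_mono' _ e2).trans h1).trans (mul_le_mul_of_nonneg_right ?_ (dd_nonneg _ _ _))
    refine pow_le_pow_left₀ (by positivity) ?_ _
    rw [pow_succ]; linarith
  calc dd f p (2 * ρ) ≤ 2 ^ b * dd f p ρ := by linarith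
    _ ≤ 2 ^ b * ((2 * u) ^ b * dd f p (ρ / u)) := mul_le_mul_of_nonneg_left h4 (by positivity)
    _ = (4 * u) ^ b * dd f p (ρ / u) := by
      rw [← mul_assoc, ← mul_pow]; congr 2; ring

theorem QS.exists_eta_small (h : QS S ρ₀ f η) {ε : ℝ} (hε : 0 < ε) :
    ∃ t : ℝ, 0 < t ∧ t < 1 ∧ η t ≤ ε := by
  have hc := h.cont 0 (Set.mem_Ici.mpr le_rfl)
  rw [Metric.continuousWithinAt_iff] at hc
  obtain ⟨δ, hδ, hh⟩ := hc ε hε
  refine ⟨min (δ / 2) (1 / 2), by positivity, lt_of_le_of_lt (min_le_right _ _) (by norm_num), ?_⟩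
  have hpos : 0 < min (δ / 2) (1 / 2) := by positivity
  have := hh (x := min (δ / 2) (1 / 2)) hpos.le (by
    rw [Real.dist_eq, sub_zero, abs_of_pos hpos]
    exact lt_of_le_of_lt (min_le_left _ _) (by linarith))
  rw [h.zero, Real.dist_eq, sub_zero] at this
  exact (le_abs_self _).trans this.le

theorem QS.exists_dec (h : QS S ρ₀ f η) : ∃ α : ℝ, 0 < α ∧ ∀ (p : S) (ρ u : ℝ), 0 < ρ → ρ ≤ ρ₀ →
    1 ≤ u → u ^ α * dd f p (ρ / u) ≤ 2 * dd f p ρ := by
  obtain ⟨t, ht0, ht1, ht⟩ := h.exists_eta_small (ε := 1 / 4) (by norm_num)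
  set v := t⁻¹ with hv
  have hv1 : 1 < v := (one_lt_inv₀ ht0).mpr ht1
  have hlog : 0 < Real.log v := Real.log_pos hv1
  have hl2 : 0 < Real.log 2 := Real.log_pos one_lt_two
  refine ⟨Real.log 2 / Real.log v, div_pos hl2 hlog, fun p ρ u hρ hρ0 hu => ?_⟩
  have key : ∀ j : ℕ, 2 ^ j * dd f p (t ^ j * ρ) ≤ dd f p ρ := by
    intro j
    induction j with
    | zero => simp
    | succ j ih =>
      have hle : t ^ j * ρ ≤ ρ₀ := by
        have : t ^ j ≤ 1 := pow_le_one₀ ht0.le ht1.le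
        nlinarith
      have h2 := h.dd_scale p (t := t) (ρ := t ^ j * ρ) (ρ' := t ^ (j + 1) * ρ)
        (by positivity) hle ht0.le (by rw [pow_succ]; linarith)
      have h3 : 2 * η t * dd f p (t ^ j * ρ) ≤ 1 / 2 * dd f p (t ^ j * ρ) :=
        mul_le_mul_of_nonneg_right (by linarith) (dd_nonneg _ _ _)
      have h4 : (0 : ℝ) < 2 ^ j := by positivity
      rw [pow_succ (2 : ℝ) j]
      nlinarith
  obtain ⟨j, hj1, hj2⟩ := exists_nat_pow_near hu hv1
  have hu0 : 0 < u := by linarith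
  have e1 : ρ / u ≤ t ^ j * ρ := by
    rw [div_le_iff₀ hu0]
    have : t ^ j * v ^ j = 1 := by rw [← mul_pow, hv, mul_inv_cancel₀ ht0.ne', one_pow]
    have h5 : 0 < t ^ j := by positivity
    have h6 : t ^ j * v ^ j ≤ t ^ j * u := mul_le_mul_of_nonneg_left hj1 h5.le
    nlinarith
  have e2 : u ^ (Real.log 2 / Real.log v) ≤ 2 ^ (j + 1) := by
    have h7 : u ^ (Real.log 2 / Real.log v) ≤ (v ^ (j + 1)) ^ (Real.log 2 / Real.log v) :=
      Real.rpow_le_rpow hu0.le hj2.le (div_pos hl2 hlog).le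
    refine h7.trans (le_of_eq ?_)
    have hv0 : 0 < v := by linarith
    rw [← Real.rpow_natCast, ← Real.rpow_mul hv0.le, mul_comm, Real.rpow_mul hv0.le,
      Real.rpow_natCast]
    congr 1
    rw [Real.rpow_def_of_pos hv0, mul_div_cancel₀ _ hlog.ne', Real.exp_log two_pos]
  have h1 := key j
  have h2 := h.dd_mono' (p : E) e1
  have h3 := dd_nonneg f (p : E) (ρ / u)
  calc u ^ (Real.log 2 / Real.log v) * dd f p (ρ / u) ≤ 2 ^ (j + 1) * dd f p (t ^ j * ρ) :=
        mul_le_mul e2 h2 h3 (by positivity)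
    _ ≤ 2 * dd f p ρ := by rw [pow_succ]; nlinarith

theorem QS.exists_small (h : QS S ρ₀ f η) (p : S) {ε : ℝ} (hε : 0 < ε) :
    ∃ ρ : ℝ, 0 < ρ ∧ dd f p ρ ≤ ε := by
  have h0 := dd_nonneg f (p : E) ρ₀
  obtain ⟨t, ht0, -, ht⟩ := h.exists_eta_small (ε := ε / (2 * (dd f p ρ₀ + 1))) (by positivity)
  refine ⟨t * ρ₀, mul_pos ht0 h.pos, ?_⟩
  have h1 := h.dd_scale p (t := t) (ρ := ρ₀) (ρ' := t * ρ₀) h.pos le_rfl ht0.le le_rfl
  rw [le_div_iff₀ (by positivity)] at ht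
  have := h.eta_nonneg ht0.le
  nlinarith

theorem QS.exists_lb (h : QS S ρ₀ f η) {ρ : ℝ} (hρ : 0 < ρ) (hρ0 : ρ ≤ ρ₀) :
    ∃ c : ℝ, 0 < c ∧ ∀ p : S, c ≤ dd f p ρ := by
  rcases S.eq_empty_or_nonempty with hS | ⟨a, ha⟩
  · refine ⟨1, one_pos, fun p => ?_⟩
    have := p.2
    simp only [hS] at this
    exact absurd this (Set.notMem_empty _)
  · obtain ⟨b, hb, hab⟩ := h.perf a ha ρ₀ h.pos le_rfl
    obtain ⟨C, hC0, hC⟩ := h.exists_diam
    have hne : (⟨a, ha⟩ : S) ≠ ⟨b, hb⟩ := by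
      intro e
      have : a = b := congrArg Subtype.val e
      rw [this, dist_self] at hab
      exact absurd hab h.pos.ne
    have hΦ : 0 < dist (f ⟨a, ha⟩) (f ⟨b, hb⟩) := dist_pos.mpr (fun e => hne (h.inj e))
    have hη := h.eta_nonneg (div_nonneg hC0 hρ.le)
    refine ⟨dist (f ⟨a, ha⟩) (f ⟨b, hb⟩) / (2 * η (C / ρ) + 1), by positivity, fun p => ?_⟩
    have h1 : dist (f ⟨a, ha⟩) (f ⟨b, hb⟩) ≤ dd f p C :=
      h.dist_le_dd (hC _ ha _ p.2) (hC _ hb _ p.2)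
    have h2 := h.dd_scale p (t := C / ρ) (ρ := ρ) (ρ' := C) hρ hρ0 (div_nonneg hC0 hρ.le)
      (by rw [div_mul_cancel₀ _ hρ.ne'])
    have h3 := dd_nonneg f (p : E) ρ
    rw [div_le_iff₀ (by positivity)]
    nlinarith

end

end Pool.Agent.MP_037c5a_pr

end

section

open MeasureTheory Finset

namespace Pool.Agent.MP_037c5a_pr

theorem num_key (α s C : ℝ) (b : ℕ) (hα : 0 < α) (hs0 : 0 < s) (hs2 : s < 2) (hC : 0 < C) :
    ∃ k0 : ℕ, ∀ k ≥ k0, ∀ R K τ : ℝ, (k : ℝ) ≤ R → 1 ≤ K → K ≤ R → R ^ (k - 1) ≤ K ^ k → 0 < τ →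
      1 ≤ τ ^ k * R → 2 * (2 / K ^ α) ^ (2 - s) * ((4 * (R / K)) ^ b) ^ s * C ^ 2 ≤ τ := by
  set ε := α * (2 - s) with hε
  have hε0 : 0 < ε := mul_pos hα (by linarith)
  set A := 3 * Real.log 2 + 2 * b * Real.log 4 + 2 * |Real.log C| with hA
  obtain ⟨k1, hk1⟩ := exists_nat_ge (Real.exp (4 * A / ε))
  obtain ⟨k2, hk2⟩ := exists_nat_ge (4 * (2 * b + 1) / ε)
  refine ⟨max 2 (max k1 k2), fun k hk R K τ hR hK hKR hRK hτ hτR => ?_⟩
  have hk2' : 2 ≤ k := le_trans (le_max_left _ _) hk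
  have hkk1 : (k1 : ℝ) ≤ k := by
    exact_mod_cast le_trans (le_trans (le_max_left _ _) (le_max_right _ _)) hk
  have hkk2 : (k2 : ℝ) ≤ k := by
    exact_mod_cast le_trans (le_trans (le_max_right _ _) (le_max_right _ _)) hk
  have hkr : (2 : ℝ) ≤ k := by exact_mod_cast hk2'
  have hK0 : 0 < K := by linarith
  have hR0 : 0 < R := by linarith
  have hl2 : 0 < Real.log 2 := Real.log_pos one_lt_two
  have hl4 : 0 < Real.log 4 := Real.log_pos (by norm_num)
  set l := Real.log R with hl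
  set κ := Real.log K with hκ
  have hl0 : 0 ≤ l := Real.log_nonneg (by linarith)
  have hκl : κ ≤ l := Real.log_le_log hK0 hKR
  have h1 : ((k : ℝ) - 1) * l ≤ k * κ := by
    have := Real.log_le_log (by positivity) hRK
    rw [Real.log_pow, Real.log_pow, Nat.cast_sub (by omega)] at this
    simpa using this
  have h2 : 0 ≤ k * Real.log τ + l := by
    have := Real.log_le_log one_pos hτR
    rw [Real.log_one, Real.log_mul (by positivity) hR0.ne', Real.log_pow] at this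
    exact this
  have h3 : 4 * A / ε ≤ l := by
    rw [hl, Real.le_log_iff_exp_le hR0]; linarith
  rw [div_le_iff₀ hε0] at h3
  have h4 : 4 * (2 * b + 1) ≤ k * ε := by
    have : 4 * (2 * b + 1) / ε ≤ (k : ℝ) := by linarith
    rwa [div_le_iff₀ hε0] at this
  obtain ⟨m, hm⟩ : ∃ m : ℝ, l = k * m := ⟨l / k, by field_simp⟩
  have hm0 : 0 ≤ m := by
    rw [hm] at hl0
    exact nonneg_of_mul_nonneg_right hl0 (by linarith) |> fun h => h
  have h5 : l - κ ≤ m := by
    have : (k : ℝ) * (l - κ) ≤ k * m := by linarith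
    exact le_of_mul_le_mul_left this (by linarith)
  have h6 : -m ≤ Real.log τ := by
    have : (k : ℝ) * (-m) ≤ k * Real.log τ := by linarith
    exact le_of_mul_le_mul_left this (by linarith)
  have h7 : l / 2 ≤ κ := by
    have := mul_le_mul_of_nonneg_right hkr hm0
    linarith
  have hKα : 0 < K ^ α := Real.rpow_pos_of_pos hK0 _
  rw [← Real.log_le_log_iff (by positivity) hτ, Real.log_mul (by positivity) (by positivity),
    Real.log_mul (by positivity) (by positivity), Real.log_mul (by positivity) (by positivity),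
    Real.log_rpow (by positivity), Real.log_rpow (by positivity), Real.log_pow, Real.log_pow,
    Real.log_div (by positivity) (by positivity), Real.log_rpow hK0,
    Real.log_mul (by positivity) (by positivity), Real.log_div (by positivity) (by positivity)]
  have hb0 : (0 : ℝ) ≤ b := Nat.cast_nonneg b
  have e1 : s * (b * (Real.log 4 + (l - κ))) ≤ 2 * (b * (Real.log 4 + m)) := by
    refine mul_le_mul hs2.le (mul_le_mul_of_nonneg_left (by linarith) hb0) ?_ (by norm_num)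
    exact mul_nonneg hb0 (by linarith)
  have e2 : (2 - s) * (Real.log 2 - α * κ) ≤ 2 * Real.log 2 - ε * (l / 2) := by
    have : ε * (l / 2) ≤ ε * κ := mul_le_mul_of_nonneg_left h7 hε0.le
    have h8 : (2 - s) * (Real.log 2 - α * κ) = (2 - s) * Real.log 2 - ε * κ := by rw [hε]; ring
    have := mul_pos hs0 hl2
    linarith
  have e3 : Real.log C ≤ |Real.log C| := le_abs_self _
  have e4 : (2 * b + 1) * m * 4 ≤ l * ε := by
    have := mul_le_mul_of_nonneg_right h4 hm0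
    rw [hm]; linarith
  push_cast
  linarith

/-- abstract square grid -/
structure Grid (g : ℕ → ℕ → E) : Prop where
  zero : g 0 0 = 0
  sq : ∀ i j i' j' : ℕ, dist (g i j) (g i' j') ^ 2 = ((i : ℝ) - i') ^ 2 + ((j : ℝ) - j') ^ 2

theorem grid_gridPt : Grid gridPt where
  zero := by
    ext i
    fin_cases i <;> simp [gridPt]
  sq := by
    intro i j i' j'
    rw [EuclideanSpace.dist_eq, Real.sq_sqrt (by positivity)]
    simp [gridPt, Fin.sum_univ_two, Real.dist_eq, sq_abs]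

theorem Grid.swap {g : ℕ → ℕ → E} (h : Grid g) : Grid fun i j => g j i where
  zero := h.zero
  sq := fun i j i' j' => by rw [h.sq]; ring

theorem Grid.le {g : ℕ → ℕ → E} (h : Grid g) {i j i' j' : ℕ} {c : ℝ} (hc : 0 ≤ c)
    (hh : ((i : ℝ) - i') ^ 2 + ((j : ℝ) - j') ^ 2 ≤ c ^ 2) : dist (g i j) (g i' j') ≤ c := by
  rw [← h.sq] at hh
  exact (pow_le_pow_iff_left₀ dist_nonneg hc two_ne_zero).mp hh

theorem Grid.ge {g : ℕ → ℕ → E} (h : Grid g) {i j i' j' : ℕ} {c : ℝ} (hc : 0 ≤ c)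
    (hh : c ^ 2 ≤ ((i : ℝ) - i') ^ 2 + ((j : ℝ) - j') ^ 2) : c ≤ dist (g i j) (g i' j') := by
  rw [← h.sq] at hh
  exact (pow_le_pow_iff_left₀ hc dist_nonneg two_ne_zero).mp hh

theorem Grid.le_K {g : ℕ → ℕ → E} (h : Grid g) {K i j i' j' : ℕ} (hi : i ≤ K) (hj : j ≤ K)
    (hi' : i' ≤ K) (hj' : j' ≤ K) : dist (g i j) (g i' j') ≤ 3 / 2 * K := by
  refine h.le (by positivity) ?_
  have a1 : (i : ℝ) ≤ K := by exact_mod_cast hi
  have a2 : (j : ℝ) ≤ K := by exact_mod_cast hj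
  have a3 : (i' : ℝ) ≤ K := by exact_mod_cast hi'
  have a4 : (j' : ℝ) ≤ K := by exact_mod_cast hj'
  have b1 : (0 : ℝ) ≤ i := Nat.cast_nonneg _
  have b2 : (0 : ℝ) ≤ j := Nat.cast_nonneg _
  have b3 : (0 : ℝ) ≤ i' := Nat.cast_nonneg _
  have b4 : (0 : ℝ) ≤ j' := Nat.cast_nonneg _
  have c1 : ((i : ℝ) - i') ^ 2 ≤ (K : ℝ) ^ 2 := sq_le_sq' (by linarith) (by linarith)
  have c2 : ((j : ℝ) - j') ^ 2 ≤ (K : ℝ) ^ 2 := sq_le_sq' (by linarith) (by linarith)
  nlinarith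

theorem Grid.one_le {g : ℕ → ℕ → E} (h : Grid g) {i j i' j' : ℕ} (hne : (i, j) ≠ (i', j')) :
    1 ≤ dist (g i j) (g i' j') := by
  refine h.ge zero_le_one ?_
  have key : ∀ a b : ℕ, a ≠ b → (1 : ℝ) ≤ ((a : ℝ) - b) ^ 2 := by
    intro a b hab
    rcases lt_or_gt_of_ne hab with h1 | h1
    · have : (a : ℝ) + 1 ≤ b := by exact_mod_cast h1
      nlinarith
    · have : (b : ℝ) + 1 ≤ a := by exact_mod_cast h1
      nlinarith
  by_cases hi : i = i'
  · have hj : j ≠ j' := fun e => hne (by rw [hi, e])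
    have := key j j' hj
    nlinarith [sq_nonneg ((i : ℝ) - i')]
  · have := key i i' hi
    nlinarith [sq_nonneg ((j : ℝ) - j')]

theorem dist_grid (x o : E) {r c : ℝ} (hr : 0 ≤ r) (hc : 0 ≤ c) (a b : E) :
    dist (x + r • (o + c • a)) (x + r • (o + c • b)) = r * c * dist a b := by
  rw [dist_add_left, dist_smul₀, dist_add_left, dist_smul₀, Real.norm_of_nonneg hr,
    Real.norm_of_nonneg hc, mul_assoc]

/-- length-area on the grid network -/
theorem energy_bound {Y : Type} [MetricSpace Y] (K : ℕ) (y : ℕ → ℕ → Y) (c e : ℕ → ℕ → ℝ)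
    (hc : ∀ i j, 0 ≤ c i j) {σ T : ℝ} (hσ : 0 < σ)
    (hsep : ∀ j ≤ K, ∀ j' ≤ K, σ ≤ dist (y K j) (y 0 j'))
    (h1 : ∀ i < K, ∀ j < K, dist (y (i + 1) j) (y i j) ≤ e i j)
    (h2 : ∀ i < K, ∀ j < K, dist (y (i + 1) (j + 1)) (y (i + 1) j) ≤ e i j)
    (hE : EnGe K c T) :
    T * σ ^ 2 ≤ 2 * ∑ i ∈ range K, ∑ j ∈ range K, c i j * e i j ^ 2 := by
  set A : Set Y := (fun j' => y 0 j') '' Set.Iic K with hA
  have hAne : A.Nonempty := ⟨y 0 0, 0, Set.mem_Iic.mpr (Nat.zero_le _), rfl⟩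
  set φ : Y → ℝ := fun z => min (Metric.infDist z A) σ with hφ
  have hlip : ∀ z z', |φ z - φ z'| ≤ dist z z' := by
    intro z z'
    have := ((Metric.lipschitz_infDist_pt A).min_const σ).dist_le_mul z z'
    simpa [Real.dist_eq] using this
  have hadm : Adm K fun i j => φ (y i j) / σ := by
    intro j hj
    constructor
    · have : Metric.infDist (y 0 j) A = 0 := Metric.infDist_zero_of_mem ⟨j, hj, rfl⟩
      simp only [hφ, this, min_eq_left hσ.le, zero_div]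
    · have : σ ≤ Metric.infDist (y K j) A := by
        rw [Metric.le_infDist hAne]
        rintro _ ⟨j', hj', rfl⟩
        exact hsep j hj j' hj'
      simp only [hφ, min_eq_right this, div_self hσ.ne']
  have h3 := hE _ hadm
  have hsq : ∀ z z' : Y, ∀ t : ℝ, dist z z' ≤ t → (φ z / σ - φ z' / σ) ^ 2 * σ ^ 2 ≤ t ^ 2 := by
    intro z z' t ht
    have : (φ z / σ - φ z' / σ) ^ 2 * σ ^ 2 = (φ z - φ z') ^ 2 := by field_simp
    rw [this, ← sq_abs]
    exact pow_le_pow_left₀ (abs_nonneg _) ((hlip z z').trans ht) 2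
  refine (mul_le_mul_of_nonneg_right h3 (sq_nonneg σ)).trans ?_
  unfold En
  rw [Finset.sum_mul, Finset.mul_sum]
  refine Finset.sum_le_sum fun i hi => ?_
  rw [Finset.sum_mul, Finset.mul_sum]
  refine Finset.sum_le_sum fun j hj => ?_
  have a1 := hsq _ _ _ (h1 i (mem_range.mp hi) j (mem_range.mp hj))
  have a2 := hsq _ _ _ (h2 i (mem_range.mp hi) j (mem_range.mp hj))
  have a3 := hc i j
  nlinarith

section
variable {S : Set E} {ρ₀ : ℝ} {Y : Type} [MetricSpace Y] {f : S → Y} {η : ℝ → ℝ}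

/-- the two local inequalities -/
def Key (S : Set E) (ρ₀ : ℝ) {Y : Type} [MetricSpace Y] (f : S → Y) (s : ℝ) (P : Par) : Prop :=
  ∀ (x : E) (r : ℝ), 0 < r → 16 * P.D * r ≤ ρ₀ → ∀ o : E, ‖o‖ ≤ 1 / 2 →
    (∀ p : S, dist (p : E) (x + r • o) ≤ P.D * (r * P.R⁻¹) →
      dd f x (16 * P.D * r) ^ s ≤ P.G * dd f (x + r • o) (16 * P.D * (r * P.R⁻¹)) ^ s) ∧
    (∀ g : ℕ → ℕ → E, Grid g → ∀ c : ℕ → ℕ → ℝ, (∀ i j, 0 ≤ c i j) → ∀ t : ℝ, 0 ≤ t →
      (∀ i ≤ P.K, ∀ j ≤ P.K, ∃ p : S,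
        dist (p : E) (x + r • (o + (8 * P.D / P.R) • g i j)) ≤ P.D * (r * P.R⁻¹)) →
      EnGe P.K c (P.tau * t) →
      t * dd f x (16 * P.D * r) ^ s ≤ ∑ i ∈ range P.K, ∑ j ∈ range P.K,
        c i j * dd f (x + r • (o + (8 * P.D / P.R) • g i j)) (16 * P.D * (r * P.R⁻¹)) ^ s)

theorem QS.exists_key (h : QS S ρ₀ f η) {s : ℝ} (hs0 : 0 < s) (hs2 : s < 2) :
    ∃ k : ℕ, 1 ≤ k ∧ ∀ P : Par, ParOK k P → Key S ρ₀ f s P := by
  obtain ⟨b, hb⟩ := h.exists_dbl
  obtain ⟨α, hα, hdec⟩ := h.exists_dec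
  have hη9 := h.eta_nonneg (a := 9) (by norm_num)
  set C := 2 * η 9 + 1 with hC
  have hC0 : 0 < C := by positivity
  obtain ⟨k0, hk0⟩ := num_key α s C b hα hs0 hs2 hC0
  refine ⟨max k0 (4 * b + 1), le_trans (by omega) (le_max_right _ _), fun P hP => ?_⟩
  set k := max k0 (4 * b + 1) with hk
  intro x r hr hrρ o ho
  have hD := hP.hD
  have hK1 : (1 : ℝ) ≤ P.K := by exact_mod_cast hP.hK1
  have hKR := hP.hKR
  have hR24 : 24 * (P.K : ℝ) ≤ P.R := by nlinarith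
  have hR0 : 0 < P.R := by linarith
  set w := P.D * (r * P.R⁻¹) with hw
  have hw0 : 0 < w := by positivity
  have hwR : w * P.R = P.D * r := by rw [hw]; field_simp
  have hrD : r ≤ P.D * r := by nlinarith
  have hwD : w ≤ P.D * r := by nlinarith
  have hwK : 24 * w * P.K ≤ r := by
    have : 24 * w * P.K = (24 * P.D * P.K) * (r * P.R⁻¹) := by rw [hw]; ring
    rw [this]
    refine (mul_le_mul_of_nonneg_right hKR (by positivity)).trans (le_of_eq ?_)
    field_simp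
  have hwK1 : w ≤ w * P.K := le_mul_of_one_le_right hw0.le hK1
  have e16 : 16 * P.D * (r * P.R⁻¹) = 16 * w := by rw [hw]; ring
  have hxo : dist (x + r • o) x ≤ r / 2 := by
    rw [dist_eq_norm, add_sub_cancel_left, norm_smul, Real.norm_of_nonneg hr.le]; nlinarith
  -- common: the parent is controlled from any point near `x + r • o`
  have hpar : ∀ p : S, dist (p : E) (x + r • o) ≤ w → ∀ u : ℝ, 1 ≤ u →
      dd f x (16 * P.D * r) ≤ (4 * u) ^ b * dd f p (9 * P.D * r / u) := by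
    intro p hp u hu
    have h1 := hb p (9 * P.D * r) u (by positivity) (by linarith) hu
    refine (h.dd_mono ?_).trans h1
    have := dist_triangle (p : E) (x + r • o) x
    rw [dist_comm]
    linarith
  rw [e16]
  constructor
  · intro p hp
    have h1 := hpar p hp P.R (by linarith)
    have h2 : dd f p (9 * P.D * r / P.R) ≤ dd f (x + r • o) (16 * w) := by
      refine h.dd_mono ?_
      have : 9 * P.D * r / P.R = 9 * w := by rw [hw]; ring
      linarith
    have h3 : dd f x (16 * P.D * r) ≤ (4 * P.R) ^ b * dd f (x + r • o) (16 * w) :=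
      h1.trans (mul_le_mul_of_nonneg_left h2 (by positivity))
    have h4 := Real.rpow_le_rpow (dd_nonneg _ _ _) h3 hs0.le
    rw [Real.mul_rpow (by positivity) (dd_nonneg _ _ _)] at h4
    refine h4.trans (mul_le_mul_of_nonneg_right ?_ (Real.rpow_nonneg (dd_nonneg _ _ _) _))
    have h5 : (1 : ℝ) ≤ (4 * P.R) ^ b := one_le_pow₀ (by linarith)
    have h6 : ((4 * P.R) ^ b) ^ s ≤ ((4 * P.R) ^ b) ^ (2 : ℝ) :=
      Real.rpow_le_rpow_of_exponent_le h5 hs2.le
    rw [Real.rpow_two] at h6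
    have h7 : (4 * P.R) ^ b ≤ (P.R ^ 2) ^ b := pow_le_pow_left₀ (by positivity) (by nlinarith) _
    have h8 : ((4 * P.R) ^ b) ^ 2 ≤ ((P.R ^ 2) ^ b) ^ 2 := pow_le_pow_left₀ (by positivity) h7 _
    have h9 : ((P.R ^ 2) ^ b) ^ 2 ≤ P.R ^ k := by
      rw [← pow_mul, ← pow_mul]
      refine pow_le_pow_right₀ (by linarith) ?_
      have := le_max_right k0 (4 * b + 1)
      omega
    linarith [hP.hG]
  · intro g hg c hc t ht hex hE
    have : Nonempty S := by
      obtain ⟨p, -⟩ := hex 0 (Nat.zero_le _) 0 (Nat.zero_le _)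
      exact ⟨p⟩
    choose! p hp using hex
    set X : ℕ → ℕ → E := fun i j => x + r • (o + (8 * P.D / P.R) • g i j) with hX
    have hXd : ∀ i j i' j', dist (X i j) (X i' j') = 8 * w * dist (g i j) (g i' j') := by
      intro i j i' j'
      simp only [hX]
      rw [dist_grid x o hr.le (by positivity), hw]
      ring
    have hpX : ∀ i ≤ P.K, ∀ j ≤ P.K, dist (p i j : E) (X i j) ≤ w := hp
    have hpp : ∀ i ≤ P.K, ∀ j ≤ P.K, ∀ i' ≤ P.K, ∀ j' ≤ P.K,
        dist (p i j : E) (p i' j') ≤ 14 * w * P.K := by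
      intro i hi j hj i' hi' j' hj'
      have a1 := hpX i hi j hj
      have a2 := hpX i' hi' j' hj'
      have a3 := hXd i j i' j'
      have a4 := hg.le_K hi hj hi' hj'
      have a5 := dist_triangle4_right (p i j : E) (p i' j') (X i j) (X i' j')
      have a6 := mul_le_mul_of_nonneg_left a4 hw0.le
      linarith
    have h00 : dist (p 0 0 : E) (x + r • o) ≤ w := by
      have := hpX 0 (Nat.zero_le _) 0 (Nat.zero_le _)
      simpa [hX, hg.zero] using this
    set d := dd f (p 0 0) (40 * w * P.K) with hd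
    have hd0 : 0 ≤ d := dd_nonneg _ _ _
    have hK0 : (0 : ℝ) < P.K := by linarith
    have hu : 1 ≤ P.R / P.K := by rw [le_div_iff₀ hK0]; linarith
    have ha : dd f x (16 * P.D * r) ≤ (4 * (P.R / P.K)) ^ b * d := by
      refine (hpar _ h00 _ hu).trans (mul_le_mul_of_nonneg_left (h.dd_mono' _ ?_) (by positivity))
      have : 9 * P.D * r / (P.R / P.K) = 9 * w * P.K := by rw [hw]; field_simp
      rw [this]; linarith
    have hsum0 : 0 ≤ ∑ i ∈ range P.K, ∑ j ∈ range P.K, c i j * dd f (X i j) (16 * w) ^ s :=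
      sum_nonneg fun i _ => sum_nonneg fun j _ =>
        mul_nonneg (hc i j) (Real.rpow_nonneg (dd_nonneg _ _ _) _)
    rcases hd0.eq_or_lt with hd0 | hd0
    · have : dd f x (16 * P.D * r) = 0 :=
        le_antisymm (by rw [← hd0, mul_zero] at ha; exact ha) (dd_nonneg _ _ _)
      rw [this, Real.zero_rpow hs0.ne', mul_zero]
      exact hsum0
    have hKα : 0 < (P.K : ℝ) ^ α := Real.rpow_pos_of_pos hK0 _
    have hbM : ∀ i ≤ P.K, ∀ j ≤ P.K, dd f (X i j) (16 * w) ≤ 2 / (P.K : ℝ) ^ α * d := by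
      intro i hi j hj
      have a1 : dd f (X i j) (16 * w) ≤ dd f (p i j) (17 * w * P.K / P.K) := by
        refine h.dd_mono ?_
        rw [mul_div_cancel_right₀ _ hK0.ne', dist_comm]
        linarith [hpX i hi j hj]
      have a2 := hdec (p i j) (17 * w * P.K) P.K (by positivity) (by linarith) hK1
      have a3 : dd f (p i j) (17 * w * P.K) ≤ d := by
        refine h.dd_mono ?_
        have := hpp i hi j hj 0 (Nat.zero_le _) 0 (Nat.zero_le _)
        linarith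
      rw [div_mul_eq_mul_div, le_div_iff₀ hKα]
      have a4 := mul_le_mul_of_nonneg_left a1 hKα.le
      linarith
    have hsep : ∀ j ≤ P.K, ∀ j' ≤ P.K, d / C ≤ dist (f (p P.K j)) (f (p 0 j')) := by
      intro j hj j' hj'
      have a1 := hpX P.K le_rfl j hj
      have a2 := hpX 0 (Nat.zero_le _) j' hj'
      have a3 := hXd P.K j 0 j'
      have a4 : (P.K : ℝ) ≤ dist (g P.K j) (g 0 j') :=
        hg.ge hK0.le (by push_cast; nlinarith [sq_nonneg ((j : ℝ) - j')])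
      have a5 := dist_triangle4_right (X P.K j) (X 0 j') (p P.K j : E) (p 0 j')
      rw [dist_comm (X P.K j) (p P.K j : E), dist_comm (X 0 j') (p 0 j' : E)] at a5
      have a4' := mul_le_mul_of_nonneg_left a4 hw0.le
      have a6 : 6 * w * P.K ≤ dist (p P.K j : E) (p 0 j') := by linarith
      have hne : p 0 j' ≠ p P.K j := by
        intro e
        rw [e, dist_self] at a6
        linarith
      have a7 := h.dd_le_of_ne hne (t := 9) (ρ := 54 * w * P.K) (by norm_num) (by linarith)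
      have a8 : d ≤ dd f (p 0 j') (54 * w * P.K) := by
        refine h.dd_mono ?_
        have := hpp 0 (Nat.zero_le _) 0 (Nat.zero_le _) 0 (Nat.zero_le _) j' hj'
        linarith
      rw [div_le_iff₀ hC0, hC]
      have := dist_nonneg (x := f (p P.K j)) (y := f (p 0 j'))
      linarith
    have hnear : ∀ i < P.K, ∀ j < P.K, ∀ i' j', i' = i ∨ i' = i + 1 → j' = j ∨ j' = j + 1 →
        dist (p i' j' : E) (X i j) ≤ 16 * w := by
      intro i hi j hj i' j' hi' hj'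
      have a1 := hpX i' (by omega) j' (by omega)
      have a2 := hXd i' j' i j
      have a3 : dist (g i' j') (g i j) ≤ 3 / 2 := by
        refine hg.le (by norm_num) ?_
        rcases hi' with rfl | rfl <;> rcases hj' with rfl | rfl <;> push_cast <;> norm_num
      have a4 := dist_triangle (p i' j' : E) (X i' j') (X i j)
      have a5 := mul_le_mul_of_nonneg_left a3 hw0.le
      linarith
    have hEn := energy_bound P.K (fun i j => f (p i j)) c (fun i j => dd f (X i j) (16 * w)) hc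
      (div_pos hd0 hC0) hsep
      (fun i hi j hj => h.dist_le_dd (hnear i hi j hj _ _ (Or.inr rfl) (Or.inl rfl))
        (hnear i hi j hj _ _ (Or.inl rfl) (Or.inl rfl)))
      (fun i hi j hj => h.dist_le_dd (hnear i hi j hj _ _ (Or.inr rfl) (Or.inr rfl))
        (hnear i hi j hj _ _ (Or.inr rfl) (Or.inl rfl))) hE
    set M := 2 / (P.K : ℝ) ^ α * d with hM
    have hM0 : 0 < M := by positivity
    have hMs : 0 < M ^ (2 - s) := Real.rpow_pos_of_pos hM0 _
    have hE2 : ∑ i ∈ range P.K, ∑ j ∈ range P.K, c i j * dd f (X i j) (16 * w) ^ 2 ≤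
        M ^ (2 - s) * ∑ i ∈ range P.K, ∑ j ∈ range P.K, c i j * dd f (X i j) (16 * w) ^ s := by
      rw [Finset.mul_sum]
      refine Finset.sum_le_sum fun i hi => ?_
      rw [Finset.mul_sum]
      refine Finset.sum_le_sum fun j hj => ?_
      have a1 := hbM i (mem_range.mp hi).le j (mem_range.mp hj).le
      have a0 := dd_nonneg f (X i j) (16 * w)
      have a2 : dd f (X i j) (16 * w) ^ 2 =
          dd f (X i j) (16 * w) ^ (2 - s) * dd f (X i j) (16 * w) ^ s := by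
        rw [← Real.rpow_add' a0 (by norm_num), sub_add_cancel, Real.rpow_two]
      have a3 : dd f (X i j) (16 * w) ^ (2 - s) ≤ M ^ (2 - s) :=
        Real.rpow_le_rpow a0 a1 (by linarith)
      have a4 := Real.rpow_nonneg a0 s
      rw [a2, mul_left_comm]
      exact mul_le_mul_of_nonneg_right a3 (mul_nonneg (hc i j) a4)
    have hnum := hk0 k (le_max_left _ _) P.R P.K P.tau hP.hR hK1 (by linarith) hP.hK hP.htau0
      hP.htau
    have hfin : 2 * M ^ (2 - s) * dd f x (16 * P.D * r) ^ s ≤ P.tau * (d / C) ^ 2 := by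
      have a1 := Real.rpow_le_rpow (dd_nonneg _ _ _) ha hs0.le
      rw [Real.mul_rpow (by positivity) hd0.le] at a1
      have a2 : M ^ (2 - s) = (2 / (P.K : ℝ) ^ α) ^ (2 - s) * d ^ (2 - s) :=
        Real.mul_rpow (by positivity) hd0.le
      have a3 : d ^ (2 - s) * d ^ s = d ^ 2 := by
        rw [← Real.rpow_add hd0, sub_add_cancel, Real.rpow_two]
      calc 2 * M ^ (2 - s) * dd f x (16 * P.D * r) ^ s
          ≤ 2 * M ^ (2 - s) * (((4 * (P.R / P.K)) ^ b) ^ s * d ^ s) :=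
            mul_le_mul_of_nonneg_left a1 (by positivity)
        _ = (2 * (2 / (P.K : ℝ) ^ α) ^ (2 - s) * ((4 * (P.R / P.K)) ^ b) ^ s * C ^ 2) *
              (d / C) ^ 2 := by
            rw [a2, div_pow, ← a3]; field_simp
        _ ≤ P.tau * (d / C) ^ 2 := mul_le_mul_of_nonneg_right hnum (by positivity)
    have hlast : (2 * M ^ (2 - s)) * (t * dd f x (16 * P.D * r) ^ s) ≤ (2 * M ^ (2 - s)) *
        ∑ i ∈ range P.K, ∑ j ∈ range P.K, c i j * dd f (X i j) (16 * w) ^ s := by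
      have a1 := mul_le_mul_of_nonneg_left hfin ht
      linarith
    exact le_of_mul_le_mul_left hlast (by positivity)

end

end Pool.Agent.MP_037c5a_pr

end
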