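import Pool.Agent.Mg.S19113.Gff131d

section

open MeasureTheory Finset ProbabilityTheory

namespace Pool.Agent.MP_037c5a_pr

noncomputable def potF (N1 : ℕ) (κ : ℝ) (N : ℕ) : ℝ := Real.exp (-(κ * ((N1 : ℝ) - N) ^ 2 / 2))

theorem sq_min_floor (N1 : ℕ) {S t : ℝ} (ht : t + 1 ≤ S) :
    ((N1 : ℝ) - (min N1 ⌊S⌋₊ : ℕ)) ^ 2 ≤ ((N1 : ℝ) - t) ^ 2 := by
  rcases le_total N1 ⌊S⌋₊ with h | h
  · rw [min_eq_left h, sub_self]
    nlinarith [sq_nonneg ((N1 : ℝ) - t)]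
  · rw [min_eq_right h]
    have h1 : ((⌊S⌋₊ : ℕ) : ℝ) ≤ N1 := by exact_mod_cast h
    have h2 := Nat.lt_floor_add_one S
    exact pow_le_pow_left₀ (by linarith) (by linarith) 2

theorem pot_cond {N1 N : ℕ} {κ θ e hmax S x : ℝ} (hκ : 0 ≤ κ)
    (hθ : κ * ((N1 : ℝ) - N) ≤ θ) (he : 0 ≤ e) (hx : |x| ≤ hmax) (hS : N + x - e + 1 ≤ S) :
    Real.exp (-(θ * e + κ * (hmax + e) ^ 2 / 2)) * potF N1 κ N *
      Real.exp (κ * ((N1 : ℝ) - N) * x) ≤ potF N1 κ (min N1 ⌊S⌋₊) := by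
  unfold potF
  rw [← Real.exp_add, ← Real.exp_add, Real.exp_le_exp]
  have h1 := mul_le_mul_of_nonneg_left (sq_min_floor N1 hS) hκ
  have h2 : (x - e) ^ 2 ≤ (hmax + e) ^ 2 := by
    rw [abs_le] at hx
    exact sq_le_sq' (by linarith) (by linarith)
  have h3 := mul_le_mul_of_nonneg_left h2 hκ
  have h4 := mul_le_mul_of_nonneg_right hθ he
  nlinarith

theorem pot_tele {N1 N : ℕ} {κ θ Δ S G : ℝ} (hκ : 0 ≤ κ) (hθ : θ ≤ κ * ((N1 : ℝ) - N))
    (hΔ : 0 ≤ Δ) (hκΔ : κ * Δ ≤ θ) (hG : G ≤ Real.exp (θ * Δ / 2)) (hS : N + Δ + 1 ≤ S) :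
    G * potF N1 κ N ≤ potF N1 κ (min N1 ⌊S⌋₊) := by
  unfold potF
  refine (mul_le_mul_of_nonneg_right hG (Real.exp_pos _).le).trans ?_
  rw [← Real.exp_add, Real.exp_le_exp]
  have h1 := mul_le_mul_of_nonneg_left (sq_min_floor N1 hS) hκ
  have h2 := mul_le_mul_of_nonneg_right hθ hΔ
  have h3 := mul_le_mul_of_nonneg_right hκΔ hΔ
  nlinarith

theorem win_child {g : Glob} {p k : ℕ} (hk : k + 1 = g.q * p) (M : ℝ) {𝓜 : Model}
    {Φ : ℕ → Set E → Prop} {N00 N1 : ℕ} {δ : ENNReal} (h01 : N00 ≤ N1)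
    (hw : ∀ n, N00 ≤ n → n ≤ N1 → Win g 𝓜 (Φ n) n δ) {ι : Type} [Fintype ι] (s : Finset ι)
    (A B : ι → E) (z : E) (β : ι → Fin k → E) (hS : (N00 : ℝ) ≤ Sz g p k M s A B z β)
    (hW : Cz g p k M s A B z β ≤ g.W) :
    (Measure.pi fun _ : ι × Fin (k + 1) => 𝓜.μ) {ω | ¬ Φ (min N1 ⌊Sz g p k M s A B z β⌋₊)
      (famT 𝓜 (chS g p k M s A B z β) (chA k M A B z β) (chB k M A B z β) ω)} ≤ δ := by
  have h0 : 0 ≤ Sz g p k M s A B z β := (Nat.cast_nonneg _).trans hS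
  refine hw _ (le_min h01 (Nat.le_floor hS)) (min_le_left _ _) _ _ _ _
    (ok_child g hk M s A B z β ?_ hW)
  exact le_trans (by exact_mod_cast min_le_right _ _) (Nat.floor_le h0)

theorem stage_tele (hC : StmtChain) (hM : StmtMom) (hc : StmtConc) {g : Glob}
    {Hm loss V πc : ℝ} {p k : ℕ} {M : ℝ} (H : StOK g Hm loss V πc p k M) (𝓜 : Model)
    {Φ : ℕ → Set E → Prop} (hΦ : ∀ n, MeasPred (Φ n)) (hΦ' : ∀ n, MonoPred (Φ n))
    {N N00 N1 : ℕ} {δ : ENNReal} (hw : ∀ n, N00 ≤ n → n ≤ N1 → Win g 𝓜 (Φ n) n δ)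
    {κ θ e h Δ G lam V₁ hl : ℝ} (h0 : 0 ≤ h) (hH : h ≤ Hm) (hκ : 0 ≤ κ) (hN0 : N00 ≤ N)
    (hN : N ≤ N1) (hθ : θ ≤ κ * ((N1 : ℝ) - N)) (he : N - h + loss + 1 ≤ e) (hΔ : 0 ≤ Δ)
    (hκΔ : κ * Δ ≤ θ) (hG : G ≤ Real.exp (θ * Δ / 2)) (hz : g.D / M ≤ g.η) (hlam : 0 < lam)
    (hlb : lam * (g.bb * g.gm) ≤ 1 / 2) (hp : 2 * g.D ^ 2 + 1 ≤ p) (hhl : hl ≤ h)
    (hc3 : 4 * g.gm ≤ Real.log (p / (2 * g.D ^ 2 + 1)) / 400)
    (hV₁ : V₁ ≤ (Real.log (p / (2 * g.D ^ 2 + 1)) / 400 - 4 * g.gm) * hl -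
        g.W * (((k + 1) * g.gm) ^ 2 * g.tl k))
    (hgain : Δ + e ≤ lam * V₁ / 4 - 1 / lam) :
    Win g (refine hC k M 𝓜)
      (fun T => ∃ N', Φ N' (zoom T 0 M⁻¹) ∧ G * potF N1 κ N ≤ potF N1 κ N') h
      (ENNReal.ofReal (1 - Real.exp (-(4 * lam ^ 2 * V)) / 4) + ENNReal.ofReal πc + δ) := by
  have hM0 := H.mom.hM
  refine win_of_thin hM H.mom.hq0
    (fun T T' hT ⟨n, hn, hn'⟩ => ⟨n, (hΦ' n).zoom _ _ T T' hT hn, hn'⟩) h0 ?_
  intro ι _ s A B hok hup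
  have bf := beta_facts hC hM hc H hok (hup.trans (add_le_add_left hH _)) (z := 0)
    (by simpa using hz)
  refine (refine_le hC k M 𝓜 (MeasPred.ex fun n => ((hΦ n).zoom 0 (inv_pos.2 hM0)).and
    (MeasPred.const _)) s A B
    ({β | Sz g p k M s A B 0 β < mz g p k M s A B 0 + (lam * V₁ / 4 - 1 / lam)} ∪
      {β | g.W ≤ Cz g p k M s A B 0 β}) δ fun β hβ => ?_).trans
    (add_le_add_left ((measure_union_le _ _).trans
      (add_le_add (bf.2.2.2.2 lam V₁ hl hlam hlb hp hhl hc3 hV₁) bf.2.2.2.1)) _)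
  simp only [Set.mem_union, Set.mem_ofPred_eq, not_or, not_le, not_lt] at hβ
  have hS : N + Δ + 1 ≤ Sz g p k M s A B 0 β := by linarith [bf.1, hβ.1]
  have hN0' : (N00 : ℝ) ≤ N := by exact_mod_cast hN0
  refine le_trans (measure_mono ?_)
    (win_child H.mom.hk M (hN0.trans hN) hw s A B 0 β (by linarith) hβ.2.le)
  intro ω hω hω'
  exact hω ⟨_, hΦ' _ _ _ (child_subset hC g p k hM0 𝓜 s A B 0 β ω) hω',
    pot_tele hκ hθ hΔ hκΔ hG hS⟩

theorem stage_cond (hC : StmtChain) (hM : StmtMom) (hc : StmtConc) (hE : StmtEnergy) {g : Glob}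
    {Hm loss V πc : ℝ} {p k : ℕ} {M : ℝ} (H : StOK g Hm loss V πc p k M) (𝓜 : Model)
    {Φ : ℕ → Set E → Prop} (hΦ : ∀ n, MeasPred (Φ n)) (hΦ' : ∀ n, MonoPred (Φ n))
    {N N00 N1 K : ℕ} {δ : ENNReal} (hw : ∀ n, N00 ≤ n → n ≤ N1 → Win g 𝓜 (Φ n) n δ)
    {κ θ e h hmax d : ℝ} (hK : 1 ≤ K) (h0 : 0 ≤ h) (hH : h ≤ Hm) (hκ : 0 ≤ κ)
    (hN : N ≤ N1) (hθ : κ * ((N1 : ℝ) - N) ≤ θ) (he : N - h + loss + 1 ≤ e) (he0 : 0 ≤ e)
    (hN0 : N00 + hmax + e ≤ N) (hm0 : 0 ≤ hmax) (hmb : hmax * (g.bb * g.gm) ≤ 2 * V)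
    (hθb : θ * (g.bb * g.gm) ≤ 1 / 10) (hL : g.W * (θ * (g.bb * g.gm)) ^ 3 ≤ 1 / 100000)
    (hz : ∀ i ≤ K, ∀ j ≤ K, ‖d • gridPt i j‖ + g.D / M ≤ g.η) :
    Win g (refine hC k M 𝓜)
      (GridP K Φ (potF N1 κ)
        (Real.exp (-(θ * e + κ * (hmax + e) ^ 2 / 2)) / 7 * potF N1 κ N) 0 d M⁻¹) h
      (ENNReal.ofReal (2 / 3) + ((K + 1) ^ 2 : ℕ) *
        ENNReal.ofReal (2 * Real.exp (-(hmax ^ 2 / (4 * V))) + πc) + ((K + 1) ^ 2 : ℕ) * δ) := by
  classical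
  have := hC.nu_prob k
  have hM0 := H.mom.hM
  have hq0 := H.mom.hq0
  have hgm := g.one_le_gm
  have hN' : (N : ℝ) ≤ N1 := by exact_mod_cast hN
  have hθ0 : 0 ≤ κ * ((N1 : ℝ) - N) := mul_nonneg hκ (sub_nonneg.2 hN')
  have hb0 : 0 ≤ g.bb * g.gm := by positivity
  refine win_of_thin hM hq0 (monoPred_grid K hΦ' _ _ _ _ _) h0 ?_
  intro ι _ s A B hok hup
  let z : ℕ → ℕ → E := fun i j => d • gridPt i j
  have bf := fun i hi j hj => beta_facts hC hM hc H hok (hup.trans (add_le_add_left hH _))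
    (hz i hi j hj)
  let ξ : ι → (Fin k → E) → ℕ → ℕ → ℝ := fun i β a b =>
    κ * ((N1 : ℝ) - N) * (Si g p k M A B (z a b) i β - ∫ x, Si g p k M A B (z a b) i x ∂nu k)
  have hSm : ∀ i a b, Measurable (Si g p k M A B (z a b) i) := fun i a b =>
    hM.meas_S _ _ _ _ _ _ _ _
  have hSb := fun i a b => Si_bd hM g hq0 p k M A B (z a b) i
  have hSi : ∀ i a b, Integrable (Si g p k M A B (z a b) i) (nu k) := fun i a b =>
    Integrable.of_bound (hSm i a b).aestronglyMeasurable (g.bb * g.gm)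
      (Filter.Eventually.of_forall fun β => by
        rw [Real.norm_of_nonneg (hSb i a b β).1]; exact (hSb i a b β).2)
  have hen := energy_finset hE (nu k) s K hK ξ (θ * (g.bb * g.gm))
    (fun i a b => ((hSm i a b).sub measurable_const).const_mul _)
    (mul_nonneg (hθ0.trans hθ) hb0) hθb
    (fun i β a b => by
      have a1 : 0 ≤ ∫ x, Si g p k M A B (z a b) i x ∂nu k :=
        integral_nonneg fun β => (hSb i a b β).1
      have a2 : ∫ x, Si g p k M A B (z a b) i x ∂nu k ≤ g.bb * g.gm := by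
        refine (integral_mono (hSi i a b) (integrable_const _) fun β => (hSb i a b β).2).trans ?_
        simp
      simp only [ξ]
      rw [abs_mul, abs_of_nonneg hθ0]
      refine mul_le_mul hθ (abs_le.2 ⟨?_, ?_⟩) (abs_nonneg _) (hθ0.trans hθ)
      · linarith [(hSb i a b β).1]
      · linarith [(hSb i a b β).2])
    (fun i a b => by
      simp only [ξ]
      rw [integral_const_mul, integral_sub (hSi i a b) (integrable_const _)]
      simp)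
    (le_trans (mul_le_mul_of_nonneg_right hok.card
      (pow_nonneg (mul_nonneg (hθ0.trans hθ) hb0) 3)) hL)
  have hξ : ∀ (β : ι → Fin k → E) a b, ∑ i ∈ s, ξ i (β i) a b =
      κ * ((N1 : ℝ) - N) * (Sz g p k M s A B (z a b) β - mz g p k M s A B (z a b)) := by
    intro β a b
    simp only [ξ, Sz, mz, ← mul_sum, sum_sub_distrib]
  let I := range (K + 1) ×ˢ range (K + 1)
  have hI : ∀ x ∈ I, x.1 ≤ K ∧ x.2 ≤ K := fun x hx => by
    simp only [I, mem_product, mem_range] at hx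
    omega
  have hIc : I.card = (K + 1) ^ 2 := by simp [I, sq]
  let bad : ℕ × ℕ → Set (ι → Fin k → E) := fun x =>
    {β | Sz g p k M s A B (z x.1 x.2) β ≤ mz g p k M s A B (z x.1 x.2) - hmax} ∪
      {β | mz g p k M s A B (z x.1 x.2) + hmax ≤ Sz g p k M s A B (z x.1 x.2) β} ∪
      {β | g.W ≤ Cz g p k M s A B (z x.1 x.2) β}
  have hbad : ∀ x ∈ I, (Measure.pi fun _ : ι => nu k) (bad x) ≤
      ENNReal.ofReal (2 * Real.exp (-(hmax ^ 2 / (4 * V))) + πc) := by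
    intro x hx
    have b := bf x.1 (hI x hx).1 x.2 (hI x hx).2
    refine (measure_union_le _ _).trans ?_
    rw [ENNReal.ofReal_add (by positivity) ((Real.exp_pos _).le.trans H.hπ), two_mul,
      ENNReal.ofReal_add (by positivity) (by positivity)]
    refine add_le_add ((measure_union_le _ _).trans (add_le_add ((b.2.1 hmax hm0).trans
      (ENNReal.ofReal_le_ofReal ?_)) (b.2.2.1 hmax hm0 hmb))) b.2.2.2.1
    rw [Real.exp_le_exp, neg_le_neg_iff]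
    have := H.V0
    exact div_le_div_of_nonneg_left (by positivity) (by positivity) (by linarith)
  refine (refine_le hC k M 𝓜 (measPred_grid K hΦ _ _ _ _ (inv_pos.2 hM0)) s A B
    ({β | ¬ (EnGe K (fun a b => Real.exp (∑ i ∈ s, ξ i (β i) a b)) (1 / 7) ∨
      EnGe K (fun a b => Real.exp (∑ i ∈ s, ξ i (β i) b a)) (1 / 7))} ∪ ⋃ x ∈ I, bad x)
    (((K + 1) ^ 2 : ℕ) * δ) fun β hβ => ?_).trans
    (add_le_add_left ((measure_union_le _ _).trans (add_le_add hen ?_)) _)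
  swap
  · refine (measure_biUnion_finset_le _ _).trans ((sum_le_card_nsmul _ _ _ hbad).trans ?_)
    rw [hIc, nsmul_eq_mul]
  simp only [Set.mem_union, Set.mem_ofPred_eq, not_or, not_not, Set.mem_iUnion, not_exists,
    bad, not_le, not_and_or] at hβ
  obtain ⟨hβ1, hβ2⟩ := hβ
  let n : ℕ → ℕ → ℕ := fun a b => min N1 ⌊Sz g p k M s A B (z a b) β⌋₊
  have hmem : ∀ a ≤ K, ∀ b ≤ K, (a, b) ∈ I := fun a ha b hb => by
    simp only [I, mem_product, mem_range]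
    omega
  have hS : ∀ a ≤ K, ∀ b ≤ K, N + (Sz g p k M s A B (z a b) β - mz g p k M s A B (z a b)) - e + 1
      ≤ Sz g p k M s A B (z a b) β := fun a ha b hb => by linarith [(bf a ha b hb).1]
  have hpot : ∀ a ≤ K, ∀ b ≤ K, Real.exp (-(θ * e + κ * (hmax + e) ^ 2 / 2)) * potF N1 κ N *
      Real.exp (∑ i ∈ s, ξ i (β i) a b) ≤ potF N1 κ (n a b) := fun a ha b hb => by
    rw [hξ]
    have := hβ2 (a, b) (hmem a ha b hb)
    exact pot_cond hκ hθ he0 (abs_le.2 ⟨by linarith [this.1.1], by linarith [this.1.2]⟩)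
      (hS a ha b hb)
  have hτ : Real.exp (-(θ * e + κ * (hmax + e) ^ 2 / 2)) / 7 * potF N1 κ N =
      Real.exp (-(θ * e + κ * (hmax + e) ^ 2 / 2)) * potF N1 κ N * (1 / 7) := by ring
  have hl0 : 0 ≤ Real.exp (-(θ * e + κ * (hmax + e) ^ 2 / 2)) * potF N1 κ N := by
    unfold potF; positivity
  have hEn : EnGe K (fun i j => potF N1 κ (n i j))
        (Real.exp (-(θ * e + κ * (hmax + e) ^ 2 / 2)) / 7 * potF N1 κ N) ∨
      EnGe K (fun i j => potF N1 κ (n j i))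
        (Real.exp (-(θ * e + κ * (hmax + e) ^ 2 / 2)) / 7 * potF N1 κ N) := by
    rw [hτ]
    rcases hβ1 with h1 | h1
    · exact Or.inl (EnGe_scale hl0 (fun i hi j hj => hpot i hi.le j hj.le) h1)
    · exact Or.inr (EnGe_scale hl0 (fun i hi j hj => hpot j hj.le i hi.le) h1)
  have hsub : {ω : ι × Fin (k + 1) → 𝓜.X | ¬ GridP K Φ (potF N1 κ)
      (Real.exp (-(θ * e + κ * (hmax + e) ^ 2 / 2)) / 7 * potF N1 κ N) 0 d M⁻¹
      (famT (refine hC k M 𝓜) s A B fun i => (β i, fun l => ω (i, l)))} ⊆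
      ⋃ x ∈ I, {ω | ¬ Φ (n x.1 x.2) (famT 𝓜 (chS g p k M s A B (z x.1 x.2) β)
        (chA k M A B (z x.1 x.2) β) (chB k M A B (z x.1 x.2) β) ω)} := by
    intro ω hω
    by_contra hcon
    simp only [Set.mem_iUnion, Set.mem_ofPred_eq, not_exists, not_not] at hcon
    refine hω ⟨n, fun a ha b hb => ?_, hEn⟩
    rw [zero_add]
    exact hΦ' _ _ _ (child_subset hC g p k hM0 𝓜 s A B (z a b) β ω) (hcon (a, b) (hmem a ha b hb))
  refine (measure_mono hsub).trans ((measure_biUnion_finset_le _ _).trans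
    ((sum_le_card_nsmul _ _ δ fun x hx => ?_).trans (by rw [hIc, nsmul_eq_mul])))
  have h1 := hβ2 x hx
  have h2 := hS x.1 (hI x hx).1 x.2 (hI x hx).2
  have h01 : N00 ≤ N1 := by
    have : (N00 : ℝ) ≤ N1 := by linarith
    exact_mod_cast this
  exact win_child H.mom.hk M h01 hw s A B _ β (by linarith [h1.1.1]) h1.2.le

end Pool.Agent.MP_037c5a_pr

end

section

open MeasureTheory Finset ProbabilityTheory

namespace Pool.Agent.MP_037c5a_pr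

theorem norm_gridPt_le (i j : ℕ) : ‖gridPt i j‖ ≤ i + j := by
  rw [EuclideanSpace.norm_eq, Real.sqrt_le_left (by positivity)]
  simp only [gridPt, Fin.sum_univ_two, Real.norm_eq_abs, sq_abs]
  simp only [Matrix.cons_val_zero, Matrix.cons_val_one]
  nlinarith [mul_nonneg (Nat.cast_nonneg (α := ℝ) i) (Nat.cast_nonneg (α := ℝ) j)]

theorem one_le_norm_gridPt {i j : ℕ} (h : i ≠ j) : 1 ≤ ‖gridPt i 0 - gridPt j 0‖ := by
  refine le_trans ?_ (PiLp.norm_apply_le (gridPt i 0 - gridPt j 0) 0)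
  simp only [gridPt, PiLp.sub_apply, Matrix.cons_val_zero, Real.norm_eq_abs]
  have : (1 : ℤ) ≤ |(i : ℤ) - j| := Int.one_le_abs (by omega)
  exact_mod_cast this

noncomputable def row (D M : ℝ) (j : ℕ) : E := (3 * D / M) • gridPt j 0

theorem row_bd {D M η : ℝ} (hD : 0 < D) (hM : 0 < M) {J : ℕ} (h : 6 * D * J ≤ η * M)
    (j : Fin (2 * J)) : ‖row D M j‖ + D / M ≤ η := by
  have h1 := norm_gridPt_le j 0
  have h2 : ((j : ℕ) : ℝ) + 1 ≤ 2 * J := by exact_mod_cast j.2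
  rw [row, norm_smul, Real.norm_of_nonneg (by positivity)]
  have h3 : 3 * D / M * ‖gridPt j 0‖ ≤ 3 * D / M * (2 * J - 1) :=
    mul_le_mul_of_nonneg_left (by simp at h1; linarith) (by positivity)
  refine (add_le_add_left h3 _).trans ?_
  rw [div_mul_eq_mul_div, ← add_div, div_le_iff₀ hM]
  linarith

theorem row_sep {D M : ℝ} (hD : 0 < D) (hM : 0 < M) {i j : ℕ} (h : i ≠ j) :
    2 * D < M * ‖row D M i - row D M j‖ := by
  rw [row, row, ← smul_sub, norm_smul, Real.norm_of_nonneg (by positivity), ← mul_assoc,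
    mul_div_cancel₀ _ hM.ne']
  nlinarith [one_le_norm_gridPt h]

/-- all numerical data of the construction -/
structure PP where
  g : Glob
  N1 : ℕ
  N00 : ℕ
  loss : ℝ
  y : ℝ
  hmax : ℝ
  V1 : ℝ
  V : ℝ
  Vl : ℝ
  πc : ℝ
  κ : ℝ
  θ : ℝ
  e : ℝ
  Δ : ℝ
  G : ℝ
  lam : ℝ
  δ : ℝ
  p1 : ℕ
  k1 : ℕ
  M1 : ℝ
  p2 : ℕ
  k2 : ℕ
  M2 : ℝ
  p3 : ℕ
  k3 : ℕ
  M3 : ℝ
  J1 : ℕ
  J2 : ℕ
  K : ℕ

structure PPOK (c : PP) : Prop where
  s1 : StOK c.g c.N1 c.loss c.V1 c.πc c.p1 c.k1 c.M1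
  s2 : StOK c.g c.N1 c.loss c.V c.πc c.p2 c.k2 c.M2
  s3 : StOK c.g c.N1 c.loss c.V c.πc c.p3 c.k3 c.M3
  J1 : 0 < c.J1
  J2 : 0 < c.J2
  K1 : 1 ≤ c.K
  r1 : 6 * c.g.D * c.J1 ≤ c.g.η * c.M1
  r2 : 6 * c.g.D * c.J2 ≤ c.g.η * c.M2
  r3 : (16 * c.K + 1) * c.g.D ≤ c.g.η * c.M3
  η4 : c.g.η ≤ 1 / 4
  y0 : 0 ≤ c.y
  loss0 : 0 ≤ c.loss
  N0 : 0 < c.N00
  N01 : c.N00 ≤ c.N1
  hl0 : 2 * (c.loss + c.y) ≤ c.N00
  he : 2 * c.y + 3 * c.loss + 1 ≤ c.e
  κ0 : 0 < c.κ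
  hθ : c.θ ≤ c.κ * ((c.N1 : ℝ) - c.N00 - c.hmax - c.e)
  hm0 : 0 ≤ c.hmax
  hmb : c.hmax * (c.g.bb * c.g.gm) ≤ 2 * c.V
  hθb : c.θ * (c.g.bb * c.g.gm) ≤ 1 / 10
  hL : c.g.W * (c.θ * (c.g.bb * c.g.gm)) ^ 3 ≤ 1 / 100000
  Δ0 : 0 ≤ c.Δ
  hκΔ : c.κ * c.Δ ≤ c.θ
  hG : c.G ≤ Real.exp (c.θ * c.Δ / 2)
  lam0 : 0 < c.lam
  hlb : c.lam * (c.g.bb * c.g.gm) ≤ 1 / 2
  hp : 2 * c.g.D ^ 2 + 1 ≤ c.p3
  hc3 : 4 * c.g.gm ≤ Real.log (c.p3 / (2 * c.g.D ^ 2 + 1)) / 400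
  hVl : c.Vl ≤ (Real.log (c.p3 / (2 * c.g.D ^ 2 + 1)) / 400 - 4 * c.g.gm) *
    (c.N00 - 2 * (c.loss + c.y)) - c.g.W * (((c.k3 + 1) * c.g.gm) ^ 2 * c.g.tl c.k3)
  hgain : c.Δ + c.e ≤ c.lam * c.Vl / 4 - 1 / c.lam
  δ0 : 0 ≤ c.δ
  δ2 : c.δ ≤ 1 / 2
  f3a : c.πc + c.δ ≤ Real.exp (-(4 * c.lam ^ 2 * c.V)) / 8
  f3b : ((c.K + 1) ^ 2 : ℕ) * (2 * Real.exp (-(c.hmax ^ 2 / (4 * c.V))) + c.πc) +
    ((c.K + 1) ^ 2 : ℕ) * c.δ ≤ 5 / 24
  f2 : 2 * (Real.exp (-(c.y ^ 2 / (2 * c.V))) + c.πc) +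
    (1 - Real.exp (-(4 * c.lam ^ 2 * c.V)) / 8) ^ c.J2 ≤ 1 / 2
  f1 : 2 * (Real.exp (-(c.y ^ 2 / (2 * c.V1))) + c.πc) + (1 / 2) ^ c.J1 ≤ c.δ
  hW : 20 * (c.N1 : ℝ) ≤ c.g.W

open Classical in
noncomputable def PP.par (c : PP) : Par where
  D := c.g.D
  R := c.M1 * c.M2 * c.M3
  K := c.K
  tau := Real.exp (-(c.θ * c.e + c.κ * (c.hmax + c.e) ^ 2 / 2)) / 7
  G := c.G
  pot := potF c.N1 c.κ
  O := (univ : Finset (Fin (2 * c.J1) × Fin (2 * c.J2))).image fun j =>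
    row c.g.D c.M1 j.1 + c.M1⁻¹ • row c.g.D c.M2 j.2

noncomputable def PP.model (c : PP) (hC : StmtChain) : ℕ → Model
  | 0 => baseModel
  | L + 1 => refine hC c.k1 c.M1 (refine hC c.k2 c.M2 (refine hC c.k3 c.M3 (c.model hC L)))

theorem PP.coupled (c : PP) (H : PPOK c) (hC : StmtChain) (hS : StmtSplit) :
    ∀ L, ∃ m, Coupled (c.model hC L) m
  | 0 => ⟨1, coupled_base hC⟩
  | L + 1 => by
    obtain ⟨m, hm⟩ := c.coupled H hC hS L
    exact ⟨_, coupled_refine hC hS _ H.s1.mom.hM H.s1.mom.hM2 (coupled_refine hC hS _ H.s2.mom.hM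
      H.s2.mom.hM2 (coupled_refine hC hS _ H.s3.mom.hM H.s3.mom.hM2 hm))⟩

theorem PP.win (c : PP) (H : PPOK c) (hC : StmtChain) (hM : StmtMom) (hc : StmtConc)
    (hE : StmtEnergy) : ∀ (L N : ℕ), c.N00 ≤ N → N ≤ c.N1 →
      Win c.g (c.model hC L) (fun T => GT c.par L T N) N (ENNReal.ofReal c.δ)
  | 0, N, h0, _ => by
    have h1 : Win c.g (c.model hC 0) (fun _ => True) N (ENNReal.ofReal c.δ) := by
      intro ι _ s A B _
      simp
    have h2 : (0 : ℝ) < N := by exact_mod_cast H.N0.trans_le h0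
    exact (h1.ball h2).mono (fun T hT => hT.1) le_rfl
  | L + 1, N, h0, h1 => by
    have ih := c.win H hC hM hc hE L
    have hM1 := H.s1.mom.hM
    have hM2 := H.s2.mom.hM
    have hM3 := H.s3.mom.hM
    have hD : 0 < c.g.D := by linarith [H.s1.mom.hD]
    have hR : 0 < c.par.R := by simp only [PP.par]; positivity
    have h0' : (c.N00 : ℝ) ≤ N := by exact_mod_cast h0
    have h1' : (N : ℝ) ≤ c.N1 := by exact_mod_cast h1
    have hy := H.y0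
    have hl := H.loss0
    have hl0 := H.hl0
    have he := H.he
    have hπ : 0 ≤ c.πc := (Real.exp_pos _).le.trans H.s1.hπ
    have hδ := H.δ0
    have hp0 : Real.exp (-(4 * c.lam ^ 2 * c.V)) ≤ 1 := by
      rw [Real.exp_le_one_iff, neg_nonpos]
      have := H.s3.V0
      positivity
    have hp1 := Real.exp_pos (-(4 * c.lam ^ 2 * c.V))
    let Φ : ℕ → Set E → Prop := fun n T => GT c.par L T n
    have hΦ : ∀ n, MeasPred (Φ n) := fun n => measPred_GT _ hR L n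
    have hΦ' : ∀ n, MonoPred (Φ n) := fun n => monoPred_GT _ L n
    let Φ3 : Set E → Prop := fun T =>
      GridP c.K Φ (potF c.N1 c.κ) (c.par.tau * potF c.N1 c.κ N) 0 (8 * c.g.D / c.M3) c.M3⁻¹ T ∨
        ∃ N', Φ N' (zoom T 0 c.M3⁻¹) ∧ c.G * potF c.N1 c.κ N ≤ potF c.N1 c.κ N'
    have hΦ3 : MeasPred Φ3 := (measPred_grid _ hΦ _ _ _ _ (inv_pos.2 hM3)).or
      (MeasPred.ex fun n => ((hΦ n).zoom 0 (inv_pos.2 hM3)).and (MeasPred.const _))
    have hΦ3' : MonoPred Φ3 := fun T T' hT h => h.imp (monoPred_grid _ hΦ' _ _ _ _ _ T T' hT)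
      fun ⟨n, hn, hn'⟩ => ⟨n, (hΦ' n).zoom _ _ T T' hT hn, hn'⟩
    have w3 : Win c.g (refine hC c.k3 c.M3 (c.model hC L)) Φ3 (N - 2 * (c.loss + c.y))
        (ENNReal.ofReal (1 - Real.exp (-(4 * c.lam ^ 2 * c.V)) / 8)) := by
      rcases le_total (c.κ * ((c.N1 : ℝ) - N)) c.θ with hm | hm
      · refine (stage_cond hC hM hc hE H.s3 _ hΦ hΦ' ih (e := c.e) (hmax := c.hmax)
          (d := 8 * c.g.D / c.M3) H.K1 (by linarith)
          (by linarith) H.κ0.le h1 hm (by linarith) (by linarith) ?_ H.hm0 H.hmb H.hθb H.hL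
          fun i hi j hj => ?_).mono (fun T hT => Or.inl hT) ?_
        · have := le_of_mul_le_mul_left (hm.trans H.hθ) H.κ0
          linarith
        · have a1 := norm_gridPt_le i j
          have a2 : (i : ℝ) ≤ c.K := by exact_mod_cast hi
          have a3 : (j : ℝ) ≤ c.K := by exact_mod_cast hj
          rw [norm_smul, Real.norm_of_nonneg (by positivity)]
          have h3 : 8 * c.g.D / c.M3 * ‖gridPt i j‖ ≤ 8 * c.g.D / c.M3 * (2 * c.K) :=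
            mul_le_mul_of_nonneg_left (by linarith) (by positivity)
          refine (add_le_add_left h3 _).trans ?_
          rw [div_mul_eq_mul_div, ← add_div, div_le_iff₀ hM3]
          linarith [H.r3]
        · rw [← ENNReal.ofReal_natCast, ← ENNReal.ofReal_mul (by positivity),
            ← ENNReal.ofReal_mul (by positivity), ← ENNReal.ofReal_add (by positivity)
            (by positivity), ← ENNReal.ofReal_add (by positivity) (by positivity)]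
          exact ENNReal.ofReal_le_ofReal (by linarith [H.f3b])
      · refine (stage_tele hC hM hc H.s3 _ hΦ hΦ' ih (e := c.e) (by linarith) (by linarith)
          H.κ0.le h0 h1 hm (by linarith) H.Δ0 H.hκΔ H.hG ?_ H.lam0 H.hlb H.hp
          (show (c.N00 : ℝ) - 2 * (c.loss + c.y) ≤ _ by linarith) H.hc3 H.hVl H.hgain).mono
          (fun T hT => Or.inr hT) ?_
        · rw [div_le_iff₀ hM3]
          have : 0 ≤ 16 * (c.K : ℝ) * c.g.D := by positivity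
          linarith [H.r3]
        · rw [← ENNReal.ofReal_add (by linarith) hπ, ← ENNReal.ofReal_add (by linarith) hδ]
          exact ENNReal.ofReal_le_ofReal (by linarith [H.f3a])
    have w2 := (spread hC hM hc H.s2 _ hΦ3 hΦ3' (h := N - (c.loss + c.y)) (by linarith)
      (by linarith) hy (by linarith) (ENNReal.ofReal_le_one.2 (by linarith)) w3 c.J2 H.J2
      (fun j => row c.g.D c.M2 j) (row_bd hD hM2 H.r2)
      (fun j j' h => row_sep hD hM2 (Fin.val_ne_of_ne h))).mono (fun _ h => h)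
      (δ' := ENNReal.ofReal (1 / 2)) (by
        rw [← ENNReal.ofReal_pow (by linarith), ← ENNReal.ofReal_ofNat 2,
          ← ENNReal.ofReal_mul (by positivity), ← ENNReal.ofReal_add (by positivity)
          (pow_nonneg (by linarith) _)]
        exact ENNReal.ofReal_le_ofReal H.f2)
    have w1 := (spread hC hM hc H.s1 _
      (MeasPred.ex fun j : Fin (2 * c.J2) => hΦ3.zoom (row c.g.D c.M2 j) (inv_pos.2 hM2))
      (fun T T' hT ⟨j, hj⟩ => ⟨j, hΦ3'.zoom _ _ T T' hT hj⟩) (h := N) (by linarith)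
      h1' hy (by linarith) (ENNReal.ofReal_le_one.2 (by norm_num)) w2 c.J1 H.J1
      (fun j => row c.g.D c.M1 j) (row_bd hD hM1 H.r1)
      (fun j j' h => row_sep hD hM1 (Fin.val_ne_of_ne h))).mono (fun _ h => h)
      (δ' := ENNReal.ofReal c.δ) (by
        rw [← ENNReal.ofReal_pow (by linarith), ← ENNReal.ofReal_ofNat 2,
          ← ENNReal.ofReal_mul (by positivity), ← ENNReal.ofReal_add (by positivity)
          (by positivity)]
        exact ENNReal.ofReal_le_ofReal H.f1)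
    have h2 : (0 : ℝ) < N := by exact_mod_cast H.N0.trans_le h0
    refine (w1.ball h2).mono ?_ le_rfl
    rintro T ⟨hb, j1, j2, hT⟩
    refine ⟨hb, row c.g.D c.M1 j1 + c.M1⁻¹ • row c.g.D c.M2 j2,
      mem_image.2 ⟨(j1, j2), mem_univ _, rfl⟩, ?_⟩
    have eR : c.M1⁻¹ * c.M2⁻¹ * c.M3⁻¹ = c.par.R⁻¹ := by simp only [PP.par, mul_inv]
    rcases hT with ⟨n, a1, a2⟩ | ⟨N', a1, a2⟩
    · refine Or.inl ⟨n, fun i hi j hj => ?_, a2⟩
      have := a1 i hi j hj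
      rw [zoom_zoom, zoom_zoom, ← mul_assoc, eR, zero_add, smul_add, smul_smul, smul_smul,
        ← add_assoc] at this
      convert this using 4
      simp only [PP.par]
      field_simp
    · refine Or.inr ⟨N', ?_, a2⟩
      rw [zoom_zoom, zoom_zoom, ← mul_assoc, eR, smul_zero, add_zero] at a1
      exact a1

theorem prob_of_params (hE : StmtEnergy) (hc : StmtConc) (hC : StmtChain) (hS : StmtSplit)
    (hM : StmtMom) (c : PP) (H : PPOK c) :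
    ∃ (N n₀ : ℕ) (p : ℝ), 0 < n₀ ∧ 0 < p ∧
    ∀ L : ℕ, ∃ m : ℕ, 0 < m ∧ ∃ F : Set (Fin (n₀ * m) → E), MeasurableSet F ∧
      ENNReal.ofReal p ≤ (Measure.pi fun _ : Fin (n₀ * m) => gam) F ∧
      ∀ ξ : ℕ → E, (fun i : Fin (n₀ * m) => ξ (i + 1) - ξ i) ∈ F →
        GT c.par L (zoom (ξ '' Set.Iic (n₀ * m)) (ξ 0) (Real.sqrt m)) N := by
  have hN : 0 < c.N1 := H.N0.trans_le H.N01
  have hR : 0 < c.par.R := by
    have hM1 := H.s1.mom.hM
    have hM2 := H.s2.mom.hM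
    have hM3 := H.s3.mom.hM
    simp only [PP.par]; positivity
  obtain ⟨p, hp, hF⟩ := top_level hC hM c.g H.s1.mom.hq0 H.s1.mom.hq (by linarith [H.s1.mom.hD])
    (20 * c.N1) (by omega) c.N1 (by push_cast; linarith) (by push_cast; exact H.hW)
  refine ⟨c.N1, 20 * c.N1, p, by omega, hp, fun L => ?_⟩
  obtain ⟨m, hm⟩ := c.coupled H hC hS L
  refine ⟨m, hm.1, hF _ m hm _ (measPred_GT _ hR L _) (monoPred_GT _ L _)
    ((c.win H hC hM hc hE L _ H.N01 le_rfl).mono (fun _ h => h) ?_)⟩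
  refine (ENNReal.ofReal_le_ofReal H.δ2).trans (le_of_eq ?_)
  rw [ENNReal.ofReal_div_of_pos (by norm_num)]
  simp

theorem parOK_of (c : PP) (H : PPOK c) (k : ℕ) (hR : (k : ℝ) ≤ c.par.R)
    (hK : c.par.R ^ (k - 1) ≤ (c.K : ℝ) ^ k) (hKR : 24 * c.g.D * c.K ≤ c.par.R)
    (htau : 1 ≤ c.par.tau ^ k * c.par.R) (hG : c.par.R ^ k ≤ c.G) (hM1 : 1 ≤ c.M1) :
    ParOK k c.par where
  hD := by simp only [PP.par]; linarith [H.s1.mom.hD]
  hR := hR
  hK1 := H.K1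
  hK := hK
  hKR := hKR
  htau0 := by simp only [PP.par]; positivity
  htau := htau
  hG := hG
  hpot := fun N => by
    refine ⟨Real.exp_pos _, Real.exp_le_one_iff.2 ?_⟩
    have := H.κ0
    rw [neg_nonpos]
    positivity
  hO := by
    intro o ho
    obtain ⟨j, -, rfl⟩ := mem_image.1 ho
    have hD : 0 < c.g.D := by linarith [H.s1.mom.hD]
    have hM2 := H.s2.mom.hM
    have a1 := row_bd hD H.s1.mom.hM H.r1 j.1
    have a2 := row_bd hD hM2 H.r2 j.2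
    have a3 : 0 ≤ c.g.D / c.M1 := by positivity
    have a4 : 0 ≤ c.g.D / c.M2 := by positivity
    refine (norm_add_le _ _).trans ?_
    rw [norm_smul, Real.norm_of_nonneg (by positivity)]
    have a5 : c.M1⁻¹ * ‖row c.g.D c.M2 j.2‖ ≤ 1 * ‖row c.g.D c.M2 j.2‖ :=
      mul_le_mul_of_nonneg_right (inv_le_one_of_one_le₀ hM1) (norm_nonneg _)
    linarith [H.η4]

end Pool.Agent.MP_037c5a_pr

end

section

open Real

namespace Pool.Agent.MP_037c5a_pr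

/-- `x` is large in terms of `k` -/
structure Big (k x : ℕ) : Prop where
  hk : 1 ≤ k
  hB : (10 : ℝ) ^ 24 * (k : ℝ) ^ 6 * (1 + 78 * Real.log x) ≤ x
  hx : 1 ≤ x

noncomputable def gl (x : ℕ) : Glob where
  q := x ^ 3 * (x ^ 25) ^ 3
  q0 := x ^ 3 * (x ^ 25) ^ 2
  bb := x ^ 6
  D := x
  η := 2 / ((x ^ 3 * (x ^ 25) ^ 3 : ℕ) : ℝ)
  W := (x : ℝ) ^ 3 * ((x : ℝ) ^ 25) ^ 2

theorem gl_gm (x : ℕ) : (gl x).gm = 1 + 78 * Real.log x := by
  have : (((gl x).q : ℕ) : ℝ) = (x : ℝ) ^ 78 := by simp only [gl]; push_cast; ring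
  rw [Glob.gm, this, Real.log_pow]
  norm_num

namespace Big

variable {k x : ℕ} (H : Big k x)
include H

theorem k1 : (1 : ℝ) ≤ k := by exact_mod_cast H.hk

theorem x1 : (1 : ℝ) ≤ x := by exact_mod_cast H.hx

theorem gm_le : (10 : ℝ) ^ 24 * (k : ℝ) ^ 6 * (gl x).gm ≤ x := by rw [gl_gm]; exact H.hB

theorem k6 : (10 : ℝ) ^ 24 * (k : ℝ) ^ 6 ≤ x :=
  le_trans (le_mul_of_one_le_right (by positivity) (gl x).one_le_gm) H.gm_le

theorem gm_le' : (10 : ℝ) ^ 24 * (gl x).gm ≤ x := by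
  refine le_trans ?_ H.gm_le
  have := one_le_pow₀ (n := 6) H.k1
  have := (gl x).one_le_gm
  rw [mul_assoc]
  exact mul_le_mul_of_nonneg_left (le_mul_of_one_le_left (by linarith) (by linarith))
    (by positivity)

theorem big : (10 : ℝ) ^ 24 ≤ x := by linarith [H.gm_le', (gl x).one_le_gm]

theorem kpow {m : ℕ} (hm : m ≤ 6) : (10 : ℝ) ^ 24 * (k : ℝ) ^ m ≤ x :=
  le_trans (mul_le_mul_of_nonneg_left (pow_le_pow_right₀ H.k1 hm) (by positivity)) H.k6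

theorem pow_le_exp {m : ℕ} (hm : m ≤ 78) : (x : ℝ) ^ m ≤ exp (gl x).gm := by
  refine (pow_le_pow_right₀ H.x1 hm).trans ?_
  rw [gl_gm, exp_add, show (78 : ℝ) = (78 : ℕ) by norm_num, exp_nat_mul,
    exp_log (by linarith [H.x1])]
  exact le_mul_of_one_le_left (by positivity) (one_le_exp zero_le_one)

theorem zeta_le : (gl x).zeta ≤ 24 / (x * (x : ℝ) ^ 25) := by
  have := H.x1
  have h0 : (0 : ℝ) < x := by linarith
  simp only [Glob.zeta, gl]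
  push_cast
  generalize hn : (x : ℝ) ^ 25 = n
  have hn0 : 0 < n := by rw [← hn]; positivity
  have e : 2 / ((x : ℝ) ^ 3 * n ^ 3) * (3 * ((x : ℝ) + 1) ^ 2 *
      ((x : ℝ) ^ 3 * n ^ 3 / ((x : ℝ) ^ 3 * n ^ 2)) ^ 2) = 6 * ((x + 1) / x) ^ 2 / (x * n) := by
    field_simp
    ring
  rw [e]
  refine div_le_div_of_nonneg_right ?_ (by positivity)
  have : ((x : ℝ) + 1) / x ≤ 2 := by rw [div_le_iff₀ h0]; linarith
  have := pow_le_pow_left₀ (by positivity) this 2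
  linarith

theorem eps_le : (gl x).eps ≤ 7 / (3 * (x : ℝ) ^ 25) := by
  have := H.x1
  have h0 : (0 : ℝ) < x := by linarith
  have h1 := H.pow_le_exp (m := 25) (by norm_num)
  have h2 : (12 : ℝ) ≤ exp 11 := by linarith [add_one_le_exp (11 : ℝ)]
  have h3 : 12 * (x : ℝ) ^ 25 ≤ exp ((x : ℝ) ^ 2 / 4) := by
    refine (mul_le_mul h2 h1 (by positivity) (by positivity)).trans ?_
    rw [← exp_add, exp_le_exp]
    nlinarith [H.gm_le', H.big, (gl x).one_le_gm]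
  simp only [Glob.eps, gl]
  push_cast
  generalize hn : (x : ℝ) ^ 25 = n at h3
  have hn0 : 0 < n := by rw [← hn]; positivity
  have e : 2 * ((x : ℝ) ^ 3 * n ^ 2) / ((x : ℝ) ^ 3 * n ^ 3) = 2 / n := by field_simp
  have h4 : exp (-((x : ℝ) ^ 2 / 4)) ≤ 1 / (12 * n) := by
    rw [exp_neg, one_div]
    exact inv_anti₀ (by positivity) h3
  have e2 : 7 / (3 * n) = 2 / n + 4 * (1 / (12 * n)) := by field_simp; ring
  rw [e, e2]
  linarith

theorem tail_le {k' : ℕ} (hH : 1 + log ((k' : ℝ) + 1) ≤ 2 * x) :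
    (gl x).W * ((((k' : ℝ) + 1) * (gl x).gm) ^ 2 * (gl x).tl k') ≤ 1 := by
  have hx1 := H.x1
  have h0 : (0 : ℝ) < x := by linarith
  have hgm := (gl x).one_le_gm
  have hgm' := H.gm_le'
  have hb := H.big
  have hl : 0 ≤ log ((k' : ℝ) + 1) := log_nonneg (by linarith [Nat.cast_nonneg (α := ℝ) k'])
  have a1 : (gl x).W ≤ exp (gl x).gm := by
    refine le_trans (le_of_eq ?_) (H.pow_le_exp (m := 53) (by norm_num))
    simp only [gl]; ring
  have a2 : (k' : ℝ) + 1 ≤ exp (2 * x) := by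
    rw [← log_le_iff_le_exp (by positivity)]; linarith
  have a3 : (gl x).gm ≤ exp x := by linarith [add_one_le_exp (x : ℝ)]
  have a4 : 1 + exp (2 * (gl x).D ^ 2) * (gl x).q / (gl x).q0 ≤
      exp (2 * (x : ℝ) ^ 2 + (gl x).gm + 1) := by
    have e : exp (2 * (gl x).D ^ 2) * (gl x).q / (gl x).q0 =
        exp (2 * (x : ℝ) ^ 2) * (x : ℝ) ^ 25 := by
      simp only [gl]
      push_cast
      field_simp
    have b1 := H.pow_le_exp (m := 25) (by norm_num)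
    have b2 : 1 ≤ exp (2 * (x : ℝ) ^ 2) * exp (gl x).gm :=
      one_le_mul_of_one_le_of_one_le (one_le_exp (by positivity)) (one_le_exp (by linarith))
    have b3 := mul_le_mul_of_nonneg_left b1 (exp_pos (2 * (x : ℝ) ^ 2)).le
    have b4 : (2 : ℝ) ≤ exp 1 := by linarith [add_one_le_exp (1 : ℝ)]
    rw [e, exp_add, exp_add]
    nlinarith
  have a5 : exp (-((gl x).bb / (8 * (gl x).D ^ 2 * (1 + log ((k' : ℝ) + 1))))) ≤
      exp (-((x : ℝ) ^ 3 / 16)) := by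
    rw [exp_le_exp, neg_le_neg_iff, div_le_div_iff₀ (by norm_num) (by simp only [gl]; positivity)]
    simp only [gl]
    push_cast
    have := mul_le_mul_of_nonneg_left hH (show 0 ≤ 8 * (x : ℝ) ^ 5 by positivity)
    nlinarith
  have a6 : (gl x).tl k' ≤ exp (2 * (x : ℝ) ^ 2 + (gl x).gm + 1) * exp (-((x : ℝ) ^ 3 / 16)) :=
    mul_le_mul a4 a5 (exp_pos _).le (exp_pos _).le
  have a7 : (((k' : ℝ) + 1) * (gl x).gm) ^ 2 ≤ (exp (2 * x) * exp x) ^ 2 :=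
    pow_le_pow_left₀ (by positivity) (mul_le_mul a2 a3 (by positivity) (by positivity)) 2
  refine (mul_le_mul a1 (mul_le_mul a7 a6 ((gl x).tl_nonneg _) (by positivity))
    (mul_nonneg (by positivity) ((gl x).tl_nonneg _)) (by positivity)).trans ?_
  rw [← exp_add, ← exp_add, sq, ← exp_add, ← exp_add, ← exp_add, exp_le_one_iff]
  have c1 : 100 * (x : ℝ) ≤ x ^ 2 := by nlinarith
  have c2 : 100 * (x : ℝ) ^ 2 ≤ x ^ 3 := by nlinarith
  nlinarith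

theorem gm_le_nu : (gl x).gm ≤ ((x : ℝ) ^ 25) ^ 2 := by
  have h1 : (x : ℝ) ≤ ((x : ℝ) ^ 25) ^ 2 := by
    rw [← pow_mul]
    exact le_self_pow₀ H.x1 (by norm_num)
  linarith [H.gm_le', (gl x).one_le_gm]

theorem stOK (a : ℕ) (ha : 1 ≤ a) {Hb V : ℝ}
    (hHb : 1 + log ((((gl x).q * a : ℕ) : ℝ) ^ 2) ≤ Hb) (hH2 : Hb ≤ 2 * x)
    (hV : 2 * (3 * (gl x).gm + Hb) * (3 * ((x : ℝ) ^ 25) ^ 2) ≤ V) :
    StOK (gl x) ((2 * (x ^ 25) ^ 2 : ℕ) : ℝ) (9 * (x : ℝ) ^ 25) V (exp (-(3 * x)))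
      ((gl x).q * a ^ 2) ((gl x).q * ((gl x).q * a ^ 2) - 1) (((gl x).q * a : ℕ) : ℝ) := by
  have hx1 := H.x1
  have h0 : (0 : ℝ) < x := by linarith
  have hx := H.hx
  have hgm := (gl x).one_le_gm
  have hb := H.big
  have hq : 1 ≤ (gl x).q := Nat.one_le_iff_ne_zero.2 (by simp only [gl]; positivity)
  have hk : (gl x).q * ((gl x).q * a ^ 2) - 1 + 1 = (gl x).q * ((gl x).q * a ^ 2) :=
    Nat.sub_add_cancel (Nat.one_le_iff_ne_zero.2 (by positivity))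
  have hk' : ((((gl x).q * ((gl x).q * a ^ 2) - 1 : ℕ) : ℝ) + 1) =
      (((gl x).q * a : ℕ) : ℝ) ^ 2 := by
    rw [← Nat.cast_succ, Nat.succ_eq_add_one, hk]
    push_cast
    ring
  have hn1 : (1 : ℝ) ≤ (x : ℝ) ^ 25 := one_le_pow₀ hx1
  have hN : ((2 * (x ^ 25) ^ 2 : ℕ) : ℝ) + (gl x).gm ≤ 3 * ((x : ℝ) ^ 25) ^ 2 := by
    push_cast
    linarith [H.gm_le_nu]
  have hl : 0 ≤ log ((((gl x).q * a : ℕ) : ℝ) ^ 2) := by
    rw [← hk']
    exact log_nonneg (by linarith [Nat.cast_nonneg (α := ℝ) ((gl x).q * ((gl x).q * a ^ 2) - 1)])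
  have hz := H.zeta_le
  have hz' : 24 / (x * (x : ℝ) ^ 25) ≤ 1 / (6 * (x : ℝ) ^ 25) := by
    rw [div_le_div_iff₀ (by positivity) (by positivity)]
    nlinarith
  have hz0 : 0 ≤ (gl x).zeta := by simp only [Glob.zeta, gl]; positivity
  have he0 : 0 ≤ (gl x).eps := by simp only [Glob.eps]; positivity
  refine ⟨⟨Nat.one_le_iff_ne_zero.2 (by simp only [gl]; positivity), ?_,
    Nat.one_le_iff_ne_zero.2 (by positivity), hk, by positivity, hk'.symm,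
    by simp only [gl]; linarith, le_rfl, ?_, ?_⟩,
    Nat.one_le_iff_ne_zero.2 (by simp only [gl]; positivity), ?_, ?_, ?_, ?_⟩
  · have h4 : 4 ≤ x ^ 25 := by
      have : 4 ≤ x := by
        have : (4 : ℝ) ≤ x := by linarith
        exact_mod_cast this
      exact this.trans (Nat.le_self_pow (by norm_num) x)
    simp only [gl]
    calc 4 * (x ^ 3 * (x ^ 25) ^ 2) ≤ x ^ 25 * (x ^ 3 * (x ^ 25) ^ 2) := Nat.mul_le_mul_right _ h4
      _ = _ := by ring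
  · simp only [gl]
    push_cast
    rw [div_le_one (by positivity)]
    have h3 : (x : ℝ) ≤ (x : ℝ) ^ 3 := le_self_pow₀ hx1 (by norm_num)
    have h4 := one_le_pow₀ (n := 3) hn1
    nlinarith
  · refine hz.trans (hz'.trans ?_)
    rw [div_le_div_iff₀ (by positivity) (by positivity)]
    linarith
  · have t1 := H.tail_le (k' := (gl x).q * ((gl x).q * a ^ 2) - 1) (by rw [hk']; linarith)
    have t2 : 1 ≤ ((((gl x).q * ((gl x).q * a ^ 2) - 1 : ℕ) : ℝ) + 1) * (gl x).gm :=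
      one_le_mul_of_one_le_of_one_le
        (by linarith [Nat.cast_nonneg (α := ℝ) ((gl x).q * ((gl x).q * a ^ 2) - 1)]) hgm
    have t3 : (gl x).W * (((((gl x).q * ((gl x).q * a ^ 2) - 1 : ℕ) : ℝ) + 1) * (gl x).gm *
        (gl x).tl ((gl x).q * ((gl x).q * a ^ 2) - 1)) ≤ 1 := by
      refine le_trans (mul_le_mul_of_nonneg_left (mul_le_mul_of_nonneg_right ?_
        ((gl x).tl_nonneg _)) (by simp only [gl]; positivity)) t1
      exact le_self_pow₀ t2 (by norm_num)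
    have t4 : 2 * (gl x).zeta + (gl x).eps ≤ 8 / (3 * (x : ℝ) ^ 25) := by
      have e : 8 / (3 * (x : ℝ) ^ 25) = 2 * (1 / (6 * (x : ℝ) ^ 25)) + 7 / (3 * (x : ℝ) ^ 25) := by
        field_simp; ring
      rw [e]
      linarith [H.eps_le]
    have t5 := mul_le_mul t4 hN (by positivity) (by positivity)
    have e : 8 / (3 * (x : ℝ) ^ 25) * (3 * ((x : ℝ) ^ 25) ^ 2) = 8 * (x : ℝ) ^ 25 := by
      field_simp
    linarith
  · refine lt_of_lt_of_le ?_ hV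
    have : 0 < 3 * (gl x).gm + Hb := by linarith
    positivity
  · refine le_trans ?_ hV
    rw [hk']
    exact mul_le_mul (by linarith) hN (by positivity) (by linarith)
  · rw [exp_le_exp, neg_le_neg_iff, le_div_iff₀ (by simp only [gl]; positivity)]
    have t1 := mul_le_mul_of_nonneg_left hN (show 0 ≤ 44 * (x : ℝ) ^ 2 by positivity)
    have t2 : 3 * (x : ℝ) ^ 5 ≤ ((x : ℝ) ^ 25) ^ 2 := by
      have : (x : ℝ) ^ 6 ≤ ((x : ℝ) ^ 25) ^ 2 := by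
        rw [← pow_mul]; exact pow_le_pow_right₀ hx1 (by norm_num)
      have h5 : 0 ≤ (x : ℝ) ^ 5 := by positivity
      nlinarith
    simp only [gl] at t1 ⊢
    push_cast at t1 ⊢
    generalize ((x : ℝ) ^ 25) ^ 2 = n2 at t1 t2 ⊢
    have t3 := mul_le_mul_of_nonneg_left t2 (show 0 ≤ (x : ℝ) ^ 2 by positivity)
    have t4 : 0 ≤ (x : ℝ) ^ 2 * n2 * (x - 133) :=
      mul_nonneg (mul_nonneg (by positivity) (by nlinarith [pow_pos h0 5])) (by linarith)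
    nlinarith

end Big

end Pool.Agent.MP_037c5a_pr

end

section

open Real

namespace Pool.Agent.MP_037c5a_pr

noncomputable def pp (k t x : ℕ) : PP where
  g := gl x
  N1 := 2 * (x ^ 25) ^ 2
  N00 := (x ^ 25) ^ 2
  loss := 9 * (x : ℝ) ^ 25
  y := x * (x : ℝ) ^ 25 / (10 ^ 7 * (k : ℝ) ^ 3)
  hmax := 12 * x * (x : ℝ) ^ 25
  V1 := 36 * (gl x).gm * ((x : ℝ) ^ 25) ^ 2
  V := 18 * x * ((x : ℝ) ^ 25) ^ 2
  Vl := x * ((x : ℝ) ^ 25) ^ 2 / 1000
  πc := exp (-(3 * x))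
  κ := 1 / (400 * k * ((x : ℝ) ^ 25) ^ 2 * x)
  θ := 800000 * (k : ℝ) ^ 2 / (x : ℝ) ^ 25
  e := 3 * (x * (x : ℝ) ^ 25 / (10 ^ 7 * (k : ℝ) ^ 3))
  Δ := x * (x : ℝ) ^ 25 / (200000 * k)
  G := exp (2 * k * x)
  lam := 1 / (24 * k * (x : ℝ) ^ 25)
  δ := exp (-(2 * x))
  p1 := (gl x).q * (12 * x ^ 2) ^ 2
  k1 := (gl x).q * ((gl x).q * (12 * x ^ 2) ^ 2) - 1
  M1 := (((gl x).q * (12 * x ^ 2) : ℕ) : ℝ)
  p2 := (gl x).q * (3 * x * 2 ^ t) ^ 2
  k2 := (gl x).q * ((gl x).q * (3 * x * 2 ^ t) ^ 2) - 1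
  M2 := (((gl x).q * (3 * x * 2 ^ t) : ℕ) : ℝ)
  p3 := (gl x).q * (9 * x * 2 ^ x) ^ 2
  k3 := (gl x).q * ((gl x).q * (9 * x * 2 ^ x) ^ 2) - 1
  M3 := (((gl x).q * (9 * x * 2 ^ x) : ℕ) : ℝ)
  J1 := 4 * x
  J2 := 2 ^ t
  K := 2 ^ x

theorem gl_q (x : ℕ) : (((gl x).q : ℕ) : ℝ) = (x : ℝ) ^ 78 := by
  simp only [gl]; push_cast; ring

theorem two_pow_eq (s : ℕ) : (2 : ℝ) ^ s = exp (s * log 2) := by
  rw [exp_nat_mul, exp_log (by norm_num)]

namespace Big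

variable {k x : ℕ} (H : Big k x)
include H

theorem log_qa (a s : ℕ) (ha0 : 1 ≤ a) (ha : (a : ℝ) ≤ (x : ℝ) ^ 3 * 2 ^ s) :
    1 + log ((((gl x).q * a : ℕ) : ℝ) ^ 2) ≤ 3 * (gl x).gm + 1.4 * s := by
  have hx1 := H.x1
  have ha1 : (1 : ℝ) ≤ a := by exact_mod_cast ha0
  have h1 : (((gl x).q * a : ℕ) : ℝ) ≤ (x : ℝ) ^ 81 * 2 ^ s := by
    push_cast
    rw [gl_q]
    calc _ ≤ (x : ℝ) ^ 78 * ((x : ℝ) ^ 3 * 2 ^ s) := mul_le_mul_of_nonneg_left ha (by positivity)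
      _ = _ := by ring
  have h0 : (0 : ℝ) < (((gl x).q * a : ℕ) : ℝ) := by
    push_cast
    rw [gl_q]
    positivity
  have h2 := log_le_log h0 h1
  rw [log_mul (by positivity) (by positivity), log_pow, log_pow] at h2
  rw [log_pow, gl_gm]
  have h3 := log_nonneg hx1
  have h4 := mul_le_mul_of_nonneg_left log_two_lt_d9.le (Nat.cast_nonneg (α := ℝ) s)
  push_cast at h2 ⊢
  nlinarith [Nat.cast_nonneg (α := ℝ) s]

theorem eta_mul (a : ℕ) : (gl x).η * (((gl x).q * a : ℕ) : ℝ) = 2 * a := by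
  have hx1 := H.x1
  have : (gl x).η = 2 / (gl x).q := rfl
  rw [this]
  push_cast
  rw [gl_q]
  field_simp

theorem b_le : ((gl x).bb : ℝ) * (gl x).gm ≤ (x : ℝ) ^ 7 / 10 ^ 24 := by
  have hx1 := H.x1
  have h := mul_le_mul_of_nonneg_left H.gm_le' (show 0 ≤ (x : ℝ) ^ 6 by positivity)
  have e : ((gl x).bb : ℝ) = (x : ℝ) ^ 6 := by simp only [gl]; push_cast; ring
  rw [e, le_div_iff₀ (by positivity)]
  nlinarith

theorem pow_le_nu {m : ℕ} (hm : m ≤ 25) : (x : ℝ) ^ m ≤ (x : ℝ) ^ 25 :=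
  pow_le_pow_right₀ H.x1 hm

theorem s1 (t : ℕ) : StOK (pp k t x).g (pp k t x).N1 (pp k t x).loss (pp k t x).V1 (pp k t x).πc
    (pp k t x).p1 (pp k t x).k1 (pp k t x).M1 := by
  have hx := H.hx
  have hb := H.big
  have h1 := H.log_qa (12 * x ^ 2) 0 (Nat.one_le_iff_ne_zero.2 (by positivity))
    (by push_cast; nlinarith [pow_pos (show (0 : ℝ) < x by linarith) 2])
  exact H.stOK (12 * x ^ 2) (Nat.one_le_iff_ne_zero.2 (by positivity)) (Hb := 3 * (gl x).gm)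
    (by simpa using h1) (by linarith [H.gm_le', (gl x).one_le_gm])
    (le_of_eq (by simp only [pp]; ring))

theorem log_a3 : 1 + log ((((gl x).q * (9 * x * 2 ^ x) : ℕ) : ℝ) ^ 2) ≤ 2 * x := by
  have hx := H.hx
  have hb := H.big
  have h1 := H.log_qa (9 * x * 2 ^ x) x (Nat.one_le_iff_ne_zero.2 (by positivity))
    (by
      push_cast
      refine mul_le_mul_of_nonneg_right ?_ (by positivity)
      nlinarith [pow_pos (show (0 : ℝ) < x by linarith) 2])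
  linarith [H.gm_le', (gl x).one_le_gm]

theorem hV : 2 * (3 * (gl x).gm + 2 * x) * (3 * ((x : ℝ) ^ 25) ^ 2) ≤
    18 * x * ((x : ℝ) ^ 25) ^ 2 := by
  have h1 : 0 ≤ ((x : ℝ) ^ 25) ^ 2 := by positivity
  have h2 : 3 * (gl x).gm ≤ x := by linarith [H.gm_le', (gl x).one_le_gm]
  nlinarith

theorem s3 (t : ℕ) : StOK (pp k t x).g (pp k t x).N1 (pp k t x).loss (pp k t x).V (pp k t x).πc
    (pp k t x).p3 (pp k t x).k3 (pp k t x).M3 := by
  have hx := H.hx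
  exact H.stOK (9 * x * 2 ^ x) (Nat.one_le_iff_ne_zero.2 (by positivity)) H.log_a3 le_rfl H.hV

theorem s2 (t : ℕ) (ht : t ≤ x) : StOK (pp k t x).g (pp k t x).N1 (pp k t x).loss (pp k t x).V
    (pp k t x).πc (pp k t x).p2 (pp k t x).k2 (pp k t x).M2 := by
  have hx := H.hx
  have hb := H.big
  have ht' : (t : ℝ) ≤ x := by exact_mod_cast ht
  have h1 := H.log_qa (3 * x * 2 ^ t) t (Nat.one_le_iff_ne_zero.2 (by positivity))
    (by
      push_cast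
      refine mul_le_mul_of_nonneg_right ?_ (by positivity)
      nlinarith [pow_pos (show (0 : ℝ) < x by linarith) 2])
  exact H.stOK (3 * x * 2 ^ t) (Nat.one_le_iff_ne_zero.2 (by positivity))
    (Hb := 2 * x) (by linarith [H.gm_le', (gl x).one_le_gm]) le_rfl H.hV

theorem c3_ge : (x : ℝ) / 400 + 4 * (gl x).gm ≤
    log ((((gl x).q * (9 * x * 2 ^ x) ^ 2 : ℕ) : ℝ) / (2 * (x : ℝ) ^ 2 + 1)) / 400 := by
  have hx1 := H.x1
  have h1 : ((2 : ℝ) ^ x) ^ 2 ≤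
      (((gl x).q * (9 * x * 2 ^ x) ^ 2 : ℕ) : ℝ) / (2 * (x : ℝ) ^ 2 + 1) := by
    rw [le_div_iff₀ (by positivity)]
    push_cast
    rw [gl_q]
    have a1 : (1 : ℝ) ≤ (x : ℝ) ^ 78 := one_le_pow₀ hx1
    have a2 : (1 : ℝ) ≤ (x : ℝ) ^ 2 := one_le_pow₀ hx1
    have a3 : (0 : ℝ) ≤ ((2 : ℝ) ^ x) ^ 2 := by positivity
    calc _ ≤ ((2 : ℝ) ^ x) ^ 2 * (81 * (x : ℝ) ^ 2) := mul_le_mul_of_nonneg_left (by linarith) a3
      _ = 1 * (9 * x * 2 ^ x) ^ 2 := by ring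
      _ ≤ _ := mul_le_mul_of_nonneg_right a1 (by positivity)
  have h2 := log_le_log (by positivity) h1
  rw [log_pow, log_pow] at h2
  have h4 := mul_le_mul_of_nonneg_left log_two_gt_d9.le (Nat.cast_nonneg (α := ℝ) x)
  push_cast at h2 ⊢
  linarith [H.gm_le', (gl x).one_le_gm]

theorem y_le : x * (x : ℝ) ^ 25 / (10 ^ 7 * (k : ℝ) ^ 3) ≤ x * (x : ℝ) ^ 25 / 10 ^ 7 := by
  have hx1 := H.x1
  have := one_le_pow₀ (n := 3) H.k1
  exact div_le_div_of_nonneg_left (by positivity) (by positivity) (by linarith)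

theorem y_ge : 28 * (x : ℝ) ^ 25 ≤ x * (x : ℝ) ^ 25 / (10 ^ 7 * (k : ℝ) ^ 3) := by
  have hx1 := H.x1
  have hk := H.k1
  have h := H.kpow (m := 3) (by norm_num)
  rw [le_div_iff₀ (by positivity)]
  have h1 : 0 ≤ (x : ℝ) ^ 25 := by positivity
  have h2 : 0 ≤ (k : ℝ) ^ 3 := by positivity
  nlinarith

theorem x_sq_le : (10 : ℝ) ^ 24 * (k : ℝ) ^ 3 * x ≤ (x : ℝ) ^ 25 := by
  have hx1 := H.x1
  have h := mul_le_mul_of_nonneg_right (H.kpow (m := 3) (by norm_num)) (show (0 : ℝ) ≤ x by linarith)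
  have := H.pow_le_nu (m := 2) (by norm_num)
  nlinarith

theorem x_le : (10 : ℝ) ^ 24 * x ≤ (x : ℝ) ^ 25 := by
  have hx1 := H.x1
  have := one_le_pow₀ (n := 3) H.k1
  have := H.x_sq_le
  nlinarith

end Big

end Pool.Agent.MP_037c5a_pr

end

section

open Real

namespace Pool.Agent.MP_037c5a_pr

theorem exp_neg_le {u c : ℝ} (hc : 0 < c) (h : c ≤ u) : exp (-u) ≤ 1 / c := by
  rw [exp_neg, one_div]
  exact inv_anti₀ hc (by linarith [add_one_le_exp u])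

namespace Big

variable {k x : ℕ} (H : Big k x)
include H

theorem hl_half : 2 * (9 * (x : ℝ) ^ 25 + x * (x : ℝ) ^ 25 / (10 ^ 7 * (k : ℝ) ^ 3)) ≤
    ((x : ℝ) ^ 25) ^ 2 / 4 := by
  have h1 := H.y_le
  have h2 := H.x_le
  have h3 := H.big
  have hn : 0 ≤ (x : ℝ) ^ 25 := by positivity
  generalize (x : ℝ) ^ 25 = n at *
  nlinarith

theorem htheta : 800000 * (k : ℝ) ^ 2 / (x : ℝ) ^ 25 ≤ 1 / (400 * k * ((x : ℝ) ^ 25) ^ 2 * x) *
    (((2 * (x ^ 25) ^ 2 : ℕ) : ℝ) - (((x ^ 25) ^ 2 : ℕ) : ℝ) - 12 * x * (x : ℝ) ^ 25 -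
      3 * (x * (x : ℝ) ^ 25 / (10 ^ 7 * (k : ℝ) ^ 3))) := by
  have h1 := H.y_le
  have h2 := H.x_le
  have h3 := H.big
  have h4 := H.x_sq_le
  have hk := H.k1
  have hn : 0 < (x : ℝ) ^ 25 := by positivity
  push_cast
  generalize (x : ℝ) ^ 25 = n at *
  have a1 : n ^ 2 / 2 ≤ 2 * n ^ 2 - n ^ 2 - 12 * x * n - 3 * (x * n / (10 ^ 7 * (k : ℝ) ^ 3)) := by
    nlinarith
  refine le_trans ?_ (mul_le_mul_of_nonneg_left a1 (by positivity))
  have e : 1 / (400 * k * n ^ 2 * x) * (n ^ 2 / 2) = 1 / (800 * k * x) := by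
    field_simp
    ring
  rw [e, div_le_div_iff₀ hn (by positivity)]
  have : 0 ≤ (k : ℝ) ^ 3 * x := by positivity
  nlinarith

theorem b_le_nu : ((gl x).bb : ℝ) * (gl x).gm ≤ (x : ℝ) ^ 25 := by
  have h1 := H.b_le
  have h2 := H.pow_le_nu (m := 7) (by norm_num)
  have h3 : 0 ≤ (x : ℝ) ^ 7 := by positivity
  linarith

theorem thb_le : 800000 * (k : ℝ) ^ 2 / (x : ℝ) ^ 25 * (((gl x).bb : ℝ) * (gl x).gm) ≤
    (k : ℝ) ^ 2 * (x : ℝ) ^ 7 / (10 ^ 18 * (x : ℝ) ^ 25) := by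
  have hx1 := H.x1
  refine (mul_le_mul_of_nonneg_left H.b_le (by positivity)).trans ?_
  rw [div_mul_div_comm, div_le_div_iff₀ (by positivity) (by positivity)]
  have : 0 ≤ (k : ℝ) ^ 2 * (x : ℝ) ^ 7 * (x : ℝ) ^ 25 := by positivity
  nlinarith

theorem hthb : 800000 * (k : ℝ) ^ 2 / (x : ℝ) ^ 25 * (((gl x).bb : ℝ) * (gl x).gm) ≤ 1 / 10 := by
  have hx1 := H.x1
  refine H.thb_le.trans ?_
  rw [div_le_div_iff₀ (by positivity) (by positivity)]
  have h1 := mul_le_mul_of_nonneg_right (H.kpow (m := 2) (by norm_num))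
    (show 0 ≤ (x : ℝ) ^ 7 by positivity)
  have h2 := H.pow_le_nu (m := 8) (by norm_num)
  have h3 : 0 ≤ (k : ℝ) ^ 2 * (x : ℝ) ^ 7 := by positivity
  nlinarith

theorem hL : (gl x).W *
    (800000 * (k : ℝ) ^ 2 / (x : ℝ) ^ 25 * (((gl x).bb : ℝ) * (gl x).gm)) ^ 3 ≤ 1 / 100000 := by
  have hx1 := H.x1
  have hgm := (gl x).one_le_gm
  refine (mul_le_mul_of_nonneg_left (pow_le_pow_left₀ (by positivity) H.thb_le 3)
    (by simp only [gl]; positivity)).trans ?_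
  have e : (gl x).W * ((k : ℝ) ^ 2 * (x : ℝ) ^ 7 / (10 ^ 18 * (x : ℝ) ^ 25)) ^ 3 =
      (k : ℝ) ^ 6 / (10 ^ 54 * x) := by
    simp only [gl]
    field_simp
  rw [e, div_le_div_iff₀ (by positivity) (by positivity)]
  have := H.k6
  have h3 : 0 ≤ (k : ℝ) ^ 6 := by positivity
  linarith

theorem hgain : x * (x : ℝ) ^ 25 / (200000 * k) + 3 * (x * (x : ℝ) ^ 25 / (10 ^ 7 * (k : ℝ) ^ 3)) ≤
    1 / (24 * k * (x : ℝ) ^ 25) * (x * ((x : ℝ) ^ 25) ^ 2 / 1000) / 4 -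
      1 / (1 / (24 * k * (x : ℝ) ^ 25)) := by
  have hx1 := H.x1
  have hk := H.k1
  have h2 := H.kpow (m := 2) (by norm_num)
  have hn : 0 < (x : ℝ) ^ 25 := by positivity
  generalize (x : ℝ) ^ 25 = n at *
  have e1 : 1 / (24 * k * n) * (x * n ^ 2 / 1000) / 4 = x * n / k / 96000 := by
    field_simp
    ring
  have e2 : x * n / (200000 * k) = x * n / k / 200000 := by field_simp
  have a1 : x * n / (10 ^ 7 * (k : ℝ) ^ 3) ≤ x * n / k / 10 ^ 7 := by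
    rw [div_div, mul_comm (k : ℝ)]
    exact div_le_div_of_nonneg_left (by positivity) (by positivity)
      (mul_le_mul_of_nonneg_left (le_self_pow₀ hk (by norm_num)) (by positivity))
  have a2 : 24 * k * n ≤ x * n / k / 10 ^ 6 := by
    rw [div_div, le_div_iff₀ (by positivity)]
    have := mul_le_mul_of_nonneg_right h2 hn.le
    have : 0 ≤ (k : ℝ) ^ 2 * n := by positivity
    nlinarith
  have a3 : 0 ≤ x * n / k := by positivity
  rw [e1, e2, one_div_one_div]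
  linarith

theorem lamV : 4 * (1 / (24 * k * (x : ℝ) ^ 25)) ^ 2 * (18 * x * ((x : ℝ) ^ 25) ^ 2) =
    x / (8 * (k : ℝ) ^ 2) := by
  have hx1 := H.x1
  have hk := H.k1
  field_simp
  ring

theorem f3a : exp (-(3 * (x : ℝ))) + exp (-(2 * (x : ℝ))) ≤ exp (-(x / (8 * (k : ℝ) ^ 2))) / 8 := by
  have hb := H.big
  have hk := one_le_pow₀ (n := 2) H.k1
  have a1 : exp (-(3 * (x : ℝ))) ≤ exp (-(2 * (x : ℝ))) := exp_le_exp.2 (by linarith)
  have a2 : exp (-(x : ℝ)) ≤ exp (-(x / (8 * (k : ℝ) ^ 2))) :=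
    exp_le_exp.2 (neg_le_neg (div_le_self (by linarith) (by linarith)))
  have a3 : exp (-(2 * (x : ℝ))) = exp (-(x : ℝ)) * exp (-(x : ℝ)) := by
    rw [← exp_add]; ring_nf
  have a4 : exp (-(x : ℝ)) ≤ 1 / 16 := exp_neg_le (by norm_num) (by linarith)
  have a5 := exp_pos (-(x : ℝ))
  nlinarith

theorem f3b : (((2 ^ x + 1) ^ 2 : ℕ) : ℝ) *
    (2 * exp (-((12 * x * (x : ℝ) ^ 25) ^ 2 / (4 * (18 * x * ((x : ℝ) ^ 25) ^ 2)))) +
      exp (-(3 * (x : ℝ)))) + (((2 ^ x + 1) ^ 2 : ℕ) : ℝ) * exp (-(2 * (x : ℝ))) ≤ 5 / 24 := by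
  have hb := H.big
  have e : (12 * x * (x : ℝ) ^ 25) ^ 2 / (4 * (18 * x * ((x : ℝ) ^ 25) ^ 2)) = 2 * x := by
    field_simp
    ring
  have a1 : exp (-(3 * (x : ℝ))) ≤ exp (-(2 * (x : ℝ))) := exp_le_exp.2 (by linarith)
  have a2 : (((2 ^ x + 1) ^ 2 : ℕ) : ℝ) ≤ 4 * exp (1.4 * x) := by
    push_cast
    have b1 : (1 : ℝ) ≤ 2 ^ x := one_le_pow₀ (by norm_num)
    have b2 : ((2 : ℝ) ^ x) ^ 2 ≤ exp (1.4 * x) := by
      rw [two_pow_eq, sq, ← exp_add, exp_le_exp]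
      nlinarith [log_two_lt_d9]
    nlinarith
  have a3 : exp (1.4 * x) * exp (-(2 * (x : ℝ))) ≤ 1 / 100 := by
    rw [← exp_add, show 1.4 * (x : ℝ) + -(2 * x) = -(0.6 * x) by ring]
    exact exp_neg_le (by norm_num) (by linarith)
  have a4 := exp_pos (-(2 * (x : ℝ)))
  have a5 := exp_pos (-(3 * (x : ℝ)))
  rw [e, ← mul_add]
  refine (mul_le_mul a2 (show _ ≤ 4 * exp (-(2 * (x : ℝ))) by linarith) (by positivity)
    (by positivity)).trans ?_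
  nlinarith

theorem t_big {t : ℕ} (hx : x = 2 * k * t) : (10 : ℝ) ^ 23 * (gl x).gm ≤ t := by
  have hk := H.k1
  have h1 := H.gm_le
  have hgm := (gl x).one_le_gm
  have hx' : (x : ℝ) = 2 * k * t := by exact_mod_cast hx
  have h2 : (k : ℝ) ≤ (k : ℝ) ^ 6 := le_self_pow₀ hk (by norm_num)
  have h3 := mul_le_mul_of_nonneg_right h2 (show 0 ≤ (gl x).gm by linarith)
  refine le_of_mul_le_mul_left ?_ (show (0 : ℝ) < k by linarith)
  nlinarith

theorem f2 {t : ℕ} (hx : x = 2 * k * t) :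
    2 * (exp (-((x * (x : ℝ) ^ 25 / (10 ^ 7 * (k : ℝ) ^ 3)) ^ 2 /
      (2 * (18 * x * ((x : ℝ) ^ 25) ^ 2)))) + exp (-(3 * (x : ℝ)))) +
    (1 - exp (-(x / (8 * (k : ℝ) ^ 2))) / 8) ^ (2 ^ t) ≤ 1 / 2 := by
  have hb := H.big
  have hk := H.k1
  have e : (x * (x : ℝ) ^ 25 / (10 ^ 7 * (k : ℝ) ^ 3)) ^ 2 / (2 * (18 * x * ((x : ℝ) ^ 25) ^ 2)) =
      x / (36 * 10 ^ 14 * (k : ℝ) ^ 6) := by
    field_simp
    ring
  have a1 : exp (-(x / (36 * 10 ^ 14 * (k : ℝ) ^ 6))) ≤ 1 / 100 := by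
    refine exp_neg_le (by norm_num) ?_
    rw [le_div_iff₀ (by positivity)]
    have := H.k6
    have : 0 ≤ (k : ℝ) ^ 6 := by positivity
    linarith
  have a2 : exp (-(3 * (x : ℝ))) ≤ 1 / 100 := exp_neg_le (by norm_num) (by linarith)
  have ht : (10 : ℝ) ^ 23 ≤ t := by linarith [H.t_big hx, (gl x).one_le_gm]
  have hx' : (x : ℝ) = 2 * k * t := by exact_mod_cast hx
  have a3 : exp (-((t : ℝ) / 4)) ≤ exp (-(x / (8 * (k : ℝ) ^ 2))) := by
    rw [exp_le_exp, neg_le_neg_iff, div_le_div_iff₀ (by positivity) (by norm_num), hx']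
    have : 0 ≤ (k : ℝ) * t * (k - 1) := mul_nonneg (by positivity) (by linarith)
    nlinarith
  have a4 : exp (-(x / (8 * (k : ℝ) ^ 2))) ≤ 1 := exp_le_one_iff.2 (neg_nonpos.2 (by positivity))
  generalize exp (-(x / (8 * (k : ℝ) ^ 2))) = p at a3 a4 ⊢
  have a5 : (1 - p / 8) ^ (2 ^ t) ≤ exp (-(p / 8)) ^ (2 ^ t) :=
    pow_le_pow_left₀ (by linarith) (by linarith [add_one_le_exp (-(p / 8))]) _
  have a6 : exp (-(p / 8)) ^ (2 ^ t) ≤ 1 / 4 := by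
    rw [← exp_nat_mul, mul_neg]
    refine exp_neg_le (by norm_num) ?_
    push_cast
    have b1 : 32 ≤ (2 : ℝ) ^ t * exp (-((t : ℝ) / 4)) := by
      rw [two_pow_eq, ← exp_add]
      refine le_trans ?_ (add_one_le_exp _)
      nlinarith [log_two_gt_d9]
    have b2 := mul_le_mul_of_nonneg_left a3 (show (0 : ℝ) ≤ 2 ^ t by positivity)
    linarith
  rw [e]
  linarith

theorem f1 : 2 * (exp (-((x * (x : ℝ) ^ 25 / (10 ^ 7 * (k : ℝ) ^ 3)) ^ 2 /
      (2 * (36 * (gl x).gm * ((x : ℝ) ^ 25) ^ 2)))) + exp (-(3 * (x : ℝ)))) +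
    (1 / 2) ^ (4 * x) ≤ exp (-(2 * (x : ℝ))) := by
  have hb := H.big
  have hk := H.k1
  have hgm := (gl x).one_le_gm
  have e : (x * (x : ℝ) ^ 25 / (10 ^ 7 * (k : ℝ) ^ 3)) ^ 2 /
      (2 * (36 * (gl x).gm * ((x : ℝ) ^ 25) ^ 2)) =
      x * x / (72 * 10 ^ 14 * (k : ℝ) ^ 6 * (gl x).gm) := by
    field_simp
    ring
  have a1 : exp (-(x * x / (72 * 10 ^ 14 * (k : ℝ) ^ 6 * (gl x).gm))) ≤ exp (-(2.7 * (x : ℝ))) := by
    rw [exp_le_exp, neg_le_neg_iff, le_div_iff₀ (by positivity)]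
    have h1 := mul_le_mul_of_nonneg_left H.gm_le (show (0 : ℝ) ≤ x by linarith)
    have : 0 ≤ x * ((k : ℝ) ^ 6 * (gl x).gm) := by positivity
    nlinarith
  have a2 : exp (-(3 * (x : ℝ))) ≤ exp (-(2.7 * (x : ℝ))) := exp_le_exp.2 (by linarith)
  have a3 : ((1 : ℝ) / 2) ^ (4 * x) ≤ exp (-(2.7 * (x : ℝ))) := by
    rw [one_div, inv_pow, two_pow_eq, ← exp_neg, exp_le_exp, neg_le_neg_iff]
    push_cast
    nlinarith [log_two_gt_d9]
  have a4 : exp (-(2.7 * (x : ℝ))) = exp (-(2 * (x : ℝ))) * exp (-(0.7 * (x : ℝ))) := by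
    rw [← exp_add]; ring_nf
  have a5 : exp (-(0.7 * (x : ℝ))) ≤ 1 / 5 := exp_neg_le (by norm_num) (by linarith)
  have a6 := mul_le_mul_of_nonneg_left a5 (exp_pos (-(2 * (x : ℝ)))).le
  rw [e]
  linarith

theorem ppOK {t : ℕ} (hx : x = 2 * k * t) : PPOK (pp k t x) := by
  have hb := H.big
  have hk := H.k1
  have hx1 := H.hx
  have hgm := (gl x).one_le_gm
  have htx : t ≤ x := by
    rw [hx]
    exact Nat.le_mul_of_pos_left _ (by have := H.hk; omega)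
  have hn : (1 : ℝ) ≤ (x : ℝ) ^ 25 := one_le_pow₀ H.x1
  have hD : (gl x).D = x := rfl
  have hp : 2 * (x : ℝ) ^ 2 + 1 ≤ (((gl x).q * (9 * x * 2 ^ x) ^ 2 : ℕ) : ℝ) := by
    push_cast
    rw [gl_q]
    have a1 : (1 : ℝ) ≤ (x : ℝ) ^ 78 := one_le_pow₀ H.x1
    have a2 : (1 : ℝ) ≤ (x : ℝ) ^ 2 := one_le_pow₀ H.x1
    have a3 : (1 : ℝ) ≤ ((2 : ℝ) ^ x) ^ 2 := one_le_pow₀ (one_le_pow₀ (by norm_num))
    calc _ ≤ 81 * (x : ℝ) ^ 2 * 1 := by linarith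
      _ ≤ 81 * (x : ℝ) ^ 2 * ((2 : ℝ) ^ x) ^ 2 := mul_le_mul_of_nonneg_left a3 (by positivity)
      _ = 1 * (9 * x * 2 ^ x) ^ 2 := by ring
      _ ≤ _ := mul_le_mul_of_nonneg_right a1 (by positivity)
  refine
    { s1 := H.s1 t, s2 := H.s2 t htx, s3 := H.s3 t
      J1 := by simp only [pp]; omega
      J2 := by simp only [pp]; positivity
      K1 := Nat.one_le_two_pow
      r1 := ?_, r2 := ?_, r3 := ?_, η4 := ?_
      y0 := by simp only [pp]; positivity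
      loss0 := by simp only [pp]; positivity
      N0 := by simp only [pp]; positivity
      N01 := by simp only [pp]; omega
      hl0 := ?_, he := ?_
      κ0 := by simp only [pp]; positivity
      hθ := H.htheta
      hm0 := by simp only [pp]; positivity
      hmb := ?_, hθb := H.hthb, hL := H.hL
      Δ0 := by simp only [pp]; positivity
      hκΔ := ?_, hG := ?_
      lam0 := by simp only [pp]; positivity
      hlb := ?_, hp := hp, hc3 := ?_, hVl := ?_, hgain := H.hgain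
      δ0 := (exp_pos _).le
      δ2 := exp_neg_le (by norm_num) (by linarith)
      f3a := ?_, f3b := H.f3b, f2 := ?_, f1 := H.f1, hW := ?_ }
  · simp only [pp]
    rw [H.eta_mul, hD]
    push_cast
    linarith
  · simp only [pp]
    rw [H.eta_mul, hD]
    push_cast
    linarith
  · simp only [pp]
    rw [H.eta_mul, hD]
    push_cast
    have a3 : (1 : ℝ) ≤ (2 : ℝ) ^ x := one_le_pow₀ (by norm_num)
    nlinarith
  · show 2 / (((gl x).q : ℕ) : ℝ) ≤ 1 / 4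
    rw [gl_q, div_le_div_iff₀ (by positivity) (by norm_num)]
    linarith [le_self_pow₀ H.x1 (show 78 ≠ 0 by norm_num)]
  · simp only [pp]
    push_cast
    linarith [H.hl_half, sq_nonneg ((x : ℝ) ^ 25)]
  · simp only [pp]
    linarith [H.y_ge]
  · simp only [pp]
    have := mul_le_mul_of_nonneg_left H.b_le_nu (show 0 ≤ 12 * x * (x : ℝ) ^ 25 by positivity)
    have h2 : 0 ≤ x * ((x : ℝ) ^ 25) ^ 2 := by positivity
    linarith
  · simp only [pp]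
    have e : 1 / (400 * k * ((x : ℝ) ^ 25) ^ 2 * x) * (x * (x : ℝ) ^ 25 / (200000 * k)) =
        1 / (80000000 * (k : ℝ) ^ 2) / (x : ℝ) ^ 25 := by
      field_simp
      ring
    rw [e]
    refine div_le_div_of_nonneg_right ?_ (by positivity)
    have := one_le_pow₀ (n := 2) hk
    refine le_trans (div_le_one_of_le₀ (by linarith) (by positivity)) (by linarith)
  · simp only [pp]
    refine le_of_eq (congrArg _ ?_)
    field_simp
    ring
  · simp only [pp]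
    refine (mul_le_mul_of_nonneg_left H.b_le_nu (by positivity)).trans ?_
    rw [one_div_mul_eq_div, div_le_div_iff₀ (by positivity) (by norm_num)]
    nlinarith
  · simp only [pp]
    rw [hD]
    linarith [H.c3_ge]
  · simp only [pp]
    rw [hD]
    have hk' : ((((gl x).q * ((gl x).q * (9 * x * 2 ^ x) ^ 2) - 1 : ℕ) : ℝ) + 1) =
        (((gl x).q * (9 * x * 2 ^ x) : ℕ) : ℝ) ^ 2 := (H.s3 t).mom.hM2.symm
    have a1 := H.tail_le (k' := (gl x).q * ((gl x).q * (9 * x * 2 ^ x) ^ 2) - 1)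
      (by rw [hk']; exact H.log_a3)
    have a2 : ((x : ℝ) ^ 25) ^ 2 / 2 ≤ (((x ^ 25) ^ 2 : ℕ) : ℝ) -
        2 * (9 * (x : ℝ) ^ 25 + x * (x : ℝ) ^ 25 / (10 ^ 7 * (k : ℝ) ^ 3)) := by
      push_cast
      linarith [H.hl_half, sq_nonneg ((x : ℝ) ^ 25)]
    have a3 := mul_le_mul (le_sub_iff_add_le.2 H.c3_ge) a2 (by positivity)
      (by linarith [H.c3_ge])
    have a4 : (x : ℝ) * 1 ≤ x * ((x : ℝ) ^ 25) ^ 2 :=
      mul_le_mul_of_nonneg_left (one_le_pow₀ hn) (by positivity)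
    linarith
  · simp only [pp]
    rw [H.lamV]
    exact H.f3a
  · simp only [pp]
    rw [H.lamV]
    exact H.f2 hx
  · simp only [pp, gl]
    push_cast
    have a1 : (x : ℝ) ≤ (x : ℝ) ^ 3 := le_self_pow₀ H.x1 (by norm_num)
    have a2 : 0 ≤ ((x : ℝ) ^ 25) ^ 2 := by positivity
    nlinarith

end Big

end Pool.Agent.MP_037c5a_pr

end
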