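import Pool.Agent.Mg.S19113.Gcf95d3
import Mathlib
import Pool.Agent.MP_037c5a_pr.EnergyAbs

section

open MeasureTheory Finset
open scoped RealInnerProductSpace

namespace Pool.Agent.MP_037c5a_pr.Ch

noncomputable def g (t : ℝ) (x : E) : ENNReal := ENNReal.ofReal (ph t x)

theorem g_ne_top (t : ℝ) (x : E) : g t x ≠ ⊤ := ENNReal.ofReal_ne_top

theorem ph_pos {t : ℝ} (ht : 0 < t) (x : E) : 0 < ph t x := by
  unfold ph
  have := Real.pi_pos
  positivity

theorem ph_cont (t : ℝ) : Continuous (ph t) := by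
  unfold ph
  fun_prop

theorem g_meas (t : ℝ) : Measurable (g t) :=
  ENNReal.measurable_ofReal.comp (ph_cont t).measurable

theorem ph_le {t : ℝ} (ht : 0 < t) (x : E) : ph t x ≤ (2 * Real.pi * t)⁻¹ := by
  unfold ph
  have := Real.pi_pos
  have h : Real.exp (-‖x‖ ^ 2 / (2 * t)) ≤ 1 := by
    rw [Real.exp_le_one_iff]
    apply div_nonpos_of_nonpos_of_nonneg
    · have := sq_nonneg ‖x‖
      linarith
    · positivity
  calc _ ≤ (2 * Real.pi * t)⁻¹ * 1 := by gcongr
    _ = _ := mul_one _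

theorem ph_integrable {t : ℝ} (ht : 0 < t) : Integrable (ph t) := by
  have hb : 0 < ((((2 * t)⁻¹ : ℝ) : ℂ)).re := by
    rw [Complex.ofReal_re]; positivity
  have h := (GaussianFourier.integrable_cexp_neg_mul_sq_norm_add (V := E) hb 0 0).norm
  have h2 : Integrable (fun v : E => Real.exp (-‖v‖ ^ 2 / (2 * t))) := by
    refine h.congr (Filter.Eventually.of_forall fun v => ?_)
    simp only [zero_mul, add_zero, Complex.norm_exp]
    congr 1
    have : (-(((2 * t)⁻¹ : ℝ) : ℂ) * (‖v‖ : ℂ) ^ 2) = ((-‖v‖ ^ 2 / (2 * t) : ℝ) : ℂ) := by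
      push_cast
      ring
    rw [this, Complex.ofReal_re]
  exact h2.const_mul _

theorem ph_integral {t : ℝ} (ht : 0 < t) : ∫ x, ph t x = 1 := by
  have h := GaussianFourier.integral_rexp_neg_mul_sq_norm (V := E) (b := (2 * t)⁻¹) (by positivity)
  have h1 : ∀ x : E, ph t x = (2 * Real.pi * t)⁻¹ * Real.exp (-(2 * t)⁻¹ * ‖x‖ ^ 2) := by
    intro x
    unfold ph
    congr 2
    ring
  simp_rw [h1]
  rw [integral_const_mul, h]
  have := Real.pi_pos
  simp only [finrank_euclideanSpace, Fintype.card_fin, Nat.cast_ofNat]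
  rw [div_self (by norm_num : (2 : ℝ) ≠ 0), Real.rpow_one]
  field_simp

theorem g_int0 {t : ℝ} (ht : 0 < t) : ∫⁻ y, g t y = 1 := by
  unfold g
  rw [← ofReal_integral_eq_lintegral_ofReal (ph_integrable ht)
    (Filter.Eventually.of_forall fun x => (ph_pos ht x).le), ph_integral ht, ENNReal.ofReal_one]

theorem g_int {t : ℝ} (ht : 0 < t) (a : E) : ∫⁻ y, g t (y - a) = 1 := by
  rw [lintegral_sub_right_eq_self (fun y => g t y) a, g_int0 ht]

theorem ph_ck {s t : ℝ} (hs : 0 < s) (ht : 0 < t) (a b y : E) :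
    ph s (y - a) * ph t (b - y) =
      ph (s + t) (b - a) * ph (s * t / (s + t)) (y - ((t / (s + t)) • a + (s / (s + t)) • b)) := by
  unfold ph
  have hpi := Real.pi_pos
  have e : -‖y - a‖ ^ 2 / (2 * s) + -‖b - y‖ ^ 2 / (2 * t) =
      -‖b - a‖ ^ 2 / (2 * (s + t)) +
        -‖y - ((t / (s + t)) • a + (s / (s + t)) • b)‖ ^ 2 / (2 * (s * t / (s + t))) := by
    simp only [EuclideanSpace.real_norm_sq_eq, Fin.sum_univ_two, PiLp.sub_apply, PiLp.add_apply,
      PiLp.smul_apply, smul_eq_mul]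
    field_simp
    ring
  rw [mul_mul_mul_comm, ← Real.exp_add, e, Real.exp_add, mul_mul_mul_comm (2 * Real.pi * (s + t))⁻¹]
  congr 1
  field_simp

theorem g_ck {s t : ℝ} (hs : 0 < s) (ht : 0 < t) (a b : E) :
    ∫⁻ y, g s (y - a) * g t (b - y) = g (s + t) (b - a) := by
  have h : ∀ y, g s (y - a) * g t (b - y) =
      g (s + t) (b - a) * g (s * t / (s + t)) (y - ((t / (s + t)) • a + (s / (s + t)) • b)) := by
    intro y
    unfold g
    rw [← ENNReal.ofReal_mul (ph_pos hs _).le, ph_ck hs ht,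
      ENNReal.ofReal_mul (ph_pos (by positivity) _).le]
  simp_rw [h]
  rw [lintegral_const_mul' _ _ (g_ne_top _ _), g_int (by positivity), mul_one]

theorem g2_meas (t : ℝ) : Measurable fun p : E × E => g t (p.2 - p.1) :=
  (g_meas t).comp (measurable_snd.sub measurable_fst)

/-- semigroup property -/
theorem heat_heat {s t : ℝ} (hs : 0 < s) (ht : 0 < t) (f : E → ENNReal) (hf : Measurable f) (a : E) :
    ∫⁻ y, g s (y - a) * ∫⁻ z, g t (z - y) * f z = ∫⁻ z, g (s + t) (z - a) * f z := by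
  have h1 : ∀ y, g s (y - a) * ∫⁻ z, g t (z - y) * f z =
      ∫⁻ z, g s (y - a) * (g t (z - y) * f z) := by
    intro y
    rw [lintegral_const_mul' _ _ (g_ne_top _ _)]
  simp_rw [h1]
  rw [lintegral_lintegral_swap]
  · refine lintegral_congr fun z => ?_
    simp_rw [← mul_assoc]
    rw [lintegral_mul_const, g_ck hs ht]
    exact ((g_meas _).comp (measurable_sub_const _)).mul
      ((g_meas _).comp (measurable_const.sub measurable_id))
  · exact ((((g_meas _).comp (measurable_fst.sub measurable_const))).mul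
      ((g2_meas t).mul (hf.comp measurable_snd))).aemeasurable

theorem g_ne_zero {t : ℝ} (ht : 0 < t) (x : E) : g t x ≠ 0 := by
  unfold g
  exact (ENNReal.ofReal_pos.2 (ph_pos ht x)).ne'

theorem lint_cons {n : ℕ} (μ : Measure E) [SigmaFinite μ] (F : (Fin (n + 1) → E) → ENNReal)
    (hF : Measurable F) :
    ∫⁻ y, F y ∂(Measure.pi fun _ => μ) =
      ∫⁻ y0, ∫⁻ y : Fin n → E, F (Fin.cons y0 y) ∂(Measure.pi fun _ => μ) ∂μ := by
  have h := (measurePreserving_piFinSuccAbove (fun _ : Fin (n + 1) => μ) 0).symm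
  rw [← h.lintegral_comp hF, lintegral_prod]
  · refine lintegral_congr fun y0 => lintegral_congr fun y => ?_
    congr 1
    simp [MeasurableEquiv.piFinSuccAbove_symm_apply, Fin.insertNthEquiv]
  · exact (hF.comp (MeasurableEquiv.measurable _)).aemeasurable

theorem cw_cont : ∀ k : ℕ, Continuous fun p : E × (Fin k → E) × E => cw k p.1 p.2.1 p.2.2
  | 0 => by
    simp only [cw]
    exact (ph_cont 1).comp (by fun_prop)
  | k + 1 => by
    simp only [cw]
    refine ((ph_cont 1).comp (by fun_prop)).mul ?_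
    have h : Continuous fun p : E × (Fin (k + 1) → E) × E =>
        ((p.2.1 0, Fin.tail p.2.1, p.2.2) : E × (Fin k → E) × E) := by
      refine Continuous.prodMk (by fun_prop) (Continuous.prodMk ?_ (by fun_prop))
      exact continuous_pi fun i => by unfold Fin.tail; fun_prop
    exact (cw_cont k).comp h

theorem cw_pos : ∀ (k : ℕ) (a : E) (y : Fin k → E) (b : E), 0 < cw k a y b
  | 0, _, _, _ => ph_pos one_pos _
  | k + 1, _, _, _ => mul_pos (ph_pos one_pos _) (cw_pos k _ _ _)

noncomputable def W (k : ℕ) (a : E) (y : Fin k → E) (b : E) : ENNReal := ENNReal.ofReal (cw k a y b)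

theorem W_meas (k : ℕ) : Measurable fun p : E × (Fin k → E) × E => W k p.1 p.2.1 p.2.2 :=
  ENNReal.measurable_ofReal.comp (cw_cont k).measurable

theorem W_meas' {X : Type} [MeasurableSpace X] (k : ℕ) {a b : X → E} {y : X → Fin k → E}
    (ha : Measurable a) (hy : Measurable y) (hb : Measurable b) :
    Measurable fun x => W k (a x) (y x) (b x) :=
  (W_meas k).comp (ha.prodMk (hy.prodMk hb))

theorem W_cons (k : ℕ) (a y0 : E) (y : Fin k → E) (b : E) :
    W (k + 1) a (Fin.cons y0 y) b = g 1 (y0 - a) * W k y0 y b := by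
  unfold W g
  rw [← ENNReal.ofReal_mul (ph_pos one_pos _).le]
  simp [cw]

theorem cw_drift (d : E) : ∀ (k : ℕ) (a v b : E) (β : Fin k → E),
    cw k (a + v) (fun l => β l + v + ((l : ℝ) + 1) • d) (b + v + ((k : ℝ) + 1) • d) =
      cw k a β b * Real.exp (-⟪d, b - a⟫ - ((k : ℝ) + 1) * ‖d‖ ^ 2 / 2)
  | 0, a, v, b, β => by
    simp only [cw, ph]
    rw [mul_assoc (2 * Real.pi * 1)⁻¹, ← Real.exp_add]
    congr 2
    simp only [EuclideanSpace.real_norm_sq_eq, Fin.sum_univ_two, PiLp.sub_apply, PiLp.add_apply,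
      PiLp.smul_apply, smul_eq_mul, PiLp.inner_apply, RCLike.inner_apply, conj_trivial]
    push_cast
    ring
  | k + 1, a, v, b, β => by
    have ih := cw_drift d k (β 0) (v + d) b (Fin.tail β)
    simp only [cw]
    have e1 : β 0 + v + ((((0 : Fin (k + 1)) : ℕ) : ℝ) + 1) • d = β 0 + (v + d) := by
      simp [add_assoc]
    have e2 : (Fin.tail fun l : Fin (k + 1) => β l + v + (((l : ℕ) : ℝ) + 1) • d) =
        fun l : Fin k => Fin.tail β l + (v + d) + (((l : ℕ) : ℝ) + 1) • d := by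
      funext l
      simp only [Fin.tail, Fin.val_succ]
      push_cast
      rw [add_smul ((l : ℝ) + 1) 1 d, one_smul]
      abel
    have e3 : b + v + (((k + 1 : ℕ) : ℝ) + 1) • d = b + (v + d) + ((k : ℝ) + 1) • d := by
      push_cast
      rw [add_smul ((k : ℝ) + 1) 1 d, one_smul]
      abel
    rw [e1, e2, e3, ih]
    simp only [ph]
    have e4 : Real.exp (-‖β 0 + (v + d) - (a + v)‖ ^ 2 / (2 * 1)) *
        Real.exp (-⟪d, b - β 0⟫ - ((k : ℝ) + 1) * ‖d‖ ^ 2 / 2) =
        Real.exp (-‖β 0 - a‖ ^ 2 / (2 * 1)) *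
          Real.exp (-⟪d, b - a⟫ - (((k + 1 : ℕ) : ℝ) + 1) * ‖d‖ ^ 2 / 2) := by
      rw [← Real.exp_add, ← Real.exp_add]
      congr 1
      simp only [EuclideanSpace.real_norm_sq_eq, Fin.sum_univ_two, PiLp.sub_apply, PiLp.add_apply,
        PiLp.inner_apply, RCLike.inner_apply, conj_trivial]
      push_cast
      ring
    linear_combination ((2 * Real.pi * 1)⁻¹ * cw k (β 0) (Fin.tail β) b) * e4

/-- the linear part of a bridge -/
noncomputable def lin (k : ℕ) (P Q : E) (l : Fin k) : E := P + (((l : ℝ) + 1) / (k + 1)) • (Q - P)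

theorem W_drift (k : ℕ) (P Q : E) (β : Fin k → E) :
    W k P (β + lin k P Q) Q * g (k + 1) 0 = W k 0 β 0 * g (k + 1) (Q - P) := by
  have hk : (0 : ℝ) < k + 1 := by positivity
  have h := cw_drift (((k : ℝ) + 1)⁻¹ • (Q - P)) k 0 P 0 β
  have e1 : (fun l : Fin k => β l + P + ((l : ℝ) + 1) • ((k : ℝ) + 1)⁻¹ • (Q - P)) =
      β + lin k P Q := by
    funext l
    simp only [lin, Pi.add_apply, smul_smul, div_eq_mul_inv, add_assoc]
  have e2 : 0 + P + ((k : ℝ) + 1) • ((k : ℝ) + 1)⁻¹ • (Q - P) = Q := by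
    rw [smul_smul, mul_inv_cancel₀ hk.ne', one_smul]
    abel
  rw [e1, e2, zero_add] at h
  unfold W g
  rw [← ENNReal.ofReal_mul (cw_pos _ _ _ _).le, ← ENNReal.ofReal_mul (cw_pos _ _ _ _).le, h]
  congr 1
  simp only [ph, sub_self, inner_zero_right, norm_zero, norm_smul, Real.norm_eq_abs]
  rw [abs_of_pos (inv_pos.2 hk)]
  have e3 : -(0 : ℝ) - ((k : ℝ) + 1) * (((k : ℝ) + 1)⁻¹ * ‖Q - P‖) ^ 2 / 2 =
      -‖Q - P‖ ^ 2 / (2 * ((k : ℝ) + 1)) := by
    field_simp
    ring
  rw [e3]
  simp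
  ring

theorem nu_drift (k : ℕ) (P Q : E) (F : (Fin k → E) → ENNReal) (hF : Measurable F) :
    g (k + 1) (Q - P) * ∫⁻ β, F (β + lin k P Q) ∂nu k = ∫⁻ y, W k P y Q * F y := by
  have hk : (0 : ℝ) < k + 1 := by positivity
  have hm : Measurable fun β : Fin k → E => F (β + lin k P Q) := hF.comp (measurable_add_const _)
  have hW : Measurable fun y : Fin k → E => W k 0 y 0 :=
    W_meas' k measurable_const measurable_id measurable_const
  unfold nu
  rw [lintegral_smul_measure]
  change g (k + 1) (Q - P) * ((g (k + 1) 0)⁻¹ •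
    ∫⁻ β, F (β + lin k P Q) ∂volume.withDensity fun y => W k 0 y 0) = _
  rw [lintegral_withDensity_eq_lintegral_mul _ hW hm, smul_eq_mul, ← mul_assoc,
    ← lintegral_const_mul _ (hW.mul hm),
    ← lintegral_add_right_eq_self (fun y => W k P y Q * F y) (lin k P Q)]
  refine lintegral_congr fun β => ?_
  have h := W_drift k P Q β
  have h2 : W k P (β + lin k P Q) Q = W k 0 β 0 * g (k + 1) (Q - P) * (g (k + 1) 0)⁻¹ := by
    rw [← h, mul_assoc, ENNReal.mul_inv_cancel (g_ne_zero hk _) (g_ne_top _ _), mul_one]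
  simp only [Pi.mul_apply]
  rw [h2]
  ring

end Pool.Agent.MP_037c5a_pr.Ch

end

section

open MeasureTheory Finset

namespace Pool.Agent.MP_037c5a_pr.Ch

theorem pth_meas {X : Type} [MeasurableSpace X] {k : ℕ} {a b : X → E} {y : X → Fin k → E}
    (ha : Measurable a) (hy : Measurable y) (hb : Measurable b) :
    Measurable fun x => pth (a x) (y x) (b x) := by
  refine measurable_pi_lambda _ fun l => ?_
  unfold pth
  split_ifs
  · exact ha
  · exact (measurable_pi_apply _).comp hy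
  · exact hb

theorem pth_zero {k : ℕ} (a : E) (y : Fin k → E) (b : E) : pth a y b 0 = a := by simp [pth]

theorem pth_cons {k : ℕ} (a y0 : E) (y : Fin k → E) (b : E) (l : ℕ) :
    pth a (Fin.cons y0 y : Fin (k + 1) → E) b (l + 1) = pth y0 y b l := by
  unfold pth
  rcases l with _ | l
  · simp
  · by_cases h : l < k
    · have h' : l + 1 < k + 1 := by omega
      simp only [Nat.add_eq_zero_iff, one_ne_zero, and_false, if_false, Nat.add_sub_cancel, h, h',
        dif_pos]
      exact Fin.cons_succ (α := fun _ => E) y0 y ⟨l, h⟩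
    · have h' : ¬ l + 1 < k + 1 := by omega
      simp only [Nat.add_eq_zero_iff, one_ne_zero, and_false, if_false, Nat.add_sub_cancel, h, h',
        dif_neg, not_false_eq_true]

theorem mmul {X : Type} [MeasurableSpace X] {f h : X → ENNReal} (hf : Measurable f)
    (hh : Measurable h) : Measurable fun x => f x * h x := hf.mul hh

theorem kap_meas (κ : E → E → ENNReal) (hκ : Measurable (Function.uncurry κ)) (i j : ℕ) :
    Measurable fun ω : ℕ → E => κ (ω i) (ω j) := by
  have h : Measurable fun ω : ℕ → E => (ω i, ω j) :=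
    (measurable_pi_apply i).prodMk (measurable_pi_apply j)
  exact hκ.comp h

theorem WF_meas (k : ℕ) (a b : E) (F : (ℕ → E) → ENNReal) (hF : Measurable F) :
    Measurable fun y : Fin k → E => W k a y b * F (pth a y b) :=
  mmul (W_meas' k measurable_const measurable_id measurable_const)
    (hF.comp (pth_meas measurable_const measurable_id measurable_const))

/-- unnormalised bridge expectation of a path functional -/
noncomputable def EX (k : ℕ) (a b : E) (F : (ℕ → E) → ENNReal) : ENNReal :=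
  ∫⁻ y : Fin k → E, W k a y b * F (pth a y b)

theorem EX_meas (k : ℕ) (b : E) (F : (ℕ → E) → ENNReal) (hF : Measurable F) :
    Measurable fun a => EX k a b F := by
  unfold EX
  refine Measurable.lintegral_prod_right' (f := fun p : E × (Fin k → E) =>
    W k p.1 p.2 b * F (pth p.1 p.2 b)) ?_
  exact (W_meas' k measurable_fst measurable_snd measurable_const).mul
    (hF.comp (pth_meas measurable_fst measurable_snd measurable_const))

/-- shift of a path -/
def sh (j : ℕ) (ω : ℕ → E) : ℕ → E := fun l => ω (l + j)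

theorem sh_meas (j : ℕ) : Measurable (sh j) :=
  measurable_pi_lambda _ fun _ => measurable_pi_apply _

theorem EX_peel (k : ℕ) (a b : E) (κ : E → E → ENNReal) (hκ : Measurable (Function.uncurry κ))
    (F : (ℕ → E) → ENNReal) (hF : Measurable F) :
    EX (k + 1) a b (fun ω => κ (ω 0) (ω 1) * F (sh 1 ω)) =
      ∫⁻ y0, g 1 (y0 - a) * κ a y0 * EX k y0 b F := by
  unfold EX
  have hm : Measurable fun ω : ℕ → E => κ (ω 0) (ω 1) * F (sh 1 ω) :=
    mmul (kap_meas κ hκ 0 1) (hF.comp (sh_meas 1))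
  rw [volume_pi, lint_cons volume _ (WF_meas (k + 1) a b _ hm)]
  refine lintegral_congr fun y0 => ?_
  rw [← lintegral_const_mul _ (WF_meas k y0 b F hF), volume_pi]
  refine lintegral_congr fun y => ?_
  have e : sh 1 (pth a (Fin.cons y0 y : Fin (k + 1) → E) b) = pth y0 y b := by
    funext l
    exact pth_cons a y0 y b l
  have e1 : pth a (Fin.cons y0 y : Fin (k + 1) → E) b 1 = y0 :=
    (pth_cons a y0 y b 0).trans (pth_zero _ _ _)
  rw [W_cons, e, e1, pth_zero]
  ring

theorem EX_peel1 (k : ℕ) (a b : E) (F : (ℕ → E) → ENNReal) (hF : Measurable F) :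
    EX (k + 1) a b (fun ω => F (sh 1 ω)) = ∫⁻ y0, g 1 (y0 - a) * EX k y0 b F := by
  have h := EX_peel k a b (fun _ _ => 1) measurable_const F hF
  simpa only [one_mul, mul_one] using h

theorem EX_one (b : E) : ∀ (k : ℕ) (a : E), EX k a b (fun _ => 1) = g (k + 1) (b - a)
  | 0, a => by
    unfold EX W g
    simp [cw, volume_pi]
  | k + 1, a => by
    have h := EX_peel1 k a b (fun _ => 1) measurable_const
    rw [h]
    simp_rw [EX_one b k]
    rw [g_ck one_pos (by positivity)]
    congr 1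
    push_cast
    ring

theorem EX_skip (m : ℕ) (b : E) (F : (ℕ → E) → ENNReal) (hF : Measurable F) :
    ∀ (j : ℕ) (a : E), EX (m + (j + 1)) a b (fun ω => F (sh (j + 1) ω)) =
      ∫⁻ y, g (j + 1) (y - a) * EX m y b F
  | 0, a => by
    simpa using EX_peel1 m a b F hF
  | j + 1, a => by
    have h := EX_peel1 (m + (j + 1)) a b (fun ω => F (sh (j + 1) ω)) (hF.comp (sh_meas _))
    have e : (fun ω => F (sh (j + 1) (sh 1 ω))) = fun ω => F (sh (j + 1 + 1) ω) := by
      funext ω
      congr 1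
    rw [e] at h
    rw [← add_assoc m (j + 1) 1, h]
    simp_rw [EX_skip m b F hF j]
    rw [heat_heat one_pos (by positivity) _ (EX_meas m b F hF)]
    refine lintegral_congr fun z => ?_
    congr 2
    push_cast
    ring

theorem pth_lin (k : ℕ) (P Q : E) (β : Fin k → E) (l : ℕ) (hl : l ≤ k + 1) :
    pth P (β + lin k P Q) Q l = bp k P Q β l := by
  unfold bp pth
  have hk : (k : ℝ) + 1 ≠ 0 := by positivity
  rcases l with _ | l
  · simp
  · by_cases h : l < k
    · simp only [Nat.add_eq_zero_iff, one_ne_zero, and_false, if_false, Nat.add_sub_cancel, h,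
        dif_pos, Pi.add_apply, lin]
      push_cast
      abel
    · have : l = k := by omega
      subst this
      simp only [Nat.add_eq_zero_iff, one_ne_zero, and_false, if_false, Nat.add_sub_cancel,
        lt_irrefl, dif_neg, not_false_eq_true]
      push_cast
      rw [div_self hk]
      simp

theorem nu_EX (k : ℕ) (P Q : E) (F : (ℕ → E) → ENNReal) (hF : Measurable F) :
    ∫⁻ β, F (pth P (β + lin k P Q) Q) ∂nu k = (g (k + 1) (Q - P))⁻¹ * EX k P Q F := by
  have hk : (0 : ℝ) < k + 1 := by positivity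
  have h := nu_drift k P Q (fun y => F (pth P y Q))
    (hF.comp (pth_meas measurable_const measurable_id measurable_const))
  unfold EX
  rw [← h, ← mul_assoc, ENNReal.inv_mul_cancel (g_ne_zero hk _) (g_ne_top _ _), one_mul]

theorem nu_prob (k : ℕ) : IsProbabilityMeasure (nu k) := by
  have hk : (0 : ℝ) < k + 1 := by positivity
  have h := nu_EX k 0 0 (fun _ => 1) measurable_const
  rw [EX_one, ENNReal.inv_mul_cancel (g_ne_zero hk _) (g_ne_top _ _)] at h
  constructor
  simpa using h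

theorem gam_lint (f : E → ENNReal) (hf : Measurable f) : ∫⁻ x, f x ∂gam = ∫⁻ x, g 1 x * f x := by
  unfold gam
  exact lintegral_withDensity_eq_lintegral_mul _ (g_meas 1) hf

theorem gam_prob : IsProbabilityMeasure gam := by
  constructor
  have h := gam_lint (fun _ => 1) measurable_const
  simp only [mul_one] at h
  rw [g_int0 one_pos] at h
  simpa using h

theorem meas_bp (k l : ℕ) :
    Measurable fun x : E × E × (Fin k → E) => bp k x.1 x.2.1 x.2.2 l := by
  unfold bp
  have h1 : Measurable fun x : E × E × (Fin k → E) =>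
      x.1 + ((l : ℝ) / (k + 1)) • (x.2.1 - x.1) := by fun_prop
  have h2 : Measurable fun x : E × E × (Fin k → E) => pth 0 x.2.2 0 :=
    pth_meas measurable_const measurable_snd.snd measurable_const
  exact h1.add ((measurable_pi_apply l).comp h2)

theorem edge_meas (κ : E → E → ENNReal) (hκ : Measurable (Function.uncurry κ))
    (F : (ℕ → E) → ENNReal) (hF : Measurable F) :
    Measurable fun ω : ℕ → E => κ (ω 0) (ω 1) * F (sh 1 ω) :=
  mmul (kap_meas κ hκ 0 1) (hF.comp (sh_meas 1))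

theorem EX_edge (m j : ℕ) (a b : E) (κ : E → E → ENNReal) (hκ : Measurable (Function.uncurry κ))
    (F : (ℕ → E) → ENNReal) (hF : Measurable F) :
    EX (m + 1 + (j + 1)) a b (fun ω => κ (ω (j + 1)) (ω (j + 1 + 1)) * F (sh (j + 1 + 1) ω)) =
      ∫⁻ u, ∫⁻ u', g (j + 1) (u - a) * g 1 (u' - u) * κ u u' * EX m u' b F := by
  have h := EX_skip (m + 1) b _ (edge_meas κ hκ F hF) j a
  have e : (fun ω : ℕ → E => κ (sh (j + 1) ω 0) (sh (j + 1) ω 1) * F (sh 1 (sh (j + 1) ω))) =
      fun ω => κ (ω (j + 1)) (ω (j + 1 + 1)) * F (sh (j + 1 + 1) ω) := by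
    funext ω
    have e1 : sh 1 (sh (j + 1) ω) = sh (j + 1 + 1) ω := by
      funext l
      simp only [sh]
      congr 1
      omega
    rw [e1]
    simp only [sh, zero_add, add_comm 1 (j + 1)]
  rw [e] at h
  rw [h]
  refine lintegral_congr fun u => ?_
  rw [EX_peel m u b κ hκ F hF, ← lintegral_const_mul' _ _ (g_ne_top _ _)]
  refine lintegral_congr fun u' => ?_
  ring

theorem one_edge (k l : ℕ) (P Q : E) (κ : E → E → ENNReal) (hκ : Measurable (Function.uncurry κ))
    (h1 : 1 ≤ l) (h2 : l + 1 ≤ k) :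
    ∫⁻ β, κ (bp k P Q β l) (bp k P Q β (l + 1)) ∂nu k =
      (ENNReal.ofReal (ph (k + 1) (Q - P)))⁻¹ *
        ∫⁻ u, ∫⁻ u', ENNReal.ofReal (ph l (u - P)) * ENNReal.ofReal (ph 1 (u' - u)) * κ u u' *
          ENNReal.ofReal (ph (k - l) (Q - u')) := by
  obtain ⟨j, rfl⟩ : ∃ j, l = j + 1 := ⟨l - 1, by omega⟩
  obtain ⟨m, rfl⟩ : ∃ m, k = m + 1 + (j + 1) := ⟨k - (j + 1) - 1, by omega⟩
  have h := EX_edge m j P Q κ hκ (fun _ => 1) measurable_const
  have h' := nu_EX (m + 1 + (j + 1)) P Q (fun ω => κ (ω (j + 1)) (ω (j + 1 + 1)) * 1)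
    (mmul (kap_meas κ hκ _ _) measurable_const)
  rw [h] at h'
  simp only [mul_one] at h'
  simp_rw [pth_lin (m + 1 + (j + 1)) P Q _ (j + 1) (by omega),
    pth_lin (m + 1 + (j + 1)) P Q _ (j + 1 + 1) (by omega), EX_one] at h'
  rw [h']
  have e1 : (((m + 1 + (j + 1) : ℕ) : ℝ) - ((j + 1 : ℕ) : ℝ)) = (m : ℝ) + 1 := by
    push_cast
    ring
  have e2 : ((j + 1 : ℕ) : ℝ) = (j : ℝ) + 1 := by push_cast; ring
  rw [e1, e2]
  rfl

theorem two_edge (k l l' : ℕ) (P Q : E) (κ κ' : E → E → ENNReal)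
    (hκ : Measurable (Function.uncurry κ)) (hκ' : Measurable (Function.uncurry κ'))
    (h1 : 1 ≤ l) (h2 : l + 2 ≤ l') (h3 : l' + 1 ≤ k) :
    ∫⁻ β, κ (bp k P Q β l) (bp k P Q β (l + 1)) * κ' (bp k P Q β l') (bp k P Q β (l' + 1)) ∂nu k =
      (ENNReal.ofReal (ph (k + 1) (Q - P)))⁻¹ *
        ∫⁻ u, ∫⁻ u', ENNReal.ofReal (ph l (u - P)) * ENNReal.ofReal (ph 1 (u' - u)) * κ u u' *
          ∫⁻ v, ∫⁻ v', ENNReal.ofReal (ph (l' - l - 1) (v - u')) * ENNReal.ofReal (ph 1 (v' - v)) *
            κ' v v' * ENNReal.ofReal (ph (k - l') (Q - v')) := by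
  obtain ⟨j, rfl⟩ : ∃ j, l = j + 1 := ⟨l - 1, by omega⟩
  obtain ⟨i, rfl⟩ : ∃ i, l' = i + 1 + (j + 1 + 1) := ⟨l' - (j + 1 + 1) - 1, by omega⟩
  obtain ⟨m, rfl⟩ : ∃ m, k = m + 1 + (i + 1) + 1 + (j + 1) :=
    ⟨k - (j + 1) - 1 - (i + 1) - 1, by omega⟩
  have hF : Measurable fun ω : ℕ → E => κ' (ω (i + 1)) (ω (i + 1 + 1)) * 1 :=
    mmul (kap_meas κ' hκ' _ _) measurable_const
  have h := EX_edge (m + 1 + (i + 1)) j P Q κ hκ _ hF
  have h0 := fun a => EX_edge m i a Q κ' hκ' (fun _ => 1) measurable_const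
  simp_rw [h0, EX_one] at h
  have h' := nu_EX (m + 1 + (i + 1) + 1 + (j + 1)) P Q
    (fun ω => κ (ω (j + 1)) (ω (j + 1 + 1)) *
      (κ' (sh (j + 1 + 1) ω (i + 1)) (sh (j + 1 + 1) ω (i + 1 + 1)) * 1))
    (mmul (kap_meas κ hκ _ _) (hF.comp (sh_meas _)))
  rw [h] at h'
  simp only [mul_one, sh] at h'
  have e0 : i + 1 + 1 + (j + 1 + 1) = i + 1 + (j + 1 + 1) + 1 := by omega
  simp_rw [e0, pth_lin (m + 1 + (i + 1) + 1 + (j + 1)) P Q _ (j + 1) (by omega),
    pth_lin (m + 1 + (i + 1) + 1 + (j + 1)) P Q _ (j + 1 + 1) (by omega),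
    pth_lin (m + 1 + (i + 1) + 1 + (j + 1)) P Q _ (i + 1 + (j + 1 + 1)) (by omega),
    pth_lin (m + 1 + (i + 1) + 1 + (j + 1)) P Q _ (i + 1 + (j + 1 + 1) + 1) (by omega)] at h'
  rw [h']
  have e1 : (((m + 1 + (i + 1) + 1 + (j + 1) : ℕ) : ℝ) - ((i + 1 + (j + 1 + 1) : ℕ) : ℝ)) =
      (m : ℝ) + 1 := by
    push_cast
    ring
  have e3 : ((i + 1 + (j + 1 + 1) : ℕ) : ℝ) - ((j + 1 : ℕ) : ℝ) - 1 = (i : ℝ) + 1 := by
    push_cast
    ring
  have e2 : ((j + 1 : ℕ) : ℝ) = (j : ℝ) + 1 := by push_cast; ring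
  rw [e1, e3, e2]
  rfl

end Pool.Agent.MP_037c5a_pr.Ch

end

section

open MeasureTheory Finset

namespace Pool.Agent.MP_037c5a_pr

namespace Ch

/-- indicator of the closed disc -/
noncomputable def ib (D : ℝ) (x : E) : ENNReal := (Metric.closedBall (0 : E) D).indicator 1 x

theorem ib_meas (D : ℝ) : Measurable (ib D) :=
  measurable_const.indicator Metric.isClosed_closedBall.measurableSet

theorem ib_of_le {D : ℝ} {x : E} (h : ‖x‖ ≤ D) : ib D x = 1 := by
  unfold ib
  rw [Set.indicator_of_mem (by simpa using h)]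
  rfl

theorem ib_of_not {D : ℝ} {x : E} (h : ¬ ‖x‖ ≤ D) : ib D x = 0 := by
  unfold ib
  rw [Set.indicator_of_notMem (by simpa using h)]

/-- expected number of visits to the disc in `m` steps -/
noncomputable def GG (D : ℝ) : ℕ → E → ENNReal
  | 0, _ => 0
  | m + 1, x => ∫⁻ y, g 1 (y - x) * (ib D y + GG D m y)

theorem heat_meas (t : ℝ) (f : E → ENNReal) (hf : Measurable f) :
    Measurable fun x => ∫⁻ y, g t (y - x) * f y :=
  Measurable.lintegral_prod_right' (f := fun p : E × E => g t (p.2 - p.1) * f p.2)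
    (mmul (g2_meas t) (hf.comp measurable_snd))

theorem GG_meas (D : ℝ) : ∀ m, Measurable (GG D m)
  | 0 => measurable_const
  | m + 1 => heat_meas 1 _ ((ib_meas D).add (GG_meas D m))

theorem heat_ib {D s : ℝ} (hD : 0 < D) (hs : 0 < s) (x : E) :
    ∫⁻ y, g s (y - x) * ib D y ≤ ENNReal.ofReal (D ^ 2 / 2 * s⁻¹) := by
  have hpi := Real.pi_pos
  calc ∫⁻ y, g s (y - x) * ib D y ≤ ∫⁻ y, ENNReal.ofReal ((2 * Real.pi * s)⁻¹) * ib D y := by
        refine lintegral_mono fun y => ?_
        exact mul_le_mul_left (ENNReal.ofReal_le_ofReal (ph_le hs _)) _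
    _ = ENNReal.ofReal ((2 * Real.pi * s)⁻¹) * volume (Metric.closedBall (0 : E) D) := by
        rw [lintegral_const_mul _ (ib_meas D)]
        unfold ib
        rw [lintegral_indicator_one Metric.isClosed_closedBall.measurableSet]
    _ = _ := by
        rw [EuclideanSpace.volume_closedBall_fin_two, ← ENNReal.ofReal_pow hD.le,
          ← ENNReal.ofReal_mul (by positivity), ← ENNReal.ofReal_mul (by positivity)]
        congr 1
        field_simp

theorem heat_GG {D : ℝ} (hD : 0 < D) : ∀ (m s : ℕ) (x : E),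
    ∫⁻ y, g (s + 1) (y - x) * (ib D y + GG D m y) ≤
      ENNReal.ofReal (D ^ 2 / 2 * ∑ i ∈ range (m + 1), ((s + i + 1 : ℕ) : ℝ)⁻¹)
  | 0, s, x => by
    have h := heat_ib hD (s := s + 1) (by positivity) x
    simpa [GG] using h
  | m + 1, s, x => by
    have h := heat_ib hD (s := s + 1) (by positivity) x
    have ih := heat_GG hD m (s + 1) x
    simp_rw [mul_add]
    have hm : Measurable fun y : E => g (s + 1) (y - x) * ib D y :=
      mmul ((g_meas _).comp (measurable_sub_const _)) (ib_meas D)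
    rw [lintegral_add_left hm]
    simp only [GG]
    rw [heat_heat (by positivity) one_pos (fun y => ib D y + GG D m y)
      ((ib_meas D).add (GG_meas D m)), sum_range_succ',
      mul_add, add_comm (D ^ 2 / 2 * _),
      ENNReal.ofReal_add (by positivity) (by positivity)]
    refine add_le_add ?_ ?_
    · simpa using h
    · have e : ∀ i : ℕ, s + (i + 1) + 1 = s + 1 + i + 1 := fun i => by omega
      simp_rw [e]
      simpa using ih

theorem GG_le {D : ℝ} (hD : 0 < D) (m k : ℕ) (hmk : m ≤ k) (x : E) :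
    GG D m x ≤ ENNReal.ofReal (2 * D ^ 2 * (1 + Real.log (k + 1))) := by
  rcases m with _ | m
  · simp [GG]
  have h := heat_GG hD m 0 x
  simp only [Nat.cast_zero, zero_add] at h
  refine h.trans (ENNReal.ofReal_le_ofReal ?_)
  have h1 := harmonic_le_one_add_log (m + 1)
  have h2 : ((harmonic (m + 1) : ℚ) : ℝ) = ∑ i ∈ range (m + 1), ((i + 1 : ℕ) : ℝ)⁻¹ := by
    unfold harmonic
    push_cast
    rfl
  rw [h2] at h1
  have h3 : Real.log ((m + 1 : ℕ) : ℝ) ≤ Real.log (k + 1) := by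
    apply Real.log_le_log (by positivity)
    have : ((m + 1 : ℕ) : ℝ) ≤ k := by exact_mod_cast hmk
    linarith
  have h4 : 0 ≤ Real.log ((k : ℝ) + 1) := Real.log_nonneg (by linarith [Nat.cast_nonneg (α := ℝ) k])
  have h5 : 0 ≤ D ^ 2 := sq_nonneg D
  nlinarith

theorem prodib_meas (D : ℝ) (m : ℕ) (cc : ℕ → ENNReal) :
    Measurable fun ω : ℕ → E => ∏ l ∈ range m, (1 + cc l * ib D (ω (l + 1))) :=
  Finset.measurable_prod _ fun _ _ =>
    measurable_const.add (mmul measurable_const ((ib_meas D).comp (measurable_pi_apply _)))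

theorem khas_aux {D : ℝ} (Q : E) (c Φ : ENNReal) (hc : c ≠ ⊤) (hΦ : Φ ≠ ⊤) (k : ℕ)
    (hG : ∀ m ≤ k, ∀ x, 2 * c * GG D m x ≤ 1) :
    ∀ m ≤ k, ∀ cc : ℕ → ENNReal, (∀ l, cc l ≤ c) →
      (∀ l < m, cc l ≠ 0 → ∀ u : E, ‖u‖ ≤ D → g ((m - l : ℕ) : ℝ) (Q - u) ≤ Φ) → ∀ x : E,
      EX m x Q (fun ω => ∏ l ∈ range m, (1 + cc l * ib D (ω (l + 1)))) ≤
        g (m + 1) (Q - x) + Φ * (2 * c * GG D m x)
  | 0, _, cc, _, _, x => by
    simp only [range_zero, prod_empty]
    rw [EX_one]
    exact le_self_add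
  | m + 1, hm, cc, h1, h2, x => by
    have ih := khas_aux Q c Φ hc hΦ k hG m (by omega) (fun l => cc (l + 1)) (fun l => h1 _)
      (fun l hl h0 u hu => by
        have := h2 (l + 1) (by omega) h0 u hu
        rwa [Nat.add_sub_add_right] at this)
    have hκ : Measurable (Function.uncurry fun (_ : E) (y : E) => 1 + cc 0 * ib D y) :=
      measurable_const.add (mmul measurable_const ((ib_meas D).comp measurable_snd))
    have h := EX_peel m x Q (fun _ y => 1 + cc 0 * ib D y) hκ _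
      (prodib_meas D m fun l => cc (l + 1))
    have e : (fun ω : ℕ → E => ∏ l ∈ range (m + 1), (1 + cc l * ib D (ω (l + 1)))) =
        fun ω => (1 + cc 0 * ib D (ω 1)) *
          ∏ l ∈ range m, (1 + cc (l + 1) * ib D (sh 1 ω (l + 1))) := by
      funext ω
      rw [prod_range_succ', mul_comm]
      rfl
    rw [e, h]
    have hb : ∀ y, g 1 (y - x) * (1 + cc 0 * ib D y) *
        EX m y Q (fun ω => ∏ l ∈ range m, (1 + cc (l + 1) * ib D (ω (l + 1)))) ≤
        g 1 (y - x) * g (m + 1) (Q - y) + Φ * (2 * c) * (g 1 (y - x) * (ib D y + GG D m y)) := by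
      intro y
      have i1 := ih y
      have i2 : cc 0 * ib D y *
          EX m y Q (fun ω => ∏ l ∈ range m, (1 + cc (l + 1) * ib D (ω (l + 1)))) ≤
          Φ * (2 * c) * ib D y := by
        by_cases h0 : cc 0 = 0
        · simp [h0]
        by_cases hy : ‖y‖ ≤ D
        · have i3 := h2 0 (by omega) h0 y hy
          rw [Nat.sub_zero] at i3
          push_cast at i3
          have i4 := hG m (by omega) y
          rw [ib_of_le hy, mul_one, mul_one]
          calc _ ≤ c * (Φ + Φ * 1) := by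
                refine mul_le_mul' (h1 0) (i1.trans (add_le_add i3 ?_))
                exact mul_le_mul_right i4 _
            _ = _ := by ring
        · simp [ib_of_not hy]
      calc _ = g 1 (y - x) * (EX m y Q (fun ω => ∏ l ∈ range m, (1 + cc (l + 1) * ib D (ω (l + 1)))) +
              cc 0 * ib D y *
                EX m y Q (fun ω => ∏ l ∈ range m, (1 + cc (l + 1) * ib D (ω (l + 1))))) := by ring
        _ ≤ g 1 (y - x) * (g (m + 1) (Q - y) + Φ * (2 * c * GG D m y) + Φ * (2 * c) * ib D y) :=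
            mul_le_mul_right (add_le_add i1 i2) _
        _ = _ := by ring
    refine (lintegral_mono hb).trans (le_of_eq ?_)
    have hm2 : Measurable fun y : E => g 1 (y - x) * g (m + 1) (Q - y) :=
      mmul ((g_meas _).comp (measurable_sub_const _))
        ((g_meas _).comp (measurable_const.sub measurable_id))
    rw [lintegral_add_left hm2, g_ck one_pos (by positivity),
      lintegral_const_mul' _ _ (ENNReal.mul_ne_top hΦ (ENNReal.mul_ne_top (by simp) hc))]
    simp only [GG]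
    push_cast
    rw [add_comm (1 : ℝ) ((m : ℝ) + 1), mul_assoc Φ]

theorem khas (k : ℕ) (P Q : E) (w : Finset ℕ) (D c Φ : ℝ) (hD : 0 < D) (hc : 0 ≤ c) (hΦ : 0 ≤ Φ)
    (hw : ∀ l ∈ w, 1 ≤ l ∧ l ≤ k)
    (hb : ∀ l ∈ w, ∀ u : E, ‖u‖ ≤ D → ph (k + 1 - l) (Q - u) ≤ Φ)
    (hs : c * (2 * D ^ 2 * (1 + Real.log (k + 1))) ≤ 1 / 2) :
    ∫⁻ β, ∏ l ∈ w, ENNReal.ofReal (1 + if ‖bp k P Q β l‖ ≤ D then c else 0) ∂nu k ≤
      ENNReal.ofReal (1 + Φ / ph (k + 1) (Q - P)) := by
  have hk : (0 : ℝ) < k + 1 := by positivity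
  have hG : ∀ m ≤ k, ∀ x, 2 * ENNReal.ofReal c * GG D m x ≤ 1 := by
    intro m hm x
    refine (mul_le_mul_right (GG_le hD m k hm x) _).trans ?_
    rw [mul_assoc, ← ENNReal.ofReal_mul hc, ← ENNReal.ofReal_ofNat 2,
      ← ENNReal.ofReal_mul (by norm_num), ← ENNReal.ofReal_one]
    exact ENNReal.ofReal_le_ofReal (by linarith)
  set cc : ℕ → ENNReal := fun l => if l + 1 ∈ w then ENNReal.ofReal c else 0 with hcc
  have h := khas_aux Q (ENNReal.ofReal c) (ENNReal.ofReal Φ) ENNReal.ofReal_ne_top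
    ENNReal.ofReal_ne_top k hG k le_rfl cc
    (fun l => by
      simp only [hcc]
      split_ifs
      · exact le_rfl
      · exact zero_le)
    (fun l hl h0 u hu => by
      have hl1 : l + 1 ∈ w := by
        by_contra hn
        exact h0 (by simp only [hcc, hn, if_false])
      have := hb _ hl1 u hu
      refine ENNReal.ofReal_le_ofReal (le_trans (le_of_eq ?_) this)
      congr 1
      rw [Nat.cast_sub hl.le]
      push_cast
      ring) P
  have h' := nu_EX k P Q _ (prodib_meas D k cc)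
  have e : ∀ β, ∏ l ∈ w, ENNReal.ofReal (1 + if ‖bp k P Q β l‖ ≤ D then c else 0) =
      ∏ l ∈ range k, (1 + cc l * ib D (pth P (β + lin k P Q) Q (l + 1))) := by
    intro β
    have e1 : ∏ l ∈ w, ENNReal.ofReal (1 + if ‖bp k P Q β l‖ ≤ D then c else 0) =
        ∏ l ∈ Ico 1 (k + 1),
          if l ∈ w then ENNReal.ofReal (1 + if ‖bp k P Q β l‖ ≤ D then c else 0) else 1 := by
      rw [prod_ite_mem]
      congr 1
      ext l
      simp only [mem_inter, mem_Ico]
      constructor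
      · intro hl
        have := hw l hl
        exact ⟨⟨this.1, by omega⟩, hl⟩
      · exact fun hl => hl.2
    rw [e1, prod_Ico_eq_prod_range, Nat.add_sub_cancel]
    refine prod_congr rfl fun l hl => ?_
    rw [pth_lin k P Q β (l + 1) (by have := mem_range.1 hl; omega), add_comm 1 l]
    simp only [hcc]
    by_cases h1 : l + 1 ∈ w
    · by_cases h2 : ‖bp k P Q β (l + 1)‖ ≤ D
      · simp only [h1, h2, if_true, ib_of_le h2, mul_one]
        rw [ENNReal.ofReal_add zero_le_one hc, ENNReal.ofReal_one]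
      · simp [h1, h2, ib_of_not h2]
    · simp [h1]
  simp_rw [e]
  rw [h']
  calc _ ≤ (g (k + 1) (Q - P))⁻¹ * (g (k + 1) (Q - P) + ENNReal.ofReal Φ * 1) :=
        mul_le_mul_right (h.trans (add_le_add le_rfl (mul_le_mul_right (hG k le_rfl P) _))) _
    _ = _ := by
        rw [mul_add, ENNReal.inv_mul_cancel (g_ne_zero hk _) (g_ne_top _ _), mul_one,
          ENNReal.ofReal_add zero_le_one (div_nonneg hΦ (ph_pos hk _).le), ENNReal.ofReal_one,
          ENNReal.ofReal_div_of_pos (ph_pos hk _), mul_comm]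
        rfl

/-- running sums of the steps -/
noncomputable def ps (k : ℕ) (a : E) (c : Fin (k + 1) → E) (l : Fin k) : E :=
  a + ∑ i ∈ univ.filter (fun i : Fin (k + 1) => i.val ≤ l.val), c i

theorem ps_meas {X : Type} [MeasurableSpace X] (k : ℕ) {a : X → E} {c : X → Fin (k + 1) → E}
    (ha : Measurable a) (hc : Measurable c) : Measurable fun x => ps k (a x) (c x) :=
  measurable_pi_lambda _ fun _ =>
    ha.add (Finset.measurable_sum _ fun i _ => (measurable_pi_apply i).comp hc)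

theorem ps_cons (k : ℕ) (a c0 : E) (c : Fin (k + 1) → E) :
    ps (k + 1) a (Fin.cons c0 c) = Fin.cons (a + c0) (ps k (a + c0) c) := by
  funext l
  refine Fin.cases ?_ (fun l => ?_) l
  · simp [ps, sum_filter]
  · simp [ps, sum_filter, Fin.sum_univ_succ, add_assoc]

theorem cons_meas {X : Type} [MeasurableSpace X] {k : ℕ} {a : X → E} {c : X → Fin k → E}
    (ha : Measurable a) (hc : Measurable c) :
    Measurable fun x => (Fin.cons (a x) (c x) : Fin (k + 1) → E) :=
  measurable_pi_lambda _ fun l => by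
    refine Fin.cases ?_ (fun l => ?_) l
    · simpa using ha
    · simp only [Fin.cons_succ]
      exact (measurable_pi_apply l).comp hc

theorem walk_law : ∀ (k : ℕ) (a : E) (F : (Fin k → E) × E → ENNReal), Measurable F →
    ∫⁻ c : Fin (k + 1) → E, F (ps k a c, a + ∑ i, c i) ∂(Measure.pi fun _ => gam) =
      ∫⁻ b, ∫⁻ y, W k a y b * F (y, b)
  | 0, a, F, hF => by
    have := gam_prob
    have hm : Measurable fun c : Fin (0 + 1) → E => F (ps 0 a c, a + ∑ i, c i) :=
      hF.comp ((ps_meas 0 measurable_const measurable_id).prodMk (by fun_prop))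
    rw [lint_cons gam _ hm]
    have e : ∀ (c0 : E) (c : Fin 0 → E),
        F (ps 0 a (Fin.cons c0 c), a + ∑ i, (Fin.cons c0 c : Fin (0 + 1) → E) i) =
          F (default, a + c0) := by
      intro c0 c
      congr 2
      · exact Subsingleton.elim _ _
      · simp
    have e2 : ∀ (b : E) (y : Fin 0 → E), W 0 a y b * F (y, b) = g 1 (b - a) * F (default, b) := by
      intro b y
      rw [Subsingleton.elim y default]
      rfl
    simp_rw [e, e2]
    simp only [lintegral_const, measure_univ, mul_one, volume_pi, Measure.pi_univ, univ_eq_empty,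
      prod_empty]
    have hm3 : Measurable fun y0 : E => F (default, a + y0) :=
      hF.comp (measurable_const.prodMk (measurable_const_add a))
    rw [gam_lint _ hm3,
      ← lintegral_add_left_eq_self (fun b => g 1 (b - a) * F (default, b)) a]
    simp
  | k + 1, a, F, hF => by
    have := gam_prob
    have hm : Measurable fun c : Fin (k + 1 + 1) → E => F (ps (k + 1) a c, a + ∑ i, c i) :=
      hF.comp ((ps_meas (k + 1) measurable_const measurable_id).prodMk (by fun_prop))
    rw [lint_cons gam _ hm]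
    have e : ∀ c0 : E, ∫⁻ c : Fin (k + 1) → E, F (ps (k + 1) a (Fin.cons c0 c),
        a + ∑ i, (Fin.cons c0 c : Fin (k + 1 + 1) → E) i) ∂(Measure.pi fun _ => gam) =
        ∫⁻ b, ∫⁻ y, W k (a + c0) y b * F (Fin.cons (a + c0) y, b) := by
      intro c0
      rw [← walk_law k (a + c0) (fun p => F (Fin.cons (a + c0) p.1, p.2))
        (hF.comp ((cons_meas measurable_const measurable_fst).prodMk measurable_snd))]
      refine lintegral_congr fun c => ?_
      rw [ps_cons, Fin.sum_univ_succ]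
      simp [add_assoc]
    simp_rw [e]
    have hJ : Measurable fun p : (E × E) × (Fin k → E) =>
        W k p.1.1 p.2 p.1.2 * F (Fin.cons p.1.1 p.2, p.1.2) :=
      mmul (W_meas' k measurable_fst.fst measurable_snd measurable_fst.snd)
        (hF.comp ((cons_meas measurable_fst.fst measurable_snd).prodMk measurable_fst.snd))
    have hI : Measurable fun p : E × E => ∫⁻ y, W k p.1 y p.2 * F (Fin.cons p.1 y, p.2) :=
      hJ.lintegral_prod_right'
    have hH : Measurable fun y0 : E => ∫⁻ b, ∫⁻ y, W k y0 y b * F (Fin.cons y0 y, b) :=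
      hI.lintegral_prod_right'
    have hH' : Measurable fun y0 : E =>
        ∫⁻ b, ∫⁻ y, W k (a + y0) y b * F (Fin.cons (a + y0) y, b) :=
      hH.comp (measurable_const_add a)
    rw [gam_lint _ hH']
    have e2 := lintegral_add_left_eq_self (μ := (volume : Measure E))
      (fun y0 => g 1 (y0 - a) * ∫⁻ b, ∫⁻ y, W k y0 y b * F (Fin.cons y0 y, b)) a
    simp only [add_sub_cancel_left] at e2
    rw [e2]
    simp_rw [← lintegral_const_mul' _ _ (g_ne_top _ _)]
    rw [lintegral_lintegral_swap]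
    · refine lintegral_congr fun b => ?_
      have hm2 : Measurable fun y : Fin (k + 1) → E => W (k + 1) a y b * F (y, b) :=
        mmul (W_meas' _ measurable_const measurable_id measurable_const)
          (hF.comp (measurable_id.prodMk measurable_const))
      rw [volume_pi (α := fun _ : Fin (k + 1) => E), lint_cons volume _ hm2]
      refine lintegral_congr fun y0 => lintegral_congr fun y => ?_
      rw [W_cons, mul_assoc]
    · refine Measurable.aemeasurable ?_
      exact (mmul ((g_meas 1).comp (measurable_fst.fst.sub measurable_const)) hJ).lintegral_prod_right'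

theorem g_scale (k : ℕ) (M : ℝ) (hM : 0 < M) (hM2 : M ^ 2 = k + 1) (H : E → ENNReal)
    (hH : Measurable H) : ∫⁻ b, g (k + 1) b * H (M⁻¹ • b) = ∫⁻ x, g 1 x * H x := by
  have hk : (0 : ℝ) < k + 1 := by positivity
  have hpi := Real.pi_pos
  have e : ∀ b : E, g (k + 1) b = ENNReal.ofReal ((M ^ 2)⁻¹) * g 1 (M⁻¹ • b) := by
    intro b
    unfold g ph
    rw [← ENNReal.ofReal_mul (by positivity), ← hM2, norm_smul, Real.norm_eq_abs,
      abs_of_pos (inv_pos.2 hM)]
    congr 1
    have : -‖b‖ ^ 2 / (2 * M ^ 2) = -(M⁻¹ * ‖b‖) ^ 2 / (2 * 1) := by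
      field_simp
    rw [this]
    field_simp
  simp_rw [e, mul_assoc]
  rw [lintegral_const_mul' _ _ ENNReal.ofReal_ne_top]
  have hm : Measurable fun x : E => g 1 x * H x := mmul (g_meas 1) hH
  have h := lintegral_map (μ := (volume : Measure E)) hm (measurable_const_smul M⁻¹)
  rw [Measure.map_addHaar_smul _ (inv_pos.2 hM).ne', lintegral_smul_measure] at h
  rw [← h, smul_eq_mul, ← mul_assoc, ← ENNReal.ofReal_mul (by positivity)]
  simp only [finrank_euclideanSpace, Fintype.card_fin, inv_pow, inv_inv]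
  rw [abs_of_pos (by positivity), inv_mul_cancel₀ (by positivity), ENNReal.ofReal_one, one_mul]

end Ch

open Ch

theorem stmtChain : StmtChain where
  gam_prob := gam_prob
  nu_prob := nu_prob
  ph_int := fun _ ht a => g_int ht a
  meas_bp := meas_bp
  one_edge := one_edge
  two_edge := two_edge
  khas := khas

theorem stmtSplit : StmtSplit := by
  intro k M hM hM2
  have := gam_prob
  have := nu_prob k
  have hT : Measurable fun p : (Fin k → E) × E => ((M⁻¹ • p.2, p.1 - lin k 0 p.2) : E × (Fin k → E)) := by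
    refine Measurable.prodMk (by fun_prop) (measurable_fst.sub ?_)
    refine measurable_pi_lambda _ fun l => ?_
    unfold lin
    fun_prop
  have hS : Measurable fun c : Fin (k + 1) → E => ((ps k 0 c, 0 + ∑ i, c i) : (Fin k → E) × E) :=
    (ps_meas k measurable_const measurable_id).prodMk (by fun_prop)
  have e : (fun c : Fin (k + 1) → E =>
        (M⁻¹ • ∑ i, c i,
          fun l : Fin k => (∑ i ∈ univ.filter (fun i : Fin (k + 1) => i.val ≤ l.val), c i) -
            (((l : ℝ) + 1) / (k + 1)) • ∑ i, c i)) =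
      (fun p : (Fin k → E) × E => ((M⁻¹ • p.2, p.1 - lin k 0 p.2) : E × (Fin k → E))) ∘
        fun c : Fin (k + 1) → E => ((ps k 0 c, 0 + ∑ i, c i) : (Fin k → E) × E) := by
    funext c
    simp only [Function.comp_apply, zero_add]
    congr 1
    funext l
    simp [ps, lin]
  rw [e]
  refine ⟨hT.comp hS, Measure.ext_of_lintegral _ fun G hG => ?_⟩
  rw [lintegral_map hG (hT.comp hS), lintegral_prod _ hG.aemeasurable,
    gam_lint _ hG.lintegral_prod_right', ← g_scale k M hM hM2 _ hG.lintegral_prod_right']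
  have h := walk_law k 0 _ (hG.comp hT)
  simp only [Function.comp_apply] at h ⊢
  rw [h]
  refine lintegral_congr fun b => ?_
  have h2 := nu_drift k 0 b (fun y => G (M⁻¹ • b, y - lin k 0 b))
    (hG.comp (measurable_const.prodMk (measurable_sub_const _)))
  rw [← h2]
  simp

end Pool.Agent.MP_037c5a_pr

end

section

open MeasureTheory Finset

namespace Pool.Agent.MP_037c5a_pr.Energy

variable {Ed : Type} [Fintype Ed] {Ω : Type} [MeasurableSpace Ω] (μ : Measure Ω)
  [IsProbabilityMeasure μ]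

theorem int_bdd {α : Type*} [MeasurableSpace α] (ν : Measure α) [IsFiniteMeasure ν] {f : α → ℝ}
    (hf : Measurable f) (hb : ∀ x, 0 ≤ f x ∧ f x ≤ 1) : Integrable f ν :=
  Integrable.of_bound hf.aestronglyMeasurable 1 (Filter.Eventually.of_forall fun x => by
    rw [Real.norm_eq_abs, abs_of_nonneg (hb x).1]; exact (hb x).2)

theorem lind_one {F : (Ed → ℝ) → ℝ} (hF : Measurable F) (hb : ∀ x, 0 ≤ F x ∧ F x ≤ 1)
    {δ ε : ℝ}
    (hs : ∀ U, ∃ l : Ed → ℝ, ∀ v : Ed → ℝ, (∀ e, |v e| ≤ δ) →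
      |F (U + v) - F (U - v) - ∑ e, l e * v e| ≤ ε)
    {ξ : Ω → Ed → ℝ} (hm : ∀ e, Measurable fun ω => ξ ω e) (hδ : ∀ ω e, |ξ ω e| ≤ δ)
    (h0 : ∀ e, ∫ ω, ξ ω e ∂μ = 0) (U : Ed → ℝ) :
    ∫ ω, F (U - ξ ω) ∂μ - ε ≤ ∫ ω, F (U + ξ ω) ∂μ := by
  obtain ⟨l, hl⟩ := hs U
  have hξ : Measurable ξ := measurable_pi_lambda _ hm
  have i1 : Integrable (fun ω => F (U + ξ ω)) μ :=
    int_bdd μ (hF.comp (hξ.const_add U)) fun _ => hb _
  have i2 : Integrable (fun ω => F (U - ξ ω)) μ :=
    int_bdd μ (hF.comp (hξ.const_sub U)) fun _ => hb _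
  have i3 : ∀ e, Integrable (fun ω => l e * ξ ω e) μ := fun e =>
    (Integrable.of_bound (hm e).aestronglyMeasurable δ (Filter.Eventually.of_forall fun x => by
      rw [Real.norm_eq_abs]; exact hδ x e)).const_mul _
  have i4 : Integrable (fun ω => ∑ e, l e * ξ ω e) μ := integrable_finsetSum _ fun e _ => i3 e
  have h1 : ∫ ω, ∑ e, l e * ξ ω e ∂μ = 0 := by
    rw [integral_finsetSum _ fun e _ => i3 e]
    refine sum_eq_zero fun e _ => ?_
    rw [integral_const_mul, h0, mul_zero]
  have h2 : ∫ ω, (F (U - ξ ω) + ∑ e, l e * ξ ω e - ε) ∂μ ≤ ∫ ω, F (U + ξ ω) ∂μ := by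
    refine integral_mono ((i2.add i4).sub (integrable_const _)) i1 fun ω => ?_
    have := (abs_le.1 (hl (ξ ω) (hδ ω))).1
    simp only
    linarith
  have i5 : Integrable (fun ω => F (U - ξ ω) + ∑ e, l e * ξ ω e) μ := i2.add i4
  rw [integral_sub i5 (integrable_const _), integral_add i2 i4, h1] at h2
  simpa using h2

theorem lind_fin {F : (Ed → ℝ) → ℝ} (hF : Measurable F) (hb : ∀ x, 0 ≤ F x ∧ F x ≤ 1)
    {δ ε : ℝ}
    (hs : ∀ U, ∃ l : Ed → ℝ, ∀ v : Ed → ℝ, (∀ e, |v e| ≤ δ) →
      |F (U + v) - F (U - v) - ∑ e, l e * v e| ≤ ε) :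
    ∀ (n : ℕ) (ξ : Fin n → Ω → Ed → ℝ), (∀ i e, Measurable fun ω => ξ i ω e) →
      (∀ i ω e, |ξ i ω e| ≤ δ) → (∀ i e, ∫ ω, ξ i ω e ∂μ = 0) → ∀ U : Ed → ℝ,
      ∫ ω, F (U - ∑ i, ξ i (ω i)) ∂(Measure.pi fun _ : Fin n => μ) - n * ε ≤
        ∫ ω, F (U + ∑ i, ξ i (ω i)) ∂(Measure.pi fun _ : Fin n => μ) := by
  intro n
  induction n with
  | zero => intro ξ _ _ _ U; simp
  | succ n ih =>
    intro ξ hm hδ h0 U
    have hξ : ∀ i, Measurable (ξ i) := fun i => measurable_pi_lambda _ (hm i)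
    set ν := Measure.pi fun _ : Fin n => μ with hν
    have hS : Measurable fun y : Fin n → Ω => ∑ i : Fin n, ξ i.succ (y i) :=
      Finset.measurable_sum _ fun i _ => (hξ i.succ).comp (measurable_pi_apply i)
    have key : ∀ G : (Ed → ℝ) → ℝ,
        ∫ ω, G (∑ i, ξ i (ω i)) ∂(Measure.pi fun _ : Fin (n + 1) => μ) =
          ∫ x : Ω × (Fin n → Ω), G (ξ 0 x.1 + ∑ i : Fin n, ξ i.succ (x.2 i)) ∂(μ.prod ν) := by
      intro G
      rw [← ((measurePreserving_piFinSuccAbove (fun _ : Fin (n + 1) => μ) 0).symm).integral_comp']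
      refine integral_congr_ae (Filter.Eventually.of_forall fun x => ?_)
      simp [MeasurableEquiv.piFinSuccAbove_symm_apply, Fin.insertNthEquiv,
        Fin.sum_univ_succ, Fin.insertNth_zero]
    rw [key fun z => F (U - z), key fun z => F (U + z)]
    have m1 : Measurable fun x : Ω × (Fin n → Ω) => ξ 0 x.1 := (hξ 0).comp measurable_fst
    have m2 : Measurable fun x : Ω × (Fin n → Ω) => ∑ i : Fin n, ξ i.succ (x.2 i) :=
      hS.comp measurable_snd
    have iA : Integrable (fun x : Ω × (Fin n → Ω) =>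
        F (U - (ξ 0 x.1 + ∑ i : Fin n, ξ i.succ (x.2 i)))) (μ.prod ν) :=
      int_bdd _ (hF.comp ((m1.add m2).const_sub U)) fun _ => hb _
    have iB : Integrable (fun x : Ω × (Fin n → Ω) =>
        F (U + ξ 0 x.1 - ∑ i : Fin n, ξ i.succ (x.2 i))) (μ.prod ν) :=
      int_bdd _ (hF.comp ((m1.const_add U).sub m2)) fun _ => hb _
    have iC : Integrable (fun x : Ω × (Fin n → Ω) =>
        F (U + (ξ 0 x.1 + ∑ i : Fin n, ξ i.succ (x.2 i)))) (μ.prod ν) :=
      int_bdd _ (hF.comp ((m1.add m2).const_add U)) fun _ => hb _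
    have s1 : ∫ x : Ω × (Fin n → Ω), F (U - (ξ 0 x.1 + ∑ i : Fin n, ξ i.succ (x.2 i))) ∂(μ.prod ν)
        - ε ≤ ∫ x : Ω × (Fin n → Ω),
          F (U + ξ 0 x.1 - ∑ i : Fin n, ξ i.succ (x.2 i)) ∂(μ.prod ν) := by
      rw [integral_prod_symm _ iA, integral_prod_symm _ iB]
      have h := integral_mono (μ := ν) (iA.integral_prod_right.sub (integrable_const ε))
        iB.integral_prod_right fun y => by
          have := lind_one μ hF hb hs (hm 0) (hδ 0) (h0 0) (U - ∑ i : Fin n, ξ i.succ (y i))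
          simp only [Pi.sub_apply]
          have a1 : ∀ ω, U - (ξ 0 ω + ∑ i : Fin n, ξ i.succ (y i)) =
              U - ∑ i : Fin n, ξ i.succ (y i) - ξ 0 ω := fun ω => by
            generalize ∑ i : Fin n, ξ i.succ (y i) = z; abel
          have a2 : ∀ ω, U + ξ 0 ω - ∑ i : Fin n, ξ i.succ (y i) =
              U - ∑ i : Fin n, ξ i.succ (y i) + ξ 0 ω := fun ω => by
            generalize ∑ i : Fin n, ξ i.succ (y i) = z; abel
          simp only [a1, a2]
          exact this
      simp only [Pi.sub_apply] at h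
      rw [integral_sub iA.integral_prod_right (integrable_const ε)] at h
      simpa using h
    have s2 : ∫ x : Ω × (Fin n → Ω),
          F (U + ξ 0 x.1 - ∑ i : Fin n, ξ i.succ (x.2 i)) ∂(μ.prod ν) - n * ε ≤
        ∫ x : Ω × (Fin n → Ω), F (U + (ξ 0 x.1 + ∑ i : Fin n, ξ i.succ (x.2 i))) ∂(μ.prod ν) := by
      rw [integral_prod _ iB, integral_prod _ iC]
      have h := integral_mono (μ := μ) (iB.integral_prod_left.sub (integrable_const (n * ε)))
        iC.integral_prod_left fun x => by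
          have := ih (fun i => ξ i.succ) (fun i => hm _) (fun i => hδ _) (fun i => h0 _)
            (U + ξ 0 x)
          simp only [Pi.sub_apply]
          simpa only [add_assoc] using this
      simp only [Pi.sub_apply] at h
      rw [integral_sub iB.integral_prod_left (integrable_const _)] at h
      simpa using h
    push_cast
    linarith

theorem lind_fintype {F : (Ed → ℝ) → ℝ} (hF : Measurable F) (hb : ∀ x, 0 ≤ F x ∧ F x ≤ 1)
    {δ ε : ℝ}
    (hs : ∀ U, ∃ l : Ed → ℝ, ∀ v : Ed → ℝ, (∀ e, |v e| ≤ δ) →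
      |F (U + v) - F (U - v) - ∑ e, l e * v e| ≤ ε)
    {ι : Type} [Fintype ι] (ξ : ι → Ω → Ed → ℝ) (hm : ∀ i e, Measurable fun ω => ξ i ω e)
    (hδ : ∀ i ω e, |ξ i ω e| ≤ δ) (h0 : ∀ i e, ∫ ω, ξ i ω e ∂μ = 0) :
    ∫ ω, F (-∑ i, ξ i (ω i)) ∂(Measure.pi fun _ : ι => μ) - Fintype.card ι * ε ≤
      ∫ ω, F (∑ i, ξ i (ω i)) ∂(Measure.pi fun _ : ι => μ) := by
  let e := (Fintype.equivFin ι).symm
  have key : ∀ G : (Ed → ℝ) → ℝ, ∫ ω, G (∑ i, ξ i (ω i)) ∂(Measure.pi fun _ : ι => μ) =
      ∫ ω, G (∑ i, ξ (e i) (ω i)) ∂(Measure.pi fun _ : Fin (Fintype.card ι) => μ) := by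
    intro G
    rw [← (measurePreserving_piCongrLeft (fun _ : ι => μ) e).integral_comp']
    simp_rw [← e.sum_comp, MeasurableEquiv.coe_piCongrLeft, Equiv.piCongrLeft_apply_apply]
  rw [key fun z => F (-z), key F]
  have := lind_fin μ hF hb hs _ (fun i => ξ (e i)) (fun i => hm _) (fun i => hδ _)
    (fun i => h0 _) 0
  simpa using this

end Pool.Agent.MP_037c5a_pr.Energy

end

section

open MeasureTheory Finset

namespace Pool.Agent.MP_037c5a_pr

namespace Energy

/-- edges of the grid network -/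
abbrev Edg (K : ℕ) := (Fin K × Fin K) × Bool

/-- discrete gradient -/
def grad (K : ℕ) : (ℕ → ℕ → ℝ) →ₗ[ℝ] (Edg K → ℝ) where
  toFun u := fun e => if e.2 then u (e.1.1 + 1) e.1.2 - u e.1.1 e.1.2
    else u (e.1.1 + 1) (e.1.2 + 1) - u (e.1.1 + 1) e.1.2
  map_add' x y := by
    funext e
    by_cases h : e.2 <;> simp [h] <;> ring
  map_smul' a x := by
    funext e
    by_cases h : e.2 <;> simp [h] <;> ring

/-- functions vanishing on the left and right sides -/
def W0 (K : ℕ) : Submodule ℝ (ℕ → ℕ → ℝ) where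
  carrier := {u | ∀ j ≤ K, u 0 j = 0 ∧ u K j = 0}
  add_mem' := by
    intro a b ha hb j hj
    simp [(ha j hj).1, (ha j hj).2, (hb j hj).1, (hb j hj).2]
  zero_mem' := by
    intro j _
    simp
  smul_mem' := by
    intro c a ha j hj
    simp [(ha j hj).1, (ha j hj).2]

/-- a fixed admissible function -/
def u1 : ℕ → ℕ → ℝ := fun i _ => if i = 0 then 0 else 1

def lift (K : ℕ) (c : ℕ → ℕ → ℝ) : Edg K → ℝ := fun e => c e.1.1 e.1.2

theorem adm_u1 {K : ℕ} (hK : 1 ≤ K) : Adm K u1 := fun j _ =>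
  ⟨by simp [u1], by simp [u1]; omega⟩

theorem En_eq (K : ℕ) (c u : ℕ → ℕ → ℝ) : En K c u = Qf (lift K c) (grad K u) := by
  unfold En Qf
  rw [Fintype.sum_prod_type, Fintype.sum_prod_type, sum_range]
  refine sum_congr rfl fun i _ => ?_
  rw [sum_range]
  refine sum_congr rfl fun j _ => ?_
  simp [lift, grad]
  ring

theorem grad_mem {K : ℕ} (hK : 1 ≤ K) {u : ℕ → ℕ → ℝ} (hu : Adm K u) :
    grad K u - grad K u1 ∈ (W0 K).map (grad K) := by
  refine ⟨u - u1, fun j hj => ?_, map_sub _ _ _⟩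
  have h1 := adm_u1 hK j hj
  simp [(hu j hj).1, (hu j hj).2, h1.1, h1.2]

theorem exists_adm {K : ℕ} (hK : 1 ≤ K) {g : Edg K → ℝ}
    (hg : g - grad K u1 ∈ (W0 K).map (grad K)) : ∃ u, Adm K u ∧ g = grad K u := by
  obtain ⟨w, hw, hwe⟩ := hg
  refine ⟨u1 + w, fun j hj => ?_, ?_⟩
  · have h1 := adm_u1 hK j hj
    have h2 := hw j hj
    simp [h1.1, h1.2, h2.1, h2.2]
  · rw [map_add, hwe]; abel

theorem dual_id (K : ℕ) (u w : ℕ → ℕ → ℝ) (hu : Adm K u)
    (hw : ∀ i ≤ K, w i 0 = 0 ∧ w i K = 1) :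
    ∑ i ∈ range K, ∑ j ∈ range K,
      ((u (i + 1) j - u i j) * (w i (j + 1) - w i j) -
        (u (i + 1) (j + 1) - u (i + 1) j) * (w (i + 1) (j + 1) - w i (j + 1))) = 1 := by
  -- potential along columns and rows
  have e : ∀ i j, (u (i + 1) j - u i j) * (w i (j + 1) - w i j) -
        (u (i + 1) (j + 1) - u (i + 1) j) * (w (i + 1) (j + 1) - w i (j + 1)) =
      ((u (i + 1) (j + 1) * w i (j + 1) - u (i + 1) (j + 1) * w (i + 1) (j + 1) + u i (j + 1) * 0)
        - (u (i + 1) j * w i j - u (i + 1) j * w (i + 1) j + u i j * 0)) +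
      ((u (i + 1) j * w (i + 1) (j + 1) - u (i + 1) j * w (i + 1) j)
        - (u i j * w i (j + 1) - u i j * w i j)) := fun i j => by ring
  simp only [e, sum_add_distrib]
  have h1 : ∑ i ∈ range K, ∑ j ∈ range K,
      ((u (i + 1) (j + 1) * w i (j + 1) - u (i + 1) (j + 1) * w (i + 1) (j + 1) + u i (j + 1) * 0)
        - (u (i + 1) j * w i j - u (i + 1) j * w (i + 1) j + u i j * 0)) = 0 := by
    refine sum_eq_zero fun i hi => ?_
    have hi' := mem_range.1 hi
    rw [sum_range_sub (fun j => u (i + 1) j * w i j - u (i + 1) j * w (i + 1) j + u i j * 0)]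
    simp [(hw i hi'.le).1, (hw i hi'.le).2, (hw (i + 1) hi').1, (hw (i + 1) hi').2]
  have h2 : ∑ i ∈ range K, ∑ j ∈ range K,
      ((u (i + 1) j * w (i + 1) (j + 1) - u (i + 1) j * w (i + 1) j)
        - (u i j * w i (j + 1) - u i j * w i j)) = 1 := by
    rw [sum_comm]
    have : ∀ j ∈ range K, ∑ i ∈ range K,
        ((u (i + 1) j * w (i + 1) (j + 1) - u (i + 1) j * w (i + 1) j)
          - (u i j * w i (j + 1) - u i j * w i j)) = w K (j + 1) - w K j := fun j hj => by
      have hj' := (mem_range.1 hj).le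
      rw [sum_range_sub (fun i => u i j * w i (j + 1) - u i j * w i j)]
      simp [(hu j hj').1, (hu j hj').2]
    rw [sum_congr rfl this, sum_range_sub (fun j => w K j), (hw K le_rfl).1, (hw K le_rfl).2]
    simp
  rw [h1, h2, zero_add]

theorem dual_ineq (K : ℕ) (h u v : ℕ → ℕ → ℝ) (hu : Adm K u) (hv : Adm K v) :
    1 ≤ En K (fun a b => Real.exp (h a b)) u * En K (fun a b => Real.exp (-h b a)) v := by
  have hid := dual_id K u (fun i j => v j i) hu fun i hi => hv i hi
  let r : Edg K → ℝ := fun e => if e.2 then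
      (u (e.1.1 + 1) e.1.2 - u e.1.1 e.1.2) * (v (e.1.2 + 1) e.1.1 - v e.1.2 e.1.1)
    else -((u (e.1.1 + 1) (e.1.2 + 1) - u (e.1.1 + 1) e.1.2) *
      (v (e.1.2 + 1) (e.1.1 + 1) - v (e.1.2 + 1) e.1.1))
  let f : Edg K → ℝ := fun e => Real.exp (h e.1.1 e.1.2) * grad K u e ^ 2
  let g : Edg K → ℝ := fun e => Real.exp (-h e.1.1 e.1.2) * grad K v ((e.1.2, e.1.1), e.2) ^ 2
  have hr : ∑ e, r e = 1 := by
    rw [← hid, Fintype.sum_prod_type, Fintype.sum_prod_type, sum_range]
    refine sum_congr rfl fun i _ => ?_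
    rw [sum_range]
    refine sum_congr rfl fun j _ => ?_
    simp [r]
    ring
  have hf : ∑ e, f e = En K (fun a b => Real.exp (h a b)) u := by
    rw [En_eq]; rfl
  have hg : ∑ e, g e = En K (fun a b => Real.exp (-h b a)) v := by
    rw [En_eq]
    exact Fintype.sum_equiv ((Equiv.prodComm (Fin K) (Fin K)).prodCongr (Equiv.refl Bool)) _ _
      fun e => rfl
  have hcs := sum_sq_le_sum_mul_sum_of_sq_eq_mul (univ : Finset (Edg K)) (r := r) (f := f) (g := g)
    (fun e _ => by positivity) (fun e _ => by positivity) fun e _ => by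
      have hx : Real.exp (h e.1.1 e.1.2) * Real.exp (-h e.1.1 e.1.2) = 1 := by
        rw [← Real.exp_add]; simp
      have : f e * g e = (Real.exp (h e.1.1 e.1.2) * Real.exp (-h e.1.1 e.1.2)) *
          (grad K u e * grad K v ((e.1.2, e.1.1), e.2)) ^ 2 := by
        simp only [f, g]; ring
      rw [this, hx, one_mul]
      by_cases hb : e.2 <;> simp [r, grad, hb]
  rw [hr, hf, hg] at hcs
  simpa using hcs

theorem chi_dual {x y : ℝ} (hx : 0 ≤ x) (hy : 0 ≤ y) (h : 1 ≤ x * y) : 1 ≤ chi x + chi y := by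
  unfold chi
  rw [div_add_div _ _ (by linarith) (by linarith), le_div_iff₀ (by positivity)]
  nlinarith

theorem Fh_dual {K : ℕ} (hK : 1 ≤ K) (h : ℕ → ℕ → ℝ) :
    1 ≤ Fh ((W0 K).map (grad K)) (grad K u1) (lift K h) +
      Fh ((W0 K).map (grad K)) (grad K u1) (-lift K fun a b => h b a) := by
  unfold Fh
  refine chi_dual (Ec_nonneg _ _ fun _ => (Real.exp_pos _).le)
    (Ec_nonneg _ _ fun _ => (Real.exp_pos _).le) ?_
  obtain ⟨g, hg, hE⟩ := exists_min ((W0 K).map (grad K)) (grad K u1)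
    (c := fun e => Real.exp (lift K h e)) fun _ => Real.exp_pos _
  obtain ⟨g', hg', hE'⟩ := exists_min ((W0 K).map (grad K)) (grad K u1)
    (c := fun e => Real.exp ((-lift K fun a b => h b a) e)) fun _ => Real.exp_pos _
  obtain ⟨u, hu, rfl⟩ := exists_adm hK hg
  obtain ⟨v, hv, rfl⟩ := exists_adm hK hg'
  rw [hE, hE']
  have := dual_ineq K h u v hu hv
  rw [En_eq, En_eq] at this
  exact this

theorem Fh_small {K : ℕ} (hK : 1 ≤ K) (h : ℕ → ℕ → ℝ)
    (hn : ¬ EnGe K (fun a b => Real.exp (h a b)) (1 / 7)) :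
    Fh ((W0 K).map (grad K)) (grad K u1) (lift K h) ≤ 1 / 8 := by
  unfold EnGe at hn
  push Not at hn
  obtain ⟨u, hu, hlt⟩ := hn
  have h1 : Ec ((W0 K).map (grad K)) (grad K u1) (fun e => Real.exp (lift K h e)) ≤ 1 / 7 := by
    refine (Ec_le _ _ (fun _ => (Real.exp_pos _).le) (grad_mem hK hu)).trans ?_
    rw [En_eq] at hlt
    exact hlt.le
  have h0 : 0 ≤ Ec ((W0 K).map (grad K)) (grad K u1) (fun e => Real.exp (lift K h e)) :=
    Ec_nonneg _ _ fun _ => (Real.exp_pos _).le
  unfold Fh chi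
  rw [div_le_iff₀ (by linarith)]
  linarith

end Energy

open Energy in
theorem stmtEnergy : StmtEnergy := by
  intro ι _ Ω _ μ _ K hK ξ δ hm hδ0 hδ hb h0 hn
  set F := Fh ((W0 K).map (grad K)) (grad K u1) with hF
  set P := Measure.pi fun _ : ι => μ with hP
  have hFm : Measurable F := Fh_meas _ _
  have hFb : ∀ x, 0 ≤ F x ∧ F x ≤ 1 := Fh_bounds _ _
  let X : (ι → Ω) → Edg K → ℝ := fun ω => ∑ i, lift K (ξ i (ω i))
  let Y : (ι → Ω) → Edg K → ℝ := fun ω => ∑ i, lift K fun a b => ξ i (ω i) b a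
  have hX : ∀ ω, X ω = lift K fun a b => ∑ i, ξ i (ω i) a b := fun ω => by
    funext e; simp [X, lift]
  have hY : ∀ ω, Y ω = lift K fun a b => ∑ i, ξ i (ω i) b a := fun ω => by
    funext e; simp [Y, lift]
  have mX : Measurable X := Finset.measurable_sum _ fun i _ =>
    measurable_pi_lambda _ fun e => (hm i _ _).comp (measurable_pi_apply i)
  have mY : Measurable Y := Finset.measurable_sum _ fun i _ =>
    measurable_pi_lambda _ fun e => (hm i _ _).comp (measurable_pi_apply i)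
  have hl : ∫ ω, F (-Y ω) ∂P - Fintype.card ι * (1000 * δ ^ 3) ≤ ∫ ω, F (Y ω) ∂P :=
    lind_fintype μ hFm hFb (fun U => Fh_step _ _ U hδ0 hδ)
      (fun i ω => lift K fun a b => ξ i ω b a) (fun i e => hm i _ _) (fun i ω e => hb i ω _ _)
      fun i e => h0 i _ _
  have iX : Integrable (fun ω => F (X ω)) P := int_bdd P (hFm.comp mX) fun _ => hFb _
  have iY : Integrable (fun ω => F (Y ω)) P := int_bdd P (hFm.comp mY) fun _ => hFb _
  have iY' : Integrable (fun ω => F (-Y ω)) P := int_bdd P (hFm.comp mY.neg) fun _ => hFb _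
  have hd : 1 ≤ ∫ ω, F (X ω) ∂P + ∫ ω, F (-Y ω) ∂P := by
    rw [← integral_add iX iY']
    have := integral_mono (integrable_const (1 : ℝ)) (iX.add iY') fun ω => by
      simp only [Pi.add_apply]
      rw [hX, hY]
      exact Fh_dual hK _
    simpa using this
  set B : Set (ι → Ω) := {ω | F (X ω) + F (Y ω) ≤ 1 / 4} with hB
  have mB : MeasurableSet B :=
    measurableSet_le ((hFm.comp mX).add (hFm.comp mY)) measurable_const
  have hup : ∫ ω, F (X ω) ∂P + ∫ ω, F (Y ω) ∂P ≤ 2 - 7 / 4 * P.real B := by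
    rw [← integral_add iX iY]
    have iI : Integrable (fun ω => 7 / 4 * B.indicator (1 : (ι → Ω) → ℝ) ω) P :=
      ((integrable_const (1 : ℝ)).indicator mB).const_mul _
    have := integral_mono (iX.add iY) ((integrable_const (2 : ℝ)).sub iI) fun ω => by
      simp only [Pi.add_apply, Pi.sub_apply]
      by_cases hω : ω ∈ B
      · rw [Set.indicator_of_mem hω]
        have : F (X ω) + F (Y ω) ≤ 1 / 4 := hω
        simp only [Pi.one_apply]
        linarith
      · rw [Set.indicator_of_notMem hω]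
        linarith [(hFb (X ω)).2, (hFb (Y ω)).2]
    simp only [Pi.add_apply, Pi.sub_apply] at this
    rw [integral_sub (integrable_const _) iI, integral_const_mul, integral_indicator_one mB] at this
    simpa using this
  have hPB : P.real B ≤ 2 / 3 := by nlinarith
  refine (measure_mono (t := B) fun ω hω => ?_).trans ?_
  · have h1 := not_or.1 hω
    have h2 := Fh_small hK (fun a b => ∑ i, ξ i (ω i) a b) h1.1
    have h3 := Fh_small hK (fun a b => ∑ i, ξ i (ω i) b a) h1.2
    show F (X ω) + F (Y ω) ≤ 1 / 4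
    rw [hX, hY]
    linarith
  · rw [← ofReal_measureReal (measure_ne_top P B)]
    exact ENNReal.ofReal_le_ofReal hPB

end Pool.Agent.MP_037c5a_pr

end
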