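import Mathlib

section

open MeasureTheory Finset

namespace Pool.Agent.MP_037c5a_pr

abbrev E := EuclideanSpace ℝ (Fin 2)

/-- planar heat kernel -/
noncomputable def ph (t : ℝ) (x : E) : ℝ :=
  (2 * Real.pi * t)⁻¹ * Real.exp (-‖x‖ ^ 2 / (2 * t))

/-- standard planar Gaussian -/
noncomputable def gam : Measure E := volume.withDensity fun x => ENNReal.ofReal (ph 1 x)

/-- the set `(T - x) / r` -/
def zoom (T : Set E) (x : E) (r : ℝ) : Set E := {p | x + r • p ∈ T}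

noncomputable def gridPt (i j : ℕ) : E := WithLp.toLp 2 ![(i : ℝ), (j : ℝ)]

/-- Dirichlet energy on the self-dual grid network -/
def En (K : ℕ) (c u : ℕ → ℕ → ℝ) : ℝ :=
  ∑ i ∈ range K, ∑ j ∈ range K,
    c i j * ((u (i + 1) j - u i j) ^ 2 + (u (i + 1) (j + 1) - u (i + 1) j) ^ 2)

def Adm (K : ℕ) (u : ℕ → ℕ → ℝ) : Prop := ∀ j ≤ K, u 0 j = 0 ∧ u K j = 1

/-- the left-right effective conductance is at least `τ` -/
def EnGe (K : ℕ) (c : ℕ → ℕ → ℝ) (τ : ℝ) : Prop := ∀ u, Adm K u → τ ≤ En K c u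

structure Par where
  D : ℝ
  R : ℝ
  K : ℕ
  tau : ℝ
  G : ℝ
  pot : ℕ → ℝ
  O : Finset E

/-- good trees of depth `L` in a planar set, root at the origin, scale 1, height `N` -/
def GT (P : Par) : ℕ → Set E → ℕ → Prop
  | 0, T, _ => ∃ p ∈ T, ‖p‖ ≤ P.D
  | L + 1, T, N => (∃ p ∈ T, ‖p‖ ≤ P.D) ∧ ∃ o ∈ P.O,
      ((∃ n : ℕ → ℕ → ℕ,
          (∀ i ≤ P.K, ∀ j ≤ P.K,
            GT P L (zoom T (o + (8 * P.D / P.R) • gridPt i j) P.R⁻¹) (n i j)) ∧
          (EnGe P.K (fun i j => P.pot (n i j)) (P.tau * P.pot N) ∨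
            EnGe P.K (fun i j => P.pot (n j i)) (P.tau * P.pot N))) ∨
        (∃ N' : ℕ, GT P L (zoom T o P.R⁻¹) N' ∧ P.G * P.pot N ≤ P.pot N'))

structure ParOK (k : ℕ) (P : Par) : Prop where
  hD : 1 ≤ P.D
  hR : (k : ℝ) ≤ P.R
  hK1 : 1 ≤ P.K
  hK : P.R ^ (k - 1) ≤ (P.K : ℝ) ^ k
  hKR : 24 * P.D * P.K ≤ P.R
  htau0 : 0 < P.tau
  htau : 1 ≤ P.tau ^ k * P.R
  hG : P.R ^ k ≤ P.G
  hpot : ∀ N, 0 < P.pot N ∧ P.pot N ≤ 1
  hO : ∀ o ∈ P.O, ‖o‖ ≤ 1 / 2

theorem zoom_mono {T T' : Set E} (h : T ⊆ T') (x : E) (r : ℝ) : zoom T x r ⊆ zoom T' x r :=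
  fun _ hp => h hp

theorem zoom_zoom (T : Set E) (x z : E) (r r' : ℝ) :
    zoom (zoom T x r) z r' = zoom T (x + r • z) (r * r') := by
  ext p
  simp only [zoom, Set.mem_ofPred_eq, smul_add, smul_smul, add_assoc]

theorem GT_mono (P : Par) : ∀ (L : ℕ) {T T' : Set E} (N : ℕ), T ⊆ T' → GT P L T N → GT P L T' N
  | 0, _, _, _, h, ⟨p, hp, hn⟩ => ⟨p, h hp, hn⟩
  | L + 1, _, _, _, h, ⟨⟨p, hp, hn⟩, o, ho, hh⟩ => by
    refine ⟨⟨p, h hp, hn⟩, o, ho, ?_⟩
    rcases hh with ⟨n, h1, h2⟩ | ⟨N', h1, h2⟩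
    · exact Or.inl ⟨n, fun i hi j hj => GT_mono P L _ (zoom_mono h _ _) (h1 i hi j hj), h2⟩
    · exact Or.inr ⟨N', GT_mono P L _ (zoom_mono h _ _) h1, h2⟩

/-- deterministic half -/
def StmtDet : Prop :=
  ∀ (S : Set E), IsCompact S → ∀ ρ₀ : ℝ, 0 < ρ₀ →
    (∀ x ∈ S, ∀ ρ : ℝ, 0 < ρ → ρ ≤ ρ₀ → ∃ y ∈ S, dist y x = ρ) →
    ∀ (Y : Type) [MetricSpace Y] (f : S → Y) (η : ℝ → ℝ),
      Function.Injective f → StrictMonoOn η (Set.Ici 0) → ContinuousOn η (Set.Ici 0) → η 0 = 0 →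
      (∀ x a b : S, a ≠ b → dist (f x) (f a) ≤ η (dist x a / dist b a) * dist (f b) (f a)) →
      ∀ s : ℝ, 0 < s → s < 2 →
        ∃ k : ℕ, 1 ≤ k ∧ ∀ P : Par, ParOK k P → ∀ r : ℝ, 0 < r → 16 * P.D * r ≤ ρ₀ → ∀ N : ℕ,
          (∃ᶠ L in Filter.atTop, ∃ x : E, GT P L (zoom S x r) N) →
          ENNReal.ofReal s ≤ dimH (Set.range f)

/-- probabilistic half, on the canonical space of standard Gaussian steps -/
def StmtProb : Prop :=
  ∀ k : ℕ, 1 ≤ k → ∃ P : Par, ParOK k P ∧ ∃ (N n₀ : ℕ) (p : ℝ), 0 < n₀ ∧ 0 < p ∧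
    ∀ L : ℕ, ∃ m : ℕ, 0 < m ∧ ∃ F : Set (Fin (n₀ * m) → E), MeasurableSet F ∧
      ENNReal.ofReal p ≤ (Measure.pi fun _ : Fin (n₀ * m) => gam) F ∧
      ∀ ξ : ℕ → E, (fun i : Fin (n₀ * m) => ξ (i + 1) - ξ i) ∈ F →
        GT P L (zoom (ξ '' Set.Iic (n₀ * m)) (ξ 0) (Real.sqrt m)) N

/-- weight of a chain of `k+1` unit Gaussian steps from `a` to `b` through the points `y` -/
noncomputable def cw : (k : ℕ) → E → (Fin k → E) → E → ℝ
  | 0, a, _, b => ph 1 (b - a)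
  | k + 1, a, y, b => ph 1 (y 0 - a) * cw k (y 0) (Fin.tail y) b

/-- the path `a, y 0, …, y (k-1), b, b, …` -/
def pth {k : ℕ} (a : E) (y : Fin k → E) (b : E) (l : ℕ) : E :=
  if l = 0 then a else if h : l - 1 < k then y ⟨l - 1, h⟩ else b

/-- law of the interior points of the Gaussian bridge from 0 to 0 with `k+1` unit steps -/
noncomputable def nu (k : ℕ) : Measure (Fin k → E) :=
  (ENNReal.ofReal (ph (k + 1) 0))⁻¹ • volume.withDensity fun y => ENNReal.ofReal (cw k 0 y 0)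

/-- bridge from `P` to `Q` with `k+1` unit steps driven by `β`; meaningful for `l ≤ k+1` -/
noncomputable def bp (k : ℕ) (P Q : E) (β : Fin k → E) (l : ℕ) : E :=
  P + ((l : ℝ) / (k + 1)) • (Q - P) + pth 0 β 0 l

/-- discretised occupation density at the origin of the unit time bridge from `A` to `B` -/
noncomputable def gk (q q0 : ℕ) (A B : E) : ℝ :=
  (q : ℝ)⁻¹ * ∑ u ∈ Ico q0 (q - q0), ph (u / q) A * ph (1 - u / q) B / ph 1 (B - A)

open Classical in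
noncomputable def cutSet (q q0 p k : ℕ) (D : ℝ) (P Q : E) (β : Fin k → E) : Finset ℕ :=
  (Ico (q0 * p) ((q - q0) * p)).filter fun l => ‖bp k P Q β l‖ ≤ D ∧ ‖bp k P Q β (l + 1)‖ ≤ D

noncomputable def keep (q q0 p k bb : ℕ) (D : ℝ) (P Q : E) (β : Fin k → E) : Finset ℕ :=
  if (cutSet q q0 p k D P Q β).card ≤ bb then cutSet q q0 p k D P Q β else ∅

noncomputable def Sv (q q0 p k bb : ℕ) (D : ℝ) (P Q : E) (β : Fin k → E) : ℝ :=
  ∑ l ∈ keep q q0 p k bb D P Q β, gk q q0 (bp k P Q β l) (bp k P Q β (l + 1))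

noncomputable def Cv (q q0 p k bb : ℕ) (D : ℝ) (P Q : E) (β : Fin k → E) : ℝ :=
  ((keep q q0 p k bb D P Q β).card : ℝ)

end Pool.Agent.MP_037c5a_pr

end

section

open MeasureTheory Finset

namespace Pool.Agent.MP_037c5a_pr

/-- job Energy: duality + Lindeberg symmetrisation -/
def StmtEnergy : Prop :=
  ∀ (ι : Type) [Fintype ι] (Ω : Type) [MeasurableSpace Ω] (μ : Measure Ω) [IsProbabilityMeasure μ]
    (K : ℕ), 1 ≤ K → ∀ (ξ : ι → Ω → ℕ → ℕ → ℝ) (δ : ℝ),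
    (∀ i a b, Measurable fun ω => ξ i ω a b) → 0 ≤ δ → δ ≤ 1 / 10 →
    (∀ i ω a b, |ξ i ω a b| ≤ δ) → (∀ i a b, ∫ ω, ξ i ω a b ∂μ = 0) →
    (Fintype.card ι : ℝ) * δ ^ 3 ≤ 1 / 100000 →
    (Measure.pi fun _ : ι => μ)
      {ω | ¬ (EnGe K (fun a b => Real.exp (∑ i, ξ i (ω i) a b)) (1 / 7) ∨
              EnGe K (fun a b => Real.exp (∑ i, ξ i (ω i) b a)) (1 / 7))} ≤
      ENNReal.ofReal (2 / 3)

/-- job Conc: four tail bounds for sums of independent variables with values in `[0,b]` -/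
def StmtConc : Prop :=
  ∀ (ι : Type) [Fintype ι] (Ω : Type) [MeasurableSpace Ω] (μ : Measure Ω) [IsProbabilityMeasure μ]
    (S : ι → Ω → ℝ) (b : ℝ), 0 < b → (∀ i, Measurable (S i)) → (∀ i ω, 0 ≤ S i ω ∧ S i ω ≤ b) →
    (∀ V y : ℝ, 0 < V → 0 ≤ y → ∑ i, ∫ ω, S i ω ^ 2 ∂μ ≤ V →
      (Measure.pi fun _ : ι => μ) {ω | ∑ i, S i (ω i) ≤ ∑ i, ∫ x, S i x ∂μ - y} ≤
        ENNReal.ofReal (Real.exp (-(y ^ 2 / (2 * V))))) ∧
    (∀ V y : ℝ, 0 < V → 0 ≤ y → y * b ≤ 2 * V → ∑ i, ∫ ω, S i ω ^ 2 ∂μ ≤ V →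
      (Measure.pi fun _ : ι => μ) {ω | ∑ i, ∫ x, S i x ∂μ + y ≤ ∑ i, S i (ω i)} ≤
        ENNReal.ofReal (Real.exp (-(y ^ 2 / (4 * V))))) ∧
    (∀ m W : ℝ, ∑ i, ∫ ω, S i ω ∂μ ≤ m →
      (Measure.pi fun _ : ι => μ) {ω | W ≤ ∑ i, S i (ω i)} ≤
        ENNReal.ofReal (Real.exp (-((W - 2 * m) / b)))) ∧
    (∀ lam V₁ V₂ : ℝ, 0 < lam → lam * b ≤ 1 / 2 →
      V₁ ≤ ∑ i, (∫ ω, S i ω ^ 2 ∂μ - (∫ ω, S i ω ∂μ) ^ 2) → ∑ i, ∫ ω, S i ω ^ 2 ∂μ ≤ V₂ →
      (Measure.pi fun _ : ι => μ)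
        {ω | ∑ i, S i (ω i) < ∑ i, ∫ x, S i x ∂μ + (lam * V₁ / 4 - 1 / lam)} ≤
        ENNReal.ofReal (1 - Real.exp (-(4 * lam ^ 2 * V₂)) / 4))

/-- job Chain, part 1: marginals of the discrete Gaussian bridge -/
structure StmtChain : Prop where
  gam_prob : IsProbabilityMeasure gam
  nu_prob : ∀ k, IsProbabilityMeasure (nu k)
  ph_int : ∀ t : ℝ, 0 < t → ∀ a : E, ∫⁻ y, ENNReal.ofReal (ph t (y - a)) = 1
  meas_bp : ∀ k l, Measurable fun x : E × E × (Fin k → E) => bp k x.1 x.2.1 x.2.2 l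
  one_edge : ∀ (k l : ℕ) (P Q : E) (κ : E → E → ENNReal), Measurable (Function.uncurry κ) →
    1 ≤ l → l + 1 ≤ k →
    ∫⁻ β, κ (bp k P Q β l) (bp k P Q β (l + 1)) ∂nu k =
      (ENNReal.ofReal (ph (k + 1) (Q - P)))⁻¹ *
        ∫⁻ u, ∫⁻ u', ENNReal.ofReal (ph l (u - P)) * ENNReal.ofReal (ph 1 (u' - u)) * κ u u' *
          ENNReal.ofReal (ph (k - l) (Q - u'))
  two_edge : ∀ (k l l' : ℕ) (P Q : E) (κ κ' : E → E → ENNReal), Measurable (Function.uncurry κ) →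
    Measurable (Function.uncurry κ') → 1 ≤ l → l + 2 ≤ l' → l' + 1 ≤ k →
    ∫⁻ β, κ (bp k P Q β l) (bp k P Q β (l + 1)) * κ' (bp k P Q β l') (bp k P Q β (l' + 1)) ∂nu k =
      (ENNReal.ofReal (ph (k + 1) (Q - P)))⁻¹ *
        ∫⁻ u, ∫⁻ u', ENNReal.ofReal (ph l (u - P)) * ENNReal.ofReal (ph 1 (u' - u)) * κ u u' *
          ∫⁻ v, ∫⁻ v', ENNReal.ofReal (ph (l' - l - 1) (v - u')) * ENNReal.ofReal (ph 1 (v' - v)) *
            κ' v v' * ENNReal.ofReal (ph (k - l') (Q - v'))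
  khas : ∀ (k : ℕ) (P Q : E) (w : Finset ℕ) (D c Φ : ℝ), 0 < D → 0 ≤ c → 0 ≤ Φ →
    (∀ l ∈ w, 1 ≤ l ∧ l ≤ k) →
    (∀ l ∈ w, ∀ u : E, ‖u‖ ≤ D → ph (k + 1 - l) (Q - u) ≤ Φ) →
    c * (2 * D ^ 2 * (1 + Real.log (k + 1))) ≤ 1 / 2 →
    ∫⁻ β, ∏ l ∈ w, ENNReal.ofReal (1 + if ‖bp k P Q β l‖ ≤ D then c else 0) ∂nu k ≤
      ENNReal.ofReal (1 + Φ / ph (k + 1) (Q - P))

/-- job Chain, part 2: a free Gaussian walk splits into its end point and an independent bridge -/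
def StmtSplit : Prop :=
  ∀ (k : ℕ) (M : ℝ), 0 < M → M ^ 2 = k + 1 →
    MeasurePreserving
      (fun c : Fin (k + 1) → E =>
        (M⁻¹ • ∑ i, c i,
          fun l : Fin k => (∑ i ∈ univ.filter (fun i : Fin (k + 1) => i.val ≤ l.val), c i) - (((l : ℝ) + 1) / (k + 1)) • ∑ i, c i))
      (Measure.pi fun _ : Fin (k + 1) => gam) (gam.prod (nu k))

/-- hypotheses of the one-segment moment bounds -/
structure MomHyp (q q0 p k bb : ℕ) (D M η : ℝ) : Prop where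
  hq0 : 1 ≤ q0
  hq : 4 * q0 ≤ q
  hp : 1 ≤ p
  hk : k + 1 = q * p
  hM : 0 < M
  hM2 : M ^ 2 = k + 1
  hD : 4 ≤ D
  hη1 : 2 / (q : ℝ) ≤ η
  hη2 : η ≤ 1
  hζ : η * (3 * (D + 1) ^ 2 * ((q : ℝ) / q0) ^ 2) ≤ 1 / 4

/-- job Moments -/
structure StmtMom : Prop where
  gk_bd : ∀ (q q0 : ℕ) (A B : E), 1 ≤ q0 → 0 ≤ gk q q0 A B ∧ gk q q0 A B ≤ 1 + Real.log q
  gk_lb : ∀ (q q0 : ℕ) (A B : E), 1 ≤ q0 → 4 * q0 ≤ q → ‖A‖ ^ 2 ≤ (q0 : ℝ) / q →
    ‖B‖ ^ 2 ≤ (q0 : ℝ) / q → 1 / 20 ≤ gk q q0 A B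
  meas_S : ∀ (q q0 p k bb : ℕ) (D : ℝ) (P Q : E), Measurable (Sv q q0 p k bb D P Q)
  meas_C : ∀ (q q0 p k bb : ℕ) (D : ℝ) (P Q : E), Measurable (Cv q q0 p k bb D P Q)
  mom : ∀ (q q0 p k bb : ℕ) (D M η : ℝ), MomHyp q q0 p k bb D M η →
    ∀ A B z : E, ‖A‖ ≤ D → ‖B‖ ≤ D → ‖z‖ + D / M ≤ η →
    ∀ ζ H gm tl : ℝ, ζ = η * (3 * (D + 1) ^ 2 * ((q : ℝ) / q0) ^ 2) → H = 1 + Real.log (k + 1) →
      gm = 1 + Real.log q →
      tl = (1 + Real.exp (2 * D ^ 2) * q / q0) * Real.exp (-(bb / (8 * D ^ 2 * H))) →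
      ((1 - 2 * ζ) * (1 - 2 * q0 / q - 4 * Real.exp (-(D ^ 2 / 4))) * gk q q0 A B - (k + 1) * gm * tl
          ≤ ∫ β, Sv q q0 p k bb D (M • (A - z)) (M • (B - z)) β ∂nu k) ∧
      (∫ β, Sv q q0 p k bb D (M • (A - z)) (M • (B - z)) β ∂nu k ≤ 2 * gk q q0 A B) ∧
      (∫ β, Cv q q0 p k bb D (M • (A - z)) (M • (B - z)) β ∂nu k ≤ 22 * D ^ 2 * gk q q0 A B) ∧
      (∫ β, Sv q q0 p k bb D (M • (A - z)) (M • (B - z)) β ^ 2 ∂nu k ≤
          2 * (3 * gm + H) * gk q q0 A B) ∧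
      (2 * D ^ 2 + 1 ≤ p →
        Real.log (p / (2 * D ^ 2 + 1)) / 400 * gk q q0 A B - ((k + 1) * gm) ^ 2 * tl ≤
          ∫ β, Sv q q0 p k bb D (M • (A - z)) (M • (B - z)) β ^ 2 ∂nu k)

end Pool.Agent.MP_037c5a_pr

end

section

open MeasureTheory ProbabilityTheory Set Filter Topology
open scoped ENNReal NNReal

namespace Pool.Agent.MP_037c5a_pr

namespace Fi

noncomputable def pr (z : ℝ × ℝ) : E := WithLp.toLp 2 ![z.1, z.2]

theorem pr_vol : MeasurePreserving pr (volume : Measure (ℝ × ℝ)) volume := by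
  have h1 := (volume_preserving_finTwoArrow ℝ).symm
  have h2 := (PiLp.volume_preserving_toLp (Fin 2)).comp h1
  exact h2

theorem measurable_pr : Measurable pr := pr_vol.measurable

theorem measurable_ph1 : Measurable fun x : E => ENNReal.ofReal (ph 1 x) := by
  unfold ph; fun_prop

theorem ph_pr (z : ℝ × ℝ) :
    ENNReal.ofReal (ph 1 (pr z)) = gaussianPDF 0 1 z.1 * gaussianPDF 0 1 z.2 := by
  unfold gaussianPDF
  rw [← ENNReal.ofReal_mul (gaussianPDFReal_nonneg _ _ _)]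
  congr 1
  have hn : ‖pr z‖ ^ 2 = z.1 ^ 2 + z.2 ^ 2 := by
    rw [EuclideanSpace.norm_sq_eq]; simp [pr, Fin.sum_univ_two]
  unfold ph gaussianPDFReal
  rw [hn]
  have hp : (0 : ℝ) ≤ 2 * Real.pi := by positivity
  have hs : (√(2 * Real.pi))⁻¹ * (√(2 * Real.pi))⁻¹ = (2 * Real.pi)⁻¹ := by
    rw [← mul_inv, Real.mul_self_sqrt hp]
  simp only [NNReal.coe_one, mul_one, sub_zero]
  rw [mul_mul_mul_comm, hs, ← Real.exp_add]
  congr 2; ring

theorem pr_gam : MeasurePreserving pr ((gaussianReal 0 1).prod (gaussianReal 0 1)) gam := by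
  refine ⟨measurable_pr, ?_⟩
  rw [gaussianReal_of_var_ne_zero 0 one_ne_zero,
    prod_withDensity (measurable_gaussianPDF _ _) (measurable_gaussianPDF _ _)]
  refine Measure.ext_of_lintegral _ fun φ hφ => ?_
  rw [lintegral_map hφ measurable_pr, gam,
    lintegral_withDensity_eq_lintegral_mul _ measurable_ph1 hφ,
    lintegral_withDensity_eq_lintegral_mul _ (g := fun a => φ (pr a)) (by fun_prop)
      (hφ.comp measurable_pr),
    ← pr_vol.lintegral_comp (measurable_ph1.mul hφ)]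
  refine lintegral_congr fun z => ?_
  simp only [Pi.mul_apply, ph_pr]

instance gam_prob : IsProbabilityMeasure gam := by
  rw [← pr_gam.map_eq]
  exact Measure.isProbabilityMeasure_map measurable_pr.aemeasurable

theorem pi_pr (n : ℕ) :
    MeasurePreserving (fun z : (Fin n → ℝ) × (Fin n → ℝ) => fun i => pr (z.1 i, z.2 i))
      ((Measure.pi fun _ : Fin n => gaussianReal 0 1).prod
        (Measure.pi fun _ : Fin n => gaussianReal 0 1))
      (Measure.pi fun _ : Fin n => gam) := by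
  have h1 := (measurePreserving_arrowProdEquivProdArrow ℝ ℝ (Fin n)
    (fun _ => gaussianReal 0 1) (fun _ => gaussianReal 0 1)).symm
  have h2 := measurePreserving_pi (fun _ : Fin n => (gaussianReal 0 1).prod (gaussianReal 0 1))
    (fun _ : Fin n => gam) (f := fun _ => pr) (fun _ => pr_gam)
  exact h2.comp h1

theorem blocks (a b : ℕ) :
    MeasurePreserving (fun ζ : Fin (a * b) → E => fun (i : Fin a) (j : Fin b) =>
      ζ (finProdFinEquiv (i, j))) (Measure.pi fun _ => gam)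
      (Measure.pi fun _ : Fin a => Measure.pi fun _ : Fin b => gam) := by
  have h1 : (Measure.infinitePi fun _ : Fin (a * b) => gam).map
      (fun ω (p : Fin a × Fin b) => ω (finProdFinEquiv p)) =
      Measure.infinitePi fun _ : Fin a × Fin b => gam :=
    Measure.map_infinitePi_infinitePi_of_inj (P := fun _ : Fin (a * b) => gam)
      finProdFinEquiv.injective
  have h2 := Measure.infinitePi_map_curry (ι := Fin a) (κ := Fin b) (fun _ _ => gam)
  refine ⟨by fun_prop, ?_⟩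
  simp only [← Measure.infinitePi_eq_pi]
  rw [← h2, ← h1, Measure.map_map (MeasurableEquiv.measurable _) (by fun_prop)]
  rfl

theorem blocks_miss (a b : ℕ) {F : Set (Fin b → E)} (hF : MeasurableSet F) {p : ℝ≥0∞}
    (hp : p ≤ (Measure.pi fun _ : Fin b => gam) F) :
    MeasurableSet {ζ : Fin (a * b) → E | ∀ i : Fin a, (fun j => ζ (finProdFinEquiv (i, j))) ∉ F} ∧
    (Measure.pi fun _ : Fin (a * b) => gam)
      {ζ | ∀ i : Fin a, (fun j => ζ (finProdFinEquiv (i, j))) ∉ F} ≤ (1 - p) ^ a := by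
  have hm : MeasurableSet (Set.pi univ fun _ : Fin a => Fᶜ) :=
    MeasurableSet.univ_pi fun _ => hF.compl
  have he : {ζ : Fin (a * b) → E | ∀ i : Fin a, (fun j => ζ (finProdFinEquiv (i, j))) ∉ F} =
      (fun ζ : Fin (a * b) → E => fun (i : Fin a) (j : Fin b) =>
        ζ (finProdFinEquiv (i, j))) ⁻¹' (Set.pi univ fun _ : Fin a => Fᶜ) := by
    ext ζ; simp [Set.mem_pi]
  rw [he]
  refine ⟨(blocks a b).measurable hm, ?_⟩
  rw [(blocks a b).measure_preimage hm.nullMeasurableSet, Measure.pi_pi, Finset.prod_const,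
    Finset.card_univ, Fintype.card_fin, prob_compl_eq_one_sub hF]
  gcongr

section BM

variable {Ω : Type} [MeasurableSpace Ω] {P : Measure Ω} [IsProbabilityMeasure P]
  {B : Fin 2 → ℝ≥0 → Ω → ℝ}

noncomputable def Bv (B : Fin 2 → ℝ≥0 → Ω → ℝ) (ω : Ω) (t : ℝ≥0) : E :=
  WithLp.toLp 2 (fun i => B i t ω)

noncomputable def tm (n j : ℕ) : ℝ≥0 := (j : ℝ≥0) / (n : ℝ≥0)

theorem tm_mono (n : ℕ) : Monotone (tm n) := fun i j h => by
  unfold tm; gcongr

noncomputable def stp (n : ℕ) (w : ℝ≥0 → ℝ) (i : Fin n) : ℝ :=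
  √n * (w (tm n (i + 1)) - w (tm n i))

theorem measurable_stp (n : ℕ) : Measurable (stp n) := by
  unfold stp; fun_prop

omit [IsProbabilityMeasure P] in
theorem aem_incr
    (hlaw : ∀ i, ∀ s t : ℝ≥0, s ≤ t → P.map (fun ω => B i t ω - B i s ω) = gaussianReal 0 (t - s))
    (i : Fin 2) {s t : ℝ≥0} (h : s ≤ t) : AEMeasurable (fun ω => B i t ω - B i s ω) P := by
  by_contra hn
  have h1 := hlaw i s t h
  rw [Measure.map_of_not_aemeasurable hn] at h1
  exact IsProbabilityMeasure.ne_zero (gaussianReal 0 (t - s)) h1.symm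

omit [IsProbabilityMeasure P] in
theorem stp_law
    (hlaw : ∀ i, ∀ s t : ℝ≥0, s ≤ t → P.map (fun ω => B i t ω - B i s ω) = gaussianReal 0 (t - s))
    (hind : ∀ i (n : ℕ) (τ : Fin (n + 1) → ℝ≥0), Monotone τ →
      iIndepFun (fun (k : Fin n) (ω : Ω) => B i (τ k.succ) ω - B i (τ k.castSucc) ω) P)
    (c : Fin 2) {n : ℕ} (hn : 0 < n) :
    AEMeasurable (fun ω => stp n (fun t => B c t ω)) P ∧
    P.map (fun ω => stp n (fun t => B c t ω)) = Measure.pi fun _ : Fin n => gaussianReal 0 1 := by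
  have hae : ∀ i : Fin n, AEMeasurable (fun ω => stp n (fun t => B c t ω) i) P := fun i =>
    (aem_incr hlaw c (tm_mono n (Nat.le_succ i))).const_mul _
  refine ⟨aemeasurable_pi_lambda _ hae, ?_⟩
  have h1 := (hind c n (fun k => tm n k) (fun i j h => tm_mono n h)).comp
    (fun _ x => √n * x) (fun _ => by fun_prop)
  have h2 : iIndepFun (fun (i : Fin n) ω => stp n (fun t => B c t ω) i) P := h1
  rw [h2.map_fun_eq_pi_map hae]
  congr 1
  funext i
  have h3 := hlaw c _ _ (tm_mono n (Nat.le_succ i))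
  have h4 : (fun ω => stp n (fun t => B c t ω) i) =
      (fun x => √n * x) ∘ fun ω => B c (tm n (Nat.succ i)) ω - B c (tm n i) ω := rfl
  rw [h4, ← AEMeasurable.map_map_of_aemeasurable (by fun_prop)
    (aem_incr hlaw c (tm_mono n (Nat.le_succ i))), h3, gaussianReal_map_const_mul, mul_zero]
  congr 1
  apply NNReal.eq
  have hn' : (0 : ℝ) < n := by exact_mod_cast hn
  rw [NNReal.coe_mul, NNReal.coe_sub (tm_mono n (Nat.le_succ i))]
  simp only [tm, NNReal.coe_mk, NNReal.coe_div, NNReal.coe_natCast, NNReal.coe_one]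
  rw [Real.sq_sqrt hn'.le]
  push_cast
  field_simp
  ring

noncomputable def Z (B : Fin 2 → ℝ≥0 → Ω → ℝ) (n : ℕ) (ω : Ω) (i : Fin n) : E :=
  pr (stp n (fun t => B 0 t ω) i, stp n (fun t => B 1 t ω) i)

omit [MeasurableSpace Ω] in
theorem Z_eq (n : ℕ) (ω : Ω) (i : Fin n) :
    Z B n ω i = (√n : ℝ) • Bv B ω (tm n (i + 1)) - (√n : ℝ) • Bv B ω (tm n i) := by
  ext c
  fin_cases c <;> simp [Z, pr, stp, Bv, mul_sub]

theorem Z_law
    (hlaw : ∀ i, ∀ s t : ℝ≥0, s ≤ t → P.map (fun ω => B i t ω - B i s ω) = gaussianReal 0 (t - s))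
    (hind : ∀ i (n : ℕ) (τ : Fin (n + 1) → ℝ≥0), Monotone τ →
      iIndepFun (fun (k : Fin n) (ω : Ω) => B i (τ k.succ) ω - B i (τ k.castSucc) ω) P)
    (hI : IndepFun (fun ω t => B 0 t ω) (fun ω t => B 1 t ω) P) {n : ℕ} (hn : 0 < n) :
    AEMeasurable (Z B n) P ∧ P.map (Z B n) = Measure.pi fun _ : Fin n => gam := by
  obtain ⟨a0, l0⟩ := stp_law hlaw hind 0 hn
  obtain ⟨a1, l1⟩ := stp_law hlaw hind 1 hn
  have h1 : IndepFun (fun ω => stp n (fun t => B 0 t ω)) (fun ω => stp n (fun t => B 1 t ω)) P :=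
    hI.comp (measurable_stp n) (measurable_stp n)
  have h2 := h1.map_prod_eq_prod_map_map a0 a1
  rw [l0, l1] at h2
  have h3 : Z B n = (fun z : (Fin n → ℝ) × (Fin n → ℝ) => fun i => pr (z.1 i, z.2 i)) ∘
      fun ω => (stp n (fun t => B 0 t ω), stp n (fun t => B 1 t ω)) := rfl
  rw [h3]
  refine ⟨(pi_pr n).measurable.comp_aemeasurable (a0.prodMk a1), ?_⟩
  rw [← AEMeasurable.map_map_of_aemeasurable (pi_pr n).measurable.aemeasurable (a0.prodMk a1), h2,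
    (pi_pr n).map_eq]

omit [MeasurableSpace Ω] in
theorem block_GT {Q : Par} {N n₀ L m K : ℕ} (hn₀ : 0 < n₀) (hm : 0 < m) (hK : 0 < K)
    {F : Set (Fin (n₀ * m) → E)}
    (hF : ∀ ξ : ℕ → E, (fun i : Fin (n₀ * m) => ξ (i + 1) - ξ i) ∈ F →
        GT Q L (zoom (ξ '' Set.Iic (n₀ * m)) (ξ 0) (Real.sqrt m)) N) (ω : Ω) (b : Fin K)
    (hb : (fun j => Z B (K * (n₀ * m)) ω (finProdFinEquiv (b, j))) ∈ F) :
    ∃ x : E, GT Q L (zoom (Bv B ω '' Set.Icc 0 1) x (√(K * n₀ : ℕ))⁻¹) N := by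
  set n := K * (n₀ * m) with hn
  have hnpos : 0 < n := by positivity
  have hn' : (0 : ℝ) < n := by exact_mod_cast hnpos
  let ξ : ℕ → E := fun j => (√n : ℝ) • Bv B ω (tm n (j + n₀ * m * b))
  have h1 : (fun i : Fin (n₀ * m) => ξ (i + 1) - ξ i) ∈ F := by
    convert hb using 2 with j
    rw [Z_eq]
    simp only [ξ, finProdFinEquiv_apply_val]
    congr 4
    ring
  refine ⟨Bv B ω (tm n (0 + n₀ * m * b)), GT_mono Q L N ?_ (hF ξ h1)⟩
  rintro y ⟨j, hj, hy⟩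
  refine ⟨tm n (j + n₀ * m * b), ⟨zero_le, ?_⟩, ?_⟩
  · unfold tm
    rw [div_le_one (by exact_mod_cast hnpos)]
    have h2 : j + n₀ * m * b ≤ n := by
      have := b.isLt
      have hj' : j ≤ n₀ * m := hj
      calc j + n₀ * m * b ≤ n₀ * m * (b + 1) := by nlinarith
        _ ≤ n₀ * m * K := Nat.mul_le_mul_left _ this
        _ = n := by rw [hn]; ring
    exact_mod_cast h2
  · have hs : (0 : ℝ) < √n := Real.sqrt_pos.2 hn'
    have hm' : (0 : ℝ) < √m := Real.sqrt_pos.2 (by exact_mod_cast hm)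
    have hk' : (0 : ℝ) < √(K * n₀ : ℕ) := Real.sqrt_pos.2 (by exact_mod_cast Nat.mul_pos hK hn₀)
    have h3 : (√n : ℝ) = √(K * n₀ : ℕ) * √m := by
      rw [← Real.sqrt_mul (by positivity)]
      congr 1; rw [hn]; push_cast; ring
    have h4 : (√(K * n₀ : ℕ) : ℝ)⁻¹ = (√n : ℝ)⁻¹ * √m := by
      rw [h3]; field_simp
    have h5 := congrArg (fun v : E => (√n : ℝ)⁻¹ • v) hy
    simp only [ξ, smul_add, smul_smul, inv_mul_cancel₀ hs.ne', one_smul] at h5
    rw [h4]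
    exact h5

theorem ae_good
    (hlaw : ∀ i, ∀ s t : ℝ≥0, s ≤ t → P.map (fun ω => B i t ω - B i s ω) = gaussianReal 0 (t - s))
    (hind : ∀ i (n : ℕ) (τ : Fin (n + 1) → ℝ≥0), Monotone τ →
      iIndepFun (fun (k : Fin n) (ω : Ω) => B i (τ k.succ) ω - B i (τ k.castSucc) ω) P)
    (hI : IndepFun (fun ω t => B 0 t ω) (fun ω t => B 1 t ω) P)
    {Q : Par} {N n₀ : ℕ} {p : ℝ} (hn₀ : 0 < n₀) (hp : 0 < p)
    (H : ∀ L : ℕ, ∃ m : ℕ, 0 < m ∧ ∃ F : Set (Fin (n₀ * m) → E), MeasurableSet F ∧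
      ENNReal.ofReal p ≤ (Measure.pi fun _ : Fin (n₀ * m) => gam) F ∧
      ∀ ξ : ℕ → E, (fun i : Fin (n₀ * m) => ξ (i + 1) - ξ i) ∈ F →
        GT Q L (zoom (ξ '' Set.Iic (n₀ * m)) (ξ 0) (Real.sqrt m)) N) (K₀ : ℕ) :
    ∀ᵐ ω ∂P, ∃ K : ℕ, K₀ < K ∧
      ∃ᶠ L in atTop, ∃ x : E, GT Q L (zoom (Bv B ω '' Set.Icc 0 1) x (√(K * n₀ : ℕ))⁻¹) N := by
  let A : ℕ → ℕ → Set Ω := fun K L =>
    {ω | ¬ ∃ x : E, GT Q L (zoom (Bv B ω '' Set.Icc 0 1) x (√(K * n₀ : ℕ))⁻¹) N}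
  have hA : ∀ K L, 0 < K → P (A K L) ≤ (1 - ENNReal.ofReal p) ^ K := by
    intro K L hK
    obtain ⟨m, hm, F, hFm, hFp, hF⟩ := H L
    obtain ⟨hZ, hZl⟩ := Z_law hlaw hind hI (n := K * (n₀ * m)) (by positivity)
    obtain ⟨h1, h2⟩ := blocks_miss K (n₀ * m) hFm hFp
    rw [← hZl, Measure.map_apply_of_aemeasurable hZ h1] at h2
    refine le_trans (measure_mono ?_) h2
    intro ω hω b hb
    exact hω (block_GT hn₀ hm hK hF ω b hb)
  have hB : ∀ K, 0 < K → P (⋃ L₀, ⋂ L ≥ L₀, A K L) ≤ (1 - ENNReal.ofReal p) ^ K := by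
    intro K hK
    have hmono : Monotone fun L₀ => ⋂ L ≥ L₀, A K L := fun a b hab =>
      biInter_subset_biInter_left fun L hL => le_trans hab hL
    rw [hmono.measure_iUnion]
    refine iSup_le fun L₀ => le_trans (measure_mono ?_) (hA K L₀ hK)
    exact biInter_subset_of_mem (s := {L | L ≥ L₀}) (le_refl L₀)
  rw [ae_iff]
  have hlt : 1 - ENNReal.ofReal p < 1 :=
    ENNReal.sub_lt_self ENNReal.one_ne_top one_ne_zero (by simpa using hp)
  have ht := ENNReal.tendsto_pow_atTop_nhds_zero_of_lt_one hlt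
  refine le_antisymm (ge_of_tendsto ht ?_) zero_le
  filter_upwards [eventually_gt_atTop K₀] with K hK
  refine le_trans (measure_mono ?_) (hB K (lt_of_le_of_lt (Nat.zero_le _) hK))
  intro ω hω
  have h1 : ¬ ∃ᶠ L in atTop,
      ∃ x : E, GT Q L (zoom (Bv B ω '' Set.Icc 0 1) x (√(K * n₀ : ℕ))⁻¹) N :=
    fun h => hω ⟨K, hK, h⟩
  rw [not_frequently, eventually_atTop] at h1
  obtain ⟨L₀, hL₀⟩ := h1
  exact mem_iUnion.2 ⟨L₀, mem_iInter₂.2 fun L hL => hL₀ L hL⟩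

end BM

theorem unif_perfect {g : ℝ≥0 → E} (hg : Continuous g) {x : E} (hx : x ∈ g '' Set.Icc 0 1)
    {ρ : ℝ} (hρ : 0 < ρ) (hρ' : ρ ≤ dist (g 0) (g 1) / 2) :
    ∃ y ∈ g '' Set.Icc 0 1, dist y x = ρ := by
  have hc : IsPreconnected (g '' Set.Icc 0 1) := isPreconnected_Icc.image _ hg.continuousOn
  have h1 : ∃ z ∈ g '' Set.Icc 0 1, ρ ≤ dist z x := by
    by_cases h : ρ ≤ dist (g 0) x
    · exact ⟨g 0, mem_image_of_mem _ ⟨le_rfl, zero_le⟩, h⟩
    · refine ⟨g 1, mem_image_of_mem _ ⟨zero_le, le_rfl⟩, ?_⟩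
      have := dist_triangle_right (g 0) (g 1) x
      linarith
  obtain ⟨z, hz, hzρ⟩ := h1
  have h2 := hc.intermediate_value hx hz (f := fun y => dist y x) (by fun_prop)
  exact h2 ⟨by simpa using hρ.le, hzρ⟩

end Fi

open Fi in
theorem final_of (hD : StmtDet) (hP : StmtProb) :
  ∀ (Ω : Type) [MeasurableSpace Ω] (P : MeasureTheory.Measure Ω)
    [MeasureTheory.IsProbabilityMeasure P] (B : Fin 2 → NNReal → Ω → ℝ),
    (∀ i ω, B i 0 ω = 0) →
    (∀ i ω, Continuous (fun t => B i t ω)) →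
    (∀ i, ∀ s t : NNReal, s ≤ t →
      P.map (fun ω => B i t ω - B i s ω) = ProbabilityTheory.gaussianReal 0 (t - s)) →
    (∀ i (n : ℕ) (τ : Fin (n + 1) → NNReal), Monotone τ →
      ProbabilityTheory.iIndepFun
        (fun (k : Fin n) (ω : Ω) => B i (τ k.succ) ω - B i (τ k.castSucc) ω) P) →
    ProbabilityTheory.IndepFun (fun ω t => B 0 t ω) (fun ω t => B 1 t ω) P →
    ∀ᵐ ω ∂P, ∀ S : Set (EuclideanSpace ℝ (Fin 2)),
      S = (fun t : NNReal => (WithLp.toLp 2 (fun i => B i t ω) : EuclideanSpace ℝ (Fin 2)))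
            '' Set.Icc 0 1 →
      ∀ (Y : Type) [MetricSpace Y] (f : S → Y) (η : ℝ → ℝ),
        Function.Injective f →
        StrictMonoOn η (Set.Ici 0) →
        ContinuousOn η (Set.Ici 0) →
        η 0 = 0 →
        Filter.Tendsto η Filter.atTop Filter.atTop →
        (∀ x a b : S, a ≠ b →
          dist (f x) (f a) ≤ η (dist x a / dist b a) * dist (f b) (f a)) →
        (2 : ENNReal) ≤ dimH (Set.range f) := by
  intro Ω _ P _ B _ hc hlaw hind hI
  choose Q hQ N n₀ p hn₀ hp H using hP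
  have h1 : ∀ᵐ ω ∂P, ∀ (k : ℕ) (hk : 1 ≤ k) (K₀ : ℕ), ∃ K : ℕ, K₀ < K ∧ ∃ᶠ L in atTop,
      ∃ x : E, GT (Q k hk) L
        (zoom (Bv B ω '' Set.Icc 0 1) x (√(K * n₀ k hk : ℕ))⁻¹) (N k hk) := by
    rw [ae_all_iff]; intro k
    rw [ae_all_iff]; intro hk
    rw [ae_all_iff]; intro K₀
    exact ae_good hlaw hind hI (hn₀ k hk) (hp k hk) (H k hk) K₀
  have h2 : ∀ᵐ ω ∂P, B 0 1 ω - B 0 0 ω ≠ 0 := by
    have h3 := hlaw 0 0 1 zero_le
    have h4 : ∀ᵐ x ∂(P.map fun ω => B 0 1 ω - B 0 0 ω), x ≠ 0 := by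
      rw [h3]
      have := nullSingletonClass_gaussianReal (μ := 0) (v := 1 - 0) (by simp)
      exact Measure.ae_ne _ 0
    exact ae_of_ae_map (aem_incr hlaw 0 zero_le) h4
  filter_upwards [h1, h2] with ω hω hω'
  intro S hS Y _ f η hf hη hηc hη0 _ hq
  have hg : Continuous (Bv B ω) :=
    (PiLp.continuous_toLp 2 _).comp (continuous_pi fun i => hc i ω)
  have hS' : S = Bv B ω '' Set.Icc 0 1 := hS
  have hd : 0 < dist (Bv B ω 0) (Bv B ω 1) / 2 := by
    refine half_pos (dist_pos.2 fun h => hω' ?_)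
    have : B 0 0 ω = B 0 1 ω := congrArg (fun v : E => v 0) h
    rw [this, sub_self]
  have hSc : IsCompact S := hS' ▸ isCompact_Icc.image hg
  have key : ∀ s : ℝ, 0 < s → s < 2 → ENNReal.ofReal s ≤ dimH (Set.range f) := by
    intro s hs hs2
    obtain ⟨k, hk, hk'⟩ := hD S hSc _ hd
      (fun x hx ρ h h' => hS' ▸ unif_perfect hg (hS' ▸ hx) h h') Y f η hf hη hηc hη0 hq s hs hs2
    set ρ₀ := dist (Bv B ω 0) (Bv B ω 1) / 2
    have hDp : 0 < (Q k hk).D := lt_of_lt_of_le one_pos (hQ k hk).hD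
    obtain ⟨K₀, hK₀⟩ := exists_nat_ge ((16 * (Q k hk).D / ρ₀) ^ 2)
    obtain ⟨K, hK, hfr⟩ := hω k hk K₀
    have hKp : 0 < K := lt_of_le_of_lt (Nat.zero_le _) hK
    have hsq : (0 : ℝ) < √(K * n₀ k hk : ℕ) :=
      Real.sqrt_pos.2 (by exact_mod_cast Nat.mul_pos hKp (hn₀ k hk))
    refine hk' (Q k hk) (hQ k hk) _ (inv_pos.2 hsq) ?_ (N k hk) (hS' ▸ hfr)
    have h5 : 16 * (Q k hk).D / ρ₀ ≤ √(K * n₀ k hk : ℕ) := by
      refine Real.le_sqrt_of_sq_le (hK₀.trans ?_)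
      have : K₀ ≤ K * n₀ k hk := hK.le.trans (Nat.le_mul_of_pos_right _ (hn₀ k hk))
      exact_mod_cast this
    rw [div_le_iff₀ hd] at h5
    rw [← div_eq_mul_inv, div_le_iff₀ hsq]
    linarith
  refine le_of_forall_lt fun c hc2 => ?_
  obtain ⟨s, hs0, hs1, hs2⟩ := ENNReal.lt_iff_exists_real_btwn.1 hc2
  have hs : 0 < s := by
    by_contra h
    rw [ENNReal.ofReal_of_nonpos (not_lt.1 h)] at hs1
    exact not_lt_zero hs1
  have hs2' : s < 2 := by
    have : ENNReal.ofReal s < ENNReal.ofReal 2 := by simpa using hs2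
    exact (ENNReal.ofReal_lt_ofReal_iff two_pos).1 this
  exact lt_of_lt_of_le hs1 (key s hs hs2')

end Pool.Agent.MP_037c5a_pr

end

section

open MeasureTheory Finset

namespace Pool.Agent.MP_037c5a_pr

namespace Conc

theorem exp_neg_le {x : ℝ} (hx : 0 ≤ x) : Real.exp (-x) ≤ 1 - x + x ^ 2 / 2 := by
  have h1 := Real.quadratic_le_exp_of_nonneg hx
  have h2 : Real.exp (-x) * Real.exp x = 1 := by rw [← Real.exp_add]; simp
  have h3 : 0 < Real.exp (-x) := Real.exp_pos _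
  have h4 : 0 < 1 - x + x ^ 2 / 2 := by nlinarith [sq_nonneg (x - 1)]
  have h5 : Real.exp (-x) * (1 + x + x ^ 2 / 2) ≤ 1 := by
    calc Real.exp (-x) * (1 + x + x ^ 2 / 2) ≤ Real.exp (-x) * Real.exp x :=
          mul_le_mul_of_nonneg_left h1 h3.le
      _ = 1 := h2
  have h6 : 0 < 1 + x + x ^ 2 / 2 := by positivity
  have h7 : 1 ≤ (1 - x + x ^ 2 / 2) * (1 + x + x ^ 2 / 2) := by nlinarith [sq_nonneg (x ^ 2)]
  exact le_of_mul_le_mul_right (h5.trans h7) h6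

theorem exp_le_quad {x : ℝ} (hx : |x| ≤ 1) : Real.exp x ≤ 1 + x + x ^ 2 := by
  have := abs_le.1 (Real.abs_exp_sub_one_sub_id_le hx)
  linarith [this.2]

theorem quad_le_exp {x : ℝ} (hx : |x| ≤ 1 / 2) : 1 + x + x ^ 2 / 3 ≤ Real.exp x := by
  have h := Real.exp_bound (x := x) (by linarith) (n := 3) (by norm_num)
  simp only [sum_range_succ, range_zero, sum_empty, Nat.factorial] at h
  have h1 := (abs_le.1 h).1
  have h2 : |x| ^ 3 ≤ x ^ 2 / 2 := by
    have : |x| ^ 3 = |x| * x ^ 2 := by rw [← sq_abs x]; ring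
    rw [this]; nlinarith [sq_nonneg x]
  norm_num at h1
  nlinarith [sq_nonneg x]

variable {ι : Type} [Fintype ι] {Ω : Type} [MeasurableSpace Ω] {μ : Measure Ω}
  [IsProbabilityMeasure μ]

theorem integrable_bdd {α : Type} [MeasurableSpace α] {ν : Measure α} [IsProbabilityMeasure ν]
    {f : α → ℝ} (hf : Measurable f) (C : ℝ) (hC : ∀ x, |f x| ≤ C) : Integrable f ν :=
  Integrable.of_bound hf.aestronglyMeasurable C (Filter.Eventually.of_forall hC)

theorem int_exp_sum (X : ι → Ω → ℝ) :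
    ∫ ω : ι → Ω, Real.exp (∑ i, X i (ω i)) ∂(Measure.pi fun _ : ι => μ) =
      ∏ i, ∫ x, Real.exp (X i x) ∂μ := by
  simp_rw [Real.exp_sum]
  exact integral_fintype_prod_eq_prod (fun i x => Real.exp (X i x))

theorem meas_sum (X : ι → Ω → ℝ) (hX : ∀ i, Measurable (X i)) :
    Measurable fun ω : ι → Ω => ∑ i, X i (ω i) :=
  Finset.measurable_sum _ fun i _ => (hX i).comp (measurable_pi_apply i)

theorem integrable_exp_sum (X : ι → Ω → ℝ) (hX : ∀ i, Measurable (X i)) (C : ℝ)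
    (hC : ∀ i x, X i x ≤ C) :
    Integrable (fun ω : ι → Ω => Real.exp (∑ i, X i (ω i))) (Measure.pi fun _ : ι => μ) := by
  refine integrable_bdd (Real.measurable_exp.comp (meas_sum X hX)) (Real.exp (∑ _i : ι, C)) ?_
  intro ω
  rw [abs_of_pos (Real.exp_pos _)]
  exact Real.exp_le_exp.2 (sum_le_sum fun i _ => hC i _)

/-- Chernoff bound -/
theorem chernoff (X : ι → Ω → ℝ) (hX : ∀ i, Measurable (X i)) (C : ℝ)
    (hC : ∀ i x, X i x ≤ C) (g : ι → ℝ) (hg : ∀ i, ∫ x, Real.exp (X i x) ∂μ ≤ Real.exp (g i))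
    (a : ℝ) (A : Set (ι → Ω)) (hA : ∀ ω ∈ A, a ≤ ∑ i, X i (ω i)) (B : ℝ)
    (hB : ∑ i, g i - a ≤ B) :
    (Measure.pi fun _ : ι => μ) A ≤ ENNReal.ofReal (Real.exp B) := by
  set P := Measure.pi fun _ : ι => μ with hP
  have h1 := mul_meas_ge_le_integral_of_nonneg (μ := P)
    (f := fun ω : ι → Ω => Real.exp (∑ i, X i (ω i)))
    (Filter.Eventually.of_forall fun ω => (Real.exp_pos _).le) (integrable_exp_sum X hX C hC)
    (Real.exp a)
  rw [hP, int_exp_sum, ← hP] at h1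
  have h2 : ∏ i, ∫ x, Real.exp (X i x) ∂μ ≤ Real.exp (∑ i, g i) := by
    rw [Real.exp_sum]
    exact prod_le_prod (fun i _ => integral_nonneg fun x => (Real.exp_pos _).le) fun i _ => hg i
  have h3 : P.real {ω | Real.exp a ≤ Real.exp (∑ i, X i (ω i))} ≤ Real.exp B := by
    have h4 : Real.exp a * P.real {ω | Real.exp a ≤ Real.exp (∑ i, X i (ω i))} ≤
        Real.exp a * Real.exp B := by
      refine (h1.trans h2).trans ?_
      rw [← Real.exp_add]
      exact Real.exp_le_exp.2 (by linarith)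
    exact le_of_mul_le_mul_left h4 (Real.exp_pos _)
  calc P A ≤ P {ω | Real.exp a ≤ Real.exp (∑ i, X i (ω i))} :=
        measure_mono fun ω hω => Real.exp_le_exp.2 (hA ω hω)
    _ = ENNReal.ofReal (P.real {ω | Real.exp a ≤ Real.exp (∑ i, X i (ω i))}) :=
        (ofReal_measureReal).symm
    _ ≤ _ := ENNReal.ofReal_le_ofReal h3

/-- integral of a quadratic polynomial in a bounded variable -/
theorem int_quad {S : Ω → ℝ} (hS : Measurable S) (b : ℝ) (hb : ∀ x, |S x| ≤ b) (p q r : ℝ) :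
    Integrable (fun x => p + q * S x + r * S x ^ 2) μ ∧
    ∫ x, (p + q * S x + r * S x ^ 2) ∂μ = p + q * ∫ x, S x ∂μ + r * ∫ x, S x ^ 2 ∂μ := by
  have i1 : Integrable S μ := integrable_bdd hS b hb
  have i2 : Integrable (fun x => S x ^ 2) μ := by
    refine integrable_bdd (hS.pow_const 2) (b ^ 2) fun x => ?_
    rw [abs_pow]
    exact pow_le_pow_left₀ (abs_nonneg _) (hb x) 2
  have i3 : Integrable (fun x => p + q * S x) μ := (integrable_const p).add (i1.const_mul q)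
  refine ⟨i3.add (i2.const_mul r), ?_⟩
  rw [integral_add i3 (i2.const_mul r), integral_add (integrable_const p) (i1.const_mul q),
    integral_const_mul, integral_const_mul]
  simp

theorem integrable_exp {X : Ω → ℝ} (hX : Measurable X) (C : ℝ) (hC : ∀ x, X x ≤ C) :
    Integrable (fun x => Real.exp (X x)) μ := by
  refine integrable_bdd (Real.measurable_exp.comp hX) (Real.exp C) fun x => ?_
  rw [abs_of_pos (Real.exp_pos _)]
  exact Real.exp_le_exp.2 (hC x)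

theorem mgf_le {S X : Ω → ℝ} (hS : Measurable S) (b : ℝ) (hb : ∀ x, |S x| ≤ b)
    (hX : Measurable X) (C : ℝ) (hC : ∀ x, X x ≤ C) (q r : ℝ)
    (h : ∀ x, Real.exp (X x) ≤ 1 + q * S x + r * S x ^ 2) :
    ∫ x, Real.exp (X x) ∂μ ≤ Real.exp (q * ∫ x, S x ∂μ + r * ∫ x, S x ^ 2 ∂μ) := by
  obtain ⟨i1, e1⟩ := int_quad (μ := μ) hS b hb 1 q r
  have := integral_mono (integrable_exp (μ := μ) hX C hC) i1 h
  rw [e1] at this
  have h2 := Real.add_one_le_exp (q * ∫ x, S x ∂μ + r * ∫ x, S x ^ 2 ∂μ)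
  linarith

/-- Paley-Zygmund in the form needed -/
theorem pz {α : Type} [MeasurableSpace α] {ν : Measure α} [IsProbabilityMeasure ν]
    {Z : α → ℝ} (i1 : Integrable Z ν) (i2 : Integrable (fun x => Z x ^ 2) ν) (M : ℝ) (hM : 0 < M)
    (h1 : 1 ≤ ∫ x, Z x ∂ν) (h2 : ∫ x, Z x ^ 2 ∂ν ≤ M) (A : Set α) (hA : MeasurableSet A)
    (hZ : ∀ x ∈ A, Z x ≤ (∫ x, Z x ∂ν) / 2) : ν A ≤ ENNReal.ofReal (1 - 1 / (4 * M)) := by
  set m := ∫ x, Z x ∂ν with hm
  set s := 1 / (2 * M) with hs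
  have hs0 : 0 < s := by positivity
  have hpt : ∀ x, A.indicator (fun _ => (1 : ℝ)) x ≤ (1 + s * m) - 2 * s * Z x + s ^ 2 * Z x ^ 2 := by
    intro x
    by_cases hx : x ∈ A
    · rw [Set.indicator_of_mem hx]
      have := hZ x hx
      nlinarith [mul_nonneg hs0.le (by linarith : 0 ≤ m - 2 * Z x), sq_nonneg (s * Z x)]
    · rw [Set.indicator_of_notMem hx]
      nlinarith [sq_nonneg (1 - s * Z x), mul_nonneg hs0.le (by linarith : 0 ≤ m)]
  have i3 : Integrable (fun x => (1 + s * m) - 2 * s * Z x) ν :=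
    (integrable_const _).sub (i1.const_mul _)
  have i4 : Integrable (fun x => (1 + s * m) - 2 * s * Z x + s ^ 2 * Z x ^ 2) ν :=
    i3.add (i2.const_mul _)
  have h3 := integral_mono ((integrable_const (1 : ℝ)).indicator hA) i4 hpt
  rw [integral_add i3 (i2.const_mul _), integral_sub (integrable_const _) (i1.const_mul _),
    integral_const_mul, integral_const_mul, integral_indicator hA] at h3
  simp only [integral_const, probReal_univ, smul_eq_mul, mul_one, one_mul,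
    measureReal_restrict_apply_univ] at h3
  have h4 : ν.real A ≤ 1 - 1 / (4 * M) := by
    have e1 : 1 - 1 / (4 * M) = 1 - s + s ^ 2 * M := by rw [hs]; field_simp; ring
    rw [e1]
    have := mul_le_mul_of_nonneg_left h2 (sq_nonneg s)
    have := mul_le_mul_of_nonneg_left h1 hs0.le
    rw [← hm] at h3
    linarith
  calc ν A = ENNReal.ofReal (ν.real A) := (ofReal_measureReal).symm
    _ ≤ _ := ENNReal.ofReal_le_ofReal h4

end Conc

open Conc in
theorem stmtConc : StmtConc := by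
  intro ι _ Ω _ μ _ S b hb hS hSb
  have habs : ∀ i x, |S i x| ≤ b := fun i x => by
    rw [abs_of_nonneg (hSb i x).1]; exact (hSb i x).2
  refine ⟨?_, ?_, ?_, ?_⟩
  · intro V y hV hy hV2
    set t := y / V with ht
    have ht0 : 0 ≤ t := div_nonneg hy hV.le
    refine chernoff (fun i x => -(t * S i x)) (fun i => ((hS i).const_mul t).neg) 0
      (fun i x => by have := mul_nonneg ht0 (hSb i x).1; linarith)
      (fun i => (-t) * ∫ x, S i x ∂μ + t ^ 2 / 2 * ∫ x, S i x ^ 2 ∂μ)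
      (fun i => mgf_le (X := fun x => -(t * S i x)) (hS i) b (habs i) ((hS i).const_mul t).neg 0
        (fun x => by have := mul_nonneg ht0 (hSb i x).1; linarith) _ _ fun x => ?_)
      (-(t * (∑ i, ∫ x, S i x ∂μ - y))) _ (fun ω hω => ?_) _ ?_
    · have := exp_neg_le (mul_nonneg ht0 (hSb i x).1)
      nlinarith
    · rw [sum_neg_distrib, ← mul_sum]
      have := mul_le_mul_of_nonneg_left (show ∑ i, S i (ω i) ≤ _ from hω) ht0
      linarith
    · rw [sum_add_distrib, ← mul_sum, ← mul_sum]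
      have h1 := mul_le_mul_of_nonneg_left hV2 (by positivity : 0 ≤ t ^ 2 / 2)
      have e : -(y ^ 2 / (2 * V)) = t ^ 2 / 2 * V - t * y := by rw [ht]; field_simp; ring
      rw [e]; linarith
  · intro V y hV hy hyb hV2
    set t := y / (2 * V) with ht
    have ht0 : 0 ≤ t := div_nonneg hy (by positivity)
    have htb : t * b ≤ 1 := by
      rw [ht, div_mul_eq_mul_div, div_le_one (by positivity)]; exact hyb
    have hle : ∀ i x, t * S i x ≤ 1 := fun i x =>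
      (mul_le_mul_of_nonneg_left (hSb i x).2 ht0).trans htb
    refine chernoff (fun i x => t * S i x) (fun i => (hS i).const_mul t) 1 hle
      (fun i => t * ∫ x, S i x ∂μ + t ^ 2 * ∫ x, S i x ^ 2 ∂μ)
      (fun i => mgf_le (hS i) b (habs i) ((hS i).const_mul t) 1 (hle i) _ _ fun x => ?_)
      (t * (∑ i, ∫ x, S i x ∂μ + y)) _ (fun ω hω => ?_) _ ?_
    · have := exp_le_quad (x := t * S i x)
        (by rw [abs_of_nonneg (mul_nonneg ht0 (hSb i x).1)]; exact hle i x)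
      nlinarith
    · rw [← mul_sum]
      exact mul_le_mul_of_nonneg_left hω ht0
    · rw [sum_add_distrib, ← mul_sum, ← mul_sum]
      have h1 := mul_le_mul_of_nonneg_left hV2 (by positivity : 0 ≤ t ^ 2)
      have e : -(y ^ 2 / (4 * V)) = t ^ 2 * V - t * y := by rw [ht]; field_simp; ring
      rw [e]; linarith
  · intro m W hm
    set t := 1 / b with ht
    have ht0 : 0 ≤ t := by positivity
    have htb : t * b = 1 := by rw [ht]; field_simp
    have hle : ∀ i x, t * S i x ≤ 1 := fun i x =>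
      (mul_le_mul_of_nonneg_left (hSb i x).2 ht0).trans htb.le
    refine chernoff (fun i x => t * S i x) (fun i => (hS i).const_mul t) 1 hle
      (fun i => (2 * t) * ∫ x, S i x ∂μ + 0 * ∫ x, S i x ^ 2 ∂μ)
      (fun i => mgf_le (hS i) b (habs i) ((hS i).const_mul t) 1 (hle i) _ _ fun x => ?_)
      (t * W) _ (fun ω hω => ?_) _ ?_
    · have h0 := mul_nonneg ht0 (hSb i x).1
      have := exp_le_quad (x := t * S i x) (by rw [abs_of_nonneg h0]; exact hle i x)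
      nlinarith [hle i x]
    · rw [← mul_sum]
      exact mul_le_mul_of_nonneg_left hω ht0
    · simp only [zero_mul, add_zero]
      rw [← mul_sum]
      have h1 := mul_le_mul_of_nonneg_left hm (by positivity : 0 ≤ 2 * t)
      have e : -((W - 2 * m) / b) = 2 * t * m - t * W := by rw [ht]; field_simp; ring
      rw [e]; linarith
  · intro lam V₁ V₂ hlam hlb hV1 hV2
    set e : ι → ℝ := fun i => ∫ x, S i x ∂μ with he
    have he0 : ∀ i, 0 ≤ e i := fun i => integral_nonneg fun x => (hSb i x).1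
    have heb : ∀ i, e i ≤ b := fun i => by
      have := integral_mono (integrable_bdd (ν := μ) (hS i) b (habs i)) (integrable_const b)
        fun x => (hSb i x).2
      simpa using this
    set ξ : ι → Ω → ℝ := fun i x => S i x - e i with hξ
    have hξm : ∀ i, Measurable (ξ i) := fun i => (hS i).sub_const _
    have hξb : ∀ i x, |ξ i x| ≤ b := fun i x => by
      rw [abs_le]; constructor <;> simp only [hξ] <;> linarith [hSb i x, he0 i, heb i]
    have hlξ : ∀ i x, |lam * ξ i x| ≤ 1 / 2 := fun i x => by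
      rw [abs_mul, abs_of_pos hlam]
      exact (mul_le_mul_of_nonneg_left (hξb i x) hlam.le).trans hlb
    set v : ι → ℝ := fun i => ∫ ω, S i ω ^ 2 ∂μ - (∫ ω, S i ω ∂μ) ^ 2 with hv
    have hE1 : ∀ i, ∫ x, ξ i x ∂μ = 0 := fun i => by
      have := (int_quad (μ := μ) (hS i) b (habs i) (-e i) 1 0).2
      simp only [zero_mul, add_zero, one_mul] at this
      have e2 : (fun x => ξ i x) = fun x => -e i + S i x := by funext x; simp only [hξ]; ring
      rw [e2, this]; simp [he]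
    have hE2 : ∀ i, ∫ x, ξ i x ^ 2 ∂μ = v i := fun i => by
      have := (int_quad (μ := μ) (hS i) b (habs i) (e i ^ 2) (-2 * e i) 1).2
      have e2 : (fun x => ξ i x ^ 2) = fun x => e i ^ 2 + -2 * e i * S i x + 1 * S i x ^ 2 := by
        funext x; simp only [hξ]; ring
      rw [e2, this]; simp only [hv, he]; ring
    have hv0 : ∀ i, 0 ≤ v i := fun i => by
      rw [← hE2 i]; exact integral_nonneg fun x => sq_nonneg _
    have hvb : ∀ i, lam ^ 2 * v i ≤ 1 / 4 := fun i => by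
      obtain ⟨i1, e1⟩ := int_quad (μ := μ) (hξm i) b (hξb i) 0 0 (lam ^ 2)
      have := integral_mono i1 (integrable_const (1 / 4 : ℝ)) fun x => by
        have h := hlξ i x
        have h2 : (lam * ξ i x) ^ 2 ≤ (1 / 2) ^ 2 := by
          rw [← sq_abs]; exact pow_le_pow_left₀ (abs_nonneg _) h 2
        show 0 + 0 * ξ i x + lam ^ 2 * ξ i x ^ 2 ≤ 1 / 4
        nlinarith
      rw [e1, hE2] at this
      simpa using this
    have hlow : ∀ i, Real.exp (lam ^ 2 * v i / 4) ≤ ∫ x, Real.exp (lam * ξ i x) ∂μ := fun i => by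
      obtain ⟨i1, e1⟩ := int_quad (μ := μ) (hξm i) b (hξb i) 1 lam (lam ^ 2 / 3)
      have h1 := integral_mono i1 (integrable_exp (μ := μ) ((hξm i).const_mul lam) (1 / 2)
        fun x => (abs_le.1 (hlξ i x)).2) fun x => by
          have := quad_le_exp (hlξ i x)
          show 1 + lam * ξ i x + lam ^ 2 / 3 * ξ i x ^ 2 ≤ Real.exp (lam * ξ i x)
          nlinarith
      rw [e1, hE1, hE2] at h1
      have hu0 : 0 ≤ lam ^ 2 * v i := mul_nonneg (sq_nonneg _) (hv0 i)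
      have hu := hvb i
      have h2 := exp_le_quad (x := lam ^ 2 * v i / 4) (by rw [abs_of_nonneg (by positivity)]; linarith)
      nlinarith
    have hup : ∀ i, ∫ x, Real.exp (2 * lam * ξ i x) ∂μ ≤
        Real.exp (4 * lam ^ 2 * ∫ x, S i x ^ 2 ∂μ) := fun i => by
      have h1 := mgf_le (μ := μ) (hξm i) b (hξb i) ((hξm i).const_mul (2 * lam)) 1
        (fun x => by have := (abs_le.1 (hlξ i x)).2; linarith) (2 * lam) (4 * lam ^ 2) fun x => by
          have := exp_le_quad (x := 2 * lam * ξ i x) (by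
            have := abs_le.1 (hlξ i x)
            rw [abs_le]; constructor <;> linarith [this.1, this.2])
          nlinarith
      rw [hE1, hE2] at h1
      refine h1.trans (Real.exp_le_exp.2 ?_)
      have : v i ≤ ∫ x, S i x ^ 2 ∂μ := by simp only [hv]; linarith [sq_nonneg (∫ ω, S i ω ∂μ)]
      nlinarith [sq_nonneg lam]
    have hsq : (fun ω : ι → Ω => Real.exp (∑ i, lam * ξ i (ω i)) ^ 2) =
        fun ω => Real.exp (∑ i, 2 * lam * ξ i (ω i)) := by
      funext ω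
      rw [← Real.exp_nat_mul, mul_sum]
      congr 1
      exact sum_congr rfl fun i _ => by push_cast; ring
    have hZ1 : Real.exp (lam ^ 2 * (∑ i, v i) / 4) ≤
        ∫ ω : ι → Ω, Real.exp (∑ i, lam * ξ i (ω i)) ∂(Measure.pi fun _ : ι => μ) := by
      rw [int_exp_sum (fun i x => lam * ξ i x), mul_sum, sum_div, Real.exp_sum]
      exact prod_le_prod (fun i _ => (Real.exp_pos _).le) fun i _ => hlow i
    have hsv : 0 ≤ ∑ i, v i := sum_nonneg fun i _ => hv0 i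
    have h := pz (ν := Measure.pi fun _ : ι => μ)
      (Z := fun ω : ι → Ω => Real.exp (∑ i, lam * ξ i (ω i)))
      (integrable_exp_sum (fun i x => lam * ξ i x) (fun i => (hξm i).const_mul lam) (1 / 2)
        fun i x => (abs_le.1 (hlξ i x)).2)
      (by
        rw [hsq]
        exact integrable_exp_sum (fun i x => 2 * lam * ξ i x) (fun i => (hξm i).const_mul _) 1
          fun i x => by have := (abs_le.1 (hlξ i x)).2; linarith)
      (Real.exp (4 * lam ^ 2 * V₂)) (Real.exp_pos _)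
      ((Real.one_le_exp (by positivity)).trans hZ1)
      (by
        rw [hsq, int_exp_sum (fun i x => 2 * lam * ξ i x)]
        refine (prod_le_prod (fun i _ => integral_nonneg fun x => (Real.exp_pos _).le)
          fun i _ => hup i).trans ?_
        rw [← Real.exp_sum, ← mul_sum]
        exact Real.exp_le_exp.2 (mul_le_mul_of_nonneg_left hV2 (by positivity)))
      {ω | ∑ i, S i (ω i) < ∑ i, ∫ x, S i x ∂μ + (lam * V₁ / 4 - 1 / lam)}
      (measurableSet_lt (meas_sum S hS) measurable_const)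
      (by
        intro ω hω
        have h1 : ∑ i, lam * ξ i (ω i) ≤ lam ^ 2 * (∑ i, v i) / 4 - 1 := by
          rw [← mul_sum]
          simp only [hξ]
          rw [sum_sub_distrib]
          have h2 : ∑ i, S i (ω i) - ∑ i, e i ≤ lam * V₁ / 4 - 1 / lam := by
            have : ∑ i, S i (ω i) < ∑ i, e i + (lam * V₁ / 4 - 1 / lam) := hω
            linarith
          have h3 := mul_le_mul_of_nonneg_left h2 hlam.le
          have e3 : lam * (lam * V₁ / 4 - 1 / lam) = lam ^ 2 * V₁ / 4 - 1 := by field_simp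
          have h4 := mul_le_mul_of_nonneg_left (show V₁ ≤ ∑ i, v i from hV1) (sq_nonneg lam)
          linarith
        have h2 : Real.exp (lam ^ 2 * (∑ i, v i) / 4 - 1) * 2 ≤
            Real.exp (lam ^ 2 * (∑ i, v i) / 4) := by
          have h3 : (2 : ℝ) ≤ Real.exp 1 := by linarith [Real.add_one_le_exp 1]
          calc _ ≤ Real.exp (lam ^ 2 * (∑ i, v i) / 4 - 1) * Real.exp 1 :=
                mul_le_mul_of_nonneg_left h3 (Real.exp_pos _).le
            _ = _ := by rw [← Real.exp_add]; congr 1; ring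
        have h3 := Real.exp_le_exp.2 h1
        show Real.exp (∑ i, lam * ξ i (ω i)) ≤ _
        linarith)
    refine h.trans (le_of_eq ?_)
    congr 2
    rw [Real.exp_neg]; field_simp

end Pool.Agent.MP_037c5a_pr

end
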