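import Pool.Agent.Mg.S19113.Gcf95d3

section

open MeasureTheory Finset

namespace Pool.Agent.MP_037c5a_pr.Mo

theorem ph_pos {t : ℝ} (ht : 0 < t) (x : E) : 0 < ph t x := by
  unfold ph
  have := Real.pi_pos
  positivity

theorem ph_nonneg {t : ℝ} (ht : 0 ≤ t) (x : E) : 0 ≤ ph t x := by
  unfold ph
  have := Real.pi_pos
  positivity

theorem ph_neg (t : ℝ) (x : E) : ph t (-x) = ph t x := by
  unfold ph
  rw [norm_neg]

theorem ph_le {t : ℝ} (ht : 0 < t) (x : E) : ph t x ≤ (2 * Real.pi * t)⁻¹ := by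
  unfold ph
  have := Real.pi_pos
  have h1 : Real.exp (-‖x‖ ^ 2 / (2 * t)) ≤ 1 := by
    apply Real.exp_le_one_iff.mpr
    apply div_nonpos_of_nonpos_of_nonneg
    · have := sq_nonneg ‖x‖
      linarith
    · linarith
  have h2 : 0 ≤ (2 * Real.pi * t)⁻¹ := by positivity
  calc _ ≤ (2 * Real.pi * t)⁻¹ * 1 := mul_le_mul_of_nonneg_left h1 h2
    _ = _ := mul_one _

theorem continuous_ph (t : ℝ) : Continuous (ph t) := by
  unfold ph
  fun_prop

theorem measurable_ph (t : ℝ) : Measurable (ph t) := (continuous_ph t).measurable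

theorem ph_scale {M n l : ℝ} (hM2 : M ^ 2 = n) (hn : 0 < n) (hl : 0 < l) (x : E) :
    ph l (M • x) = n⁻¹ * ph (l / n) x := by
  unfold ph
  have := Real.pi_pos
  have h1 : ‖M • x‖ ^ 2 = n * ‖x‖ ^ 2 := by
    rw [norm_smul, mul_pow, Real.norm_eq_abs, sq_abs, hM2]
  rw [h1]
  have h2 : -(n * ‖x‖ ^ 2) / (2 * l) = -‖x‖ ^ 2 / (2 * (l / n)) := by
    field_simp
  rw [h2, ← mul_assoc]
  congr 1
  field_simp

theorem ph_cmp {s0 η D t t' : ℝ} {x x' : E} (hs0 : 0 < s0) (hs1 : s0 ≤ 1 / 4) (hD : 4 ≤ D)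
    (ht : s0 ≤ t) (ht' : s0 ≤ t') (htt : |t - t'| ≤ η)
    (hx : ‖x‖ ≤ D + 1) (hx' : ‖x'‖ ≤ D + 1) (hxx : ‖x - x'‖ ≤ η) :
    ph t' x' ≤ Real.exp (η * ((D + 1) ^ 2 / s0 ^ 2)) * ph t x := by
  have hpi := Real.pi_pos
  have ht0 : 0 < t := lt_of_lt_of_le hs0 ht
  have ht0' : 0 < t' := lt_of_lt_of_le hs0 ht'
  have hη : 0 ≤ η := le_trans (abs_nonneg _) htt
  have hab := abs_le.mp htt
  -- prefactor
  have h1 : (2 * Real.pi * t')⁻¹ ≤ Real.exp (η / s0) * (2 * Real.pi * t)⁻¹ := by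
    have e1 : t / t' ≤ Real.exp (η / s0) := by
      have : t / t' ≤ η / s0 + 1 := by
        have a1 : t / t' = (t - t') / t' + 1 := by field_simp; ring
        rw [a1]
        have a2 : (t - t') / t' ≤ η / t' := div_le_div_of_nonneg_right hab.2 ht0'.le
        have a3 : η / t' ≤ η / s0 := div_le_div_of_nonneg_left hη hs0 ht'
        linarith
      exact this.trans (Real.add_one_le_exp _)
    have e2 : (2 * Real.pi * t')⁻¹ = t / t' * (2 * Real.pi * t)⁻¹ := by field_simp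
    rw [e2]
    exact mul_le_mul_of_nonneg_right e1 (by positivity)
  have h2 : -‖x'‖ ^ 2 / (2 * t') ≤
      (η * (D + 1) / s0 + (D + 1) ^ 2 * η / (2 * s0 ^ 2)) + -‖x‖ ^ 2 / (2 * t) := by
    have n0 := norm_nonneg x
    have n1 := norm_nonneg x'
    have d1 : ‖x‖ - ‖x'‖ ≤ η := (norm_sub_norm_le x x').trans hxx
    have a1 : (‖x‖ ^ 2 - ‖x'‖ ^ 2) / (2 * t) ≤ η * (D + 1) / s0 := by
      have b1 : ‖x‖ ^ 2 - ‖x'‖ ^ 2 ≤ η * (2 * (D + 1)) := by
        have : ‖x‖ ^ 2 - ‖x'‖ ^ 2 = (‖x‖ - ‖x'‖) * (‖x‖ + ‖x'‖) := by ring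
        rw [this]
        calc _ ≤ η * (‖x‖ + ‖x'‖) := mul_le_mul_of_nonneg_right d1 (by linarith)
          _ ≤ _ := mul_le_mul_of_nonneg_left (by linarith) hη
      calc _ ≤ η * (2 * (D + 1)) / (2 * t) := div_le_div_of_nonneg_right b1 (by linarith)
        _ = η * (D + 1) / t := by field_simp
        _ ≤ _ := div_le_div_of_nonneg_left (by positivity) hs0 ht
    have a2 : ‖x'‖ ^ 2 * ((t' - t) / (2 * (t * t'))) ≤ (D + 1) ^ 2 * η / (2 * s0 ^ 2) := by
      have b1 : (t' - t) / (2 * (t * t')) ≤ η / (2 * s0 ^ 2) := by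
        calc _ ≤ η / (2 * (t * t')) := div_le_div_of_nonneg_right (by linarith) (by positivity)
          _ ≤ _ := by
            apply div_le_div_of_nonneg_left hη (by positivity)
            have : s0 * s0 ≤ t * t' := mul_le_mul ht ht' hs0.le ht0.le
            nlinarith
      have b2 : ‖x'‖ ^ 2 ≤ (D + 1) ^ 2 := pow_le_pow_left₀ n1 hx' 2
      calc _ ≤ ‖x'‖ ^ 2 * (η / (2 * s0 ^ 2)) := mul_le_mul_of_nonneg_left b1 (by positivity)
        _ ≤ (D + 1) ^ 2 * (η / (2 * s0 ^ 2)) := mul_le_mul_of_nonneg_right b2 (by positivity)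
        _ = _ := by ring
    have a3 : -‖x'‖ ^ 2 / (2 * t') = (‖x‖ ^ 2 - ‖x'‖ ^ 2) / (2 * t) +
        ‖x'‖ ^ 2 * ((t' - t) / (2 * (t * t'))) + -‖x‖ ^ 2 / (2 * t) := by
      field_simp
      ring
    rw [a3]
    linarith
  have h3 : η / s0 + (η * (D + 1) / s0 + (D + 1) ^ 2 * η / (2 * s0 ^ 2)) ≤
      η * ((D + 1) ^ 2 / s0 ^ 2) := by
    have a1 : η / s0 + (η * (D + 1) / s0 + (D + 1) ^ 2 * η / (2 * s0 ^ 2)) =
        η / s0 ^ 2 * (s0 * (D + 2) + (D + 1) ^ 2 / 2) := by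
      field_simp
      ring
    have a2 : η * ((D + 1) ^ 2 / s0 ^ 2) = η / s0 ^ 2 * (D + 1) ^ 2 := by ring
    rw [a1, a2]
    apply mul_le_mul_of_nonneg_left _ (by positivity)
    nlinarith
  unfold ph
  calc (2 * Real.pi * t')⁻¹ * Real.exp (-‖x'‖ ^ 2 / (2 * t'))
      ≤ (Real.exp (η / s0) * (2 * Real.pi * t)⁻¹) *
        Real.exp ((η * (D + 1) / s0 + (D + 1) ^ 2 * η / (2 * s0 ^ 2)) + -‖x‖ ^ 2 / (2 * t)) :=
        mul_le_mul h1 (Real.exp_le_exp.mpr h2) (by positivity) (by positivity)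
    _ = Real.exp (η / s0 + (η * (D + 1) / s0 + (D + 1) ^ 2 * η / (2 * s0 ^ 2))) *
        ((2 * Real.pi * t)⁻¹ * Real.exp (-‖x‖ ^ 2 / (2 * t))) := by
        rw [Real.exp_add, Real.exp_add (η / s0)]; ring
    _ ≤ _ := mul_le_mul_of_nonneg_right (Real.exp_le_exp.mpr h3) (by positivity)

theorem ph_lam {t t' : ℝ} (ht' : 0 < t') (h : t' ≤ t) (x : E) : ph t' x ≤ t / t' * ph t x := by
  have hpi := Real.pi_pos
  have ht : 0 < t := lt_of_lt_of_le ht' h
  unfold ph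
  have e2 : (2 * Real.pi * t')⁻¹ = t / t' * (2 * Real.pi * t)⁻¹ := by field_simp
  rw [e2, mul_assoc]
  apply mul_le_mul_of_nonneg_left _ (by positivity)
  apply mul_le_mul_of_nonneg_left _ (by positivity)
  apply Real.exp_le_exp.mpr
  rw [neg_div, neg_div, neg_le_neg_iff]
  exact div_le_div_of_nonneg_left (by positivity) (by positivity) (by linarith)

theorem ph_lower {t c : ℝ} (ht : 0 < t) {x : E} (hx : ‖x‖ ^ 2 ≤ 2 * t * c) :
    Real.exp (-c) * (2 * Real.pi * t)⁻¹ ≤ ph t x := by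
  have hpi := Real.pi_pos
  unfold ph
  rw [mul_comm]
  apply mul_le_mul_of_nonneg_left _ (by positivity)
  apply Real.exp_le_exp.mpr
  rw [neg_div, neg_le_neg_iff, div_le_iff₀ (by positivity)]
  linarith

theorem ph_tail {s D : ℝ} (hs : 0 < s) (hs1 : s ≤ 1) (hD : 0 ≤ D) {x : E} (hx : D ≤ ‖x‖) :
    ph s x ≤ 2 * Real.exp (-(D ^ 2 / 4)) * ph (2 * s) x := by
  have hpi := Real.pi_pos
  unfold ph
  have e2 : (2 * Real.pi * s)⁻¹ = 2 * (2 * Real.pi * (2 * s))⁻¹ := by field_simp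
  have e3 : -‖x‖ ^ 2 / (2 * s) ≤ -(D ^ 2 / 4) + -‖x‖ ^ 2 / (2 * (2 * s)) := by
    have a1 : -‖x‖ ^ 2 / (2 * s) = -(‖x‖ ^ 2 / (4 * s)) + -‖x‖ ^ 2 / (2 * (2 * s)) := by
      field_simp
      ring
    have a2 : D ^ 2 / 4 ≤ ‖x‖ ^ 2 / (4 * s) := by
      have b1 : D ^ 2 ≤ ‖x‖ ^ 2 := pow_le_pow_left₀ hD hx 2
      calc D ^ 2 / 4 ≤ ‖x‖ ^ 2 / 4 := by linarith
        _ ≤ _ := div_le_div_of_nonneg_left (by positivity) (by positivity) (by linarith)
    rw [a1]
    linarith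
  rw [e2]
  calc 2 * (2 * Real.pi * (2 * s))⁻¹ * Real.exp (-‖x‖ ^ 2 / (2 * s))
      ≤ 2 * (2 * Real.pi * (2 * s))⁻¹ * Real.exp (-(D ^ 2 / 4) + -‖x‖ ^ 2 / (2 * (2 * s))) :=
        mul_le_mul_of_nonneg_left (Real.exp_le_exp.mpr e3) (by positivity)
    _ = _ := by rw [Real.exp_add]; ring

theorem term_le {s : ℝ} (hs : 0 < s) (hs1 : s < 1) (A B : E) :
    ph s A * ph (1 - s) B / ph 1 (B - A) ≤ (2 * Real.pi * (s * (1 - s)))⁻¹ := by
  have hpi := Real.pi_pos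
  have h1s : 0 < 1 - s := by linarith
  rw [div_le_iff₀ (ph_pos one_pos _)]
  unfold ph
  have e1 : -‖A‖ ^ 2 / (2 * s) + -‖B‖ ^ 2 / (2 * (1 - s)) ≤ -‖B - A‖ ^ 2 / (2 * 1) := by
    have n0 := norm_nonneg A
    have n1 := norm_nonneg B
    have a1 : ‖B - A‖ ^ 2 ≤ (‖B‖ + ‖A‖) ^ 2 := pow_le_pow_left₀ (norm_nonneg _) (norm_sub_le B A) 2
    have a2 : (‖B‖ + ‖A‖) ^ 2 ≤ ‖A‖ ^ 2 / s + ‖B‖ ^ 2 / (1 - s) := by
      have b1 : ‖A‖ ^ 2 / s + ‖B‖ ^ 2 / (1 - s) - (‖B‖ + ‖A‖) ^ 2 =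
          ((1 - s) * ‖A‖ - s * ‖B‖) ^ 2 / (s * (1 - s)) := by
        field_simp
        ring
      have b2 : 0 ≤ ((1 - s) * ‖A‖ - s * ‖B‖) ^ 2 / (s * (1 - s)) := by positivity
      linarith
    have a3 : -‖A‖ ^ 2 / (2 * s) + -‖B‖ ^ 2 / (2 * (1 - s)) =
        -(‖A‖ ^ 2 / s + ‖B‖ ^ 2 / (1 - s)) / 2 := by
      field_simp
      ring
    rw [a3]
    linarith
  calc (2 * Real.pi * s)⁻¹ * Real.exp (-‖A‖ ^ 2 / (2 * s)) *
        ((2 * Real.pi * (1 - s))⁻¹ * Real.exp (-‖B‖ ^ 2 / (2 * (1 - s))))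
      = (2 * Real.pi * (s * (1 - s)))⁻¹ * ((2 * Real.pi * 1)⁻¹ *
          Real.exp (-‖A‖ ^ 2 / (2 * s) + -‖B‖ ^ 2 / (2 * (1 - s)))) := by
        rw [Real.exp_add]
        field_simp
    _ ≤ _ := by
        apply mul_le_mul_of_nonneg_left _ (by positivity)
        exact mul_le_mul_of_nonneg_left (Real.exp_le_exp.mpr e1) (by positivity)

theorem harm_le (n : ℕ) : ∑ u ∈ Icc 1 n, (u : ℝ)⁻¹ ≤ 1 + Real.log n := by
  have h := harmonic_le_one_add_log n
  simpa only [harmonic_eq_sum_Icc, Rat.cast_sum, Rat.cast_inv, Rat.cast_natCast] using h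

/-- an injective family of integers in `[1,n]` has reciprocal sum at most `1 + log n` -/
theorem harm_inj {ι : Type} (S : Finset ι) (f : ι → ℕ) (n : ℕ) (hf : Set.InjOn f S)
    (h : ∀ i ∈ S, 1 ≤ f i ∧ f i ≤ n) : ∑ i ∈ S, (f i : ℝ)⁻¹ ≤ 1 + Real.log n := by
  classical
  have e : ∑ i ∈ S, (f i : ℝ)⁻¹ = ∑ u ∈ S.image f, (u : ℝ)⁻¹ :=
    (Finset.sum_image (f := fun u : ℕ => (u : ℝ)⁻¹) hf).symm
  rw [e]
  refine le_trans (Finset.sum_le_sum_of_subset_of_nonneg ?_ ?_) (harm_le n)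
  · intro u hu
    obtain ⟨i, hi, rfl⟩ := Finset.mem_image.mp hu
    exact Finset.mem_Icc.mpr (h i hi)
  · intro u _ _
    positivity

theorem log_le_harm {a : ℕ} (ha : 1 ≤ a) : ∀ b : ℕ, a ≤ b →
    Real.log b - Real.log a ≤ ∑ j ∈ Ico a b, (j : ℝ)⁻¹ := by
  intro b hb
  induction b, hb using Nat.le_induction with
  | base => simp
  | succ b hb ih =>
    rw [Finset.sum_Ico_succ_top hb]
    have hb0 : (0 : ℝ) < b := by exact_mod_cast lt_of_lt_of_le Nat.one_pos (ha.trans hb)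
    have h1 : Real.log ((b + 1 : ℕ) : ℝ) - Real.log b ≤ (b : ℝ)⁻¹ := by
      rw [← Real.log_div (by positivity) hb0.ne']
      have h2 := Real.log_le_sub_one_of_pos (show 0 < ((b + 1 : ℕ) : ℝ) / b by positivity)
      have h3 : ((b + 1 : ℕ) : ℝ) / b - 1 = (b : ℝ)⁻¹ := by
        push_cast
        field_simp
        ring
      linarith
    linarith

/-- the `u`-th term of `gk` -/
noncomputable def tm (q u : ℕ) (A B : E) : ℝ :=
  ph (u / q) A * ph (1 - u / q) B / ph 1 (B - A)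

theorem gk_eq (q q0 : ℕ) (A B : E) :
    gk q q0 A B = (q : ℝ)⁻¹ * ∑ u ∈ Ico q0 (q - q0), tm q u A B := rfl

theorem win_facts {q q0 u : ℕ} (hq0 : 1 ≤ q0) (hu : u ∈ Ico q0 (q - q0)) :
    (0 : ℝ) < q ∧ (q0 : ℝ) ≤ u ∧ (u : ℝ) + 1 ≤ q - q0 ∧ (1 : ℝ) ≤ q0 := by
  rw [Finset.mem_Ico] at hu
  have h1 : u + 1 + q0 ≤ q := by omega
  have h2 : ((u + 1 + q0 : ℕ) : ℝ) ≤ q := by exact_mod_cast h1
  push_cast at h2
  have h3 : (1 : ℝ) ≤ q0 := by exact_mod_cast hq0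
  have h4 : (q0 : ℝ) ≤ u := by exact_mod_cast hu.1
  refine ⟨by linarith, h4, by linarith, h3⟩

theorem tm_pos {q q0 u : ℕ} (hq0 : 1 ≤ q0) (hu : u ∈ Ico q0 (q - q0)) (A B : E) :
    0 < tm q u A B := by
  obtain ⟨h1, h2, h3, h4⟩ := win_facts hq0 hu
  have a1 : (0 : ℝ) < u / q := div_pos (by linarith) h1
  have a2 : (0 : ℝ) < 1 - u / q := by
    rw [sub_pos, div_lt_one h1]
    linarith
  exact div_pos (mul_pos (ph_pos a1 _) (ph_pos a2 _)) (ph_pos one_pos _)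

theorem gk_nonneg {q q0 : ℕ} (hq0 : 1 ≤ q0) (A B : E) : 0 ≤ gk q q0 A B := by
  rw [gk_eq]
  exact mul_nonneg (by positivity) (Finset.sum_nonneg fun u hu => (tm_pos hq0 hu A B).le)

theorem gk_le {q q0 : ℕ} (hq0 : 1 ≤ q0) (A B : E) : gk q q0 A B ≤ 1 + Real.log q := by
  have hpi := Real.pi_gt_three
  rw [gk_eq, Finset.mul_sum]
  have h1 : ∀ u ∈ Ico q0 (q - q0), (q : ℝ)⁻¹ * tm q u A B ≤
      (1 / 2) * ((u : ℝ)⁻¹ + ((q - u : ℕ) : ℝ)⁻¹) := by
    intro u hu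
    obtain ⟨h1, h2, h3, h4⟩ := win_facts hq0 hu
    have a1 : (0 : ℝ) < u / q := div_pos (by linarith) h1
    have a2 : (u : ℝ) / q < 1 := by
      rw [div_lt_one h1]
      linarith
    have a3 := term_le a1 a2 A B
    have a4 : ((q - u : ℕ) : ℝ) = q - u := by
      rw [Finset.mem_Ico] at hu
      rw [Nat.cast_sub (by omega)]
    have a5 : (0 : ℝ) < q - u := by linarith
    have a6 : (0 : ℝ) < u := by linarith
    rw [a4]
    calc (q : ℝ)⁻¹ * tm q u A B ≤ (q : ℝ)⁻¹ * (2 * Real.pi * (u / q * (1 - u / q)))⁻¹ :=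
          mul_le_mul_of_nonneg_left a3 (by positivity)
      _ = (2 * Real.pi)⁻¹ * ((u : ℝ)⁻¹ + ((q : ℝ) - u)⁻¹) := by
          field_simp
          ring
      _ ≤ _ := by
          apply mul_le_mul_of_nonneg_right _ (by positivity)
          rw [one_div]
          exact inv_anti₀ (by norm_num) (by linarith)
  refine (Finset.sum_le_sum h1).trans ?_
  rw [← Finset.mul_sum, Finset.sum_add_distrib]
  have h2 := harm_inj (Ico q0 (q - q0)) (fun u => u) q (fun _ _ _ _ h => h) (by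
    intro i hi
    rw [Finset.mem_Ico] at hi
    omega)
  have h3 := harm_inj (Ico q0 (q - q0)) (fun u => q - u) q (by
    intro a ha b hb h
    simp only [Finset.coe_Ico, Set.mem_Ico] at ha hb h
    omega) (by
    intro i hi
    rw [Finset.mem_Ico] at hi
    omega)
  linarith

theorem gk_lb {q q0 : ℕ} {A B : E} (hq0 : 1 ≤ q0) (hq : 4 * q0 ≤ q) (hA : ‖A‖ ^ 2 ≤ (q0 : ℝ) / q)
    (hB : ‖B‖ ^ 2 ≤ (q0 : ℝ) / q) : 1 / 20 ≤ gk q q0 A B := by
  have hpi := Real.pi_pos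
  have hpi4 := Real.pi_le_four
  have hqr : (4 : ℝ) * q0 ≤ q := by exact_mod_cast hq
  have h4 : (1 : ℝ) ≤ q0 := by exact_mod_cast hq0
  have hq1 : (0 : ℝ) < q := by linarith
  have h1 : ∀ u ∈ Ico q0 (q - q0), (1 / 10 : ℝ) ≤ tm q u A B := by
    intro u hu
    obtain ⟨h1, h2, h3, -⟩ := win_facts hq0 hu
    have a1 : (0 : ℝ) < u / q := div_pos (by linarith) h1
    have a2 : (0 : ℝ) < 1 - u / q := by
      rw [sub_pos, div_lt_one h1]
      linarith
    have b1 : (q0 : ℝ) / q ≤ u / q := div_le_div_of_nonneg_right h2 h1.le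
    have b2 : (q0 : ℝ) / q ≤ 1 - u / q := by
      rw [le_sub_iff_add_le, ← add_div, div_le_one h1]
      linarith
    have c1 := ph_lower (c := 1 / 2) a1 (x := A) (by linarith)
    have c2 := ph_lower (c := 1 / 2) a2 (x := B) (by linarith)
    have c3 := ph_le one_pos (B - A)
    unfold tm
    rw [le_div_iff₀ (ph_pos one_pos _)]
    have c4 : (1 / 2 : ℝ) ≤ Real.exp (-(1 / 2)) := by
      have := Real.add_one_le_exp (-(1 / 2) : ℝ)
      linarith
    set s : ℝ := u / q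
    have c5 : s * (1 - s) ≤ 1 / 4 := by nlinarith [sq_nonneg (s - 1 / 2)]
    calc 1 / 10 * ph 1 (B - A) ≤ 1 / 10 * (2 * Real.pi * 1)⁻¹ := by linarith
      _ ≤ (1 / 2 * (2 * Real.pi * s)⁻¹) * (1 / 2 * (2 * Real.pi * (1 - s))⁻¹) := by
          have d1 : (1 / 2 * (2 * Real.pi * s)⁻¹) * (1 / 2 * (2 * Real.pi * (1 - s))⁻¹) =
              (8 * Real.pi * (s * (1 - s)))⁻¹ * (2 * Real.pi * 1)⁻¹ := by
            field_simp
            ring
          rw [d1]
          apply mul_le_mul_of_nonneg_right _ (by positivity)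
          rw [one_div]
          apply inv_anti₀ (by positivity)
          have : Real.pi * (s * (1 - s)) ≤ 4 * (1 / 4) :=
            mul_le_mul hpi4 c5 (by positivity) (by norm_num)
          linarith
      _ ≤ (Real.exp (-(1 / 2)) * (2 * Real.pi * s)⁻¹) *
            (Real.exp (-(1 / 2)) * (2 * Real.pi * (1 - s))⁻¹) := by
          apply mul_le_mul _ _ (by positivity) (by positivity)
          · exact mul_le_mul_of_nonneg_right c4 (by positivity)
          · exact mul_le_mul_of_nonneg_right c4 (by positivity)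
      _ ≤ _ := mul_le_mul c1 c2 (by positivity) (ph_pos a1 _).le
  have h2 := Finset.card_nsmul_le_sum _ _ _ h1
  rw [Nat.card_Ico, nsmul_eq_mul] at h2
  have h3 : ((q - q0 - q0 : ℕ) : ℝ) = q - q0 - q0 := by
    rw [Nat.cast_sub (by omega), Nat.cast_sub (by omega)]
  rw [h3] at h2
  rw [gk_eq]
  calc (1 / 20 : ℝ) = (q : ℝ)⁻¹ * (q / 2 * (1 / 10)) := by field_simp; norm_num
    _ ≤ (q : ℝ)⁻¹ * ((q - q0 - q0) * (1 / 10)) := by
        apply mul_le_mul_of_nonneg_left _ (by positivity)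
        linarith
    _ ≤ _ := mul_le_mul_of_nonneg_left h2 (by positivity)

end Pool.Agent.MP_037c5a_pr.Mo

end

section

open MeasureTheory Finset

namespace Pool.Agent.MP_037c5a_pr.Mo

open Classical in
noncomputable def kap (D : ℝ) (g : E → E → ℝ) (u u' : E) : ℝ :=
  if ‖u‖ ≤ D ∧ ‖u'‖ ≤ D then g u u' else 0

noncomputable def kp (D : ℝ) (g : E → E → ℝ) (u u' : E) : ENNReal := ENNReal.ofReal (kap D g u u')

noncomputable def mass (κ : E → E → ENNReal) : ENNReal :=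
  ∫⁻ u, ∫⁻ u', ENNReal.ofReal (ph 1 (u' - u)) * κ u u'

noncomputable def dbl (F1 F2 : E → ENNReal) (κ : E → E → ENNReal) : ENNReal :=
  ∫⁻ u, ∫⁻ u', F1 u * ENNReal.ofReal (ph 1 (u' - u)) * κ u u' * F2 u'

theorem kap_nonneg {D : ℝ} {g : E → E → ℝ} (hg : ∀ u u', 0 ≤ g u u') (u u' : E) :
    0 ≤ kap D g u u' := by
  unfold kap
  split_ifs
  · exact hg u u'
  · exact le_rfl

theorem kap_le {D c : ℝ} {g : E → E → ℝ} (hc : 0 ≤ c) (hg : ∀ u u', g u u' ≤ c) (u u' : E) :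
    kap D g u u' ≤ c := by
  unfold kap
  split_ifs
  · exact hg u u'
  · exact hc

theorem measurable_kap (D : ℝ) {g : E → E → ℝ} (hg : Measurable (Function.uncurry g)) :
    Measurable (Function.uncurry (kap D g)) := by
  have h1 : MeasurableSet {x : E × E | ‖x.1‖ ≤ D ∧ ‖x.2‖ ≤ D} :=
    (measurableSet_le measurable_fst.norm measurable_const).inter
      (measurableSet_le measurable_snd.norm measurable_const)
  exact Measurable.ite h1 hg measurable_const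

theorem measurable_kp (D : ℝ) {g : E → E → ℝ} (hg : Measurable (Function.uncurry g)) :
    Measurable (Function.uncurry (kp D g)) :=
  ENNReal.measurable_ofReal.comp (measurable_kap D hg)

theorem measurable_gk (q q0 : ℕ) : Measurable (Function.uncurry (gk q q0)) := by
  have h : Function.uncurry (gk q q0) = fun x : E × E =>
      (q : ℝ)⁻¹ * ∑ u ∈ Ico q0 (q - q0), ph (u / q) x.1 * ph (1 - u / q) x.2 / ph 1 (x.2 - x.1) := rfl
  rw [h]
  refine Measurable.const_mul (Finset.measurable_sum _ fun u _ => ?_) _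
  exact (((measurable_ph _).comp measurable_fst).mul ((measurable_ph _).comp measurable_snd)).div
    ((measurable_ph _).comp (measurable_snd.sub measurable_fst))

theorem dbl_le {D : ℝ} {g : E → E → ℝ} {F1 F2 : E → ENNReal} {a b : ENNReal} (ha : a ≠ ⊤)
    (hb : b ≠ ⊤) (h1 : ∀ u, ‖u‖ ≤ D → F1 u ≤ a) (h2 : ∀ u, ‖u‖ ≤ D → F2 u ≤ b) :
    dbl F1 F2 (kp D g) ≤ a * b * mass (kp D g) := by
  have hab : a * b ≠ ⊤ := ENNReal.mul_ne_top ha hb
  unfold dbl mass
  rw [← lintegral_const_mul' _ _ hab]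
  refine lintegral_mono fun u => ?_
  rw [← lintegral_const_mul' _ _ hab]
  refine lintegral_mono fun u' => ?_
  by_cases hc : ‖u‖ ≤ D ∧ ‖u'‖ ≤ D
  · calc F1 u * ENNReal.ofReal (ph 1 (u' - u)) * kp D g u u' * F2 u'
        ≤ a * ENNReal.ofReal (ph 1 (u' - u)) * kp D g u u' * b := by
          gcongr
          · exact h1 u hc.1
          · exact h2 u' hc.2
      _ = _ := by ring
  · simp [kp, kap, hc]

theorem dbl_ge {D : ℝ} {g : E → E → ℝ} {F1 F2 : E → ENNReal} {a b : ENNReal} (ha : a ≠ ⊤)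
    (hb : b ≠ ⊤) (h1 : ∀ u, ‖u‖ ≤ D → a ≤ F1 u) (h2 : ∀ u, ‖u‖ ≤ D → b ≤ F2 u) :
    a * b * mass (kp D g) ≤ dbl F1 F2 (kp D g) := by
  have hab : a * b ≠ ⊤ := ENNReal.mul_ne_top ha hb
  unfold dbl mass
  rw [← lintegral_const_mul' _ _ hab]
  refine lintegral_mono fun u => ?_
  rw [← lintegral_const_mul' _ _ hab]
  refine lintegral_mono fun u' => ?_
  by_cases hc : ‖u‖ ≤ D ∧ ‖u'‖ ≤ D
  · calc a * b * (ENNReal.ofReal (ph 1 (u' - u)) * kp D g u u')
        = a * ENNReal.ofReal (ph 1 (u' - u)) * kp D g u u' * b := by ring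
      _ ≤ _ := by
          gcongr
          · exact h1 u hc.1
          · exact h2 u' hc.2
  · simp [kp, kap, hc]

open Classical in
noncomputable def bl (D t : ℝ) (u : E) : ENNReal := if ‖u‖ ≤ D then ENNReal.ofReal (ph t u) else 0

theorem measurable_bl (D t : ℝ) : Measurable (bl D t) :=
  Measurable.ite (measurableSet_le measurable_norm measurable_const)
    (ENNReal.measurable_ofReal.comp (measurable_ph t)) measurable_const

theorem ph_int0 (h : StmtChain) {t : ℝ} (ht : 0 < t) : ∫⁻ y, ENNReal.ofReal (ph t y) = 1 := by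
  simpa using h.ph_int t ht 0

theorem bl_le (h : StmtChain) (D : ℝ) {t : ℝ} (ht : 0 < t) : ∫⁻ u, bl D t u ≤ 1 := by
  rw [← ph_int0 h ht]
  refine lintegral_mono fun u => ?_
  unfold bl
  split_ifs
  · exact le_rfl
  · exact zero_le

theorem bl_ge (h : StmtChain) {D t : ℝ} (hD : 0 ≤ D) (ht : 0 < t) (ht1 : t ≤ 1) :
    ENNReal.ofReal (1 - 2 * Real.exp (-(D ^ 2 / 4))) ≤ ∫⁻ u, bl D t u := by
  set e : ℝ := 2 * Real.exp (-(D ^ 2 / 4)) with he
  have he0 : 0 ≤ e := by positivity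
  have h1 : (1 : ENNReal) ≤ (∫⁻ u, bl D t u) + ENNReal.ofReal e := by
    calc (1 : ENNReal) = ∫⁻ y, ENNReal.ofReal (ph t y) := (ph_int0 h ht).symm
      _ ≤ ∫⁻ y, (bl D t y + ENNReal.ofReal e * ENNReal.ofReal (ph (2 * t) y)) := by
          refine lintegral_mono fun u => ?_
          unfold bl
          split_ifs with hu
          · exact le_self_add
          · rw [zero_add, ← ENNReal.ofReal_mul he0]
            exact ENNReal.ofReal_le_ofReal (ph_tail ht ht1 hD (le_of_not_ge hu))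
      _ = _ := by
          rw [lintegral_add_left (measurable_bl D t),
            lintegral_const_mul' _ _ ENNReal.ofReal_ne_top, ph_int0 h (by linarith), mul_one]
  rw [ENNReal.ofReal_sub _ he0, ENNReal.ofReal_one]
  exact tsub_le_iff_right.mpr h1

theorem mass_gk_eq {q q0 : ℕ} (hq0 : 1 ≤ q0) (D : ℝ) :
    mass (kp D (gk q q0)) = ∑ v ∈ Ico q0 (q - q0),
      ENNReal.ofReal (q : ℝ)⁻¹ * ((∫⁻ u, bl D (v / q) u) * ∫⁻ u, bl D (1 - v / q) u) := by
  have h1 : ∀ u u' : E, ENNReal.ofReal (ph 1 (u' - u)) * kp D (gk q q0) u u' =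
      ∑ v ∈ Ico q0 (q - q0),
        ENNReal.ofReal (q : ℝ)⁻¹ * bl D (v / q) u * bl D (1 - v / q) u' := by
    intro u u'
    by_cases hc : ‖u‖ ≤ D ∧ ‖u'‖ ≤ D
    · have hp := ph_pos one_pos (u' - u)
      simp only [kp, kap, bl, hc, and_self, if_true]
      rw [← ENNReal.ofReal_mul hp.le, gk_eq, Finset.mul_sum, Finset.mul_sum,
        ENNReal.ofReal_sum_of_nonneg]
      · refine Finset.sum_congr rfl fun v hv => ?_
        obtain ⟨a1, a2, a3, a4⟩ := win_facts hq0 hv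
        have b1 : (0 : ℝ) < v / q := div_pos (by linarith) a1
        rw [← ENNReal.ofReal_mul (by positivity),
          ← ENNReal.ofReal_mul (mul_nonneg (by positivity) (ph_pos b1 _).le)]
        congr 1
        unfold tm
        field_simp
      · intro v hv
        exact mul_nonneg hp.le (mul_nonneg (by positivity) (tm_pos hq0 hv _ _).le)
    · have : kp D (gk q q0) u u' = 0 := by simp [kp, kap, hc]
      rw [this, mul_zero]
      symm
      refine Finset.sum_eq_zero fun v _ => ?_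
      rcases not_and_or.mp hc with h | h <;> simp [bl, h]
  unfold mass
  simp_rw [h1]
  have h2 : ∀ u : E, ∫⁻ u', ∑ v ∈ Ico q0 (q - q0),
      ENNReal.ofReal (q : ℝ)⁻¹ * bl D (v / q) u * bl D (1 - v / q) u' =
      ∑ v ∈ Ico q0 (q - q0),
        ENNReal.ofReal (q : ℝ)⁻¹ * (bl D (v / q) u * ∫⁻ u', bl D (1 - v / q) u') := by
    intro u
    rw [lintegral_finsetSum _ fun v _ => (measurable_bl _ _).const_mul _]
    refine Finset.sum_congr rfl fun v _ => ?_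
    rw [lintegral_const_mul _ (measurable_bl _ _), mul_assoc]
  simp_rw [h2]
  rw [lintegral_finsetSum _ fun v _ => ((measurable_bl _ _).mul_const _).const_mul _]
  refine Finset.sum_congr rfl fun v _ => ?_
  rw [lintegral_const_mul _ ((measurable_bl _ _).mul_const _),
    lintegral_mul_const _ (measurable_bl _ _)]

theorem mass_gk_le (h : StmtChain) {q q0 : ℕ} (hq0 : 1 ≤ q0) (hq : 4 * q0 ≤ q) (D : ℝ) :
    mass (kp D (gk q q0)) ≤ 1 := by
  rw [mass_gk_eq hq0]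
  have hq1 : (0 : ℝ) < q := by exact_mod_cast (by omega : 0 < q)
  calc _ ≤ ∑ _v ∈ Ico q0 (q - q0), ENNReal.ofReal (q : ℝ)⁻¹ := by
        refine Finset.sum_le_sum fun v hv => ?_
        obtain ⟨a1, a2, a3, a4⟩ := win_facts hq0 hv
        have b1 : (0 : ℝ) < v / q := div_pos (by linarith) a1
        have b2 : (0 : ℝ) < 1 - v / q := by
          rw [sub_pos, div_lt_one a1]
          linarith
        calc _ ≤ ENNReal.ofReal (q : ℝ)⁻¹ * (1 * 1) := by
              gcongr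
              · exact bl_le h D b1
              · exact bl_le h D b2
          _ = _ := by simp
    _ ≤ 1 := by
        rw [← ENNReal.ofReal_sum_of_nonneg (fun _ _ => by positivity), Finset.sum_const,
          Nat.card_Ico, nsmul_eq_mul, ← ENNReal.ofReal_one]
        apply ENNReal.ofReal_le_ofReal
        rw [← div_eq_mul_inv, div_le_one hq1]
        exact_mod_cast (by omega : q - q0 - q0 ≤ q)

theorem exp_tail {D : ℝ} (hD : 4 ≤ D) : Real.exp (-(D ^ 2 / 4)) ≤ 1 / 40 := by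
  have h1 : Real.exp (-(D ^ 2 / 4)) ≤ Real.exp (-4) := by
    apply Real.exp_le_exp.mpr
    nlinarith
  refine h1.trans ?_
  rw [Real.exp_neg, one_div]
  apply inv_anti₀ (by norm_num)
  have h2 : (2.7 : ℝ) ≤ Real.exp 1 := by
    have := Real.exp_one_gt_d9
    linarith
  have h3 : Real.exp 4 = Real.exp 1 ^ 4 := by
    rw [← Real.exp_nat_mul]
    norm_num
  rw [h3]
  calc (40 : ℝ) ≤ 2.7 ^ 4 := by norm_num
    _ ≤ _ := pow_le_pow_left₀ (by norm_num) h2 4

theorem mass_gk_ge (h : StmtChain) {q q0 : ℕ} (hq0 : 1 ≤ q0) (hq : 4 * q0 ≤ q) {D : ℝ}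
    (hD : 4 ≤ D) :
    ENNReal.ofReal (1 - 2 * q0 / q - 4 * Real.exp (-(D ^ 2 / 4))) ≤ mass (kp D (gk q q0)) := by
  rw [mass_gk_eq hq0]
  have hq1 : (0 : ℝ) < q := by exact_mod_cast (by omega : 0 < q)
  have het := exp_tail hD
  set e : ℝ := Real.exp (-(D ^ 2 / 4)) with he
  have he0 : 0 < e := Real.exp_pos _
  calc _ ≤ ∑ _v ∈ Ico q0 (q - q0), ENNReal.ofReal ((q : ℝ)⁻¹ * ((1 - 2 * e) * (1 - 2 * e))) := by
        rw [← ENNReal.ofReal_sum_of_nonneg (fun _ _ => mul_nonneg (by positivity)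
          (mul_self_nonneg _)), Finset.sum_const, Nat.card_Ico, nsmul_eq_mul]
        apply ENNReal.ofReal_le_ofReal
        have h3 : ((q - q0 - q0 : ℕ) : ℝ) = q - q0 - q0 := by
          rw [Nat.cast_sub (by omega), Nat.cast_sub (by omega)]
        have h4 : ((q : ℝ) - q0 - q0) * ((q : ℝ)⁻¹ * ((1 - 2 * e) * (1 - 2 * e))) =
            (1 - 2 * q0 / q) * ((1 - 2 * e) * (1 - 2 * e)) := by
          field_simp
          ring
        rw [h3, h4]
        have h5 : (0 : ℝ) ≤ 2 * q0 / q := by positivity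
        have h6 : 2 * (q0 : ℝ) / q ≤ 1 := by
          rw [div_le_one hq1]
          exact_mod_cast (by omega : 2 * q0 ≤ q)
        have h7 : (1 - 2 * q0 / q) * (1 - 4 * e) ≤ (1 - 2 * q0 / q) * ((1 - 2 * e) * (1 - 2 * e)) :=
          mul_le_mul_of_nonneg_left (by nlinarith) (by linarith)
        nlinarith [mul_nonneg h5 he0.le]
    _ ≤ _ := by
        refine Finset.sum_le_sum fun v hv => ?_
        obtain ⟨a1, a2, a3, a4⟩ := win_facts hq0 hv
        have b1 : (0 : ℝ) < v / q := div_pos (by linarith) a1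
        have b2 : (0 : ℝ) < 1 - v / q := by
          rw [sub_pos, div_lt_one a1]
          linarith
        rw [ENNReal.ofReal_mul (by positivity), ENNReal.ofReal_mul (by linarith)]
        gcongr
        · exact bl_ge h (by linarith) b1 (by linarith)
        · exact bl_ge h (by linarith) b2 (by linarith)

theorem mass_one_le (h : StmtChain) {D : ℝ} (hD : 0 ≤ D) :
    mass (kp D fun _ _ => 1) ≤ ENNReal.ofReal (4 * D ^ 2) := by
  unfold mass
  calc _ ≤ ∫⁻ u, (Metric.closedBall (0 : E) D).indicator 1 u := by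
        refine lintegral_mono fun u => ?_
        by_cases hu : ‖u‖ ≤ D
        · rw [Set.indicator_of_mem (by simpa using hu), Pi.one_apply, ← h.ph_int 1 one_pos u]
          refine lintegral_mono fun u' => ?_
          have : kp D (fun _ _ => 1) u u' ≤ 1 := by
            unfold kp
            rw [← ENNReal.ofReal_one]
            exact ENNReal.ofReal_le_ofReal (kap_le zero_le_one (fun _ _ => le_rfl) u u')
          calc _ ≤ ENNReal.ofReal (ph 1 (u' - u)) * 1 := by gcongr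
            _ = _ := mul_one _
        · simp [kp, kap, hu]
    _ = volume (Metric.closedBall (0 : E) D) := lintegral_indicator_one measurableSet_closedBall
    _ ≤ _ := by
        rw [EuclideanSpace.volume_closedBall_fin_two, ← ENNReal.ofReal_pow hD,
          ← ENNReal.ofReal_mul (by positivity)]
        apply ENNReal.ofReal_le_ofReal
        have := Real.pi_le_four
        nlinarith [sq_nonneg D]

end Pool.Agent.MP_037c5a_pr.Mo

end

section

open MeasureTheory Finset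

namespace Pool.Agent.MP_037c5a_pr.Mo

theorem integrable_bdd {α : Type} [MeasurableSpace α] {μ : Measure α} [IsProbabilityMeasure μ]
    {f : α → ℝ} {C : ℝ} (hf : Measurable f) (h0 : ∀ x, 0 ≤ f x) (h1 : ∀ x, f x ≤ C) :
    Integrable f μ :=
  Integrable.of_bound hf.aestronglyMeasurable C
    (Filter.Eventually.of_forall fun x => by rw [Real.norm_eq_abs, abs_of_nonneg (h0 x)]; exact h1 x)

theorem int_le {α : Type} [MeasurableSpace α] {μ : Measure α} {f : α → ℝ} {c : ℝ}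
    (hf : Integrable f μ) (h0 : ∀ x, 0 ≤ f x) (hc : 0 ≤ c)
    (h : ∫⁻ x, ENNReal.ofReal (f x) ∂μ ≤ ENNReal.ofReal c) : ∫ x, f x ∂μ ≤ c := by
  rw [← ofReal_integral_eq_lintegral_ofReal hf (Filter.Eventually.of_forall h0)] at h
  exact (ENNReal.ofReal_le_ofReal_iff hc).mp h

theorem int_ge {α : Type} [MeasurableSpace α] {μ : Measure α} {f : α → ℝ} {c : ℝ}
    (hf : Integrable f μ) (h0 : ∀ x, 0 ≤ f x)
    (h : ENNReal.ofReal c ≤ ∫⁻ x, ENNReal.ofReal (f x) ∂μ) : c ≤ ∫ x, f x ∂μ := by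
  rw [← ofReal_integral_eq_lintegral_ofReal hf (Filter.Eventually.of_forall h0)] at h
  exact (ENNReal.ofReal_le_ofReal_iff (integral_nonneg h0)).mp h

theorem dbl_le' {D : ℝ} {g : E → E → ℝ} {F1 F2 : E → ENNReal} {a b m : ℝ} (ha : 0 ≤ a)
    (hb : 0 ≤ b) (h1 : ∀ u, ‖u‖ ≤ D → F1 u ≤ ENNReal.ofReal a)
    (h2 : ∀ u, ‖u‖ ≤ D → F2 u ≤ ENNReal.ofReal b) (hm : mass (kp D g) ≤ ENNReal.ofReal m) :
    dbl F1 F2 (kp D g) ≤ ENNReal.ofReal (a * b * m) := by
  refine (dbl_le ENNReal.ofReal_ne_top ENNReal.ofReal_ne_top h1 h2).trans ?_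
  rw [ENNReal.ofReal_mul (mul_nonneg ha hb), ENNReal.ofReal_mul ha]
  gcongr

theorem dbl_ge' {D : ℝ} {g : E → E → ℝ} {F1 F2 : E → ENNReal} {a b m : ℝ} (ha : 0 ≤ a)
    (hb : 0 ≤ b) (h1 : ∀ u, ‖u‖ ≤ D → ENNReal.ofReal a ≤ F1 u)
    (h2 : ∀ u, ‖u‖ ≤ D → ENNReal.ofReal b ≤ F2 u) (hm : ENNReal.ofReal m ≤ mass (kp D g)) :
    ENNReal.ofReal (a * b * m) ≤ dbl F1 F2 (kp D g) := by
  refine le_trans ?_ (dbl_ge ENNReal.ofReal_ne_top ENNReal.ofReal_ne_top h1 h2)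
  rw [ENNReal.ofReal_mul (mul_nonneg ha hb), ENNReal.ofReal_mul ha]
  gcongr

theorem inv_mul_le' {c x : ℝ} (hc : 0 < c) {X : ENNReal} (h : X ≤ ENNReal.ofReal x) :
    (ENNReal.ofReal c)⁻¹ * X ≤ ENNReal.ofReal (c⁻¹ * x) := by
  rw [ENNReal.ofReal_mul (by positivity), ENNReal.ofReal_inv_of_pos hc]
  gcongr

theorem inv_mul_ge' {c x : ℝ} (hc : 0 < c) {X : ENNReal} (h : ENNReal.ofReal x ≤ X) :
    ENNReal.ofReal (c⁻¹ * x) ≤ (ENNReal.ofReal c)⁻¹ * X := by
  rw [ENNReal.ofReal_mul (by positivity), ENNReal.ofReal_inv_of_pos hc]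
  gcongr

/-- one edge variable -/
noncomputable def X (k : ℕ) (D : ℝ) (P Q : E) (g : E → E → ℝ) (l : ℕ) (β : Fin k → E) : ℝ :=
  kap D g (bp k P Q β l) (bp k P Q β (l + 1))

theorem measurable_bp (h : StmtChain) (k : ℕ) (P Q : E) (l : ℕ) :
    Measurable fun β : Fin k → E => bp k P Q β l :=
  (h.meas_bp k l).comp (measurable_const.prodMk (measurable_const.prodMk measurable_id))

theorem measurable_X (h : StmtChain) (k : ℕ) (D : ℝ) (P Q : E) {g : E → E → ℝ}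
    (hg : Measurable (Function.uncurry g)) (l : ℕ) : Measurable (X k D P Q g l) := by
  have h1 := (measurable_kap D hg).comp
    ((measurable_bp h k P Q l).prodMk (measurable_bp h k P Q (l + 1)))
  have h2 : X k D P Q g l = Function.uncurry (kap D g) ∘
      fun β => (bp k P Q β l, bp k P Q β (l + 1)) := by
    funext β
    simp only [X, Function.comp_apply, Function.uncurry_apply_pair]
  rw [h2]
  exact h1

theorem X_nonneg {k : ℕ} {D : ℝ} {P Q : E} {g : E → E → ℝ} (hg : ∀ u u', 0 ≤ g u u') (l : ℕ)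
    (β : Fin k → E) : 0 ≤ X k D P Q g l β := kap_nonneg hg _ _

theorem X_le {k : ℕ} {D c : ℝ} {P Q : E} {g : E → E → ℝ} (hc : 0 ≤ c) (hg : ∀ u u', g u u' ≤ c)
    (l : ℕ) (β : Fin k → E) : X k D P Q g l β ≤ c := kap_le hc hg _ _

/-- the comparison exponent -/
noncomputable def ww (q q0 : ℕ) (D η : ℝ) : ℝ := η * ((D + 1) ^ 2 / ((q0 : ℝ) / q) ^ 2)

section
variable {q q0 p k bb : ℕ} {D M η : ℝ} {A B z : E}

theorem hyp_q (H : MomHyp q q0 p k bb D M η) :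
    (1 : ℝ) ≤ q0 ∧ (4 : ℝ) * q0 ≤ q ∧ (1 : ℝ) ≤ p ∧ (k : ℝ) + 1 = q * p := by
  refine ⟨by exact_mod_cast H.hq0, by exact_mod_cast H.hq, by exact_mod_cast H.hp, ?_⟩
  exact_mod_cast H.hk

theorem ww_eq (H : MomHyp q q0 p k bb D M η) :
    3 * ww q q0 D η = η * (3 * (D + 1) ^ 2 * ((q : ℝ) / q0) ^ 2) := by
  obtain ⟨a1, a2, -, -⟩ := hyp_q H
  have : (0 : ℝ) < q := by linarith
  unfold ww
  field_simp

theorem eta_pos (H : MomHyp q q0 p k bb D M η) : 0 < η := by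
  obtain ⟨a1, a2, -, -⟩ := hyp_q H
  have : (0 : ℝ) < q := by linarith
  exact lt_of_lt_of_le (by positivity) H.hη1

theorem ww_bd (H : MomHyp q q0 p k bb D M η) : 0 ≤ ww q q0 D η ∧ ww q q0 D η ≤ 1 / 12 := by
  have h1 := ww_eq H
  have h2 := H.hζ
  have h3 := eta_pos H
  refine ⟨?_, by linarith⟩
  unfold ww
  positivity

theorem ex2_le (H : MomHyp q q0 p k bb D M η) :
    Real.exp (ww q q0 D η) * Real.exp (ww q q0 D η) ≤ 6 / 5 := by
  obtain ⟨h0, h1⟩ := ww_bd H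
  rw [← Real.exp_add]
  have h2 := Real.add_one_le_exp (-(ww q q0 D η + ww q q0 D η))
  have h3 : Real.exp (ww q q0 D η + ww q q0 D η) * Real.exp (-(ww q q0 D η + ww q q0 D η)) = 1 := by
    rw [← Real.exp_add]
    simp
  have h4 := Real.exp_pos (ww q q0 D η + ww q q0 D η)
  nlinarith

theorem cmp_gen (H : MomHyp q q0 p k bb D M η) (hz : ‖z‖ + D / M ≤ η) {C u : E} (hC : ‖C‖ ≤ D)
    (hu : ‖u‖ ≤ D) {τ t : ℝ} (h1 : (q0 : ℝ) / q ≤ τ / (k + 1)) (h2 : (q0 : ℝ) / q ≤ t)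
    (h3 : |t - τ / (k + 1)| ≤ η) :
    ph τ (M • (C - z) - u) ≤ ((k : ℝ) + 1)⁻¹ * (Real.exp (ww q q0 D η) * ph t C) ∧
      ((k : ℝ) + 1)⁻¹ * (Real.exp (-ww q q0 D η) * ph t C) ≤ ph τ (M • (C - z) - u) := by
  obtain ⟨a1, a2, -, -⟩ := hyp_q H
  have hq : (0 : ℝ) < q := by linarith
  have hs0 : (0 : ℝ) < q0 / q := by positivity
  have hs1 : (q0 : ℝ) / q ≤ 1 / 4 := by
    rw [div_le_iff₀ hq]
    linarith
  have hn : (0 : ℝ) < k + 1 := by positivity
  have hτ : 0 < τ := by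
    have : 0 < τ / (k + 1) := lt_of_lt_of_le hs0 h1
    exact (div_pos_iff_of_pos_right hn).mp this
  have hM := H.hM
  have e1 : M • (C - z) - u = M • (C - z - M⁻¹ • u) := by
    rw [smul_sub M (C - z), smul_smul, mul_inv_cancel₀ hM.ne', one_smul]
  have e2 : ‖C - (C - z - M⁻¹ • u)‖ ≤ η := by
    have : C - (C - z - M⁻¹ • u) = z + M⁻¹ • u := by abel
    rw [this]
    refine (norm_add_le _ _).trans (le_trans ?_ hz)
    rw [norm_smul, Real.norm_eq_abs, abs_of_pos (inv_pos.mpr hM), div_eq_inv_mul]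
    gcongr
  have e3 : ‖C - z - M⁻¹ • u‖ ≤ D + 1 := by
    have := norm_sub_norm_le (C - z - M⁻¹ • u) C
    rw [norm_sub_rev (C - z - M⁻¹ • u) C] at this
    have := H.hη2
    linarith
  rw [e1, ph_scale H.hM2 hn hτ]
  constructor
  · apply mul_le_mul_of_nonneg_left _ (by positivity)
    exact ph_cmp hs0 hs1 H.hD h2 h1 h3 (by linarith) e3 e2
  · apply mul_le_mul_of_nonneg_left _ (by positivity)
    have := ph_cmp (η := η) hs0 hs1 H.hD h1 h2 (by rwa [abs_sub_comm]) e3 (x' := C) (by linarith)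
      (by rwa [norm_sub_rev])
    rw [Real.exp_neg, inv_mul_le_iff₀ (Real.exp_pos _)]
    exact this

theorem den_eq (H : MomHyp q q0 p k bb D M η) (A B z : E) :
    ph (k + 1) (M • (B - z) - M • (A - z)) = ((k : ℝ) + 1)⁻¹ * ph 1 (B - A) := by
  have hn : (0 : ℝ) < k + 1 := by positivity
  have : M • (B - z) - M • (A - z) = M • (B - A) := by
    rw [← smul_sub]
    congr 1
    abel
  rw [this, ph_scale H.hM2 hn hn, div_self hn.ne']

theorem win_nat (H : MomHyp q q0 p k bb D M η) {l : ℕ} (hl : l ∈ Ico (q0 * p) ((q - q0) * p)) :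
    1 ≤ l ∧ l + 1 ≤ k ∧ l / p ∈ Ico q0 (q - q0) ∧ l / p * p ≤ l ∧ l + 1 ≤ l / p * p + p ∧
      q0 * p ≤ l ∧ l + 1 + q0 * p ≤ k + 1 := by
  rw [Finset.mem_Ico] at hl
  have hp : 0 < p := H.hp
  have h1 : 1 ≤ q0 * p := Nat.mul_pos H.hq0 hp
  have hq := H.hq
  have h2 : (q - q0) * p + q0 * p = k + 1 := by
    rw [← add_mul, H.hk]
    congr 1
    omega
  have h3 := Nat.div_mul_le_self l p
  have h4 : l < l / p * p + p := Nat.lt_div_mul_add hp
  refine ⟨by omega, by omega, ?_, h3, by omega, hl.1, by omega⟩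
  rw [Finset.mem_Ico, Nat.le_div_iff_mul_le hp, Nat.div_lt_iff_lt_mul hp]
  exact hl

/-- bounds for the first and last factor -/
theorem fac1 (H : MomHyp q q0 p k bb D M η) (hA : ‖A‖ ≤ D) (hz : ‖z‖ + D / M ≤ η) {l : ℕ}
    (hl : l ∈ Ico (q0 * p) ((q - q0) * p)) {u : E} (hu : ‖u‖ ≤ D) :
    ph l (u - M • (A - z)) ≤
        ((k : ℝ) + 1)⁻¹ * (Real.exp (ww q q0 D η) * ph ((l / p : ℕ) / q) A) ∧
      ((k : ℝ) + 1)⁻¹ * (Real.exp (-ww q q0 D η) * ph ((l / p : ℕ) / q) A) ≤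
        ph l (u - M • (A - z)) := by
  obtain ⟨a1, a2, a3, a4⟩ := hyp_q H
  obtain ⟨-, -, b3, b4, b5, b6, -⟩ := win_nat H hl
  obtain ⟨c1, c2, -, -⟩ := win_facts H.hq0 b3
  have d4 : ((l / p : ℕ) : ℝ) * p ≤ l := by exact_mod_cast b4
  have d5 : (l : ℝ) + 1 ≤ (l / p : ℕ) * p + p := by exact_mod_cast b5
  have d6 : (q0 : ℝ) * p ≤ l := by exact_mod_cast b6
  have hp : (0 : ℝ) < p := by linarith
  rw [← ph_neg, neg_sub]
  apply cmp_gen H hz hA hu
  · rw [a4, div_le_div_iff₀ c1 (by positivity)]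
    nlinarith
  · exact div_le_div_of_nonneg_right c2 c1.le
  · have e : ((l / p : ℕ) : ℝ) / q - l / (k + 1) = ((l / p : ℕ) * p - l) / (q * p) := by
      rw [a4]
      field_simp
    rw [e, abs_div, abs_of_pos (show (0 : ℝ) < q * p by positivity)]
    refine le_trans ?_ H.hη1
    rw [div_le_div_iff₀ (by positivity) c1]
    have : |((l / p : ℕ) : ℝ) * p - l| ≤ 2 * p := abs_le.mpr ⟨by linarith, by linarith⟩
    nlinarith

theorem fac2 (H : MomHyp q q0 p k bb D M η) (hB : ‖B‖ ≤ D) (hz : ‖z‖ + D / M ≤ η) {l l' : ℕ}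
    (hl : l ∈ Ico (q0 * p) ((q - q0) * p)) (hl' : l' ∈ Ico (q0 * p) ((q - q0) * p))
    (h1 : l ≤ l') (h2 : l' ≤ l + p) {u : E} (hu : ‖u‖ ≤ D) :
    ph (k - l') (M • (B - z) - u) ≤
        ((k : ℝ) + 1)⁻¹ * (Real.exp (ww q q0 D η) * ph (1 - (l / p : ℕ) / q) B) ∧
      ((k : ℝ) + 1)⁻¹ * (Real.exp (-ww q q0 D η) * ph (1 - (l / p : ℕ) / q) B) ≤
        ph (k - l') (M • (B - z) - u) := by
  obtain ⟨a1, a2, a3, a4⟩ := hyp_q H
  obtain ⟨-, -, b3, b4, b5, b6, -⟩ := win_nat H hl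
  obtain ⟨-, -, -, -, -, -, b7⟩ := win_nat H hl'
  obtain ⟨c1, c2, c3, -⟩ := win_facts H.hq0 b3
  have d4 : ((l / p : ℕ) : ℝ) * p ≤ l := by exact_mod_cast b4
  have d5 : (l : ℝ) + 1 ≤ (l / p : ℕ) * p + p := by exact_mod_cast b5
  have d7 : (l' : ℝ) + 1 + q0 * p ≤ k + 1 := by exact_mod_cast b7
  have d8 : (l : ℝ) ≤ l' := by exact_mod_cast h1
  have d9 : (l' : ℝ) ≤ l + p := by exact_mod_cast h2
  have hp : (0 : ℝ) < p := by linarith
  apply cmp_gen H hz hB hu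
  · rw [a4, div_le_div_iff₀ c1 (by positivity)]
    nlinarith
  · rw [le_sub_iff_add_le, ← add_div, div_le_one c1]
    linarith
  · have e : 1 - ((l / p : ℕ) : ℝ) / q - (k - l') / (k + 1) =
        (l' + 1 - (l / p : ℕ) * p) / (q * p) := by
      have : (k : ℝ) - l' = q * p - (l' + 1) := by linarith
      rw [this, a4]
      field_simp
      ring
    rw [e, abs_div, abs_of_pos (show (0 : ℝ) < q * p by positivity)]
    refine le_trans ?_ H.hη1
    rw [div_le_div_iff₀ (by positivity) c1]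
    have : |(l' : ℝ) + 1 - (l / p : ℕ) * p| ≤ 2 * p := abs_le.mpr ⟨by linarith, by linarith⟩
    nlinarith

theorem ph_win (H : MomHyp q q0 p k bb D M η) {l : ℕ} (hl : l ∈ Ico (q0 * p) ((q - q0) * p))
    (A B : E) : 0 < ph ((l / p : ℕ) / q) A ∧ 0 < ph (1 - (l / p : ℕ) / q) B := by
  obtain ⟨-, -, b3, -⟩ := win_nat H hl
  obtain ⟨h1, h2, h3, h4⟩ := win_facts H.hq0 b3
  refine ⟨ph_pos (div_pos (by linarith) h1) _, ph_pos ?_ _⟩
  rw [sub_pos, div_lt_one h1]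
  linarith

theorem one_le (h : StmtChain) (H : MomHyp q q0 p k bb D M η) (hA : ‖A‖ ≤ D) (hB : ‖B‖ ≤ D)
    (hz : ‖z‖ + D / M ≤ η) {g : E → E → ℝ} (hg : Measurable (Function.uncurry g)) {c m : ℝ}
    (hc : 0 ≤ c) (hg0 : ∀ u u', 0 ≤ g u u') (hg1 : ∀ u u', g u u' ≤ c) (hm0 : 0 ≤ m)
    (hm : mass (kp D g) ≤ ENNReal.ofReal m) {l : ℕ} (hl : l ∈ Ico (q0 * p) ((q - q0) * p)) :
    ∫ β, X k D (M • (A - z)) (M • (B - z)) g l β ∂nu k ≤
      6 / 5 * m * (((k : ℝ) + 1)⁻¹ * tm q (l / p) A B) := by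
  have := h.nu_prob k
  obtain ⟨b1, b2, b3, -⟩ := win_nat H hl
  obtain ⟨p1, p2⟩ := ph_win H hl A B
  have p3 := ph_pos one_pos (B - A)
  have ht := tm_pos H.hq0 b3 A B
  have hn : (0 : ℝ) < k + 1 := by positivity
  refine int_le (integrable_bdd (measurable_X h _ _ _ _ hg l) (X_nonneg hg0 l) (X_le hc hg1 l))
    (X_nonneg hg0 l) (by positivity) ?_
  have e := h.one_edge k l (M • (A - z)) (M • (B - z)) (kp D g) (measurable_kp D hg) b1 b2
  refine (le_of_eq e).trans ?_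
  have e2 := dbl_le' (D := D) (g := g)
    (F1 := fun u => ENNReal.ofReal (ph l (u - M • (A - z))))
    (F2 := fun u => ENNReal.ofReal (ph (k - l) (M • (B - z) - u))) (by positivity) (by positivity)
    (fun u hu => ENNReal.ofReal_le_ofReal (fac1 H hA hz hl hu).1)
    (fun u hu => ENNReal.ofReal_le_ofReal (fac2 H hB hz hl hl le_rfl (by omega) hu).1) hm
  rw [den_eq H]
  refine (inv_mul_le' (by positivity) e2).trans (ENNReal.ofReal_le_ofReal ?_)
  have e3 := ex2_le H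
  calc _ = (Real.exp (ww q q0 D η) * Real.exp (ww q q0 D η)) * m *
        (((k : ℝ) + 1)⁻¹ * tm q (l / p) A B) := by
        unfold tm
        field_simp
    _ ≤ _ := by gcongr

theorem one_ge (h : StmtChain) (H : MomHyp q q0 p k bb D M η) (hA : ‖A‖ ≤ D) (hB : ‖B‖ ≤ D)
    (hz : ‖z‖ + D / M ≤ η) {g : E → E → ℝ} (hg : Measurable (Function.uncurry g)) {c m : ℝ}
    (hc : 0 ≤ c) (hg0 : ∀ u u', 0 ≤ g u u') (hg1 : ∀ u u', g u u' ≤ c) (hm0 : 0 ≤ m)
    (hm : ENNReal.ofReal m ≤ mass (kp D g)) {l : ℕ} (hl : l ∈ Ico (q0 * p) ((q - q0) * p)) :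
    (1 - 2 * ww q q0 D η) * m * (((k : ℝ) + 1)⁻¹ * tm q (l / p) A B) ≤
      ∫ β, X k D (M • (A - z)) (M • (B - z)) g l β ∂nu k := by
  have := h.nu_prob k
  obtain ⟨b1, b2, b3, -⟩ := win_nat H hl
  obtain ⟨p1, p2⟩ := ph_win H hl A B
  have p3 := ph_pos one_pos (B - A)
  have ht := tm_pos H.hq0 b3 A B
  have hn : (0 : ℝ) < k + 1 := by positivity
  refine int_ge (integrable_bdd (measurable_X h _ _ _ _ hg l) (X_nonneg hg0 l) (X_le hc hg1 l))
    (X_nonneg hg0 l) ?_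
  have e := h.one_edge k l (M • (A - z)) (M • (B - z)) (kp D g) (measurable_kp D hg) b1 b2
  refine le_trans ?_ (le_of_eq e.symm)
  have e2 := dbl_ge' (D := D) (g := g)
    (F1 := fun u => ENNReal.ofReal (ph l (u - M • (A - z))))
    (F2 := fun u => ENNReal.ofReal (ph (k - l) (M • (B - z) - u))) (by positivity) (by positivity)
    (fun u hu => ENNReal.ofReal_le_ofReal (fac1 H hA hz hl hu).2)
    (fun u hu => ENNReal.ofReal_le_ofReal (fac2 H hB hz hl hl le_rfl (by omega) hu).2) hm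
  rw [den_eq H]
  refine le_trans (ENNReal.ofReal_le_ofReal ?_) (inv_mul_ge' (by positivity) e2)
  have e3 : 1 - 2 * ww q q0 D η ≤ Real.exp (-ww q q0 D η) * Real.exp (-ww q q0 D η) := by
    rw [← Real.exp_add]
    have := Real.add_one_le_exp (-ww q q0 D η + -ww q q0 D η)
    linarith
  calc _ ≤ (Real.exp (-ww q q0 D η) * Real.exp (-ww q q0 D η)) * m *
        (((k : ℝ) + 1)⁻¹ * tm q (l / p) A B) := by gcongr
    _ = _ := by
        unfold tm
        field_simp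

end

end Pool.Agent.MP_037c5a_pr.Mo

end
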