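import Pool.Agent.Mg.S19113.Ge3d4ad

section

open MeasureTheory Finset

namespace Pool.Agent.MP_037c5a_pr.Mo

theorem sum_div (f : ℕ → ℝ) (p a : ℕ) : ∀ b : ℕ, a ≤ b →
    ∑ l ∈ Ico (a * p) (b * p), f (l / p) = p * ∑ v ∈ Ico a b, f v := by
  intro b hb
  induction b, hb using Nat.le_induction with
  | base => simp
  | succ b hb ih =>
    rw [Finset.sum_Ico_succ_top hb, mul_add, ← ih,
      ← Finset.sum_Ico_consecutive _ (Nat.mul_le_mul_right p hb)
        (Nat.mul_le_mul_right p (Nat.le_succ b))]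
    congr 1
    have h1 : ∀ l ∈ Ico (b * p) (b.succ * p), f (l / p) = f b := by
      intro l hl
      rw [Finset.mem_Ico] at hl
      congr 1
      exact Nat.div_eq_of_lt_le hl.1 hl.2
    rw [Finset.sum_congr rfl h1, Finset.sum_const, Nat.card_Ico, nsmul_eq_mul]
    congr 1
    rw [Nat.succ_mul]
    simp

theorem sq_sum_le (W : Finset ℕ) (x : ℕ → ℝ) {c : ℝ} (hc : 0 ≤ c) (h0 : ∀ l, 0 ≤ x l)
    (h1 : ∀ l, x l ≤ c) :
    (∑ l ∈ W, x l) ^ 2 ≤ 3 * c * ∑ l ∈ W, x l +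
      2 * ∑ l ∈ W, ∑ l' ∈ W.filter (fun l' => l + 2 ≤ l'), x l * x l' := by
  have e1 : ∀ l ∈ W, ∀ l' ∈ W, x l * x l' ≤
      (if l' ∈ ({l - 1, l, l + 1} : Finset ℕ) then c * x l else 0) +
        ((if l + 2 ≤ l' then x l * x l' else 0) + (if l' + 2 ≤ l then x l' * x l else 0)) := by
    intro l _ l' _
    have a0 := mul_nonneg (h0 l) (h0 l')
    have a0' := mul_nonneg (h0 l') (h0 l)
    have a1 := mul_nonneg hc (h0 l)
    have a2 : x l * x l' ≤ c * x l := by
      rw [mul_comm c]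
      exact mul_le_mul_of_nonneg_left (h1 l') (h0 l)
    have a3 : x l' * x l = x l * x l' := mul_comm _ _
    by_cases b1 : l + 2 ≤ l'
    · rw [if_pos b1]
      split_ifs <;> linarith
    · by_cases b2 : l' + 2 ≤ l
      · rw [if_neg b1, if_pos b2]
        split_ifs <;> linarith
      · rw [if_neg b1, if_neg b2, if_pos (by simp only [mem_insert, mem_singleton]; omega)]
        linarith
  have e2 : ∀ l ∈ W, ∑ l' ∈ W, (if l' ∈ ({l - 1, l, l + 1} : Finset ℕ) then c * x l else 0) ≤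
      3 * c * x l := by
    intro l _
    rw [← Finset.sum_filter, Finset.sum_const, nsmul_eq_mul]
    have : (W.filter fun l' => l' ∈ ({l - 1, l, l + 1} : Finset ℕ)).card ≤ 3 :=
      (Finset.card_le_card fun y hy => (Finset.mem_filter.mp hy).2).trans Finset.card_le_three
    have : ((W.filter fun l' => l' ∈ ({l - 1, l, l + 1} : Finset ℕ)).card : ℝ) ≤ 3 := by
      exact_mod_cast this
    have a1 := mul_nonneg hc (h0 l)
    nlinarith
  calc (∑ l ∈ W, x l) ^ 2 = ∑ l ∈ W, ∑ l' ∈ W, x l * x l' := by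
        rw [sq, Finset.sum_mul_sum]
    _ ≤ ∑ l ∈ W, ∑ l' ∈ W, ((if l' ∈ ({l - 1, l, l + 1} : Finset ℕ) then c * x l else 0) +
        ((if l + 2 ≤ l' then x l * x l' else 0) + (if l' + 2 ≤ l then x l' * x l else 0))) :=
        Finset.sum_le_sum fun l hl => Finset.sum_le_sum fun l' hl' => e1 l hl l' hl'
    _ = ∑ l ∈ W, ∑ l' ∈ W, (if l' ∈ ({l - 1, l, l + 1} : Finset ℕ) then c * x l else 0) +
        2 * ∑ l ∈ W, ∑ l' ∈ W.filter (fun l' => l + 2 ≤ l'), x l * x l' := by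
        simp only [Finset.sum_add_distrib, Finset.sum_filter]
        rw [Finset.sum_comm (f := fun l l' => if l' + 2 ≤ l then x l' * x l else 0)]
        ring
    _ ≤ _ := by
        rw [Finset.mul_sum (f := x)]
        exact add_le_add (Finset.sum_le_sum e2) le_rfl

theorem sq_sum_ge (W W' J : Finset ℕ) (x : ℕ → ℝ) (h0 : ∀ l, 0 ≤ x l) (hW : W' ⊆ W)
    (hJ : ∀ l ∈ W', ∀ j ∈ J, l + j + 1 ∈ W) :
    ∑ l ∈ W', ∑ j ∈ J, x l * x (l + j + 1) ≤ (∑ l ∈ W, x l) ^ 2 := by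
  rw [sq, Finset.sum_mul]
  refine le_trans (Finset.sum_le_sum fun l hl => ?_)
    (Finset.sum_le_sum_of_subset_of_nonneg hW fun l _ _ =>
      mul_nonneg (h0 l) (Finset.sum_nonneg fun l _ => h0 l))
  rw [← Finset.mul_sum]
  apply mul_le_mul_of_nonneg_left _ (h0 l)
  rw [← Finset.sum_image (s := J) (g := fun j => l + j + 1) (f := x)
    (fun a _ b _ h => by simpa using h)]
  refine Finset.sum_le_sum_of_subset_of_nonneg ?_ fun l _ _ => h0 l
  intro y hy
  obtain ⟨j, hj, rfl⟩ := Finset.mem_image.mp hy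
  exact hJ l hl j hj

section
variable {q q0 p k bb : ℕ} {D M η : ℝ} {A B z : E}

theorem two_eq (h : StmtChain) (P Q : E) {g : E → E → ℝ} (hg : Measurable (Function.uncurry g))
    (hg0 : ∀ u u', 0 ≤ g u u') {l l' : ℕ} (h1 : 1 ≤ l) (h2 : l + 2 ≤ l') (h3 : l' + 1 ≤ k) :
    ∫⁻ β, ENNReal.ofReal (X k D P Q g l β * X k D P Q g l' β) ∂nu k =
      (ENNReal.ofReal (ph (k + 1) (Q - P)))⁻¹ *
        dbl (fun u => ENNReal.ofReal (ph l (u - P)))
          (fun u' => dbl (fun v => ENNReal.ofReal (ph (l' - l - 1) (v - u')))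
            (fun v' => ENNReal.ofReal (ph (k - l') (Q - v'))) (kp D g)) (kp D g) := by
  have e := h.two_edge k l l' P Q (kp D g) (kp D g) (measurable_kp D hg) (measurable_kp D hg)
    h1 h2 h3
  have e2 : ∀ β, ENNReal.ofReal (X k D P Q g l β * X k D P Q g l' β) =
      kp D g (bp k P Q β l) (bp k P Q β (l + 1)) * kp D g (bp k P Q β l') (bp k P Q β (l' + 1)) := by
    intro β
    rw [ENNReal.ofReal_mul (X_nonneg hg0 l β)]
    simp only [X, kp]
  simp only [e2]
  rw [e]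
  simp only [dbl]

theorem integrable_XX (h : StmtChain) (P Q : E) {g : E → E → ℝ}
    (hg : Measurable (Function.uncurry g)) {c : ℝ} (hc : 0 ≤ c) (hg0 : ∀ u u', 0 ≤ g u u')
    (hg1 : ∀ u u', g u u' ≤ c) (l l' : ℕ) :
    Integrable (fun β => X k D P Q g l β * X k D P Q g l' β) (nu k) := by
  have := h.nu_prob k
  exact integrable_bdd (C := c * c) ((measurable_X h k D P Q hg l).mul (measurable_X h k D P Q hg l'))
    (fun β => mul_nonneg (X_nonneg hg0 l β) (X_nonneg hg0 l' β))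
    (fun β => mul_le_mul (X_le hc hg1 l β) (X_le hc hg1 l' β) (X_nonneg hg0 l' β) hc)

theorem two_le (h : StmtChain) (H : MomHyp q q0 p k bb D M η) (hA : ‖A‖ ≤ D) (hB : ‖B‖ ≤ D)
    (hz : ‖z‖ + D / M ≤ η) {g : E → E → ℝ} (hg : Measurable (Function.uncurry g)) {c : ℝ}
    (hc : 0 ≤ c) (hg0 : ∀ u u', 0 ≤ g u u') (hg1 : ∀ u u', g u u' ≤ c)
    (hm : mass (kp D g) ≤ ENNReal.ofReal 1) {l l' : ℕ} (hl : l ∈ Ico (q0 * p) ((q - q0) * p))
    (hl' : l' ∈ Ico (q0 * p) ((q - q0) * p)) (hll : l + 2 ≤ l') :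
    ∫ β, X k D (M • (A - z)) (M • (B - z)) g l β * X k D (M • (A - z)) (M • (B - z)) g l' β ∂nu k ≤
      1 / 5 * (2 * ((k - l' : ℕ) : ℝ)⁻¹ + ((l' - l - 1 : ℕ) : ℝ)⁻¹) *
        (((k : ℝ) + 1)⁻¹ * tm q (l / p) A B) := by
  obtain ⟨b1, b2, b3, -⟩ := win_nat H hl
  obtain ⟨-, b2', -⟩ := win_nat H hl'
  obtain ⟨p1, p2⟩ := ph_win H hl A B
  have p3 := ph_pos one_pos (B - A)
  have ht := tm_pos H.hq0 b3 A B
  have hn : (0 : ℝ) < k + 1 := by positivity
  have hpi := Real.pi_gt_three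
  have c1 : ((k - l' : ℕ) : ℝ) = k - l' := Nat.cast_sub (by omega)
  have c2 : ((l' - l - 1 : ℕ) : ℝ) = l' - l - 1 := by
    rw [Nat.cast_sub (by omega), Nat.cast_sub (by omega), Nat.cast_one]
  have c3 : (l' : ℝ) + 1 ≤ k := by exact_mod_cast b2'
  have c4 : (l : ℝ) + 2 ≤ l' := by exact_mod_cast hll
  have c5 : (0 : ℝ) < k - l' := by linarith
  have c6 : (0 : ℝ) < l' - l - 1 := by linarith
  have c7 : (0 : ℝ) < k - l := by linarith
  rw [c1, c2]
  refine int_le (integrable_XX h _ _ hg hc hg0 hg1 l l')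
    (fun β => mul_nonneg (X_nonneg hg0 l β) (X_nonneg hg0 l' β)) (by positivity) ?_
  rw [two_eq h _ _ hg hg0 b1 hll b2', den_eq H]
  have e1 : ∀ u', ‖u'‖ ≤ D → dbl (fun v => ENNReal.ofReal (ph (l' - l - 1) (v - u')))
      (fun v' => ENNReal.ofReal (ph (k - l') (M • (B - z) - v'))) (kp D g) ≤
      ENNReal.ofReal ((2 * Real.pi * (l' - l - 1))⁻¹ * ((k - l) / (k - l') * (((k : ℝ) + 1)⁻¹ *
        (Real.exp (ww q q0 D η) * ph (1 - (l / p : ℕ) / q) B))) * 1) := by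
    intro u' _
    refine dbl_le' (by positivity) (by positivity)
      (fun v _ => ENNReal.ofReal_le_ofReal (ph_le c6 _))
      (fun v hv => ENNReal.ofReal_le_ofReal ?_) hm
    refine (ph_lam c5 (show (k : ℝ) - l' ≤ k - l by linarith) _).trans ?_
    exact mul_le_mul_of_nonneg_left (fac2 H hB hz hl hl le_rfl (by omega) hv).1 (by positivity)
  have e2 := dbl_le' (D := D) (g := g)
    (F1 := fun u => ENNReal.ofReal (ph l (u - M • (A - z)))) (by positivity) (by positivity)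
    (fun u hu => ENNReal.ofReal_le_ofReal (fac1 H hA hz hl hu).1) e1 hm
  refine (inv_mul_le' (by positivity) e2).trans (ENNReal.ofReal_le_ofReal ?_)
  have e3 := ex2_le H
  have e4 : (2 * Real.pi * (l' - l - 1))⁻¹ * ((k - l) / (k - l')) ≤
      1 / 6 * (2 * ((k : ℝ) - l')⁻¹ + ((l' : ℝ) - l - 1)⁻¹) := by
    set i : ℝ := k - l' with hi
    set j : ℝ := l' - l - 1 with hj
    have d1 : (k : ℝ) - l = i + j + 1 := by rw [hi, hj]; ring
    have d2 : 1 ≤ j := by linarith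
    rw [d1]
    calc (2 * Real.pi * j)⁻¹ * ((i + j + 1) / i) = (2 * Real.pi)⁻¹ * ((i + j + 1) / (i * j)) := by
          field_simp
      _ ≤ 1 / 6 * ((i + j + j) / (i * j)) := by
          apply mul_le_mul _ _ (by positivity) (by norm_num)
          · rw [one_div]
            exact inv_anti₀ (by norm_num) (by linarith)
          · exact div_le_div_of_nonneg_right (by linarith) (by positivity)
      _ = _ := by
          field_simp
          ring
  calc _ = (Real.exp (ww q q0 D η) * Real.exp (ww q q0 D η)) *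
        ((2 * Real.pi * (l' - l - 1))⁻¹ * ((k - l) / (k - l'))) *
        (((k : ℝ) + 1)⁻¹ * tm q (l / p) A B) := by
        unfold tm
        field_simp
    _ ≤ 6 / 5 * (1 / 6 * (2 * ((k : ℝ) - l')⁻¹ + ((l' : ℝ) - l - 1)⁻¹)) *
        (((k : ℝ) + 1)⁻¹ * tm q (l / p) A B) := by gcongr
    _ = _ := by ring

theorem two_ge (h : StmtChain) (H : MomHyp q q0 p k bb D M η) (hA : ‖A‖ ≤ D) (hB : ‖B‖ ≤ D)
    (hz : ‖z‖ + D / M ≤ η) {g : E → E → ℝ} (hg : Measurable (Function.uncurry g)) {c : ℝ}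
    (hc : 0 ≤ c) (hg0 : ∀ u u', 0 ≤ g u u') (hg1 : ∀ u u', g u u' ≤ c)
    (hm : ENNReal.ofReal (2 / 5) ≤ mass (kp D g)) {l j : ℕ} (hl : l ∈ Ico (q0 * p) ((q - q0) * p))
    (hl' : l + j + 1 ∈ Ico (q0 * p) ((q - q0) * p)) (hj : 2 * D ^ 2 ≤ j) (hjp : j < p) :
    7 / 1000 * (j : ℝ)⁻¹ * (((k : ℝ) + 1)⁻¹ * tm q (l / p) A B) ≤
      ∫ β, X k D (M • (A - z)) (M • (B - z)) g l β *
        X k D (M • (A - z)) (M • (B - z)) g (l + j + 1) β ∂nu k := by
  obtain ⟨b1, b2, b3, -⟩ := win_nat H hl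
  obtain ⟨-, b2', -⟩ := win_nat H hl'
  obtain ⟨p1, p2⟩ := ph_win H hl A B
  have p3 := ph_pos one_pos (B - A)
  have ht := tm_pos H.hq0 b3 A B
  have hn : (0 : ℝ) < k + 1 := by positivity
  have hpi := Real.pi_pos
  have hD := H.hD
  have c6 : (0 : ℝ) < j := by nlinarith
  have c7 : 1 ≤ j := by exact_mod_cast (show (0 : ℝ) < j from c6)
  have c2 : ((l + j + 1 : ℕ) : ℝ) - l - 1 = j := by
    push_cast
    ring
  refine int_ge (integrable_XX h _ _ hg hc hg0 hg1 l (l + j + 1))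
    (fun β => mul_nonneg (X_nonneg hg0 l β) (X_nonneg hg0 _ β)) ?_
  rw [two_eq h _ _ hg hg0 b1 (by omega) b2', den_eq H, c2]
  have e1 : ∀ u', ‖u'‖ ≤ D →
      ENNReal.ofReal ((Real.exp (-1) * (2 * Real.pi * j)⁻¹) * (((k : ℝ) + 1)⁻¹ *
        (Real.exp (-ww q q0 D η) * ph (1 - (l / p : ℕ) / q) B)) * (2 / 5)) ≤
      dbl (fun v => ENNReal.ofReal (ph j (v - u')))
        (fun v' => ENNReal.ofReal (ph (k - (l + j + 1 : ℕ)) (M • (B - z) - v'))) (kp D g) := by
    intro u' hu'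
    refine dbl_ge' (by positivity) (by positivity)
      (fun v hv => ENNReal.ofReal_le_ofReal (ph_lower c6 ?_))
      (fun v hv => ENNReal.ofReal_le_ofReal
        (fac2 H hB hz hl hl' (by omega) (by omega) hv).2) hm
    have d1 : ‖v - u'‖ ≤ 2 * D := (norm_sub_le _ _).trans (by linarith)
    have d2 : ‖v - u'‖ ^ 2 ≤ (2 * D) ^ 2 := pow_le_pow_left₀ (norm_nonneg _) d1 2
    nlinarith
  have e2 := dbl_ge' (D := D) (g := g)
    (F1 := fun u => ENNReal.ofReal (ph l (u - M • (A - z)))) (by positivity) (by positivity)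
    (fun u hu => ENNReal.ofReal_le_ofReal (fac1 H hA hz hl hu).2) e1 hm
  refine le_trans (ENNReal.ofReal_le_ofReal ?_) (inv_mul_ge' (by positivity) e2)
  have e3 : 5 / 6 ≤ Real.exp (-ww q q0 D η) * Real.exp (-ww q q0 D η) := by
    rw [← Real.exp_add]
    have := Real.add_one_le_exp (-ww q q0 D η + -ww q q0 D η)
    have := (ww_bd H).2
    linarith
  have e4 : (1 / 3 : ℝ) ≤ Real.exp (-1) := by
    rw [Real.exp_neg, one_div]
    apply inv_anti₀ (Real.exp_pos _)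
    have := Real.exp_one_lt_d9
    linarith
  have e5 : (10 / 63 : ℝ) ≤ (2 * Real.pi)⁻¹ := by
    have := Real.pi_lt_d2
    rw [show (10 / 63 : ℝ) = (6.3 : ℝ)⁻¹ by norm_num]
    exact inv_anti₀ (by positivity) (by linarith)
  calc 7 / 1000 * (j : ℝ)⁻¹ * (((k : ℝ) + 1)⁻¹ * tm q (l / p) A B)
      ≤ (5 / 6 * (1 / 3) * (10 / 63) * (4 / 25)) * (j : ℝ)⁻¹ *
        (((k : ℝ) + 1)⁻¹ * tm q (l / p) A B) := by gcongr; norm_num
    _ ≤ ((Real.exp (-ww q q0 D η) * Real.exp (-ww q q0 D η)) * Real.exp (-1) * (2 * Real.pi)⁻¹ *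
        (4 / 25)) * (j : ℝ)⁻¹ * (((k : ℝ) + 1)⁻¹ * tm q (l / p) A B) := by gcongr
    _ = _ := by
        unfold tm
        field_simp
        ring

theorem sum_tm (H : MomHyp q q0 p k bb D M η) (A B : E) {b : ℕ} (hb : q0 ≤ b) :
    ∑ l ∈ Ico (q0 * p) (b * p), ((k : ℝ) + 1)⁻¹ * tm q (l / p) A B =
      (q : ℝ)⁻¹ * ∑ v ∈ Ico q0 b, tm q v A B := by
  obtain ⟨a1, a2, a3, a4⟩ := hyp_q H
  rw [← Finset.mul_sum, sum_div (fun v => tm q v A B) p q0 b hb, a4]
  have : (0 : ℝ) < q := by linarith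
  have : (0 : ℝ) < p := by linarith
  field_simp

theorem sum_tm_gk (H : MomHyp q q0 p k bb D M η) (A B : E) :
    ∑ l ∈ Ico (q0 * p) ((q - q0) * p), ((k : ℝ) + 1)⁻¹ * tm q (l / p) A B = gk q q0 A B := by
  have := H.hq
  rw [sum_tm H A B (by omega), gk_eq]

theorem last_block (H : MomHyp q q0 p k bb D M η) (hA : ‖A‖ ≤ D) (hB : ‖B‖ ≤ D) :
    gk q q0 A B ≤ 11 / 5 * ((q : ℝ)⁻¹ * ∑ v ∈ Ico q0 (q - q0 - 1), tm q v A B) := by
  obtain ⟨a1, a2, a3, a4⟩ := hyp_q H
  have hq := H.hq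
  have hq0 := H.hq0
  have hq1 : (0 : ℝ) < q := by linarith
  obtain ⟨v, hv⟩ : ∃ v, q - q0 = v + 2 := ⟨q - q0 - 2, by omega⟩
  have m1 : v ∈ Ico q0 (q - q0) := by rw [Finset.mem_Ico]; omega
  have m2 : v + 1 ∈ Ico q0 (q - q0) := by rw [Finset.mem_Ico]; omega
  obtain ⟨-, c2, c3, -⟩ := win_facts hq0 m1
  obtain ⟨-, c2', c3', -⟩ := win_facts hq0 m2
  have hs0 : (0 : ℝ) < q0 / q := by positivity
  have hs1 : (q0 : ℝ) / q ≤ 1 / 4 := by
    rw [div_le_iff₀ hq1]
    linarith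
  have hη := eta_pos H
  have hq2 : (q : ℝ)⁻¹ ≤ η := by
    refine le_trans ?_ H.hη1
    rw [div_eq_mul_inv]
    have : (0 : ℝ) < (q : ℝ)⁻¹ := by positivity
    linarith
  have l1 : ∀ w : ℝ, (q0 : ℝ) ≤ w → (q0 : ℝ) / q ≤ w / q := fun w hw =>
    div_le_div_of_nonneg_right hw hq1.le
  have l2 : ∀ w : ℝ, w + 1 ≤ q - q0 → (q0 : ℝ) / q ≤ 1 - w / q := fun w hw => by
    rw [le_sub_iff_add_le, ← add_div, div_le_one hq1]
    linarith
  have e1 : ph ((v + 1 : ℕ) / q) A ≤ Real.exp (ww q q0 D η) * ph (v / q) A := by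
    refine ph_cmp hs0 hs1 H.hD (l1 _ c2) (l1 _ c2') ?_ (by linarith) (by linarith)
      (by simpa using hη.le)
    have : (v : ℝ) / q - (v + 1 : ℕ) / q = -(q : ℝ)⁻¹ := by
      push_cast
      field_simp
      ring
    rw [this, abs_neg, abs_of_pos (by positivity)]
    exact hq2
  have e2 : ph (1 - (v + 1 : ℕ) / q) B ≤ Real.exp (ww q q0 D η) * ph (1 - v / q) B := by
    refine ph_cmp hs0 hs1 H.hD (l2 _ c3) (l2 _ c3') ?_ (by linarith) (by linarith)
      (by simpa using hη.le)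
    have : (1 - (v : ℝ) / q) - (1 - (v + 1 : ℕ) / q) = (q : ℝ)⁻¹ := by
      push_cast
      field_simp
      ring
    rw [this, abs_of_pos (by positivity)]
    exact hq2
  have p1 := ph_pos (lt_of_lt_of_le hs0 (l1 _ c2)) A
  have p2 := ph_pos (lt_of_lt_of_le hs0 (l2 _ c3')) B
  have p3 := ph_pos one_pos (B - A)
  have ht := tm_pos hq0 m1 A B
  have e3 : tm q (v + 1) A B ≤ 6 / 5 * tm q v A B := by
    calc tm q (v + 1) A B ≤ (Real.exp (ww q q0 D η) * ph (v / q) A) *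
          (Real.exp (ww q q0 D η) * ph (1 - v / q) B) / ph 1 (B - A) := by
          unfold tm
          gcongr
      _ = (Real.exp (ww q q0 D η) * Real.exp (ww q q0 D η)) * tm q v A B := by
          unfold tm
          ring
      _ ≤ _ := mul_le_mul_of_nonneg_right (ex2_le H) ht.le
  have e4 : tm q v A B ≤ ∑ w ∈ Ico q0 (v + 1), tm q w A B := by
    refine Finset.single_le_sum (f := fun w => tm q w A B) (fun w hw => (tm_pos hq0 ?_ A B).le) ?_
    · rw [Finset.mem_Ico] at hw ⊢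
      omega
    · rw [Finset.mem_Ico]
      omega
  rw [gk_eq, hv, show v + 2 - 1 = v + 1 by omega, Finset.sum_Ico_succ_top (by omega : q0 ≤ v + 1),
    mul_left_comm]
  apply mul_le_mul_of_nonneg_left _ (by positivity)
  linarith

end

end Pool.Agent.MP_037c5a_pr.Mo

end

section

open MeasureTheory Finset

namespace Pool.Agent.MP_037c5a_pr.Mo

/-- untruncated sum over the window -/
noncomputable def S0 (q q0 p k : ℕ) (D : ℝ) (P Q : E) (g : E → E → ℝ) (β : Fin k → E) : ℝ :=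
  ∑ l ∈ Ico (q0 * p) ((q - q0) * p), X k D P Q g l β

theorem sum_cut (q q0 p k : ℕ) (D : ℝ) (P Q : E) (g : E → E → ℝ) (β : Fin k → E) :
    ∑ l ∈ cutSet q q0 p k D P Q β, g (bp k P Q β l) (bp k P Q β (l + 1)) =
      S0 q q0 p k D P Q g β := by
  unfold cutSet S0
  rw [Finset.sum_filter]
  refine Finset.sum_congr rfl fun l _ => ?_
  by_cases hc : ‖bp k P Q β l‖ ≤ D ∧ ‖bp k P Q β (l + 1)‖ ≤ D
  · simp only [X, kap, hc, and_self, if_true]
  · simp only [X, kap, hc, if_false]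

theorem card_cut (q q0 p k : ℕ) (D : ℝ) (P Q : E) (β : Fin k → E) :
    ((cutSet q q0 p k D P Q β).card : ℝ) = S0 q q0 p k D P Q (fun _ _ => 1) β := by
  rw [← sum_cut]
  simp

open Classical in
/-- truncation of a variable -/
noncomputable def tr (q q0 p k bb : ℕ) (D : ℝ) (P Q : E) (f f' : (Fin k → E) → ℝ)
    (β : Fin k → E) : ℝ :=
  if S0 q q0 p k D P Q (fun _ _ => 1) β ≤ bb then f β else f' β

theorem Sv_eq (q q0 p k bb : ℕ) (D : ℝ) (P Q : E) :
    Sv q q0 p k bb D P Q = tr q q0 p k bb D P Q (S0 q q0 p k D P Q (gk q q0)) 0 := by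
  funext β
  unfold Sv keep tr
  rw [← card_cut]
  by_cases hc : (cutSet q q0 p k D P Q β).card ≤ bb
  · rw [if_pos hc, if_pos (by exact_mod_cast hc), sum_cut]
  · rw [if_neg hc, if_neg (by exact_mod_cast hc)]
    simp

theorem Cv_eq (q q0 p k bb : ℕ) (D : ℝ) (P Q : E) :
    Cv q q0 p k bb D P Q = tr q q0 p k bb D P Q (S0 q q0 p k D P Q fun _ _ => 1) 0 := by
  funext β
  unfold Cv keep tr
  rw [← card_cut]
  by_cases hc : (cutSet q q0 p k D P Q β).card ≤ bb
  · rw [if_pos hc, if_pos (by exact_mod_cast hc)]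
  · rw [if_neg hc, if_neg (by exact_mod_cast hc)]
    simp

theorem measurable_one' : Measurable (Function.uncurry fun _ _ : E => (1 : ℝ)) := measurable_const

theorem measurable_S0 (h : StmtChain) (q q0 p k : ℕ) (D : ℝ) (P Q : E) {g : E → E → ℝ}
    (hg : Measurable (Function.uncurry g)) : Measurable (S0 q q0 p k D P Q g) :=
  Finset.measurable_sum _ fun l _ => measurable_X h k D P Q hg l

theorem measurable_tr (h : StmtChain) (q q0 p k bb : ℕ) (D : ℝ) (P Q : E)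
    {f f' : (Fin k → E) → ℝ} (hf : Measurable f) (hf' : Measurable f') :
    Measurable (tr q q0 p k bb D P Q f f') :=
  Measurable.ite (measurableSet_le (measurable_S0 h q q0 p k D P Q measurable_one') measurable_const)
    hf hf'

theorem S0_nonneg {q q0 p k : ℕ} {D : ℝ} {P Q : E} {g : E → E → ℝ} (hg : ∀ u u', 0 ≤ g u u')
    (β : Fin k → E) : 0 ≤ S0 q q0 p k D P Q g β :=
  Finset.sum_nonneg fun l _ => X_nonneg hg l β

section
variable {q q0 p k bb : ℕ} {D M η : ℝ} {A B z : E}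

theorem S0_le (H : MomHyp q q0 p k bb D M η) {P Q : E} {g : E → E → ℝ} {c : ℝ} (hc : 0 ≤ c)
    (hg : ∀ u u', g u u' ≤ c) (β : Fin k → E) : S0 q q0 p k D P Q g β ≤ (k + 1) * c := by
  have h1 := Finset.sum_le_card_nsmul (Ico (q0 * p) ((q - q0) * p)) (fun l => X k D P Q g l β) c
    fun l _ => X_le hc hg l β
  refine h1.trans ?_
  rw [nsmul_eq_mul, Nat.card_Ico]
  apply mul_le_mul_of_nonneg_right _ hc
  have h2 : (q - q0) * p ≤ k + 1 := by
    rw [H.hk]
    exact Nat.mul_le_mul_right p (Nat.sub_le _ _)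
  exact_mod_cast (Nat.sub_le _ _).trans h2

theorem trunc_le (h : StmtChain) (H : MomHyp q q0 p k bb D M η) (hA : ‖A‖ ≤ D) (hB : ‖B‖ ≤ D)
    (z : E) :
    ∫ β, tr q q0 p k bb D (M • (A - z)) (M • (B - z)) 0 1 β ∂nu k ≤
      (1 + Real.exp (2 * D ^ 2) * q / q0) *
        Real.exp (-(bb / (8 * D ^ 2 * (1 + Real.log (k + 1))))) := by
  have := h.nu_prob k
  obtain ⟨a1, a2, a3, a4⟩ := hyp_q H
  have hq1 : (0 : ℝ) < q := by linarith
  have hD := H.hD
  have hpi := Real.pi_pos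
  set P := M • (A - z)
  set Q := M • (B - z)
  set Hh : ℝ := 1 + Real.log (k + 1) with hH
  have hH1 : 1 ≤ Hh := by
    have : 0 ≤ Real.log ((k : ℝ) + 1) := Real.log_nonneg (by linarith [Nat.cast_nonneg (α := ℝ) k])
    linarith
  set c : ℝ := (4 * D ^ 2 * Hh)⁻¹ with hc
  have hDD : 1 ≤ 4 * D ^ 2 * Hh := by nlinarith
  have hc0 : 0 < c := by positivity
  have hc1 : c ≤ 1 := inv_le_one_of_one_le₀ hDD
  set Φ : ℝ := (2 * Real.pi * (q0 * p))⁻¹ with hΦ
  have t0 : ∀ β, 0 ≤ tr q q0 p k bb D P Q 0 1 β := fun β => by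
    unfold tr
    split_ifs <;> simp
  have t1 : ∀ β, tr q q0 p k bb D P Q 0 1 β ≤ 1 := fun β => by
    unfold tr
    split_ifs <;> simp
  refine int_le (integrable_bdd (measurable_tr h _ _ _ _ _ _ _ _ measurable_const measurable_const)
    t0 t1) t0 (by positivity) ?_
  have kh := h.khas k P Q (Ico (q0 * p) ((q - q0) * p)) D c Φ (by linarith) hc0.le (by positivity)
    (fun l hl => by
      obtain ⟨b1, b2, -⟩ := win_nat H hl
      omega)
    (fun l hl u _ => by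
      obtain ⟨-, -, -, -, -, -, b7⟩ := win_nat H hl
      have d7 : (l : ℝ) + 1 + q0 * p ≤ k + 1 := by exact_mod_cast b7
      have d8 : (0 : ℝ) < q0 * p := by positivity
      refine (ph_le (by linarith) _).trans (inv_anti₀ (by positivity) ?_)
      exact mul_le_mul_of_nonneg_left (by linarith) (by positivity))
    (by
      rw [hc, ← hH]
      apply le_of_eq
      field_simp
      norm_num)
  have pt : ∀ β, ENNReal.ofReal (tr q q0 p k bb D P Q 0 1 β) ≤
      ENNReal.ofReal (Real.exp (-(bb / (8 * D ^ 2 * Hh)))) *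
        ∏ l ∈ Ico (q0 * p) ((q - q0) * p),
          ENNReal.ofReal (1 + if ‖bp k P Q β l‖ ≤ D then c else 0) := by
    intro β
    unfold tr
    split_ifs with hb
    · simp
    · rw [← card_cut, not_le] at hb
      have e1 : ∏ l ∈ cutSet q q0 p k D P Q β, ENNReal.ofReal (1 + c) ≤
          ∏ l ∈ Ico (q0 * p) ((q - q0) * p),
            ENNReal.ofReal (1 + if ‖bp k P Q β l‖ ≤ D then c else 0) := by
        calc _ = ∏ l ∈ cutSet q q0 p k D P Q β,
              ENNReal.ofReal (1 + if ‖bp k P Q β l‖ ≤ D then c else 0) := by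
              refine Finset.prod_congr rfl fun l hl => ?_
              unfold cutSet at hl
              rw [Finset.mem_filter] at hl
              rw [if_pos hl.2.1]
          _ ≤ _ := by
              refine Finset.prod_le_prod_of_subset_of_one_le' ?_ fun l _ _ => ?_
              · unfold cutSet
                exact Finset.filter_subset _ _
              · rw [← ENNReal.ofReal_one]
                apply ENNReal.ofReal_le_ofReal
                split_ifs <;> linarith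
      refine le_trans ?_ (mul_le_mul_right e1 _)
      rw [Finset.prod_const, ← ENNReal.ofReal_pow (by linarith),
        ← ENNReal.ofReal_mul (Real.exp_pos _).le]
      apply ENNReal.ofReal_le_ofReal
      have e2 : Real.exp (c / 2) ≤ 1 + c := by
        have b1 := Real.add_one_le_exp (-(c / 2))
        have b2 : Real.exp (c / 2) * Real.exp (-(c / 2)) = 1 := by
          rw [← Real.exp_add]
          simp
        have b3 := Real.exp_pos (c / 2)
        nlinarith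
      have e3 : Real.exp (c / 2) ^ (cutSet q q0 p k D P Q β).card ≤
          (1 + c) ^ (cutSet q q0 p k D P Q β).card := pow_le_pow_left₀ (Real.exp_pos _).le e2 _
      refine le_trans ?_ (mul_le_mul_of_nonneg_left e3 (Real.exp_pos _).le)
      rw [← Real.exp_nat_mul, ← Real.exp_add, Pi.one_apply]
      apply Real.one_le_exp
      have e4 : (bb : ℝ) / (8 * D ^ 2 * Hh) = bb * (c / 2) := by
        rw [hc]
        field_simp
        ring
      rw [e4]
      nlinarith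
  refine (lintegral_mono pt).trans ?_
  rw [lintegral_const_mul' _ _ ENNReal.ofReal_ne_top, mul_comm (1 + _),
    ENNReal.ofReal_mul (Real.exp_pos _).le]
  refine mul_le_mul_right (kh.trans (ENNReal.ofReal_le_ofReal ?_)) _
  rw [den_eq H]
  have e5 : ‖B - A‖ ≤ 2 * D := (norm_sub_le _ _).trans (by linarith)
  have e6 : ‖B - A‖ ^ 2 ≤ (2 * D) ^ 2 := pow_le_pow_left₀ (norm_nonneg _) e5 2
  have e7 := ph_lower (t := 1) (c := 2 * D ^ 2) one_pos (x := B - A) (by nlinarith)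
  have e8 : Φ / (((k : ℝ) + 1)⁻¹ * ph 1 (B - A)) ≤
      Φ / (((k : ℝ) + 1)⁻¹ * (Real.exp (-(2 * D ^ 2)) * (2 * Real.pi * 1)⁻¹)) := by
    apply div_le_div_of_nonneg_left (by positivity) (by positivity)
    exact mul_le_mul_of_nonneg_left e7 (by positivity)
  have e9 : Φ / (((k : ℝ) + 1)⁻¹ * (Real.exp (-(2 * D ^ 2)) * (2 * Real.pi * 1)⁻¹)) =
      Real.exp (2 * D ^ 2) * q / q0 := by
    rw [hΦ, a4, Real.exp_neg]
    have : (0 : ℝ) < p := by linarith
    field_simp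
  linarith

theorem int_S0 (h : StmtChain) (q q0 p k : ℕ) (D : ℝ) (P Q : E) {g : E → E → ℝ}
    (hg : Measurable (Function.uncurry g)) {c : ℝ} (hc : 0 ≤ c) (hg0 : ∀ u u', 0 ≤ g u u')
    (hg1 : ∀ u u', g u u' ≤ c) :
    ∫ β, S0 q q0 p k D P Q g β ∂nu k =
      ∑ l ∈ Ico (q0 * p) ((q - q0) * p), ∫ β, X k D P Q g l β ∂nu k := by
  have := h.nu_prob k
  exact integral_finsetSum _ fun l _ =>
    integrable_bdd (measurable_X h _ _ _ _ hg l) (X_nonneg hg0 l) (X_le hc hg1 l)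

theorem int_S0_le (h : StmtChain) (H : MomHyp q q0 p k bb D M η) (hA : ‖A‖ ≤ D) (hB : ‖B‖ ≤ D)
    (hz : ‖z‖ + D / M ≤ η) {g : E → E → ℝ} (hg : Measurable (Function.uncurry g)) {c m : ℝ}
    (hc : 0 ≤ c) (hg0 : ∀ u u', 0 ≤ g u u') (hg1 : ∀ u u', g u u' ≤ c) (hm0 : 0 ≤ m)
    (hm : mass (kp D g) ≤ ENNReal.ofReal m) :
    ∫ β, S0 q q0 p k D (M • (A - z)) (M • (B - z)) g β ∂nu k ≤ 6 / 5 * m * gk q q0 A B := by
  rw [int_S0 h _ _ _ _ _ _ _ hg hc hg0 hg1, ← sum_tm_gk H, Finset.mul_sum]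
  exact Finset.sum_le_sum fun l hl => one_le h H hA hB hz hg hc hg0 hg1 hm0 hm hl

theorem int_S0_ge (h : StmtChain) (H : MomHyp q q0 p k bb D M η) (hA : ‖A‖ ≤ D) (hB : ‖B‖ ≤ D)
    (hz : ‖z‖ + D / M ≤ η) {g : E → E → ℝ} (hg : Measurable (Function.uncurry g)) {c m : ℝ}
    (hc : 0 ≤ c) (hg0 : ∀ u u', 0 ≤ g u u') (hg1 : ∀ u u', g u u' ≤ c) (hm0 : 0 ≤ m)
    (hm : ENNReal.ofReal m ≤ mass (kp D g)) :
    (1 - 2 * ww q q0 D η) * m * gk q q0 A B ≤
      ∫ β, S0 q q0 p k D (M • (A - z)) (M • (B - z)) g β ∂nu k := by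
  rw [int_S0 h _ _ _ _ _ _ _ hg hc hg0 hg1, ← sum_tm_gk H, Finset.mul_sum]
  exact Finset.sum_le_sum fun l hl => one_ge h H hA hB hz hg hc hg0 hg1 hm0 hm hl

theorem integrable_S0 (h : StmtChain) (H : MomHyp q q0 p k bb D M η) (P Q : E) {g : E → E → ℝ}
    (hg : Measurable (Function.uncurry g)) {c : ℝ} (hc : 0 ≤ c) (hg0 : ∀ u u', 0 ≤ g u u')
    (hg1 : ∀ u u', g u u' ≤ c) : Integrable (S0 q q0 p k D P Q g) (nu k) := by
  have := h.nu_prob k
  exact integrable_bdd (measurable_S0 h _ _ _ _ _ _ _ hg) (S0_nonneg hg0) (S0_le H hc hg1)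

theorem integrable_S0_sq (h : StmtChain) (H : MomHyp q q0 p k bb D M η) (P Q : E) {g : E → E → ℝ}
    (hg : Measurable (Function.uncurry g)) {c : ℝ} (hc : 0 ≤ c) (hg0 : ∀ u u', 0 ≤ g u u')
    (hg1 : ∀ u u', g u u' ≤ c) : Integrable (fun β => S0 q q0 p k D P Q g β ^ 2) (nu k) := by
  have := h.nu_prob k
  exact integrable_bdd (C := ((k + 1) * c) ^ 2) ((measurable_S0 h _ _ _ _ _ _ _ hg).pow_const 2)
    (fun β => sq_nonneg _) fun β => pow_le_pow_left₀ (S0_nonneg hg0 β) (S0_le H hc hg1 β) 2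

theorem int_sq_le (h : StmtChain) (H : MomHyp q q0 p k bb D M η) (hA : ‖A‖ ≤ D) (hB : ‖B‖ ≤ D)
    (hz : ‖z‖ + D / M ≤ η) {g : E → E → ℝ} (hg : Measurable (Function.uncurry g)) {c : ℝ}
    (hc : 0 ≤ c) (hg0 : ∀ u u', 0 ≤ g u u') (hg1 : ∀ u u', g u u' ≤ c)
    (hm : mass (kp D g) ≤ ENNReal.ofReal 1) :
    ∫ β, S0 q q0 p k D (M • (A - z)) (M • (B - z)) g β ^ 2 ∂nu k ≤
      2 * (3 * c + (1 + Real.log (k + 1))) * gk q q0 A B := by
  set P := M • (A - z)
  set Q := M • (B - z)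
  set W := Ico (q0 * p) ((q - q0) * p) with hW
  have i1 := integrable_S0 h H P Q hg hc hg0 hg1
  have i2 : ∀ l, Integrable (fun β => ∑ l' ∈ W.filter (fun l' => l + 2 ≤ l'),
      X k D P Q g l β * X k D P Q g l' β) (nu k) := fun l =>
    integrable_finsetSum _ fun l' _ => integrable_XX h P Q hg hc hg0 hg1 l l'
  have i3 : Integrable (fun β => ∑ l ∈ W, ∑ l' ∈ W.filter (fun l' => l + 2 ≤ l'),
      X k D P Q g l β * X k D P Q g l' β) (nu k) := integrable_finsetSum _ fun l _ => i2 l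
  have hg' := gk_nonneg (q := q) H.hq0 A B
  have e0 := int_S0_le h H hA hB hz hg hc hg0 hg1 zero_le_one hm
  have hlog : Real.log k ≤ Real.log (k + 1) := by
    rcases Nat.eq_zero_or_pos k with h0 | h0
    · simp [h0]
    · exact Real.log_le_log (by exact_mod_cast h0) (by linarith)
  have hlog0 : 0 ≤ Real.log ((k : ℝ) + 1) :=
    Real.log_nonneg (by linarith [Nat.cast_nonneg (α := ℝ) k])
  have e1 : ∀ l ∈ W, ∫ β, ∑ l' ∈ W.filter (fun l' => l + 2 ≤ l'),
      X k D P Q g l β * X k D P Q g l' β ∂nu k ≤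
      3 / 5 * (1 + Real.log (k + 1)) * (((k : ℝ) + 1)⁻¹ * tm q (l / p) A B) := by
    intro l hl
    obtain ⟨-, -, b3, -⟩ := win_nat H hl
    have ht := tm_pos H.hq0 b3 A B
    rw [integral_finsetSum _ fun l' _ => integrable_XX h P Q hg hc hg0 hg1 l l']
    refine (Finset.sum_le_sum fun l' hl' => two_le h H hA hB hz hg hc hg0 hg1 hm hl
      (Finset.mem_filter.mp hl').1 (Finset.mem_filter.mp hl').2).trans ?_
    rw [← Finset.sum_mul, ← Finset.mul_sum, Finset.sum_add_distrib, ← Finset.mul_sum]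
    apply mul_le_mul_of_nonneg_right _ (by positivity)
    have f1 := harm_inj (W.filter (fun l' => l + 2 ≤ l')) (fun l' => k - l') k (by
      intro a ha b hb hab
      have a1 := (win_nat H (Finset.mem_filter.mp ha).1).2.1
      have a2 := (win_nat H (Finset.mem_filter.mp hb).1).2.1
      simp only at hab
      omega) (by
      intro a ha
      have a1 := (win_nat H (Finset.mem_filter.mp ha).1).2.1
      omega)
    have f2 := harm_inj (W.filter (fun l' => l + 2 ≤ l')) (fun l' => l' - l - 1) k (by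
      intro a ha b hb hab
      have a1 := (Finset.mem_filter.mp ha).2
      have a2 := (Finset.mem_filter.mp hb).2
      simp only at hab
      omega) (by
      intro a ha
      have a1 := (win_nat H (Finset.mem_filter.mp ha).1).2.1
      have a2 := (Finset.mem_filter.mp ha).2
      omega)
    linarith
  calc _ ≤ ∫ β, (3 * c * S0 q q0 p k D P Q g β + 2 * ∑ l ∈ W,
          ∑ l' ∈ W.filter (fun l' => l + 2 ≤ l'), X k D P Q g l β * X k D P Q g l' β) ∂nu k :=
        integral_mono (integrable_S0_sq h H P Q hg hc hg0 hg1)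
          ((i1.const_mul _).add (i3.const_mul _))
          fun β => sq_sum_le W (fun l => X k D P Q g l β) hc (fun l => X_nonneg hg0 l β)
            fun l => X_le hc hg1 l β
    _ = 3 * c * ∫ β, S0 q q0 p k D P Q g β ∂nu k + 2 * ∑ l ∈ W, ∫ β,
          ∑ l' ∈ W.filter (fun l' => l + 2 ≤ l'), X k D P Q g l β * X k D P Q g l' β ∂nu k := by
        rw [integral_add (i1.const_mul _) (i3.const_mul _), integral_const_mul, integral_const_mul,
          integral_finsetSum _ fun l _ => i2 l]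
    _ ≤ 3 * c * (6 / 5 * 1 * gk q q0 A B) +
          2 * (3 / 5 * (1 + Real.log (k + 1)) * gk q q0 A B) := by
        refine add_le_add (mul_le_mul_of_nonneg_left e0 (by positivity))
          (mul_le_mul_of_nonneg_left ?_ (by norm_num))
        rw [← sum_tm_gk H, Finset.mul_sum]
        exact Finset.sum_le_sum e1
    _ ≤ _ := by nlinarith [mul_nonneg hc hg', mul_nonneg hlog0 hg']

theorem int_sq_ge (h : StmtChain) (H : MomHyp q q0 p k bb D M η) (hA : ‖A‖ ≤ D) (hB : ‖B‖ ≤ D)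
    (hz : ‖z‖ + D / M ≤ η) {g : E → E → ℝ} (hg : Measurable (Function.uncurry g)) {c : ℝ}
    (hc : 0 ≤ c) (hg0 : ∀ u u', 0 ≤ g u u') (hg1 : ∀ u u', g u u' ≤ c)
    (hm : ENNReal.ofReal (2 / 5) ≤ mass (kp D g)) (hp : 2 * D ^ 2 + 1 ≤ p) :
    Real.log (p / (2 * D ^ 2 + 1)) / 400 * gk q q0 A B ≤
      ∫ β, S0 q q0 p k D (M • (A - z)) (M • (B - z)) g β ^ 2 ∂nu k := by
  set P := M • (A - z)
  set Q := M • (B - z)
  have hD := H.hD
  have hq := H.hq
  have hq0 := H.hq0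
  set J0 := ⌈2 * D ^ 2⌉₊ with hJ0
  have j1 : 2 * D ^ 2 ≤ J0 := Nat.le_ceil _
  have j2 : (J0 : ℝ) < 2 * D ^ 2 + 1 := Nat.ceil_lt_add_one (by positivity)
  have j3 : (0 : ℝ) < J0 := by nlinarith
  have j4 : 1 ≤ J0 := by exact_mod_cast (show (0 : ℝ) < J0 from j3)
  have j5 : J0 ≤ p := by exact_mod_cast (show (J0 : ℝ) ≤ p by linarith)
  have hp0 : (0 : ℝ) < p := by nlinarith
  have hL : Real.log (p / (2 * D ^ 2 + 1)) ≤ ∑ j ∈ Ico J0 p, (j : ℝ)⁻¹ := by
    refine le_trans ?_ (log_le_harm j4 p j5)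
    rw [Real.log_div hp0.ne' (by positivity)]
    have := Real.log_le_log j3 j2.le
    linarith
  have hL0 : 0 ≤ Real.log (p / (2 * D ^ 2 + 1)) :=
    Real.log_nonneg ((one_le_div (by positivity)).mpr hp)
  have hsub : (q - q0 - 1) * p + p = (q - q0) * p := by
    rw [← Nat.succ_mul]
    congr 1
    omega
  have hW : Ico (q0 * p) ((q - q0 - 1) * p) ⊆ Ico (q0 * p) ((q - q0) * p) :=
    Finset.Ico_subset_Ico le_rfl (by omega)
  have hJ : ∀ l ∈ Ico (q0 * p) ((q - q0 - 1) * p), ∀ j ∈ Ico J0 p,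
      l + j + 1 ∈ Ico (q0 * p) ((q - q0) * p) := by
    intro l hl j hj
    rw [Finset.mem_Ico] at hl hj ⊢
    omega
  have i2 : ∀ l, Integrable (fun β => ∑ j ∈ Ico J0 p,
      X k D P Q g l β * X k D P Q g (l + j + 1) β) (nu k) := fun l =>
    integrable_finsetSum _ fun j _ => integrable_XX h P Q hg hc hg0 hg1 l _
  have hg' := gk_nonneg (q := q) H.hq0 A B
  have e1 : ∀ l ∈ Ico (q0 * p) ((q - q0 - 1) * p),
      7 / 1000 * Real.log (p / (2 * D ^ 2 + 1)) * (((k : ℝ) + 1)⁻¹ * tm q (l / p) A B) ≤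
        ∫ β, ∑ j ∈ Ico J0 p, X k D P Q g l β * X k D P Q g (l + j + 1) β ∂nu k := by
    intro l hl
    obtain ⟨-, -, b3, -⟩ := win_nat H (hW hl)
    have ht := tm_pos H.hq0 b3 A B
    rw [integral_finsetSum _ fun j _ => integrable_XX h P Q hg hc hg0 hg1 l _]
    refine le_trans ?_ (Finset.sum_le_sum fun j hj => two_ge h H hA hB hz hg hc hg0 hg1 hm (hW hl)
      (hJ l hl j hj) (j1.trans (by exact_mod_cast (Finset.mem_Ico.mp hj).1))
      (Finset.mem_Ico.mp hj).2)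
    rw [← Finset.sum_mul, ← Finset.mul_sum]
    gcongr
  calc _ ≤ 7 / 1000 * Real.log (p / (2 * D ^ 2 + 1)) *
          ((q : ℝ)⁻¹ * ∑ v ∈ Ico q0 (q - q0 - 1), tm q v A B) := by
        have := last_block H hA hB
        nlinarith [mul_le_mul_of_nonneg_left this hL0, mul_nonneg hL0 hg']
    _ ≤ ∑ l ∈ Ico (q0 * p) ((q - q0 - 1) * p),
          ∫ β, ∑ j ∈ Ico J0 p, X k D P Q g l β * X k D P Q g (l + j + 1) β ∂nu k := by
        rw [← sum_tm H A B (by omega), Finset.mul_sum]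
        exact Finset.sum_le_sum e1
    _ = ∫ β, ∑ l ∈ Ico (q0 * p) ((q - q0 - 1) * p),
          ∑ j ∈ Ico J0 p, X k D P Q g l β * X k D P Q g (l + j + 1) β ∂nu k :=
        (integral_finsetSum _ fun l _ => i2 l).symm
    _ ≤ _ := integral_mono (integrable_finsetSum _ fun l _ => i2 l)
        (integrable_S0_sq h H P Q hg hc hg0 hg1)
        fun β => sq_sum_ge _ _ _ (fun l => X k D P Q g l β) (fun l => X_nonneg hg0 l β) hW hJ

end

end Pool.Agent.MP_037c5a_pr.Mo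

end

section

open MeasureTheory Finset

namespace Pool.Agent.MP_037c5a_pr

namespace Mo

theorem tr_sub {q q0 p k bb : ℕ} {D : ℝ} {P Q : E} {f : (Fin k → E) → ℝ} {C : ℝ}
    (h1 : ∀ β, f β ≤ C) (β : Fin k → E) :
    f β - C * tr q q0 p k bb D P Q 0 1 β ≤ tr q q0 p k bb D P Q f 0 β := by
  unfold tr
  split_ifs
  · simp
  · simpa using h1 β

theorem tr_le {q q0 p k bb : ℕ} {D : ℝ} {P Q : E} {f : (Fin k → E) → ℝ}
    (h0 : ∀ β, 0 ≤ f β) (β : Fin k → E) : tr q q0 p k bb D P Q f 0 β ≤ f β := by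
  unfold tr
  split_ifs
  · exact le_rfl
  · exact h0 β

theorem tr_nonneg {q q0 p k bb : ℕ} {D : ℝ} {P Q : E} {f : (Fin k → E) → ℝ}
    (h0 : ∀ β, 0 ≤ f β) (β : Fin k → E) : 0 ≤ tr q q0 p k bb D P Q f 0 β := by
  unfold tr
  split_ifs
  · exact h0 β
  · exact le_rfl

theorem tr_sq {q q0 p k bb : ℕ} {D : ℝ} {P Q : E} (f : (Fin k → E) → ℝ) (β : Fin k → E) :
    tr q q0 p k bb D P Q f 0 β ^ 2 = tr q q0 p k bb D P Q (fun β => f β ^ 2) 0 β := by
  unfold tr
  split_ifs <;> simp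

/-- integrals of truncated variables -/
theorem int_tr (h : StmtChain) {q q0 p k bb : ℕ} {D : ℝ} {P Q : E} {f : (Fin k → E) → ℝ} {C tl : ℝ}
    (hf : Measurable f) (h0 : ∀ β, 0 ≤ f β) (h1 : ∀ β, f β ≤ C) (hC : 0 ≤ C)
    (ht : ∫ β, tr q q0 p k bb D P Q 0 1 β ∂nu k ≤ tl) :
    ∫ β, f β ∂nu k - C * tl ≤ ∫ β, tr q q0 p k bb D P Q f 0 β ∂nu k ∧
      ∫ β, tr q q0 p k bb D P Q f 0 β ∂nu k ≤ ∫ β, f β ∂nu k := by
  have := h.nu_prob k
  have i1 : Integrable f (nu k) := integrable_bdd hf h0 h1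
  have i2 : Integrable (tr q q0 p k bb D P Q f 0) (nu k) :=
    integrable_bdd (measurable_tr h _ _ _ _ _ _ _ _ hf measurable_const) (tr_nonneg h0)
      fun β => (tr_le h0 β).trans (h1 β)
  have i3 : Integrable (tr q q0 p k bb D P Q 0 1) (nu k) :=
    integrable_bdd (C := 1) (measurable_tr h _ _ _ _ _ _ _ _ measurable_const measurable_const)
      (fun β => by unfold tr; split_ifs <;> simp) fun β => by unfold tr; split_ifs <;> simp
  refine ⟨?_, integral_mono i2 i1 (tr_le h0)⟩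
  calc _ ≤ ∫ β, f β ∂nu k - C * ∫ β, tr q q0 p k bb D P Q 0 1 β ∂nu k := by
        have := mul_le_mul_of_nonneg_left ht hC
        linarith
    _ = ∫ β, (f β - C * tr q q0 p k bb D P Q 0 1 β) ∂nu k := by
        rw [integral_sub i1 (i3.const_mul _), integral_const_mul]
    _ ≤ _ := integral_mono (i1.sub (i3.const_mul _)) i2 (tr_sub h1)

end Mo

open Mo in
theorem stmtMom_of (h : StmtChain) : StmtMom where
  gk_bd := fun _ _ A B hq0 => ⟨gk_nonneg hq0 A B, gk_le hq0 A B⟩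
  gk_lb := fun _ _ _ _ hq0 hq hA hB => Mo.gk_lb hq0 hq hA hB
  meas_S := fun q q0 p k bb D P Q => by
    rw [Sv_eq]
    exact measurable_tr h _ _ _ _ _ _ _ _ (measurable_S0 h _ _ _ _ _ _ _ (measurable_gk q q0))
      measurable_const
  meas_C := fun q q0 p k bb D P Q => by
    rw [Cv_eq]
    exact measurable_tr h _ _ _ _ _ _ _ _ (measurable_S0 h _ _ _ _ _ _ _ measurable_one')
      measurable_const
  mom := by
    intro q q0 p k bb D M η H A B z hA hB hz ζ Hh gm tl hζ hH hgm htl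
    obtain ⟨a1, a2, a3, a4⟩ := hyp_q H
    have hq1 : (0 : ℝ) < q := by linarith
    have hD := H.hD
    have hg := measurable_gk q q0
    have hg0 : ∀ u u', 0 ≤ gk q q0 u u' := gk_nonneg H.hq0
    have hg1 : ∀ u u', gk q q0 u u' ≤ gm := by
      rw [hgm]
      exact gk_le H.hq0
    have hc : 0 ≤ gm := (hg0 0 0).trans (hg1 0 0)
    have hG := hg0 A B
    have ht : ∫ β, tr q q0 p k bb D (M • (A - z)) (M • (B - z)) 0 1 β ∂nu k ≤ tl := by
      rw [htl, hH]
      exact trunc_le h H hA hB z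
    have m1 : mass (kp D (gk q q0)) ≤ ENNReal.ofReal 1 := by
      rw [ENNReal.ofReal_one]
      exact mass_gk_le h H.hq0 H.hq D
    have m2 := mass_gk_ge h H.hq0 H.hq hD
    have het := exp_tail hD
    have hs : 2 * (q0 : ℝ) / q ≤ 1 / 2 := by
      rw [div_le_iff₀ hq1]
      linarith
    have m3 : (2 / 5 : ℝ) ≤ 1 - 2 * q0 / q - 4 * Real.exp (-(D ^ 2 / 4)) := by linarith
    have m4 := (ENNReal.ofReal_le_ofReal m3).trans m2
    have s1 := int_tr h (measurable_S0 h q q0 p k D (M • (A - z)) (M • (B - z)) hg) (S0_nonneg hg0)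
      (S0_le H hc hg1)
      (by positivity) ht
    have s2 := int_tr h (measurable_S0 h q q0 p k D (M • (A - z)) (M • (B - z)) measurable_one')
      (S0_nonneg fun _ _ => zero_le_one) (S0_le H zero_le_one fun _ _ => le_rfl) (by positivity) ht
    have s3 := int_tr h ((measurable_S0 h q q0 p k D (M • (A - z)) (M • (B - z)) hg).pow_const 2)
      (fun β => sq_nonneg _)
      (fun β => pow_le_pow_left₀ (S0_nonneg hg0 β) (S0_le H hc hg1 β) 2) (by positivity) ht
    rw [Sv_eq, Cv_eq]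
    simp only [tr_sq]
    refine ⟨le_trans ?_ s1.1, s1.2.trans ?_, s2.2.trans ?_, s3.2.trans ?_, fun hp => le_trans ?_ s3.1⟩
    · have e1 := int_S0_ge h H hA hB hz hg hc hg0 hg1 (by linarith) m2
      have e2 : 1 - 2 * ζ ≤ 1 - 2 * ww q q0 D η := by
        have := ww_eq H
        have := (ww_bd H).1
        linarith
      have e3 := mul_le_mul_of_nonneg_right e2 (mul_nonneg (by linarith :
        (0 : ℝ) ≤ 1 - 2 * q0 / q - 4 * Real.exp (-(D ^ 2 / 4))) hG)
      linarith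
    · have e1 := int_S0_le h H hA hB hz hg hc hg0 hg1 zero_le_one m1
      linarith
    · have e1 := int_S0_le h H hA hB hz measurable_one' zero_le_one (fun _ _ => zero_le_one)
        (fun _ _ => le_rfl) (by positivity) (mass_one_le h (by linarith))
      nlinarith [mul_nonneg (sq_nonneg D) hG]
    · rw [hH]
      exact int_sq_le h H hA hB hz hg hc hg0 hg1 m1
    · have e1 := int_sq_ge h H hA hB hz hg hc hg0 hg1 m4 hp
      linarith

end Pool.Agent.MP_037c5a_pr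

end
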