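import Pool.Agent.Mg.S19113.Gcf95d3

section

open MeasureTheory Finset ProbabilityTheory

namespace Pool.Agent.MP_037c5a_pr

/-- a random countable set of points attached to a unit time segment with displacement `c` -/
structure Model where
  X : Type
  ms : MeasurableSpace X
  μ : @Measure X ms
  prob : @IsProbabilityMeasure X ms μ
  I : Type
  cI : Countable I
  pt : I → E → X → E
  meas : ∀ a, Measurable fun x : E × X => pt a x.1 x.2
  zero : ∃ a, ∀ c ω, pt a c ω = 0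

instance (𝓜 : Model) : MeasurableSpace 𝓜.X := 𝓜.ms
instance (𝓜 : Model) : IsProbabilityMeasure 𝓜.μ := 𝓜.prob
instance (𝓜 : Model) : Countable 𝓜.I := 𝓜.cI

noncomputable def baseModel : Model where
  X := Unit
  ms := inferInstance
  μ := Measure.dirac ()
  prob := inferInstance
  I := Unit
  cI := inferInstance
  pt := fun _ _ _ => 0
  meas := fun _ => measurable_const
  zero := ⟨(), fun _ _ => rfl⟩

theorem bp_zero (k : ℕ) (P Q : E) (β : Fin k → E) : bp k P Q β 0 = P := by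
  simp [bp, pth]

theorem bp_shift (k : ℕ) (P Q : E) (β : Fin k → E) (l : ℕ) :
    bp k P Q β l = P + bp k 0 (Q - P) β l := by
  simp [bp, add_assoc]

noncomputable def refine (hC : StmtChain) (k : ℕ) (M : ℝ) (𝓜 : Model) : Model where
  X := (Fin k → E) × (Fin (k + 1) → 𝓜.X)
  ms := inferInstance
  μ := (nu k).prod (Measure.pi fun _ => 𝓜.μ)
  prob := by have := hC.nu_prob k; infer_instance
  I := Fin (k + 1) × 𝓜.I
  cI := inferInstance
  pt := fun a c x => M⁻¹ • (bp k 0 (M • c) x.1 a.1 +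
    𝓜.pt a.2 (bp k 0 (M • c) x.1 (a.1 + 1) - bp k 0 (M • c) x.1 a.1) (x.2 a.1))
  meas := fun a => by
    have hb : ∀ l, Measurable fun x : E × (Fin k → E) × (Fin (k + 1) → 𝓜.X) =>
        bp k 0 (M • x.1) x.2.1 l := fun l =>
      (hC.meas_bp k l).comp (f := fun x : E × (Fin k → E) × (Fin (k + 1) → 𝓜.X) =>
        ((0 : E), M • x.1, x.2.1)) (by fun_prop)
    refine Measurable.const_smul (Measurable.add (hb _) ?_) M⁻¹
    exact (𝓜.meas a.2).comp (f := fun x : E × (Fin k → E) × (Fin (k + 1) → 𝓜.X) =>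
      (bp k 0 (M • x.1) x.2.1 (a.1 + 1) - bp k 0 (M • x.1) x.2.1 a.1, x.2.2 a.1))
      (Measurable.prodMk ((hb _).sub (hb _)) (by fun_prop))
  zero := by
    obtain ⟨a, ha⟩ := 𝓜.zero
    exact ⟨(0, a), fun c x => by simp [ha, bp_zero]⟩

/-- the set of all points of a family of segments -/
def famT (𝓜 : Model) {ι : Type} (s : Finset ι) (A B : ι → E) (ω : ι → 𝓜.X) : Set E :=
  {p | ∃ i ∈ s, ∃ a, p = A i + 𝓜.pt a (B i - A i) (ω i)}

theorem famT_mono (𝓜 : Model) {ι : Type} {s s' : Finset ι} (h : s ⊆ s') (A B : ι → E)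
    (ω : ι → 𝓜.X) : famT 𝓜 s A B ω ⊆ famT 𝓜 s' A B ω :=
  fun _ ⟨i, hi, a, ha⟩ => ⟨i, h hi, a, ha⟩

theorem mem_famT (𝓜 : Model) {ι : Type} {s : Finset ι} (A B : ι → E)
    (ω : ι → 𝓜.X) {i : ι} (hi : i ∈ s) : A i ∈ famT 𝓜 s A B ω := by
  obtain ⟨a, ha⟩ := 𝓜.zero
  exact ⟨i, hi, a, by simp [ha]⟩

def Hit (T : Set E) (x : E) (ρ : ℝ) : Prop := ∃ p ∈ T, dist p x ≤ ρ

def MeasPred (Φ : Set E → Prop) : Prop :=
  ∀ (Ω : Type) (_ : MeasurableSpace Ω) (T : Ω → Set E),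
    (∀ x ρ, MeasurableSet {ω | Hit (T ω) x ρ}) → MeasurableSet {ω | Φ (T ω)}

def MonoPred (Φ : Set E → Prop) : Prop := ∀ T T', T ⊆ T' → Φ T → Φ T'

theorem hit_zoom (T : Set E) (z : E) {r : ℝ} (hr : 0 < r) (x : E) (ρ : ℝ) :
    Hit (zoom T z r) x ρ ↔ Hit T (z + r • x) (r * ρ) := by
  constructor
  · rintro ⟨p, hp, hd⟩
    refine ⟨z + r • p, hp, ?_⟩
    rw [dist_add_left, dist_smul₀, Real.norm_of_nonneg hr.le]
    exact mul_le_mul_of_nonneg_left hd hr.le
  · rintro ⟨p, hp, hd⟩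
    refine ⟨r⁻¹ • (p - z), ?_, ?_⟩
    · show z + r • r⁻¹ • (p - z) ∈ T
      rw [smul_smul, mul_inv_cancel₀ hr.ne', one_smul]; simpa using hp
    · have : p = z + r • (r⁻¹ • (p - z)) := by
        rw [smul_smul, mul_inv_cancel₀ hr.ne', one_smul]; simp
      rw [this, dist_add_left, dist_smul₀, Real.norm_of_nonneg hr.le] at hd
      exact le_of_mul_le_mul_left hd hr

theorem MeasPred.zoom {Φ : Set E → Prop} (h : MeasPred Φ) (z : E) {r : ℝ} (hr : 0 < r) :
    MeasPred fun T => Φ (zoom T z r) := by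
  intro Ω m T hT
  refine h Ω m (fun ω => MP_037c5a_pr.zoom (T ω) z r) fun x ρ => ?_
  simp only [hit_zoom _ _ hr]
  exact hT _ _

theorem MonoPred.zoom {Φ : Set E → Prop} (h : MonoPred Φ) (z : E) (r : ℝ) :
    MonoPred fun T => Φ (zoom T z r) :=
  fun _ _ hT hΦ => h _ _ (zoom_mono hT z r) hΦ

theorem MeasPred.ex {α : Type} [Countable α] {Φ : α → Set E → Prop} (h : ∀ a, MeasPred (Φ a)) :
    MeasPred fun T => ∃ a, Φ a T := by
  intro Ω m T hT
  rw [Set.ofPred_exists]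
  exact MeasurableSet.iUnion fun a => h a Ω m T hT

theorem MeasPred.all {α : Type} [Countable α] {Φ : α → Set E → Prop} (h : ∀ a, MeasPred (Φ a)) :
    MeasPred fun T => ∀ a, Φ a T := by
  intro Ω m T hT
  rw [Set.ofPred_forall]
  exact MeasurableSet.iInter fun a => h a Ω m T hT

theorem MeasPred.const (p : Prop) : MeasPred fun _ => p := by
  intro Ω m T _
  exact MeasurableSet.const p

theorem MeasPred.and {Φ Ψ : Set E → Prop} (h : MeasPred Φ) (h' : MeasPred Ψ) :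
    MeasPred fun T => Φ T ∧ Ψ T :=
  fun Ω m T hT => (h Ω m T hT).inter (h' Ω m T hT)

theorem MeasPred.or {Φ Ψ : Set E → Prop} (h : MeasPred Φ) (h' : MeasPred Ψ) :
    MeasPred fun T => Φ T ∨ Ψ T :=
  fun Ω m T hT => (h Ω m T hT).union (h' Ω m T hT)

theorem MeasPred.imp {Ψ : Set E → Prop} (p : Prop) (h' : MeasPred Ψ) :
    MeasPred fun T => p → Ψ T := by
  by_cases hp : p
  · simpa [hp] using h'
  · simpa [hp] using MeasPred.const True

theorem measPred_ball (D : ℝ) : MeasPred fun T => ∃ p ∈ T, ‖p‖ ≤ D := by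
  intro Ω m T hT
  simpa [Hit] using hT 0 D

theorem En_congr {K : ℕ} {c c' : ℕ → ℕ → ℝ} (h : ∀ i < K, ∀ j < K, c i j = c' i j)
    (u : ℕ → ℕ → ℝ) : En K c u = En K c' u := by
  unfold En
  exact sum_congr rfl fun i hi => sum_congr rfl fun j hj => by
    rw [h i (mem_range.1 hi) j (mem_range.1 hj)]

theorem EnGe_congr {K : ℕ} {c c' : ℕ → ℕ → ℝ} (h : ∀ i < K, ∀ j < K, c i j = c' i j) {τ : ℝ}
    (hc : EnGe K c τ) : EnGe K c' τ :=
  fun u hu => En_congr h u ▸ hc u hu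

theorem EnGe_scale {K : ℕ} {c c' : ℕ → ℕ → ℝ} {τ lam : ℝ} (hl : 0 ≤ lam)
    (h : ∀ i < K, ∀ j < K, lam * c i j ≤ c' i j) (hc : EnGe K c τ) : EnGe K c' (lam * τ) := by
  intro u hu
  refine (mul_le_mul_of_nonneg_left (hc u hu) hl).trans ?_
  unfold En
  rw [mul_sum]
  refine sum_le_sum fun i hi => ?_
  rw [mul_sum]
  refine sum_le_sum fun j hj => ?_
  rw [← mul_assoc]
  exact mul_le_mul_of_nonneg_right (h i (mem_range.1 hi) j (mem_range.1 hj)) (by positivity)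

/-- grid alternative for a family of predicates -/
def GridP (K : ℕ) (Φ : ℕ → Set E → Prop) (pot : ℕ → ℝ) (τ : ℝ) (o : E) (d r : ℝ) (T : Set E) :
    Prop :=
  ∃ n : ℕ → ℕ → ℕ, (∀ i ≤ K, ∀ j ≤ K, Φ (n i j) (zoom T (o + d • gridPt i j) r)) ∧
    (EnGe K (fun i j => pot (n i j)) τ ∨ EnGe K (fun i j => pot (n j i)) τ)

theorem measPred_grid (K : ℕ) {Φ : ℕ → Set E → Prop} (h : ∀ n, MeasPred (Φ n)) (pot : ℕ → ℝ)
    (τ : ℝ) (o : E) (d : ℝ) {r : ℝ} (hr : 0 < r) : MeasPred (GridP K Φ pot τ o d r) := by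
  let ext : (Fin (K + 1) → Fin (K + 1) → ℕ) → ℕ → ℕ → ℕ := fun n i j =>
    if h : i < K + 1 ∧ j < K + 1 then n ⟨i, h.1⟩ ⟨j, h.2⟩ else 0
  have : GridP K Φ pot τ o d r = fun T => ∃ n : Fin (K + 1) → Fin (K + 1) → ℕ,
      (∀ i, i ≤ K → ∀ j, j ≤ K → Φ (ext n i j) (zoom T (o + d • gridPt i j) r)) ∧
      (EnGe K (fun i j => pot (ext n i j)) τ ∨ EnGe K (fun i j => pot (ext n j i)) τ) := by
    funext T
    apply propext
    constructor
    · rintro ⟨n, h1, h2⟩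
      have he : ∀ i ≤ K, ∀ j ≤ K, ext (fun a b => n a b) i j = n i j := fun i hi j hj => by
        simp only [ext]
        rw [dif_pos ⟨by omega, by omega⟩]
      refine ⟨fun a b => n a b, fun i hi j hj => ?_, ?_⟩
      · rw [he i hi j hj]; exact h1 i hi j hj
      · rcases h2 with h2 | h2
        · exact Or.inl (EnGe_congr (fun i hi j hj => by rw [he i hi.le j hj.le]) h2)
        · exact Or.inr (EnGe_congr (fun i hi j hj => by rw [he j hj.le i hi.le]) h2)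
    · rintro ⟨n, h1, h2⟩
      exact ⟨ext n, h1, h2⟩
  rw [this]
  exact MeasPred.ex fun n => MeasPred.and (MeasPred.all fun i => MeasPred.imp _
    (MeasPred.all fun j => MeasPred.imp _ ((h _).zoom _ hr))) (MeasPred.const _)

theorem monoPred_grid (K : ℕ) {Φ : ℕ → Set E → Prop} (h : ∀ n, MonoPred (Φ n)) (pot : ℕ → ℝ)
    (τ : ℝ) (o : E) (d r : ℝ) : MonoPred (GridP K Φ pot τ o d r) :=
  fun _ _ hT ⟨n, h1, h2⟩ => ⟨n, fun i hi j hj => h _ _ _ (zoom_mono hT _ _) (h1 i hi j hj), h2⟩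

theorem measPred_GT (P : Par) (hR : 0 < P.R) : ∀ L N, MeasPred fun T => GT P L T N
  | 0, _ => measPred_ball P.D
  | L + 1, N => by
    have : (fun T => GT P (L + 1) T N) = fun T => (∃ p ∈ T, ‖p‖ ≤ P.D) ∧ ∃ o : P.O,
        (GridP P.K (fun n T => GT P L T n) P.pot (P.tau * P.pot N) o (8 * P.D / P.R) P.R⁻¹ T ∨
          ∃ N' : ℕ, GT P L (zoom T o P.R⁻¹) N' ∧ P.G * P.pot N ≤ P.pot N') := by
      funext T
      simp only [GT, GridP, Subtype.exists, exists_prop]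
    rw [this]
    exact (measPred_ball _).and (MeasPred.ex fun o => MeasPred.or
      (measPred_grid _ (fun n => measPred_GT P hR L n) _ _ _ _ (inv_pos.2 hR))
      (MeasPred.ex fun N' => ((measPred_GT P hR L N').zoom _ (inv_pos.2 hR)).and
        (MeasPred.const _)))

theorem monoPred_GT (P : Par) (L N : ℕ) : MonoPred fun T => GT P L T N :=
  fun _ _ h => GT_mono P L N h

/-- hit events of a family with measurable data -/
theorem meas_hit_famT (𝓜 : Model) {ι Ω : Type} [MeasurableSpace Ω] (s : Finset ι)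
    (A B : Ω → ι → E) (w : Ω → ι → 𝓜.X) (hA : ∀ i ∈ s, Measurable fun ω => A ω i)
    (hB : ∀ i ∈ s, Measurable fun ω => B ω i) (hw : ∀ i ∈ s, Measurable fun ω => w ω i)
    (x : E) (ρ : ℝ) : MeasurableSet {ω | Hit (famT 𝓜 s (A ω) (B ω) (w ω)) x ρ} := by
  have : {ω | Hit (famT 𝓜 s (A ω) (B ω) (w ω)) x ρ} =
      ⋃ i ∈ s, ⋃ a : 𝓜.I, {ω | dist (A ω i + 𝓜.pt a (B ω i - A ω i) (w ω i)) x ≤ ρ} := by
    ext ω
    simp only [Hit, famT, Set.mem_ofPred_eq, Set.mem_iUnion, exists_prop]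
    constructor
    · rintro ⟨p, ⟨i, hi, a, rfl⟩, hd⟩
      exact ⟨i, hi, a, hd⟩
    · rintro ⟨i, hi, a, hd⟩
      exact ⟨_, ⟨i, hi, a, rfl⟩, hd⟩
  rw [this]
  refine Finset.measurableSet_biUnion _ fun i hi => MeasurableSet.iUnion fun a => ?_
  refine measurableSet_le (Measurable.dist ((hA i hi).add ?_) measurable_const) measurable_const
  exact (𝓜.meas a).comp (f := fun ω => (B ω i - A ω i, w ω i))
    (((hB i hi).sub (hA i hi)).prodMk (hw i hi))

theorem MeasPred.fam {Φ : Set E → Prop} (h : MeasPred Φ) (𝓜 : Model) {ι : Type} (s : Finset ι)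
    (A B : ι → E) : MeasurableSet {ω : ι → 𝓜.X | ¬ Φ (famT 𝓜 s A B ω)} :=
  (h _ _ _ (meas_hit_famT 𝓜 s (fun _ => A) (fun _ => B) id (fun _ _ => measurable_const)
    (fun _ _ => measurable_const) (fun i _ => measurable_pi_apply i))).compl

end Pool.Agent.MP_037c5a_pr

end

section

open MeasureTheory Finset ProbabilityTheory

namespace Pool.Agent.MP_037c5a_pr

theorem mp_curry (ι κ X : Type) [Fintype ι] [Fintype κ] [MeasurableSpace X] (μ : Measure X)
    [IsProbabilityMeasure μ] :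
    MeasurePreserving (MeasurableEquiv.curry ι κ X) (Measure.pi fun _ : ι × κ => μ)
      (Measure.pi fun _ : ι => Measure.pi fun _ : κ => μ) := by
  refine ⟨(MeasurableEquiv.curry ι κ X).measurable, ?_⟩
  have := Measure.infinitePi_map_curry (ι := ι) (κ := κ) (X := X) (fun _ _ => μ)
  simpa only [Measure.infinitePi_eq_pi] using this

theorem mp_refine (ι κ Y X : Type) [Fintype ι] [Fintype κ] [MeasurableSpace X] [MeasurableSpace Y]
    (ν : Measure Y) (μ : Measure X) [IsProbabilityMeasure μ] [IsProbabilityMeasure ν] :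
    MeasurePreserving
      (fun x : (ι → Y) × (ι × κ → X) => fun i => (x.1 i, fun l => x.2 (i, l)))
      ((Measure.pi fun _ : ι => ν).prod (Measure.pi fun _ : ι × κ => μ))
      (Measure.pi fun _ : ι => ν.prod (Measure.pi fun _ : κ => μ)) := by
  have h1 := (measurePreserving_arrowProdEquivProdArrow Y (κ → X) ι (fun _ => ν)
    (fun _ => Measure.pi fun _ : κ => μ)).symm
  have h2 := (MeasurePreserving.id (Measure.pi fun _ : ι => ν)).prod (mp_curry ι κ X μ)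
  exact h1.comp h2

theorem pi_refine_eq {ι κ Y X : Type} [Fintype ι] [Fintype κ] [MeasurableSpace X]
    [MeasurableSpace Y] (ν : Measure Y) (μ : Measure X) [IsProbabilityMeasure μ]
    [IsProbabilityMeasure ν] {S : Set (ι → Y × (κ → X))} (hS : MeasurableSet S) :
    (Measure.pi fun _ : ι => ν.prod (Measure.pi fun _ : κ => μ)) S =
      ∫⁻ β, (Measure.pi fun _ : ι × κ => μ) {ω | (fun i => (β i, fun l => ω (i, l))) ∈ S}
        ∂(Measure.pi fun _ : ι => ν) := by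
  have h := mp_refine ι κ Y X ν μ
  rw [← h.measure_preimage hS.nullMeasurableSet, Measure.prod_apply (h.measurable hS)]
  rfl

theorem pi_inter_le (𝓜 : Model) {ι J : Type} [Fintype ι] (s : J → Finset ι) (A B : J → ι → E)
    {Φ : Set E → Prop} (hΦ : MeasPred Φ) (f : ENNReal) (G : Finset J)
    (hd : ∀ j ∈ G, ∀ j' ∈ G, j ≠ j' → Disjoint (s j) (s j'))
    (hf : ∀ j ∈ G, (Measure.pi fun _ : ι => 𝓜.μ) {ω | ¬ Φ (famT 𝓜 (s j) (A j) (B j) ω)} ≤ f) :
    (Measure.pi fun _ : ι => 𝓜.μ) (⋂ j ∈ G, {ω | ¬ Φ (famT 𝓜 (s j) (A j) (B j) ω)}) ≤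
      f ^ G.card := by
  classical
  let m : ι → MeasurableSpace (ι → 𝓜.X) := fun i =>
    MeasurableSpace.comap (fun ω => ω i) inferInstance
  have hle : ∀ i, m i ≤ MeasurableSpace.pi := fun i => (measurable_pi_apply i).comap_le
  have hind : iIndep m (Measure.pi fun _ : ι => 𝓜.μ) :=
    (iIndepFun_iff_iIndep _ _ _).1
      (iIndepFun_pi (μ := fun _ : ι => 𝓜.μ) (X := fun _ => id) fun _ => aemeasurable_id)
  have hm : ∀ (S : Set ι) (j : J), (∀ i ∈ s j, i ∈ S) →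
      MeasurableSet[⨆ i ∈ S, m i] {ω | ¬ Φ (famT 𝓜 (s j) (A j) (B j) ω)} := by
    intro S j hj
    refine (hΦ _ (⨆ i ∈ S, m i) _ (@meas_hit_famT 𝓜 ι _ (⨆ i ∈ S, m i) (s j) (fun _ => A j)
      (fun _ => B j) id (fun _ _ => measurable_const) (fun _ _ => measurable_const)
      (fun i hi => ?_))).compl
    refine Measurable.of_comap_le ?_
    exact le_iSup₂_of_le (f := fun i (_ : i ∈ S) => m i) i (hj i hi) le_rfl
  induction G using Finset.induction_on with
  | empty => simp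
  | insert j G hj ih =>
    rw [Finset.set_biInter_insert, card_insert_of_notMem hj, pow_succ']
    have hdis : Disjoint (s j : Set ι) (⋃ j' ∈ G, (s j' : Set ι)) := by
      rw [Set.disjoint_iUnion₂_right]
      intro j' hj'
      exact Finset.disjoint_coe.2 (hd j (mem_insert_self _ _) j' (mem_insert_of_mem hj')
        (fun h => hj (h ▸ hj')))
    have hI := indep_iSup_of_disjoint hle hind hdis
    rw [(Indep_iff _ _ _).1 hI _ _ (hm _ j fun i hi => hi)
      (@Finset.measurableSet_biInter _ _ (⨆ i ∈ (⋃ j' ∈ G, (s j' : Set ι)), m i) _ _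
        fun j' hj' => hm _ j' fun i hi => Set.mem_biUnion hj' hi)]
    exact mul_le_mul' (hf j (mem_insert_self _ _))
      (ih (fun a ha b hb => hd a (mem_insert_of_mem ha) b (mem_insert_of_mem hb))
        fun a ha => hf a (mem_insert_of_mem ha))

structure Glob where
  q : ℕ
  q0 : ℕ
  bb : ℕ
  D : ℝ
  η : ℝ
  W : ℝ

structure OK (g : Glob) {ι : Type} (s : Finset ι) (A B : ι → E) (h : ℝ) : Prop where
  cut : ∀ i ∈ s, ‖A i‖ ≤ g.D ∧ ‖B i‖ ≤ g.D
  card : (s.card : ℝ) ≤ g.W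
  ht : h ≤ ∑ i ∈ s, gk g.q g.q0 (A i) (B i)

/-- every admissible family of height `h` has the property `Φ` up to probability `δ` -/
def Win (g : Glob) (𝓜 : Model) (Φ : Set E → Prop) (h : ℝ) (δ : ENNReal) : Prop :=
  ∀ (ι : Type) [Fintype ι] (s : Finset ι) (A B : ι → E), OK g s A B h →
    (Measure.pi fun _ : ι => 𝓜.μ) {ω | ¬ Φ (famT 𝓜 s A B ω)} ≤ δ

theorem exists_thin {ι : Type} (s : Finset ι) (f : ι → ℝ) (h b : ℝ) (h0 : 0 ≤ h) (hb : 0 ≤ b)
    (hf : ∀ i ∈ s, f i ≤ b) (hs : h ≤ ∑ i ∈ s, f i) :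
    ∃ t ⊆ s, h ≤ ∑ i ∈ t, f i ∧ ∑ i ∈ t, f i ≤ h + b := by
  classical
  induction s using Finset.induction_on with
  | empty => exact ⟨∅, le_rfl, hs, by simp; linarith⟩
  | insert a s ha ih =>
    by_cases hh : h ≤ ∑ i ∈ s, f i
    · obtain ⟨t, ht, h1⟩ := ih (fun i hi => hf i (mem_insert_of_mem hi)) hh
      exact ⟨t, ht.trans (subset_insert _ _), h1⟩
    · refine ⟨insert a s, le_rfl, hs, ?_⟩
      rw [sum_insert ha]
      have := hf a (mem_insert_self _ _)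
      linarith

theorem win_of_thin (hM : StmtMom) {g : Glob} (hq0 : 1 ≤ g.q0) {𝓜 : Model} {Φ : Set E → Prop}
    (hΦ : MonoPred Φ) {h : ℝ} (h0 : 0 ≤ h) {δ : ENNReal}
    (H : ∀ (ι : Type) [Fintype ι] (s : Finset ι) (A B : ι → E), OK g s A B h →
      ∑ i ∈ s, gk g.q g.q0 (A i) (B i) ≤ h + (1 + Real.log g.q) →
      (Measure.pi fun _ : ι => 𝓜.μ) {ω | ¬ Φ (famT 𝓜 s A B ω)} ≤ δ) : Win g 𝓜 Φ h δ := by
  intro ι _ s A B hok
  obtain ⟨t, hts, h1, h2⟩ := exists_thin s (fun i => gk g.q g.q0 (A i) (B i)) h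
    (1 + Real.log g.q) h0 (by have := Real.log_natCast_nonneg g.q; linarith)
    (fun i _ => (hM.gk_bd _ _ _ _ hq0).2) hok.ht
  have hc : (t.card : ℝ) ≤ s.card := by exact_mod_cast card_le_card hts
  refine le_trans (measure_mono ?_)
    (H ι t A B ⟨fun i hi => hok.cut i (hts hi), hc.trans hok.card, h1⟩ h2)
  exact fun ω hω hω' => hω (hΦ _ _ (famT_mono _ hts _ _ _) hω')

theorem Win.mono {g : Glob} {𝓜 : Model} {Φ Φ' : Set E → Prop} {h : ℝ} {δ δ' : ENNReal}
    (H : Win g 𝓜 Φ h δ) (hΦ : ∀ T, Φ T → Φ' T) (hδ : δ ≤ δ') : Win g 𝓜 Φ' h δ' :=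
  fun ι _ s A B hok => le_trans (measure_mono fun _ hω hω' => hω (hΦ _ hω'))
    ((H ι s A B hok).trans hδ)

theorem OK.mono {g : Glob} {ι : Type} {s : Finset ι} {A B : ι → E} {h h' : ℝ}
    (H : OK g s A B h) (hh : h' ≤ h) : OK g s A B h' :=
  ⟨H.cut, H.card, hh.trans H.ht⟩

theorem Win.ball {g : Glob} {𝓜 : Model} {Φ : Set E → Prop} {h : ℝ} {δ : ENNReal}
    (H : Win g 𝓜 Φ h δ) (h0 : 0 < h) :
    Win g 𝓜 (fun T => (∃ p ∈ T, ‖p‖ ≤ g.D) ∧ Φ T) h δ := by
  intro ι _ s A B hok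
  refine le_trans (measure_mono fun ω hω hω' => hω ⟨?_, hω'⟩) (H ι s A B hok)
  obtain ⟨i, hi⟩ : s.Nonempty := by
    rw [nonempty_iff_ne_empty]
    rintro rfl
    have := hok.ht
    simp at this
    linarith
  exact ⟨A i, mem_famT _ _ _ _ hi, (hok.cut i hi).1⟩

section child

variable (g : Glob) (p k : ℕ) (M : ℝ) {ι : Type} (s : Finset ι) (A B : ι → E) (z : E)

open Classical in
noncomputable def chS (β : ι → Fin k → E) : Finset (ι × Fin (k + 1)) :=
  (s ×ˢ univ).filter fun x =>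
    x.2.val ∈ keep g.q g.q0 p k g.bb g.D (M • (A x.1 - z)) (M • (B x.1 - z)) (β x.1)

noncomputable def chA (β : ι → Fin k → E) (x : ι × Fin (k + 1)) : E :=
  bp k (M • (A x.1 - z)) (M • (B x.1 - z)) (β x.1) x.2

noncomputable def chB (β : ι → Fin k → E) (x : ι × Fin (k + 1)) : E :=
  bp k (M • (A x.1 - z)) (M • (B x.1 - z)) (β x.1) (x.2 + 1)

noncomputable def Si (i : ι) (β : Fin k → E) : ℝ :=
  Sv g.q g.q0 p k g.bb g.D (M • (A i - z)) (M • (B i - z)) β

noncomputable def Ci (i : ι) (β : Fin k → E) : ℝ :=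
  Cv g.q g.q0 p k g.bb g.D (M • (A i - z)) (M • (B i - z)) β

noncomputable def Sz (β : ι → Fin k → E) : ℝ := ∑ i ∈ s, Si g p k M A B z i (β i)

noncomputable def Cz (β : ι → Fin k → E) : ℝ := ∑ i ∈ s, Ci g p k M A B z i (β i)

noncomputable def mz : ℝ := ∑ i ∈ s, ∫ β, Si g p k M A B z i β ∂nu k

end child

theorem keep_subset (q q0 p k bb : ℕ) (D : ℝ) (P Q : E) (β : Fin k → E) :
    keep q q0 p k bb D P Q β ⊆ cutSet q q0 p k D P Q β := by
  unfold keep
  split_ifs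
  · exact le_rfl
  · exact empty_subset _

theorem keep_card (q q0 p k bb : ℕ) (D : ℝ) (P Q : E) (β : Fin k → E) :
    (keep q q0 p k bb D P Q β).card ≤ bb := by
  unfold keep
  split_ifs with h
  · exact h
  · simp

theorem mem_keep {q q0 p k bb : ℕ} {D : ℝ} {P Q : E} {β : Fin k → E} {l : ℕ}
    (hk : k + 1 = q * p) (hl : l ∈ keep q q0 p k bb D P Q β) :
    l < k + 1 ∧ ‖bp k P Q β l‖ ≤ D ∧ ‖bp k P Q β (l + 1)‖ ≤ D := by
  have := keep_subset _ _ _ _ _ _ _ _ _ hl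
  simp only [cutSet, mem_filter, mem_Ico] at this
  refine ⟨lt_of_lt_of_le this.1.2 ?_, this.2⟩
  rw [hk]
  exact Nat.mul_le_mul_right _ (Nat.sub_le _ _)

theorem sum_chS (g : Glob) {p k : ℕ} (hk : k + 1 = g.q * p) (M : ℝ) {ι : Type} (s : Finset ι)
    (A B : ι → E) (z : E) (β : ι → Fin k → E) (F : ι → ℕ → ℝ) :
    ∑ x ∈ chS g p k M s A B z β, F x.1 x.2 =
      ∑ i ∈ s, ∑ l ∈ keep g.q g.q0 p k g.bb g.D (M • (A i - z)) (M • (B i - z)) (β i), F i l := by
  classical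
  unfold chS
  rw [sum_filter, sum_product]
  refine sum_congr rfl fun i _ => ?_
  rw [Fin.sum_univ_eq_sum_range (fun l => if l ∈ keep g.q g.q0 p k g.bb g.D (M • (A i - z))
    (M • (B i - z)) (β i) then F i l else 0) (k + 1), ← sum_filter]
  refine sum_congr ?_ fun _ _ => rfl
  ext l
  simp only [mem_filter, mem_range, and_iff_right_iff_imp]
  exact fun hl => (mem_keep hk hl).1

theorem ok_child (g : Glob) {p k : ℕ} (hk : k + 1 = g.q * p) (M : ℝ) {ι : Type} (s : Finset ι)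
    (A B : ι → E) (z : E) (β : ι → Fin k → E) {h : ℝ} (hS : h ≤ Sz g p k M s A B z β)
    (hC : Cz g p k M s A B z β ≤ g.W) :
    OK g (chS g p k M s A B z β) (chA k M A B z β) (chB k M A B z β) h := by
  classical
  refine ⟨fun x hx => ?_, ?_, ?_⟩
  · simp only [chS, mem_filter] at hx
    exact (mem_keep hk hx.2).2
  · have := sum_chS g hk M s A B z β fun _ _ => 1
    simp only [sum_const, nsmul_eq_mul, mul_one] at this
    rw [this]
    exact hC
  · have := sum_chS g hk M s A B z β fun i l =>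
      gk g.q g.q0 (bp k (M • (A i - z)) (M • (B i - z)) (β i) l)
        (bp k (M • (A i - z)) (M • (B i - z)) (β i) (l + 1))
    exact hS.trans (le_of_eq this.symm)

theorem child_subset (hC : StmtChain) (g : Glob) (p k : ℕ) {M : ℝ} (hM : 0 < M) (𝓜 : Model)
    {ι : Type} (s : Finset ι) (A B : ι → E) (z : E) (β : ι → Fin k → E)
    (ω : ι × Fin (k + 1) → 𝓜.X) :
    famT 𝓜 (chS g p k M s A B z β) (chA k M A B z β) (chB k M A B z β) ω ⊆
      zoom (famT (refine hC k M 𝓜) s A B fun i => (β i, fun l => ω (i, l))) z M⁻¹ := by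
  classical
  rintro _ ⟨x, hx, a, rfl⟩
  simp only [chS, mem_filter, mem_product] at hx
  refine ⟨x.1, hx.1.1, (x.2, a), ?_⟩
  have e1 : M • (B x.1 - z) - M • (A x.1 - z) = M • (B x.1 - A x.1) := by
    rw [← smul_sub]; congr 1; abel
  simp only [refine, chA, chB]
  rw [bp_shift k (M • (A x.1 - z)) _ _ x.2, bp_shift k (M • (A x.1 - z)) _ _ (x.2 + 1), e1,
    add_sub_add_left_eq_sub, add_assoc, smul_add, smul_smul, inv_mul_cancel₀ hM.ne', one_smul]
  abel

theorem chS_disjoint (g : Glob) {p k : ℕ} (hk : k + 1 = g.q * p) {M : ℝ} (hM : 0 < M) {ι : Type}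
    (s : Finset ι) (A B : ι → E) {z z' : E} (hz : 2 * g.D < M * ‖z - z'‖) (β : ι → Fin k → E) :
    Disjoint (chS g p k M s A B z β) (chS g p k M s A B z' β) := by
  classical
  rw [Finset.disjoint_left]
  intro x hx hx'
  simp only [chS, mem_filter] at hx hx'
  have h1 := (mem_keep hk hx.2).2.1
  have h2 := (mem_keep hk hx'.2).2.1
  have e1 : ∀ z : E, M • (B x.1 - z) - M • (A x.1 - z) = M • (B x.1 - A x.1) := fun z => by
    rw [← smul_sub]; congr 1; abel
  rw [bp_shift, e1] at h1 h2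
  have h3 := norm_sub_le (M • (A x.1 - z') + bp k 0 (M • (B x.1 - A x.1)) (β x.1) x.2)
    (M • (A x.1 - z) + bp k 0 (M • (B x.1 - A x.1)) (β x.1) x.2)
  rw [add_sub_add_right_eq_sub, ← smul_sub, norm_smul, Real.norm_of_nonneg hM.le,
    sub_sub_sub_cancel_left] at h3
  linarith

/-- section-wise bound for the refined model -/
theorem refine_le (hC : StmtChain) (k : ℕ) (M : ℝ) (𝓜 : Model) {Φ : Set E → Prop}
    (hΦ : MeasPred Φ) {ι : Type} [Fintype ι] (s : Finset ι) (A B : ι → E)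
    (Bad : Set (ι → Fin k → E)) (f : ENNReal)
    (h : ∀ β, β ∉ Bad → (Measure.pi fun _ : ι × Fin (k + 1) => 𝓜.μ)
      {ω | ¬ Φ (famT (refine hC k M 𝓜) s A B fun i => (β i, fun l => ω (i, l)))} ≤ f) :
    (Measure.pi fun _ : ι => (refine hC k M 𝓜).μ) {ω | ¬ Φ (famT (refine hC k M 𝓜) s A B ω)} ≤
      (Measure.pi fun _ : ι => nu k) Bad + f := by
  have := hC.nu_prob k
  have h1 := pi_refine_eq (ι := ι) (κ := Fin (k + 1)) (nu k) 𝓜.μ
    (hΦ.fam (refine hC k M 𝓜) s A B)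
  refine (le_of_eq h1).trans ?_
  calc _ ≤ ∫⁻ β, (Bad.indicator 1 β + f) ∂(Measure.pi fun _ : ι => nu k) := by
        refine lintegral_mono fun β => ?_
        by_cases hβ : β ∈ Bad
        · simp only [Set.indicator_of_mem hβ, Pi.one_apply]
          exact le_add_right prob_le_one
        · simp only [Set.indicator_of_notMem hβ, zero_add]
          exact h β hβ
    _ ≤ _ := by
        rw [lintegral_add_right _ measurable_const, lintegral_const, measure_univ, mul_one]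
        exact add_le_add_left (lintegral_indicator_one_le _) _

end Pool.Agent.MP_037c5a_pr

end

section

open MeasureTheory Finset ProbabilityTheory

namespace Pool.Agent.MP_037c5a_pr

theorem conc_finset (hc : StmtConc) {ι : Type} [Fintype ι] {Ω : Type} [MeasurableSpace Ω]
    (μ : Measure Ω) [IsProbabilityMeasure μ] (s : Finset ι) (S : ι → Ω → ℝ) (b : ℝ) (hb : 0 < b)
    (hm : ∀ i, Measurable (S i)) (hS : ∀ i ω, 0 ≤ S i ω ∧ S i ω ≤ b) :
    (∀ V y : ℝ, 0 < V → 0 ≤ y → ∑ i ∈ s, ∫ ω, S i ω ^ 2 ∂μ ≤ V →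
      (Measure.pi fun _ : ι => μ) {ω | ∑ i ∈ s, S i (ω i) ≤ ∑ i ∈ s, ∫ x, S i x ∂μ - y} ≤
        ENNReal.ofReal (Real.exp (-(y ^ 2 / (2 * V))))) ∧
    (∀ V y : ℝ, 0 < V → 0 ≤ y → y * b ≤ 2 * V → ∑ i ∈ s, ∫ ω, S i ω ^ 2 ∂μ ≤ V →
      (Measure.pi fun _ : ι => μ) {ω | ∑ i ∈ s, ∫ x, S i x ∂μ + y ≤ ∑ i ∈ s, S i (ω i)} ≤
        ENNReal.ofReal (Real.exp (-(y ^ 2 / (4 * V))))) ∧
    (∀ m W : ℝ, ∑ i ∈ s, ∫ ω, S i ω ∂μ ≤ m →
      (Measure.pi fun _ : ι => μ) {ω | W ≤ ∑ i ∈ s, S i (ω i)} ≤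
        ENNReal.ofReal (Real.exp (-((W - 2 * m) / b)))) ∧
    (∀ lam V₁ V₂ : ℝ, 0 < lam → lam * b ≤ 1 / 2 →
      V₁ ≤ ∑ i ∈ s, (∫ ω, S i ω ^ 2 ∂μ - (∫ ω, S i ω ∂μ) ^ 2) → ∑ i ∈ s, ∫ ω, S i ω ^ 2 ∂μ ≤ V₂ →
      (Measure.pi fun _ : ι => μ)
        {ω | ∑ i ∈ s, S i (ω i) < ∑ i ∈ s, ∫ x, S i x ∂μ + (lam * V₁ / 4 - 1 / lam)} ≤
        ENNReal.ofReal (1 - Real.exp (-(4 * lam ^ 2 * V₂)) / 4)) := by
  classical
  have H := hc ι Ω μ (fun i ω => if i ∈ s then S i ω else 0) b hb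
    (fun i => by by_cases h : i ∈ s <;> simp [h, hm i])
    (fun i ω => by by_cases h : i ∈ s <;> simp [h, hS i ω, hb.le])
  have e0 : ∀ F : ι → ℝ, ∑ i, (if i ∈ s then F i else 0) = ∑ i ∈ s, F i := fun F => by simp
  have e1 : ∀ i, ∫ ω, (if i ∈ s then S i ω else 0) ∂μ = if i ∈ s then ∫ ω, S i ω ∂μ else 0 :=
    fun i => by by_cases h : i ∈ s <;> simp [h]
  have e2 : ∀ i, ∫ ω, (if i ∈ s then S i ω else 0) ^ 2 ∂μ =
      if i ∈ s then ∫ ω, S i ω ^ 2 ∂μ else 0 :=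
    fun i => by by_cases h : i ∈ s <;> simp [h]
  have e3 : ∀ i, ((if i ∈ s then ∫ ω, S i ω ^ 2 ∂μ else 0) -
      (if i ∈ s then ∫ ω, S i ω ∂μ else 0) ^ 2) =
      if i ∈ s then (∫ ω, S i ω ^ 2 ∂μ - (∫ ω, S i ω ∂μ) ^ 2) else 0 :=
    fun i => by by_cases h : i ∈ s <;> simp [h]
  simp only [e1, e2, e3, e0] at H
  exact H

theorem energy_finset (he : StmtEnergy) {ι : Type} [Fintype ι] {Ω : Type} [MeasurableSpace Ω]
    (μ : Measure Ω) [IsProbabilityMeasure μ] (s : Finset ι) (K : ℕ) (hK : 1 ≤ K)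
    (ξ : ι → Ω → ℕ → ℕ → ℝ) (δ : ℝ) (hm : ∀ i a b, Measurable fun ω => ξ i ω a b) (h0 : 0 ≤ δ)
    (h1 : δ ≤ 1 / 10) (hb : ∀ i ω a b, |ξ i ω a b| ≤ δ) (hz : ∀ i a b, ∫ ω, ξ i ω a b ∂μ = 0)
    (hc : (s.card : ℝ) * δ ^ 3 ≤ 1 / 100000) :
    (Measure.pi fun _ : ι => μ)
      {ω | ¬ (EnGe K (fun a b => Real.exp (∑ i ∈ s, ξ i (ω i) a b)) (1 / 7) ∨
              EnGe K (fun a b => Real.exp (∑ i ∈ s, ξ i (ω i) b a)) (1 / 7))} ≤
      ENNReal.ofReal (2 / 3) := by
  have H := he s Ω μ K hK (fun i => ξ i) δ (fun i => hm i) h0 h1 (fun i => hb i) (fun i => hz i)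
    (by simpa using hc)
  have hr : MeasurePreserving (s.restrict : (ι → Ω) → (s → Ω)) (Measure.pi fun _ : ι => μ)
      (Measure.pi fun _ : s => μ) := by
    refine ⟨Finset.measurable_restrict s, ?_⟩
    have := Measure.infinitePi_map_restrict (fun _ : ι => μ) (I := s)
    rwa [Measure.infinitePi_eq_pi] at this
  refine le_trans (le_of_eq ?_) ((hr.measure_preimage_le _).trans H)
  congr 1
  ext ω
  simp only [Set.mem_ofPred_eq, Set.mem_preimage, Finset.restrict]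
  have e : ∀ a b, ∑ i : s, ξ i (ω i) a b = ∑ i ∈ s, ξ i (ω i) a b := fun a b =>
    sum_coe_sort s fun i => ξ i (ω i) a b
  simp only [e]

noncomputable def Glob.gm (g : Glob) : ℝ := 1 + Real.log g.q
noncomputable def Glob.zeta (g : Glob) : ℝ := g.η * (3 * (g.D + 1) ^ 2 * ((g.q : ℝ) / g.q0) ^ 2)
noncomputable def Glob.eps (g : Glob) : ℝ := 2 * g.q0 / g.q + 4 * Real.exp (-(g.D ^ 2 / 4))
noncomputable def Glob.tl (g : Glob) (k : ℕ) : ℝ :=
  (1 + Real.exp (2 * g.D ^ 2) * g.q / g.q0) *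
    Real.exp (-(g.bb / (8 * g.D ^ 2 * (1 + Real.log (k + 1)))))

theorem Glob.one_le_gm (g : Glob) : 1 ≤ g.gm := by
  have := Real.log_natCast_nonneg g.q
  unfold Glob.gm
  linarith

theorem Glob.tl_nonneg (g : Glob) (k : ℕ) : 0 ≤ g.tl k := by
  unfold Glob.tl
  positivity

/-- numerical hypotheses of one refinement stage -/
structure StOK (g : Glob) (Hm loss V πc : ℝ) (p k : ℕ) (M : ℝ) : Prop where
  mom : MomHyp g.q g.q0 p k g.bb g.D M g.η
  bb1 : 1 ≤ g.bb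
  hloss : (2 * g.zeta + g.eps) * (Hm + g.gm) + g.W * ((k + 1) * g.gm * g.tl k) ≤ loss
  V0 : 0 < V
  hV : 2 * (3 * g.gm + (1 + Real.log (k + 1))) * (Hm + g.gm) ≤ V
  hπ : Real.exp (-((g.W - 2 * (22 * g.D ^ 2 * (Hm + g.gm))) / g.bb)) ≤ πc

theorem Si_bd (hM : StmtMom) (g : Glob) (hq0 : 1 ≤ g.q0) (p k : ℕ) (M : ℝ) {ι : Type}
    (A B : ι → E) (z : E) (i : ι) (β : Fin k → E) :
    0 ≤ Si g p k M A B z i β ∧ Si g p k M A B z i β ≤ g.bb * g.gm := by
  refine ⟨sum_nonneg fun l _ => (hM.gk_bd _ _ _ _ hq0).1, ?_⟩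
  refine (sum_le_card_nsmul _ _ g.gm fun l _ => (hM.gk_bd _ _ _ _ hq0).2).trans ?_
  rw [nsmul_eq_mul]
  refine mul_le_mul_of_nonneg_right ?_ (by linarith [g.one_le_gm])
  exact_mod_cast keep_card _ _ _ _ _ _ _ _ _

theorem Ci_bd (g : Glob) (p k : ℕ) (M : ℝ) {ι : Type}
    (A B : ι → E) (z : E) (i : ι) (β : Fin k → E) :
    0 ≤ Ci g p k M A B z i β ∧ Ci g p k M A B z i β ≤ g.bb :=
  ⟨Nat.cast_nonneg _, by unfold Ci Cv; exact_mod_cast keep_card _ _ _ _ _ _ _ _ _⟩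

theorem meas_Sz (hM : StmtMom) (g : Glob) (p k : ℕ) (M : ℝ) {ι : Type} (s : Finset ι)
    (A B : ι → E) (z : E) : Measurable (Sz g p k M s A B z) :=
  Finset.measurable_sum _ fun i _ => (hM.meas_S _ _ _ _ _ _ _ _).comp (measurable_pi_apply i)

theorem meas_Cz (hM : StmtMom) (g : Glob) (p k : ℕ) (M : ℝ) {ι : Type} (s : Finset ι)
    (A B : ι → E) (z : E) : Measurable (Cz g p k M s A B z) :=
  Finset.measurable_sum _ fun i _ => (hM.meas_C _ _ _ _ _ _ _ _).comp (measurable_pi_apply i)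

/-- all tail bounds of one stage -/
theorem beta_facts (hC : StmtChain) (hM : StmtMom) (hc : StmtConc) {g : Glob}
    {Hm loss V πc : ℝ} {p k : ℕ} {M : ℝ} (H : StOK g Hm loss V πc p k M) {ι : Type} [Fintype ι]
    {s : Finset ι} {A B : ι → E} {h : ℝ} (hok : OK g s A B h)
    (hup : ∑ i ∈ s, gk g.q g.q0 (A i) (B i) ≤ Hm + g.gm) {z : E} (hz : ‖z‖ + g.D / M ≤ g.η) :
    h - loss ≤ mz g p k M s A B z ∧
    (∀ y : ℝ, 0 ≤ y → (Measure.pi fun _ : ι => nu k)
      {β | Sz g p k M s A B z β ≤ mz g p k M s A B z - y} ≤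
        ENNReal.ofReal (Real.exp (-(y ^ 2 / (2 * V))))) ∧
    (∀ y : ℝ, 0 ≤ y → y * (g.bb * g.gm) ≤ 2 * V → (Measure.pi fun _ : ι => nu k)
      {β | mz g p k M s A B z + y ≤ Sz g p k M s A B z β} ≤
        ENNReal.ofReal (Real.exp (-(y ^ 2 / (4 * V))))) ∧
    ((Measure.pi fun _ : ι => nu k) {β | g.W ≤ Cz g p k M s A B z β} ≤ ENNReal.ofReal πc) ∧
    (∀ lam V₁ hl : ℝ, 0 < lam → lam * (g.bb * g.gm) ≤ 1 / 2 → 2 * g.D ^ 2 + 1 ≤ p → hl ≤ h →
      4 * g.gm ≤ Real.log (p / (2 * g.D ^ 2 + 1)) / 400 →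
      V₁ ≤ (Real.log (p / (2 * g.D ^ 2 + 1)) / 400 - 4 * g.gm) * hl -
        g.W * (((k + 1) * g.gm) ^ 2 * g.tl k) →
      (Measure.pi fun _ : ι => nu k)
        {β | Sz g p k M s A B z β < mz g p k M s A B z + (lam * V₁ / 4 - 1 / lam)} ≤
        ENNReal.ofReal (1 - Real.exp (-(4 * lam ^ 2 * V)) / 4)) := by
  have := hC.nu_prob k
  have hq0 := H.mom.hq0
  have hgm := g.one_le_gm
  have hbb : (1 : ℝ) ≤ g.bb := by exact_mod_cast H.bb1
  have htl := g.tl_nonneg k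
  have mom := fun i (hi : i ∈ s) => hM.mom _ _ _ _ _ _ _ _ H.mom (A i) (B i) z (hok.cut i hi).1
    (hok.cut i hi).2 hz g.zeta (1 + Real.log (k + 1)) g.gm (g.tl k) rfl rfl rfl rfl
  have hg := fun i => hM.gk_bd g.q g.q0 (A i) (B i) hq0
  have hsum0 : 0 ≤ ∑ i ∈ s, gk g.q g.q0 (A i) (B i) := sum_nonneg fun i _ => (hg i).1
  have hlog : 0 ≤ Real.log ((k : ℝ) + 1) := Real.log_nonneg (by linarith [Nat.cast_nonneg (α := ℝ) k])
  obtain ⟨c1, c2, -, c4⟩ := conc_finset hc (nu k) s (Si g p k M A B z) (g.bb * g.gm)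
    (by positivity) (fun i => hM.meas_S _ _ _ _ _ _ _ _) (Si_bd hM g hq0 p k M A B z)
  obtain ⟨-, -, c3, -⟩ := conc_finset hc (nu k) s (Ci g p k M A B z) g.bb
    (by positivity) (fun i => hM.meas_C _ _ _ _ _ _ _ _) (Ci_bd g p k M A B z)
  have hV : ∑ i ∈ s, ∫ β, Si g p k M A B z i β ^ 2 ∂nu k ≤ V := by
    refine le_trans (sum_le_sum fun i hi => (mom i hi).2.2.2.1) ?_
    rw [← mul_sum]
    exact (mul_le_mul_of_nonneg_left hup (by positivity)).trans H.hV
  refine ⟨?_, fun y hy => c1 V y H.V0 hy hV, fun y hy hy' => c2 V y H.V0 hy hy' hV, ?_, ?_⟩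
  · have hζ : 0 ≤ g.zeta := by
      have h1 := H.mom.hη1
      have : 0 ≤ g.η := le_trans (by positivity) h1
      unfold Glob.zeta
      positivity
    have hε : 0 ≤ g.eps := by unfold Glob.eps; positivity
    refine le_trans ?_ (sum_le_sum fun i hi => (mom i hi).1)
    rw [sum_sub_distrib, ← mul_sum, sum_const, nsmul_eq_mul]
    have e : 1 - 2 * (g.q0 : ℝ) / g.q - 4 * Real.exp (-(g.D ^ 2 / 4)) = 1 - g.eps := by
      unfold Glob.eps; ring
    rw [e]
    have h1 := H.hloss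
    have h2 := mul_le_mul_of_nonneg_right hok.card
      (show 0 ≤ ((k : ℝ) + 1) * g.gm * g.tl k by positivity)
    have h3 := mul_le_mul_of_nonneg_left hup (show 0 ≤ 2 * g.zeta + g.eps by positivity)
    have h4 := hok.ht
    have h5 : 0 ≤ g.zeta * g.eps * ∑ i ∈ s, gk g.q g.q0 (A i) (B i) := by positivity
    nlinarith
  · refine (c3 (22 * g.D ^ 2 * (Hm + g.gm)) g.W ?_).trans (ENNReal.ofReal_le_ofReal H.hπ)
    refine le_trans (sum_le_sum fun i hi => (mom i hi).2.2.1) ?_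
    rw [← mul_sum]
    exact mul_le_mul_of_nonneg_left hup (by positivity)
  · intro lam V₁ hl h0 h1 h2 h3 h4 h5
    refine c4 lam V₁ V h0 h1 (h5.trans ?_) hV
    have hi : ∀ i ∈ s, (Real.log (p / (2 * g.D ^ 2 + 1)) / 400 - 4 * g.gm) *
        gk g.q g.q0 (A i) (B i) - ((k + 1) * g.gm) ^ 2 * g.tl k ≤
        ∫ β, Si g p k M A B z i β ^ 2 ∂nu k - (∫ β, Si g p k M A B z i β ∂nu k) ^ 2 := by
      intro i hi
      have a1 := (mom i hi).2.2.2.2 h2
      have a2 := (mom i hi).2.1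
      have a3 : 0 ≤ ∫ β, Si g p k M A B z i β ∂nu k :=
        integral_nonneg fun β => (Si_bd hM g hq0 p k M A B z i β).1
      have a4 : (∫ β, Si g p k M A B z i β ∂nu k) ^ 2 ≤ (2 * gk g.q g.q0 (A i) (B i)) ^ 2 :=
        pow_le_pow_left₀ a3 a2 2
      have a5 := mul_le_mul_of_nonneg_left (hg i).2 (hg i).1
      unfold Si at a4 ⊢
      unfold Glob.gm at a1 ⊢
      nlinarith
    refine le_trans ?_ (sum_le_sum hi)
    rw [sum_sub_distrib, ← mul_sum, sum_const, nsmul_eq_mul]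
    have h6 := mul_le_mul_of_nonneg_right hok.card
      (show 0 ≤ (((k : ℝ) + 1) * g.gm) ^ 2 * g.tl k by positivity)
    have h7 := mul_le_mul_of_nonneg_left (h3.trans hok.ht) (sub_nonneg.2 h4)
    linarith

end Pool.Agent.MP_037c5a_pr

end

section

open MeasureTheory Finset ProbabilityTheory

namespace Pool.Agent.MP_037c5a_pr

theorem markov_count {Ω : Type} [MeasurableSpace Ω] (μ : Measure Ω) (J : ℕ) (hJ : 0 < J)
    (bad : Fin (2 * J) → Set Ω) [∀ β, DecidablePred fun j => β ∈ bad j] (hb : ∀ j, MeasurableSet (bad j)) (π : ENNReal)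
    (hπ : ∀ j, μ (bad j) ≤ π) :
    μ {β | J ≤ (univ.filter fun j => β ∈ bad j).card} ≤ 2 * π := by
  have h1 := mul_meas_ge_le_lintegral₀ (μ := μ)
    (f := fun β => ∑ j, (bad j).indicator (1 : Ω → ENNReal) β)
    (Finset.measurable_sum _ fun j _ => measurable_one.indicator (hb j)).aemeasurable (J : ENNReal)
  rw [lintegral_finsetSum _ fun j _ => measurable_one.indicator (hb j)] at h1
  have h2 : ∑ j, ∫⁻ β, (bad j).indicator (1 : Ω → ENNReal) β ∂μ ≤ (J : ENNReal) * (2 * π) := by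
    refine (sum_le_card_nsmul _ _ π fun j _ => ?_).trans (le_of_eq ?_)
    · rw [lintegral_indicator_one (hb j)]
      exact hπ j
    · simp only [card_univ, Fintype.card_fin, nsmul_eq_mul]
      push_cast
      ring
  have h3 : {β | J ≤ (univ.filter fun j => β ∈ bad j).card} =
      {β | (J : ENNReal) ≤ ∑ j, (bad j).indicator (1 : Ω → ENNReal) β} := by
    ext β
    simp only [Set.mem_ofPred_eq, Set.indicator_apply, Pi.one_apply, sum_boole, Nat.cast_le]
  rw [h3]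
  exact (ENNReal.mul_le_mul_iff_right (by exact_mod_cast hJ.ne') (by simp)).1 (h1.trans h2)

theorem spread (hC : StmtChain) (hM : StmtMom) (hc : StmtConc) {g : Glob}
    {Hm loss V πc : ℝ} {p k : ℕ} {M : ℝ} (H : StOK g Hm loss V πc p k M) (𝓜 : Model)
    {Φ : Set E → Prop} (hΦ : MeasPred Φ) (hΦ' : MonoPred Φ) {h h' y : ℝ} (h0 : 0 ≤ h)
    (hH : h ≤ Hm) (hy : 0 ≤ y) (hh : h' ≤ h - loss - y) {f : ENNReal} (hf : f ≤ 1)
    (hw : Win g 𝓜 Φ h' f) (J : ℕ) (hJ : 0 < J) (z : Fin (2 * J) → E)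
    (hz : ∀ j, ‖z j‖ + g.D / M ≤ g.η) (hsep : ∀ j j', j ≠ j' → 2 * g.D < M * ‖z j - z j'‖) :
    Win g (refine hC k M 𝓜) (fun T => ∃ j, Φ (zoom T (z j) M⁻¹)) h
      (2 * ENNReal.ofReal (Real.exp (-(y ^ 2 / (2 * V))) + πc) + f ^ J) := by
  classical
  have hM0 := H.mom.hM
  refine win_of_thin hM H.mom.hq0 (fun T T' hT ⟨j, hj⟩ => ⟨j, hΦ'.zoom _ _ T T' hT hj⟩) h0 ?_
  intro ι _ s A B hok hup
  have bf := fun j => beta_facts hC hM hc H hok (hup.trans (add_le_add_left hH _)) (hz j)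
  let bad : Fin (2 * J) → Set (ι → Fin k → E) := fun j =>
    {β | Sz g p k M s A B (z j) β ≤ mz g p k M s A B (z j) - y} ∪
      {β | g.W ≤ Cz g p k M s A B (z j) β}
  have hb : ∀ j, MeasurableSet (bad j) := fun j =>
    (measurableSet_le (meas_Sz hM _ _ _ _ _ _ _ _) measurable_const).union
      (measurableSet_le measurable_const (meas_Cz hM _ _ _ _ _ _ _ _))
  have hπ : ∀ j, (Measure.pi fun _ : ι => nu k) (bad j) ≤
      ENNReal.ofReal (Real.exp (-(y ^ 2 / (2 * V))) + πc) := fun j => by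
    refine (measure_union_le _ _).trans ?_
    rw [ENNReal.ofReal_add (Real.exp_pos _).le ((Real.exp_pos _).le.trans H.hπ)]
    exact add_le_add ((bf j).2.1 y hy) (bf j).2.2.2.1
  refine (refine_le hC k M 𝓜 (MeasPred.ex fun j => hΦ.zoom (z j) (inv_pos.2 hM0)) s A B
    {β | J ≤ (univ.filter fun j => β ∈ bad j).card} (f ^ J) fun β hβ => ?_).trans
    (add_le_add_left (markov_count _ J hJ bad hb _ hπ) _)
  let G := univ.filter fun j => β ∉ bad j
  have hG : J ≤ G.card := by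
    have h1 := card_filter_add_card_filter_not (s := (univ : Finset (Fin (2 * J))))
      fun j => β ∈ bad j
    simp only [Set.mem_ofPred_eq, not_le] at hβ
    simp only [card_univ, Fintype.card_fin] at h1
    simp only [G]
    omega
  refine le_trans (measure_mono ?_) ((pi_inter_le 𝓜 (fun j => chS g p k M s A B (z j) β)
    (fun j => chA k M A B (z j) β) (fun j => chB k M A B (z j) β) hΦ f G
    (fun j _ j' _ hj => chS_disjoint g H.mom.hk hM0 s A B (hsep j j' hj) β) fun j hj => ?_).trans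
      (pow_le_pow_right_of_le_one' hf hG))
  · intro ω hω
    simp only [Set.mem_iInter, Set.mem_ofPred_eq]
    intro j _ hj
    exact hω ⟨j, hΦ' _ _ (child_subset hC g p k hM0 𝓜 s A B (z j) β ω) hj⟩
  · have hj' : β ∉ bad j := (mem_filter.1 hj).2
    simp only [bad, Set.mem_union, Set.mem_ofPred_eq, not_or, not_le] at hj'
    refine hw _ _ _ _ (ok_child g H.mom.hk M s A B (z j) β ?_ hj'.2.le)
    linarith [(bf j).1, hj'.1]

end Pool.Agent.MP_037c5a_pr

end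

section

open MeasureTheory Finset ProbabilityTheory

namespace Pool.Agent.MP_037c5a_pr

/-- the model is realised inside a free Gaussian walk with `m` steps -/
def Coupled (𝓜 : Model) (m : ℕ) : Prop :=
  0 < m ∧ ∃ Ψ : (Fin m → E) → 𝓜.X,
    MeasurePreserving (fun w : Fin m → E => ((Real.sqrt m)⁻¹ • ∑ i, w i, Ψ w))
      (Measure.pi fun _ => gam) (gam.prod 𝓜.μ) ∧
    ∀ (ξ : ℕ → E) (a : 𝓜.I), ∃ j ≤ m,
      ξ 0 + Real.sqrt m • 𝓜.pt a ((Real.sqrt m)⁻¹ • (ξ m - ξ 0))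
        (Ψ fun i => ξ (i + 1) - ξ i) = ξ j

theorem coupled_base (hC : StmtChain) : Coupled baseModel 1 := by
  have := hC.gam_prob
  refine ⟨one_pos, fun _ => (), ?_, fun ξ a => ⟨0, by norm_num, by simp [baseModel]⟩⟩
  have h1 := measurePreserving_funUnique gam (Fin 1)
  have h2 : MeasurePreserving (fun x : E => (x, ())) gam (gam.prod (Measure.dirac ())) :=
    ⟨by fun_prop, (Measure.prod_dirac ()).symm⟩
  have e : (fun w : Fin 1 → E => ((Real.sqrt (1 : ℕ))⁻¹ • ∑ i, w i, ())) =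
      (fun x : E => (x, ())) ∘ MeasurableEquiv.funUnique (Fin 1) E := by
    funext w
    simp
  have h3 := h2.comp h1
  rw [← e] at h3
  exact h3

def blk {n m : ℕ} (w : Fin (n * m) → E) (l : Fin n) (i : Fin m) : E := w (finProdFinEquiv (l, i))

theorem mp_blk (hC : StmtChain) (n m : ℕ) :
    MeasurePreserving (blk (n := n) (m := m)) (Measure.pi fun _ => gam)
      (Measure.pi fun _ => Measure.pi fun _ => gam) := by
  have := hC.gam_prob
  have h1 := measurePreserving_arrowCongr' (fun _ : Fin (n * m) => gam)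
    (fun _ : Fin n × Fin m => gam) finProdFinEquiv.symm (MeasurableEquiv.refl E)
    (fun _ => MeasurePreserving.id gam)
  exact (mp_curry (Fin n) (Fin m) E gam).comp h1

theorem mp_blocks (hC : StmtChain) (n m : ℕ) {X : Type} [MeasurableSpace X] (μ : Measure X)
    [IsProbabilityMeasure μ] (Ψ : (Fin m → E) → X)
    (h : MeasurePreserving (fun w : Fin m → E => ((Real.sqrt m)⁻¹ • ∑ i, w i, Ψ w))
      (Measure.pi fun _ => gam) (gam.prod μ)) :
    MeasurePreserving (fun w : Fin (n * m) → E =>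
        (fun l : Fin n => (Real.sqrt m)⁻¹ • ∑ i, blk w l i, fun l : Fin n => Ψ (blk w l)))
      (Measure.pi fun _ => gam) ((Measure.pi fun _ => gam).prod (Measure.pi fun _ => μ)) := by
  have := hC.gam_prob
  have h2 := measurePreserving_pi (fun _ : Fin n => Measure.pi fun _ : Fin m => gam)
    (fun _ => gam.prod μ) (fun _ => h)
  have h3 := measurePreserving_arrowProdEquivProdArrow E X (Fin n) (fun _ => gam) (fun _ => μ)
  exact h3.comp (h2.comp (mp_blk hC n m))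

theorem blk_incr {n m : ℕ} (ξ : ℕ → E) (l : Fin n) :
    blk (fun i : Fin (n * m) => ξ (i + 1) - ξ i) l =
      fun i : Fin m => ξ (i + 1 + m * l) - ξ (i + m * l) := by
  funext i
  simp only [blk, finProdFinEquiv_apply_val]
  rw [Nat.add_right_comm]

theorem sum_incr (m : ℕ) (ξ : ℕ → E) : ∑ i : Fin m, (ξ (i + 1) - ξ i) = ξ m - ξ 0 := by
  rw [Fin.sum_univ_eq_sum_range (fun i => ξ (i + 1) - ξ i) m, sum_range_sub]

theorem sum_blk_incr {n m : ℕ} (ξ : ℕ → E) (l : Fin n) :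
    ∑ i, blk (fun i : Fin (n * m) => ξ (i + 1) - ξ i) l i = ξ (m * (l + 1)) - ξ (m * l) := by
  rw [blk_incr, sum_incr m fun j => ξ (j + m * l), zero_add, mul_add, mul_one, add_comm m]

theorem sum_filter_lt {n : ℕ} (U : ℕ → E) (l : ℕ) (hl : l ≤ n) :
    ∑ i ∈ univ.filter (fun i : Fin n => i.val < l), (U (i + 1) - U i) = U l - U 0 := by
  rw [sum_filter, Fin.sum_univ_eq_sum_range (fun i => if i < l then U (i + 1) - U i else 0) n,
    ← sum_filter, ← sum_range_sub]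
  refine sum_congr ?_ fun _ _ => rfl
  ext i
  simp only [mem_filter, mem_range]
  omega

theorem bp_split (k : ℕ) (U : ℕ → E) (l : ℕ) (hl : l ≤ k + 1) :
    bp k 0 (∑ i : Fin (k + 1), (U (i + 1) - U i))
      (fun l : Fin k => (∑ i ∈ univ.filter (fun i : Fin (k + 1) => i.val ≤ l.val),
        (U (i + 1) - U i)) - (((l : ℝ) + 1) / (k + 1)) • ∑ i : Fin (k + 1), (U (i + 1) - U i)) l =
      U l - U 0 := by
  rw [sum_incr]
  unfold bp pth
  split_ifs with h0 h1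
  · simp [h0]
  · have e : (univ.filter fun i : Fin (k + 1) => i.val ≤ l - 1) =
        univ.filter fun i : Fin (k + 1) => i.val < l := by
      ext i
      simp only [mem_filter, mem_univ, true_and]
      omega
    have e2 : ((l - 1 : ℕ) : ℝ) + 1 = l := by
      rw [Nat.cast_sub (by omega)]; simp
    simp only [e, e2]
    rw [sum_filter_lt U l hl]
    simp
  · have : l = k + 1 := by omega
    subst this
    have : ((k + 1 : ℕ) : ℝ) / (k + 1) = 1 := by
      push_cast; exact div_self (by positivity)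
    rw [this]
    simp

theorem coupled_refine (hC : StmtChain) (hS : StmtSplit) (k : ℕ) {M : ℝ} (hM : 0 < M)
    (hM2 : M ^ 2 = k + 1) {𝓜 : Model} {m : ℕ} (h : Coupled 𝓜 m) :
    Coupled (refine hC k M 𝓜) ((k + 1) * m) := by
  have := hC.gam_prob
  have := hC.nu_prob k
  obtain ⟨hm, Ψ, hΨ, hpt⟩ := h
  have hm' : (0 : ℝ) < Real.sqrt m := Real.sqrt_pos.2 (by exact_mod_cast hm)
  have hsq : Real.sqrt (((k + 1) * m : ℕ) : ℝ) = M * Real.sqrt m := by
    push_cast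
    rw [← hM2, Real.sqrt_mul (by positivity), Real.sqrt_sq hM.le]
  let spl : (Fin (k + 1) → E) → Fin k → E := fun c l =>
    (∑ i ∈ univ.filter (fun i : Fin (k + 1) => i.val ≤ l.val), c i) -
      (((l : ℝ) + 1) / (k + 1)) • ∑ i, c i
  refine ⟨by positivity, fun w => (spl fun l => (Real.sqrt m)⁻¹ • ∑ i, blk w l i,
    fun l => Ψ (blk w l)), ?_, fun ξ a => ?_⟩
  · have h1 := mp_blocks hC (k + 1) m 𝓜.μ Ψ hΨ
    have h2 := (hS k M hM hM2).prod (MeasurePreserving.id (Measure.pi fun _ : Fin (k + 1) => 𝓜.μ))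
    have h3 := measurePreserving_prodAssoc gam (nu k) (Measure.pi fun _ : Fin (k + 1) => 𝓜.μ)
    have h4 := h3.comp (h2.comp h1)
    refine (congrArg (fun f => MeasurePreserving f _ _) ?_).mpr h4
    funext w
    simp only [Function.comp, Prod.map, id, MeasurableEquiv.prodAssoc, MeasurableEquiv.coe_mk,
      Equiv.prodAssoc_apply, spl]
    rw [hsq, ← smul_sum, smul_smul, mul_inv, ← Fintype.sum_prod_type',
      ← finProdFinEquiv.sum_comp]
    rfl
  · obtain ⟨l, a⟩ := a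
    let U : ℕ → E := fun l => (Real.sqrt m)⁻¹ • ξ (m * l)
    have hc : (fun l : Fin (k + 1) => (Real.sqrt m)⁻¹ •
        ∑ i, blk (fun i : Fin ((k + 1) * m) => ξ (i + 1) - ξ i) l i) =
        fun l : Fin (k + 1) => U (l + 1) - U l := by
      funext l
      rw [sum_blk_incr, smul_sub]
    have hQ : M • (Real.sqrt (((k + 1) * m : ℕ) : ℝ))⁻¹ • (ξ ((k + 1) * m) - ξ 0) =
        ∑ i : Fin (k + 1), (U (i + 1) - U i) := by
      rw [sum_incr, hsq, smul_smul, mul_inv, ← mul_assoc, mul_inv_cancel₀ hM.ne', one_mul,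
        smul_sub]
      simp only [U, zero_mul, mul_comm m]
    obtain ⟨j, hj, hj'⟩ := hpt (fun j => ξ (j + m * l)) a
    refine ⟨j + m * l, ?_, ?_⟩
    · have := l.2
      nlinarith
    · simp only [refine]
      rw [hQ, hc, bp_split k U l l.2.le, bp_split k U (l + 1) l.2, blk_incr, ← hj', hsq,
        smul_smul, mul_right_comm, mul_inv_cancel₀ hM.ne', one_mul, sub_sub_sub_cancel_right,
        smul_add]
      simp only [U, ← smul_sub, smul_smul, mul_inv_cancel₀ hm'.ne', one_smul, mul_zero, zero_add,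
        mul_add, mul_one, add_comm m]
      abel

theorem gam_ball_pos {ε : ℝ} (hε : 0 < ε) : gam (Metric.closedBall 0 ε) ≠ 0 := by
  intro h
  have hac : (volume : Measure E) ≪ gam := by
    refine withDensity_absolutelyContinuous' ?_ (Filter.Eventually.of_forall fun x => ?_)
    · unfold ph
      fun_prop
    · rw [Ne, ENNReal.ofReal_eq_zero, not_le]
      unfold ph
      positivity
  exact (Metric.measure_closedBall_pos volume (0 : E) hε).ne' (hac h)

theorem top_level (hC : StmtChain) (hM : StmtMom) (g : Glob) (hq0 : 1 ≤ g.q0)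
    (hq : 4 * g.q0 ≤ g.q) (hD : 1 ≤ g.D) (n₀ : ℕ) (hn : 0 < n₀) (h : ℝ) (hh : h ≤ n₀ / 20)
    (hW : (n₀ : ℝ) ≤ g.W) :
    ∃ p : ℝ, 0 < p ∧ ∀ (𝓜 : Model) (m : ℕ), Coupled 𝓜 m → ∀ Φ : Set E → Prop, MeasPred Φ →
      MonoPred Φ → Win g 𝓜 Φ h (1 / 2) →
      ∃ F : Set (Fin (n₀ * m) → E), MeasurableSet F ∧
        ENNReal.ofReal p ≤ (Measure.pi fun _ : Fin (n₀ * m) => gam) F ∧
        ∀ ξ : ℕ → E, (fun i : Fin (n₀ * m) => ξ (i + 1) - ξ i) ∈ F →
          Φ (zoom (ξ '' Set.Iic (n₀ * m)) (ξ 0) (Real.sqrt m)) := by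
  have := hC.gam_prob
  have hq0' : (1 : ℝ) ≤ g.q0 := by exact_mod_cast hq0
  have hq' : (4 : ℝ) * g.q0 ≤ g.q := by exact_mod_cast hq
  have hn' : (0 : ℝ) < n₀ := by exact_mod_cast hn
  set r : ℝ := Real.sqrt ((g.q0 : ℝ) / g.q) with hr
  have hr0 : 0 < r := Real.sqrt_pos.2 (div_pos (by linarith) (by linarith))
  have hr2 : r ^ 2 = (g.q0 : ℝ) / g.q := Real.sq_sqrt (by positivity)
  have hr1 : r ≤ 1 := Real.sqrt_le_one.2 (by rw [div_le_one (by linarith)]; linarith)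
  let Gd : Set (Fin n₀ → E) := Set.univ.pi fun _ => Metric.closedBall 0 (r / n₀)
  have hGd : MeasurableSet Gd := MeasurableSet.univ_pi fun _ => Metric.isClosed_closedBall.measurableSet
  have hGp : (Measure.pi fun _ : Fin n₀ => gam) Gd ≠ 0 := by
    rw [Measure.pi_pi]
    exact prod_ne_zero_iff.2 fun _ _ => gam_ball_pos (by positivity)
  let A : ℕ → (Fin n₀ → E) → E := fun l c => ∑ i ∈ univ.filter (fun i : Fin n₀ => i.val < l), c i
  have hAm : ∀ l, Measurable (A l) := fun l => Finset.measurable_sum _ fun i _ => measurable_pi_apply i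
  have hA : ∀ c ∈ Gd, ∀ l, ‖A l c‖ ≤ r := by
    intro c hc l
    refine (norm_sum_le _ _).trans ?_
    refine (sum_le_sum_of_subset_of_nonneg (filter_subset _ _) fun _ _ _ => norm_nonneg _).trans ?_
    refine (sum_le_card_nsmul _ _ (r / n₀) fun i _ => ?_).trans ?_
    · simpa using hc i (Set.mem_univ _)
    · simp only [card_univ, Fintype.card_fin, nsmul_eq_mul]
      rw [mul_div_cancel₀ _ hn'.ne']
  refine ⟨(2⁻¹ * (Measure.pi fun _ : Fin n₀ => gam) Gd).toReal,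
    ENNReal.toReal_pos (mul_ne_zero (by simp) hGp)
      (ENNReal.mul_ne_top (by simp) (measure_ne_top _ _)), ?_⟩
  rintro 𝓜 m ⟨hm, Ψ, hΨ, hpt⟩ Φ hΦ hΦ' hw
  have hm' : (0 : ℝ) < Real.sqrt m := Real.sqrt_pos.2 (by exact_mod_cast hm)
  have h1 := mp_blocks hC n₀ m 𝓜.μ Ψ hΨ
  let F : Set ((Fin n₀ → E) × (Fin n₀ → 𝓜.X)) := {x | x.1 ∈ Gd ∧
    Φ (famT 𝓜 univ (fun l : Fin n₀ => A l x.1) (fun l : Fin n₀ => A (l + 1) x.1) x.2)}
  have hF : MeasurableSet F := by
    refine (measurable_fst hGd).inter (hΦ _ _ _ ?_)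
    exact meas_hit_famT 𝓜 univ _ _ _ (fun i _ => (hAm _).comp measurable_fst)
      (fun i _ => (hAm _).comp measurable_fst) (fun i _ => by fun_prop)
  refine ⟨_, h1.measurable hF, ?_, fun ξ hξ => ?_⟩
  · rw [h1.measure_preimage hF.nullMeasurableSet, Measure.prod_apply hF,
      ENNReal.ofReal_toReal (ENNReal.mul_ne_top (by simp) (measure_ne_top _ _)),
      ← lintegral_indicator_const hGd]
    refine lintegral_mono fun c => ?_
    by_cases hc : c ∈ Gd
    · rw [Set.indicator_of_mem hc]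
      have hok : OK g univ (fun l : Fin n₀ => A l c) (fun l : Fin n₀ => A (l + 1) c) h := by
        refine ⟨fun i _ => ⟨(hA c hc _).trans (hr1.trans hD), (hA c hc _).trans (hr1.trans hD)⟩,
          by simpa using hW, hh.trans ?_⟩
        refine le_trans ?_ (card_nsmul_le_sum _ _ (1 / 20) fun i _ =>
          hM.gk_lb _ _ _ _ hq0 hq ?_ ?_)
        · simp [div_eq_mul_inv]
        · rw [← hr2]; exact pow_le_pow_left₀ (norm_nonneg _) (hA c hc _) 2
        · rw [← hr2]; exact pow_le_pow_left₀ (norm_nonneg _) (hA c hc _) 2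
      have h2 := hw _ _ _ _ hok
      have h3 : Prod.mk c ⁻¹' F = {ω : Fin n₀ → 𝓜.X | ¬ Φ (famT 𝓜 univ (fun l : Fin n₀ => A l c)
          (fun l : Fin n₀ => A (l + 1) c) ω)}ᶜ := by
        ext ω
        simp [F, hc]
      rw [h3, prob_compl_eq_one_sub (hΦ.fam 𝓜 _ _ _)]
      refine le_trans (le_of_eq ?_) (tsub_le_tsub_left h2 1)
      rw [one_div, ENNReal.one_sub_inv_two]
    · rw [Set.indicator_of_notMem hc]
      exact zero_le
  · refine hΦ' _ _ ?_ hξ.2
    rintro _ ⟨l, -, a, rfl⟩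
    let U : ℕ → E := fun l => (Real.sqrt m)⁻¹ • ξ (m * l)
    have hc : (fun l : Fin n₀ => (Real.sqrt m)⁻¹ •
        ∑ i, blk (fun i : Fin (n₀ * m) => ξ (i + 1) - ξ i) l i) =
        fun l : Fin n₀ => U (l + 1) - U l := by
      funext l
      rw [sum_blk_incr, smul_sub]
    obtain ⟨j, hj, hj'⟩ := hpt (fun j => ξ (j + m * l)) a
    refine ⟨j + m * l, ?_, ?_⟩
    · have := l.2
      show j + m * l ≤ n₀ * m
      nlinarith
    · simp only [A]
      rw [hc, sum_filter_lt U l l.2.le, sum_filter_lt U (l + 1) l.2, blk_incr, ← hj',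
        sub_sub_sub_cancel_right, smul_add]
      simp only [U, ← smul_sub, smul_smul, mul_inv_cancel₀ hm'.ne', one_smul, mul_zero, zero_add,
        mul_add, mul_one, add_comm m]
      abel

end Pool.Agent.MP_037c5a_pr

end
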